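import Pool.Agent.Lib.MP_7f333f_an.D.Final

set_option autoImplicit false

/-!
Displayability is invariant under the linear homeomorphisms of the space; the countable closed
groups of permutations are discrete.
-/

namespace Pool.Agent.Comb7f333f.TPart

open Filter Topology Equiv

/-- The isometry groups of a seminorm and of its image under a linear isomorphism. -/
def isomTransfer {X Y : Type*} [AddCommGroup X] [Module ℝ X] [AddCommGroup Y] [Module ℝ Y]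
    (N : Seminorm ℝ Y) (T : X ≃ₗ[ℝ] Y) :
    isomGroup N ≃* isomGroup (N.comp (T : X →ₗ[ℝ] Y)) where
  toFun g := ⟨(T.trans (g : Y ≃ₗ[ℝ] Y)).trans T.symm, fun x => by
    show N (T (T.symm ((g : Y ≃ₗ[ℝ] Y) (T x)))) = N (T x)
    rw [LinearEquiv.apply_symm_apply]
    exact g.2 _⟩
  invFun g := ⟨(T.symm.trans (g : X ≃ₗ[ℝ] X)).trans T, fun y => by
    show N (T ((g : X ≃ₗ[ℝ] X) (T.symm y))) = N y
    have h : N (T ((g : X ≃ₗ[ℝ] X) (T.symm y))) = N (T (T.symm y)) := g.2 _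
    rw [h, LinearEquiv.apply_symm_apply]⟩
  left_inv g := by
    refine Subtype.ext (LinearEquiv.ext fun y => ?_)
    show T (T.symm ((g : Y ≃ₗ[ℝ] Y) (T (T.symm y)))) = (g : Y ≃ₗ[ℝ] Y) y
    rw [LinearEquiv.apply_symm_apply, LinearEquiv.apply_symm_apply]
  right_inv g := by
    refine Subtype.ext (LinearEquiv.ext fun x => ?_)
    show T.symm (T ((g : X ≃ₗ[ℝ] X) (T.symm (T x)))) = (g : X ≃ₗ[ℝ] X) x
    rw [LinearEquiv.symm_apply_apply, LinearEquiv.symm_apply_apply]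
  map_mul' g h := by
    refine Subtype.ext (LinearEquiv.ext fun x => ?_)
    show T.symm ((g : Y ≃ₗ[ℝ] Y) ((h : Y ≃ₗ[ℝ] Y) (T x))) =
      T.symm ((g : Y ≃ₗ[ℝ] Y) (T (T.symm ((h : Y ≃ₗ[ℝ] Y) (T x)))))
    rw [LinearEquiv.apply_symm_apply]

theorem isomTransfer_apply {X Y : Type*} [AddCommGroup X] [Module ℝ X] [AddCommGroup Y]
    [Module ℝ Y] (N : Seminorm ℝ Y) (T : X ≃ₗ[ℝ] Y) (g : isomGroup N) (x : X) :
    T ((isomTransfer N T g : X ≃ₗ[ℝ] X) x) = (g : Y ≃ₗ[ℝ] Y) (T x) := by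
  show T (T.symm ((g : Y ≃ₗ[ℝ] Y) (T x))) = _
  rw [LinearEquiv.apply_symm_apply]

section

variable {X Y : Type*} [NormedAddCommGroup X] [NormedSpace ℝ X] [NormedAddCommGroup Y]
  [NormedSpace ℝ Y]

/-- The seminorm is an equivalent norm. -/
def EqNorm (N : Seminorm ℝ X) : Prop := ∃ c C : ℝ, 0 < c ∧ ∀ x, c * ‖x‖ ≤ N x ∧ N x ≤ C * ‖x‖

theorem eqNorm_comp {N : Seminorm ℝ Y} (hN : EqNorm N) (T : X ≃L[ℝ] Y) :
    EqNorm (N.comp (T.toLinearEquiv : X →ₗ[ℝ] Y)) := by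
  obtain ⟨c, C, hc, h⟩ := hN
  set a : ℝ := ‖(T.symm : Y →L[ℝ] X)‖ + 1 with ha
  set b : ℝ := ‖(T : X →L[ℝ] Y)‖ + 1 with hb
  have ha0 : 0 < a := by positivity
  have hb0 : 0 < b := by positivity
  refine ⟨c / a, |C| * b, div_pos hc ha0, fun x => ?_⟩
  have h1 : ‖x‖ ≤ a * ‖T x‖ := by
    have h2 := (T.symm : Y →L[ℝ] X).le_opNorm (T x)
    have h3 : (T.symm : Y →L[ℝ] X) (T x) = x := T.symm_apply_apply x
    rw [h3] at h2
    have := norm_nonneg (T x)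
    rw [ha]
    nlinarith
  have h2 : ‖T x‖ ≤ b * ‖x‖ := by
    have h3 := (T : X →L[ℝ] Y).le_opNorm x
    have h4 : (T : X →L[ℝ] Y) x = T x := rfl
    rw [h4] at h3
    have := norm_nonneg x
    rw [hb]
    nlinarith
  have h3 : (N.comp (T.toLinearEquiv : X →ₗ[ℝ] Y)) x = N (T x) := rfl
  rw [h3]
  constructor
  · refine le_trans ?_ (h (T x)).1
    rw [div_mul_eq_mul_div, div_le_iff₀ ha0]
    nlinarith
  · refine (h (T x)).2.trans ?_
    have h4 := le_abs_self C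
    have h5 := abs_nonneg C
    have h6 := norm_nonneg (T x)
    calc C * ‖T x‖ ≤ |C| * ‖T x‖ := mul_le_mul_of_nonneg_right h4 h6
      _ ≤ |C| * (b * ‖x‖) := mul_le_mul_of_nonneg_left h2 h5
      _ = |C| * b * ‖x‖ := by ring

/-- The group is topologically displayable on the space. -/
def TopDisp (G : Subgroup (Perm ℕ)) (X : Type*) [NormedAddCommGroup X] [NormedSpace ℝ X] :
    Prop :=
  ∃ N : Seminorm ℝ X, EqNorm N ∧
    ∃ Φ : G ≃* isomGroup N,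
      (∀ x, ∀ ε > 0, ∃ F : Finset ℕ, ∀ g : G, (∀ n ∈ F, (g : Perm ℕ) n = n) →
        N ((Φ g : X ≃ₗ[ℝ] X) x - x) < ε) ∧
      (∀ n, ∃ x, ∃ ε > 0, ∀ g : G, N ((Φ g : X ≃ₗ[ℝ] X) x - x) < ε → (g : Perm ℕ) n = n)

theorem topDisp_transfer {G : Subgroup (Perm ℕ)} (T : X ≃L[ℝ] Y) (h : TopDisp G Y) :
    TopDisp G X := by
  obtain ⟨N, hN, Φ, h1, h2⟩ := h
  refine ⟨_, eqNorm_comp hN T, Φ.trans (isomTransfer N T.toLinearEquiv), ?_, ?_⟩
  · intro x ε hε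
    obtain ⟨F, hF⟩ := h1 (T x) ε hε
    refine ⟨F, fun g hg => ?_⟩
    have h3 := hF g hg
    have h4 : T.toLinearEquiv (((isomTransfer N T.toLinearEquiv (Φ g)) : X ≃ₗ[ℝ] X) x - x) =
        (Φ g : Y ≃ₗ[ℝ] Y) (T x) - T x := by
      rw [map_sub, isomTransfer_apply]
      rfl
    show N (T.toLinearEquiv (((isomTransfer N T.toLinearEquiv (Φ g)) : X ≃ₗ[ℝ] X) x - x)) < ε
    rw [h4]
    exact h3
  · intro n
    obtain ⟨y, ε, hε, hy⟩ := h2 n
    refine ⟨T.symm y, ε, hε, fun g hg => hy g ?_⟩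
    have h4 : T.toLinearEquiv (((isomTransfer N T.toLinearEquiv (Φ g)) : X ≃ₗ[ℝ] X) (T.symm y) -
        T.symm y) = (Φ g : Y ≃ₗ[ℝ] Y) y - y := by
      rw [map_sub, isomTransfer_apply]
      have h5 : T.toLinearEquiv (T.symm y) = y := T.apply_symm_apply y
      rw [h5]
    rw [← h4]
    exact hg

end

/-- A closed countable group of permutations: some finite set has a trivial pointwise
stabiliser. -/
theorem exists_finset_of_countable {G : Subgroup (Perm ℕ)} (hG : IsClosedPerm G) [Countable G] :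
    ∃ F : Finset ℕ, ∀ g : G, (∀ n ∈ F, (g : Perm ℕ) n = n) → g = 1 := by
  classical
  let ι : G → (ℕ → ℕ) × (ℕ → ℕ) := fun g => (⇑(g : Perm ℕ), ⇑((g : Perm ℕ)⁻¹))
  let cyl : (ℕ → ℕ) × (ℕ → ℕ) → Finset ℕ → Set ((ℕ → ℕ) × (ℕ → ℕ)) := fun p F =>
    {q | ∀ n ∈ F, q.1 n = p.1 n ∧ q.2 n = p.2 n}
  have hcyl : ∀ p F, cyl p F ∈ 𝓝 p := by
    intro p F
    have h1 : ∀ n ∈ F, {q : (ℕ → ℕ) × (ℕ → ℕ) | q.1 n = p.1 n ∧ q.2 n = p.2 n} ∈ 𝓝 p := by
      intro n _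
      have h2 : Continuous fun q : (ℕ → ℕ) × (ℕ → ℕ) => (q.1 n, q.2 n) :=
        ((continuous_apply n).comp continuous_fst).prodMk
          ((continuous_apply n).comp continuous_snd)
      have h3 : IsOpen {q : (ℕ → ℕ) × (ℕ → ℕ) | q.1 n = p.1 n ∧ q.2 n = p.2 n} := by
        have h4 : {q : (ℕ → ℕ) × (ℕ → ℕ) | q.1 n = p.1 n ∧ q.2 n = p.2 n} =
            (fun q : (ℕ → ℕ) × (ℕ → ℕ) => (q.1 n, q.2 n)) ⁻¹' {(p.1 n, p.2 n)} := by
          ext q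
          simp [Prod.ext_iff]
        rw [h4]
        exact (isOpen_discrete _).preimage h2
      exact h3.mem_nhds ⟨rfl, rfl⟩
    have h5 := (biInter_finset_mem F).mpr h1
    refine mem_of_superset h5 fun q hq n hn => ?_
    exact Set.mem_iInter₂.mp hq n hn
  have hbas : ∀ p, ∀ U ∈ 𝓝 p, ∃ F, cyl p F ⊆ U := by
    intro p U hU
    rw [nhds_prod_eq, mem_prod_iff] at hU
    obtain ⟨U1, hU1, U2, hU2, hU⟩ := hU
    have key : ∀ (a : ℕ → ℕ), ∀ V ∈ 𝓝 a, ∃ F : Finset ℕ, ∀ b : ℕ → ℕ,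
        (∀ n ∈ F, b n = a n) → b ∈ V := by
      intro a V hV
      rw [nhds_pi, mem_pi] at hV
      obtain ⟨I, hI, t, ht, hV⟩ := hV
      refine ⟨hI.toFinset, fun b hb => hV fun n hn => ?_⟩
      rw [hb n (hI.mem_toFinset.mpr hn)]
      exact mem_of_mem_nhds (ht n)
    obtain ⟨F1, hF1⟩ := key p.1 U1 hU1
    obtain ⟨F2, hF2⟩ := key p.2 U2 hU2
    refine ⟨F1 ∪ F2, fun q hq => hU ⟨hF1 _ fun n hn => ?_, hF2 _ fun n hn => ?_⟩⟩
    · exact (hq n (Finset.mem_union_left _ hn)).1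
    · exact (hq n (Finset.mem_union_right _ hn)).2
  have hcl : IsClosed (Set.range ι) := by
    refine isClosed_of_closure_subset fun p hp => ?_
    have hp' : ∀ F : Finset ℕ, ∃ g : G, ∀ n ∈ F, (g : Perm ℕ) n = p.1 n ∧
        ((g : Perm ℕ)⁻¹) n = p.2 n := by
      intro F
      obtain ⟨q, hq, g, rfl⟩ := mem_closure_iff_nhds.mp hp _ (hcyl p F)
      exact ⟨g, hq⟩
    have h1 : ∀ n, p.2 (p.1 n) = n := by
      intro n
      obtain ⟨g, hg⟩ := hp' {n, p.1 n}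
      have h2 := (hg n (by simp)).1
      have h3 := (hg (p.1 n) (by simp)).2
      rw [← h3, ← h2]
      exact (g : Perm ℕ).symm_apply_apply n
    have h2 : ∀ n, p.1 (p.2 n) = n := by
      intro n
      obtain ⟨g, hg⟩ := hp' {n, p.2 n}
      have h2 := (hg n (by simp)).2
      have h3 := (hg (p.2 n) (by simp)).1
      rw [← h3, ← h2]
      exact (g : Perm ℕ).apply_symm_apply n
    let π : Perm ℕ := ⟨p.1, p.2, h1, h2⟩
    have hπ : π ∈ G := by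
      refine hG π fun F => ?_
      obtain ⟨g, hg⟩ := hp' F
      exact ⟨g, g.2, fun n hn => (hg n hn).1⟩
    exact ⟨⟨π, hπ⟩, rfl⟩
  have hpol : PolishSpace (Set.range ι) := hcl.polishSpace
  have hne : Nonempty (Set.range ι) := ⟨⟨_, 1, rfl⟩⟩
  have hcount : Countable (Set.range ι) := Set.countable_range ι
  obtain ⟨x, hx⟩ := nonempty_interior_of_iUnion_of_closed
    (f := fun x : Set.range ι => ({x} : Set (Set.range ι))) (fun x => isClosed_singleton) (by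
      refine Set.eq_univ_of_forall fun y => Set.mem_iUnion.mpr ⟨y, ?_⟩
      exact Set.mem_singleton y)
  obtain ⟨y, hy⟩ := hx
  have hyx : y ∈ ({x} : Set (Set.range ι)) := interior_subset hy
  rw [Set.mem_singleton_iff] at hyx
  subst hyx
  have h1 : ({y} : Set (Set.range ι)) ∈ 𝓝 y := mem_interior_iff_mem_nhds.mp hy
  obtain ⟨U, hU, hUs⟩ := mem_nhds_subtype _ _ _ |>.mp h1
  obtain ⟨F, hF⟩ := hbas _ U hU
  obtain ⟨_, g0, rfl⟩ := y
  refine ⟨F ∪ F.image (fun n => (g0 : Perm ℕ)⁻¹ n), fun h hh => ?_⟩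
  have h2 : ι (g0 * h) ∈ U := by
    refine hF fun n hn => ⟨?_, ?_⟩
    · show (g0 : Perm ℕ) ((h : Perm ℕ) n) = (g0 : Perm ℕ) n
      rw [hh n (Finset.mem_union_left _ hn)]
    · show ((g0 * h : G) : Perm ℕ)⁻¹ n = (g0 : Perm ℕ)⁻¹ n
      have h3 := hh _ (Finset.mem_union_right F
        (Finset.mem_image_of_mem (fun n => (g0 : Perm ℕ)⁻¹ n) hn))
      rw [Subgroup.coe_mul, mul_inv_rev, Perm.mul_apply, Perm.inv_eq_iff_eq]
      exact h3.symm
  have h3 : (⟨ι (g0 * h), _, rfl⟩ : Set.range ι) ∈ ({⟨ι g0, g0, rfl⟩} : Set (Set.range ι)) :=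
    hUs h2
  have h4 : ι (g0 * h) = ι g0 := congrArg Subtype.val (Set.mem_singleton_iff.mp h3)
  have h5 : (g0 * h : G) = g0 := by
    refine Subtype.ext (Equiv.ext fun n => ?_)
    exact congrFun (congrArg Prod.fst h4) n
  simpa using h5

/-- Groups abstractly isomorphic to the isometry group of an equivalent norm of a space isomorphic
to a combinatorial space. -/
theorem rep_of_disp {𝓕 : Set (Finset ℕ)} {X Y : Type*} [NormedAddCommGroup X] [NormedSpace ℝ X]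
    [NormedAddCommGroup Y] [NormedSpace ℝ Y] [CompleteSpace Y] {e : ℕ → Y} (h𝓕 : IsRegular 𝓕)
    (hY : IsCombSpace 𝓕 e) (hW : DPart.NoNullIsom e) (T : X ≃L[ℝ] Y) (H : Type*) [Group H]
    (N : Seminorm ℝ X) (hN : EqNorm N) (hΦ : Nonempty (H ≃* isomGroup N)) :
    ∃ z : H, (∀ g : H, g * z = z * g) ∧ z * z = 1 ∧
      ∃ (m : ℕ) (_ : 0 < m) (σ : H →* Matrix.orthogonalGroup (Fin m) ℝ),
        (σ z : Matrix (Fin m) (Fin m) ℝ) = -1 := by
  obtain ⟨Φ⟩ := hΦ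
  obtain ⟨c, C, hc, hN'⟩ := eqNorm_comp hN T.symm
  obtain ⟨z, hz, hzz, m, hm, σ, _, hσ⟩ := DPart.exists_rep_of_displayable h𝓕 hY hW hc hN'
    (Φ.trans (isomTransfer N T.symm.toLinearEquiv)) {⊥} ⟨⊥, rfl⟩ (by
      rintro _ rfl _ rfl
      exact ⟨⊥, rfl, le_rfl, le_rfl⟩) (fun x ε hε => ⟨⊥, rfl, by
      intro g hg
      rw [Subgroup.mem_bot.mp hg, map_one]
      show (N.comp (T.symm.toLinearEquiv : Y →ₗ[ℝ] X)) (x - x) ≤ ε
      rw [sub_self, map_zero]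
      exact hε.le⟩)
  exact ⟨z, hz, hzz, m, hm, σ, hσ⟩

/-- Closed groups of permutations isomorphic to the isometry group of an equivalent norm by a map
which is continuous at the identity. -/
theorem open_rep_of_disp {𝓕 : Set (Finset ℕ)} {X Y : Type*} [NormedAddCommGroup X]
    [NormedSpace ℝ X] [NormedAddCommGroup Y] [NormedSpace ℝ Y] [CompleteSpace Y] {e : ℕ → Y}
    (h𝓕 : IsRegular 𝓕) (hY : IsCombSpace 𝓕 e) (hW : DPart.NoNullIsom e) (T : X ≃L[ℝ] Y)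
    (G : Subgroup (Perm ℕ)) (N : Seminorm ℝ X) (hN : EqNorm N) (Φ : G ≃* isomGroup N)
    (hΦ : ∀ x, ∀ ε > 0, ∃ F : Finset ℕ, ∀ g : G, (∀ n ∈ F, (g : Perm ℕ) n = n) →
      N ((Φ g : X ≃ₗ[ℝ] X) x - x) < ε) :
    ∃ z : G, (∀ g : G, g * z = z * g) ∧ z * z = 1 ∧
      ∃ (m : ℕ) (_ : 0 < m) (σ : G →* Matrix.orthogonalGroup (Fin m) ℝ),
        (∃ F : Finset ℕ, ∀ g : G, (∀ n ∈ F, (g : Perm ℕ) n = n) → σ g = 1) ∧
          (σ z : Matrix (Fin m) (Fin m) ℝ) = -1 := by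
  classical
  obtain ⟨c, C, hc, hN'⟩ := eqNorm_comp hN T.symm
  obtain ⟨z, hz, hzz, m, hm, σ, ⟨V, ⟨F, hF⟩, hV⟩, hσz⟩ :=
    DPart.exists_rep_of_displayable h𝓕 hY hW hc hN'
      (Φ.trans (isomTransfer N T.symm.toLinearEquiv)) (Set.range (DPart.finStab G))
      ⟨_, ∅, rfl⟩ (by
        rintro _ ⟨F, rfl⟩ _ ⟨F', rfl⟩
        exact ⟨_, ⟨F ∪ F', rfl⟩, fun g hg n hn => hg n (Finset.mem_union_left _ hn),
          fun g hg n hn => hg n (Finset.mem_union_right _ hn)⟩) (by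
        intro y ε hε
        obtain ⟨F, hF⟩ := hΦ (T.symm y) ε hε
        refine ⟨_, ⟨F, rfl⟩, fun g hg => ?_⟩
        have h4 : T.symm.toLinearEquiv
            (((isomTransfer N T.symm.toLinearEquiv (Φ g)) : Y ≃ₗ[ℝ] Y) y - y) =
            (Φ g : X ≃ₗ[ℝ] X) (T.symm y) - T.symm y := by
          rw [map_sub, isomTransfer_apply]
          rfl
        show N (T.symm.toLinearEquiv
          (((isomTransfer N T.symm.toLinearEquiv (Φ g)) : Y ≃ₗ[ℝ] Y) y - y)) ≤ ε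
        rw [h4]
        exact (hF g hg).le)
  refine ⟨z, hz, hzz, m, hm, σ, ⟨F, fun g hg => hV g ?_⟩, hσz⟩
  rw [← hF]
  exact hg

end Pool.Agent.Comb7f333f.TPart
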