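import Pool.Agent.Lib.MP_7f333f_an.Tame.Defs
import Pool.Agent.Lib.MP_7f333f_an.Siz.A1

set_option autoImplicit false
set_option linter.unusedSectionVars false

/-!
Vectors and coordinates in the space of the family.
-/

namespace Pool.Agent.Comb7f333f.TPart

open Filter Topology

variable {𝓕 : Set (Finset ℕ)}

section Space

variable {X : Type*} [NormedAddCommGroup X] [NormedSpace ℝ X] {e : ℕ → X}

theorem co_add (x y : X) (k : ℕ) : co e (x + y) k = co e x k + co e y k := map_add _ _ _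

theorem co_sub (x y : X) (k : ℕ) : co e (x - y) k = co e x k - co e y k := map_sub _ _ _

theorem co_smul (c : ℝ) (x : X) (k : ℕ) : co e (c • x) k = c * co e x k := by
  simp [co]

theorem co_sum {ι : Type*} (I : Finset ι) (y : ι → X) (k : ℕ) :
    co e (∑ i ∈ I, y i) k = ∑ i ∈ I, co e (y i) k := by
  simp [co, map_sum]

theorem map_vec (T : X →L[ℝ] X) (S : Finset ℕ) (a : ℕ → ℝ) (m : ℕ) :
    co e (T (vec e S a)) m = ∑ k ∈ S, a k * co e (T (e k)) m := by
  simp [co, vec, map_sum, map_smul]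

theorem SB_mono {a b : ℕ → ℝ} {B : ℝ} (hb : SB 𝓕 b B) (h : ∀ k, |a k| ≤ |b k|) : SB 𝓕 a B :=
  fun F hF => (Finset.sum_le_sum fun k _ => h k).trans (hb F hF)

theorem empty_mem (hR : IsRegular 𝓕) : (∅ : Finset ℕ) ∈ 𝓕 :=
  hR.hereditary _ (hR.singleton 0) _ (Finset.empty_subset _)

theorem SB_nonneg (hR : IsRegular 𝓕) {a : ℕ → ℝ} {B : ℝ} (h : SB 𝓕 a B) : 0 ≤ B := by
  have := h ∅ (empty_mem hR)
  simpa using this

theorem SB_le (hR : IsRegular 𝓕) {a : ℕ → ℝ} {B : ℝ} (h : SB 𝓕 a B) (k : ℕ) : |a k| ≤ B := by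
  have := h {k} (hR.singleton k)
  simpa using this

variable (hR : IsRegular 𝓕) (hX : IsCombSpace 𝓕 e)

include hR hX

theorem co_basis (i k : ℕ) : co e (e i) k = if i = k then 1 else 0 :=
  ef_basis hR hX k i

theorem co_vec (S : Finset ℕ) (a : ℕ → ℝ) (k : ℕ) :
    co e (vec e S a) k = if k ∈ S then a k else 0 := by
  rw [vec, co_sum]
  have : ∀ i ∈ S, co e (a i • e i) k = if i = k then a i else 0 := by
    intro i _
    rw [co_smul, co_basis hR hX]
    split_ifs <;> simp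
  rw [Finset.sum_congr rfl this, Finset.sum_ite_eq']

theorem SB_co (x : X) : SB 𝓕 (co e x) ‖x‖ := fun _ hF => sum_ef_le hR hX hF x

theorem norm_le_of_SB {x : X} {B : ℝ} (h : SB 𝓕 (co e x) B) : ‖x‖ ≤ B := by
  refine le_of_forall_pos_le_add fun δ hδ => ?_
  obtain ⟨a, ha⟩ := hX.dense.exists_dist_lt x (show 0 < δ / 2 by positivity)
  rw [dist_eq_norm] at ha
  have h1 : ‖Finsupp.linearCombination ℝ e a‖ ≤ B + δ / 2 := by
    rw [hX.norm_eq]
    refine combNorm_le a (by linarith [SB_nonneg hR h]) fun F hF => ?_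
    have h2 := h F hF
    have h3 := sum_ef_le hR hX hF (x - Finsupp.linearCombination ℝ e a)
    have h4 : ∑ k ∈ F, |a k| ≤ ∑ k ∈ F, |co e x k| +
        ∑ k ∈ F, |ef e k (x - Finsupp.linearCombination ℝ e a)| := by
      rw [← Finset.sum_add_distrib]
      refine Finset.sum_le_sum fun k _ => ?_
      rw [map_sub, ef_emb hR hX]
      have := abs_sub_abs_le_abs_sub (a k) (ef e k x)
      rw [abs_sub_comm (a k)] at this
      show |a k| ≤ |ef e k x| + _
      linarith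
    linarith
  have h5 := norm_sub_norm_le x (Finsupp.linearCombination ℝ e a)
  linarith

theorem norm_vec_le {S : Finset ℕ} {a : ℕ → ℝ} {B : ℝ} (h : SB 𝓕 a B) : ‖vec e S a‖ ≤ B := by
  refine norm_le_of_SB hR hX (SB_mono h fun k => ?_)
  rw [co_vec hR hX]
  split_ifs
  · exact le_rfl
  · simp

theorem norm_le_of_co_le {x y : X} (h : ∀ k, |co e x k| ≤ |co e y k|) : ‖x‖ ≤ ‖y‖ :=
  norm_le_of_SB hR hX (SB_mono (SB_co hR hX y) h)

theorem co_ext {x y : X} (h : ∀ k, co e x k = co e y k) : x = y := by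
  rw [← sub_eq_zero, ← norm_le_zero_iff]
  refine norm_le_of_SB hR hX fun F _ => ?_
  refine (Finset.sum_nonpos fun k _ => ?_)
  rw [co_sub, h k, sub_self, abs_zero]

/-- Truncation does not increase the norm of the difference. -/
theorem norm_sub_tr_le (x : X) (S : Finset ℕ) : ‖x - vec e S (co e x)‖ ≤ ‖x‖ := by
  refine norm_le_of_co_le hR hX fun k => ?_
  rw [co_sub, co_vec hR hX]
  split_ifs <;> simp

theorem norm_tr_le (x : X) (S : Finset ℕ) : ‖vec e S (co e x)‖ ≤ ‖x‖ :=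
  norm_vec_le hR hX (SB_co hR hX x)

theorem exists_tr (x : X) (ε : ℝ) (hε : 0 < ε) : ∃ Z0 : ℕ, ∀ S : Finset ℕ,
    (∀ k < Z0, k ∈ S) → ‖x - vec e S (co e x)‖ ≤ ε := by
  obtain ⟨a, ha⟩ := hX.dense.exists_dist_lt x hε
  rw [dist_eq_norm] at ha
  refine ⟨a.support.sup id + 1, fun S hS => ?_⟩
  refine le_trans ?_ ha.le
  refine norm_le_of_co_le hR hX fun k => ?_
  rw [co_sub, co_vec hR hX]
  by_cases hk : k ∈ S
  · rw [if_pos hk]
    simp
  · rw [if_neg hk, co_sub]
    have h1 : a k = 0 := by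
      by_contra hne
      have h2 : k ∈ a.support := Finsupp.mem_support_iff.mpr hne
      have h3 : k ≤ a.support.sup id := Finset.le_sup (f := id) h2
      exact hk (hS k (by omega))
    have h4 : co e (Finsupp.linearCombination ℝ e a) k = a k := ef_emb hR hX k a
    rw [h4, h1]

theorem tendsto_tr (x : X) :
    Tendsto (fun Z => vec e (Finset.range Z) (co e x)) atTop (𝓝 x) := by
  rw [Metric.tendsto_atTop]
  intro ε hε
  obtain ⟨Z0, hZ0⟩ := exists_tr hR hX x (ε / 2) (by positivity)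
  refine ⟨Z0, fun Z hZ => ?_⟩
  rw [dist_eq_norm, norm_sub_rev]
  have := hZ0 (Finset.range Z) fun k hk => Finset.mem_range.mpr (by omega)
  linarith

/-- The sums over the sets of the family far away are small. -/
theorem exists_tail_le (x : X) (ε : ℝ) (hε : 0 < ε) : ∃ K : ℕ, ∀ E ∈ 𝓕,
    (∀ s ∈ E, K ≤ s) → ∑ s ∈ E, |co e x s| ≤ ε := by
  obtain ⟨Z0, hZ0⟩ := exists_tr hR hX x ε hε
  refine ⟨Z0, fun E hE hE' => ?_⟩
  have h1 := hZ0 (Finset.range Z0) fun k hk => Finset.mem_range.mpr hk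
  have h2 := SB_co hR hX (x - vec e (Finset.range Z0) (co e x)) E hE
  refine le_trans (le_of_eq ?_) (h2.trans h1)
  refine Finset.sum_congr rfl fun s hs => ?_
  rw [co_sub, co_vec hR hX, if_neg, sub_zero]
  rw [Finset.mem_range]
  have := hE' s hs
  omega

theorem tendsto_co (x : X) : Tendsto (co e x) atTop (𝓝 0) := by
  rw [Metric.tendsto_atTop]
  intro ε hε
  obtain ⟨K, hK⟩ := exists_tail_le hR hX x (ε / 2) (by positivity)
  refine ⟨K, fun k hk => ?_⟩
  rw [dist_zero_right, Real.norm_eq_abs]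
  have h1 := hK {k} (hR.singleton k) (fun s hs => by
    rw [Finset.mem_singleton] at hs; omega)
  rw [Finset.sum_singleton] at h1
  linarith

theorem tendsto_row (T : X →L[ℝ] X) (m : ℕ) :
    Tendsto (fun i => co e (T (e i)) m) atTop (𝓝 0) :=
  tendsto_functional hR hX ((ef e m).comp T)

theorem norm_e_le (k : ℕ) : ‖e k‖ ≤ 1 := norm_basis_le hX k

theorem abs_co_le (x : X) (k : ℕ) : |co e x k| ≤ ‖x‖ := abs_ef_le hR hX k x

omit hR hX in
theorem khintchine_weighted {ι : Type*} (I : Finset ι) (S : Finset ℕ) (w : ℕ → ℝ)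
    (hw : ∀ s ∈ S, 0 ≤ w s) (v : ι → ℕ → ℝ) (B : ℝ)
    (h : ∀ θ : ι → ℝ, IsSign θ → ∑ s ∈ S, |∑ i ∈ I, θ i * v i s| * w s ≤ B) :
    ∑ s ∈ S, Real.sqrt (∑ i ∈ I, v i s ^ 2) * w s ≤ Real.sqrt 3 * B :=
  SPart.khintchine_weighted I S w hw v B h

omit hR hX in
theorem SB_sqrt {ι : Type*} (I : Finset ι) (v : ι → ℕ → ℝ) (B : ℝ)
    (h : ∀ θ : ι → ℝ, IsSign θ → SB 𝓕 (fun s => ∑ i ∈ I, θ i * v i s) B) :
    SB 𝓕 (fun s => Real.sqrt (∑ i ∈ I, v i s ^ 2)) (Real.sqrt 3 * B) := by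
  intro F hF
  have h1 := khintchine_weighted I F (fun _ => 1) (fun _ _ => zero_le_one) v B (by
    intro θ hθ
    simpa using h θ hθ F hF)
  refine le_trans (le_of_eq ?_) h1
  refine Finset.sum_congr rfl fun s _ => ?_
  rw [abs_of_nonneg (Real.sqrt_nonneg _), mul_one]

end Space

end Pool.Agent.Comb7f333f.TPart
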