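import Pool.Agent.Lib.MP_7f333f_an.Tame.Defs
import Pool.Agent.Lib.MP_7f333f_an.Comb

set_option autoImplicit false

/-!
Module Sec: the sections of a regular family and the scale.
-/

namespace Pool.Agent.Comb7f333f.TPart

variable {𝓕 : Set (Finset ℕ)}

theorem Sc_subset (hR : IsRegular 𝓕) {q : ℕ} {D D' : Finset ℕ} (hD : D ∈ Sc 𝓕 q)
    (h : D' ⊆ D) : D' ∈ Sc 𝓕 q :=
  ⟨fun s hs => hD.1 s (h hs), hR.hereditary _ hD.2 _ (Finset.insert_subset_insert _ h)⟩

/-- The general form: a map which decreases, from `insert q' T` to `insert q S`. -/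
private theorem Sc_of_inj_gen (hR : IsRegular 𝓕) {q q' : ℕ} {S T : Finset ℕ} (hS : S ∈ Sc 𝓕 q)
    (hq : q ≤ q') (hT : ∀ s ∈ T, q' < s) (φ : ℕ → ℕ)
    (h1 : ∀ x ∈ T, φ x ∈ S) (h2 : ∀ x ∈ T, φ x ≤ x) (h3 : Set.InjOn φ T) : T ∈ Sc 𝓕 q' := by
  classical
  refine ⟨hT, ?_⟩
  have hqT : q' ∉ T := fun h => lt_irrefl _ (hT _ h)
  have hqS : q ∉ S := fun h => lt_irrefl _ (hS.1 _ h)
  refine mem_of_inj hR hS.2 (fun x => if x = q' then q else φ x) ?_ ?_ ?_
  · intro x hx
    rcases Finset.mem_insert.mp hx with rfl | hx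
    · simp
    · have : x ≠ q' := fun h => hqT (h ▸ hx)
      simp only [this, if_false]
      exact Finset.mem_insert_of_mem (h1 x hx)
  · intro x hx
    rcases Finset.mem_insert.mp hx with rfl | hx
    · simpa using hq
    · have : x ≠ q' := fun h => hqT (h ▸ hx)
      simp only [this, if_false]
      exact h2 x hx
  · intro x hx y hy hxy
    have hx' := Finset.mem_insert.mp (Finset.mem_coe.mp hx)
    have hy' := Finset.mem_insert.mp (Finset.mem_coe.mp hy)
    rcases hx' with rfl | hx' <;> rcases hy' with rfl | hy'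
    · rfl
    · have hn : y ≠ x := fun h => hqT (h ▸ hy')
      simp only [hn, if_true, if_false] at hxy
      exact absurd (hxy ▸ h1 y hy') hqS
    · have hn : x ≠ y := fun h => hqT (h ▸ hx')
      simp only [hn, if_true, if_false] at hxy
      exact absurd (hxy ▸ h1 x hx') hqS
    · have hn : x ≠ q' := fun h => hqT (h ▸ hx')
      have hn' : y ≠ q' := fun h => hqT (h ▸ hy')
      simp only [hn, hn', if_false] at hxy
      exact h3 (Finset.mem_coe.mpr hx') (Finset.mem_coe.mpr hy') hxy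

theorem Sc_mono (hR : IsRegular 𝓕) {q q' : ℕ} {D : Finset ℕ} (hD : D ∈ Sc 𝓕 q) (hq : q ≤ q')
    (h : ∀ s ∈ D, q' < s) : D ∈ Sc 𝓕 q' :=
  Sc_of_inj_gen hR hD hq h id (fun _ hx => hx) (fun _ _ => le_rfl) (Set.injOn_id _)

theorem Sc_mem (hR : IsRegular 𝓕) {q : ℕ} {D : Finset ℕ} (hD : D ∈ Sc 𝓕 q) : D ∈ 𝓕 :=
  hR.hereditary _ hD.2 _ (Finset.subset_insert _ _)

theorem Sc_empty (hR : IsRegular 𝓕) (q : ℕ) : (∅ : Finset ℕ) ∈ Sc 𝓕 q :=
  ⟨by simp, by simpa using hR.singleton q⟩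

/-- The part of a set of the family beyond `b`, when the set has an element `q ≤ b`. -/
theorem Sc_of_mem (hR : IsRegular 𝓕) {E : Finset ℕ} (hE : E ∈ 𝓕) {q b : ℕ} (hq : q ∈ E)
    (hb : q ≤ b) : E.filter (fun s => b < s) ∈ Sc 𝓕 b := by
  have h0 : E.filter (fun s => b < s) ∈ Sc 𝓕 q := by
    refine ⟨fun s hs => lt_of_le_of_lt hb (Finset.mem_filter.mp hs).2, ?_⟩
    refine hR.hereditary _ hE _ ?_
    intro s hs
    rcases Finset.mem_insert.mp hs with rfl | hs
    · exact hq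
    · exact (Finset.mem_filter.mp hs).1
  exact Sc_mono hR h0 hb fun s hs => (Finset.mem_filter.mp hs).2

/-- A set which injects decreasingly into a set of the section belongs to the section. -/
theorem Sc_of_inj (hR : IsRegular 𝓕) {q : ℕ} {S T : Finset ℕ} (hS : S ∈ Sc 𝓕 q) (φ : ℕ → ℕ)
    (h1 : ∀ x ∈ T, φ x ∈ S) (h2 : ∀ x ∈ T, φ x ≤ x) (h3 : Set.InjOn φ T) : T ∈ Sc 𝓕 q :=
  Sc_of_inj_gen hR hS le_rfl (fun s hs => lt_of_lt_of_le (hS.1 _ (h1 s hs)) (h2 s hs)) φ h1 h2 h3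

theorem exists_scale (hR : IsRegular 𝓕) (hT : Tame 𝓕) : Nonempty (Scale 𝓕) := by
  classical
  choose t0 x hx using hT
  refine ⟨⟨fun f t => if h : t0 f ≤ t then x f t h else x f (t0 f) le_rfl, t0, ?_, ?_, ?_⟩⟩
  · intro f t
    by_cases h : t0 f ≤ t
    · simp only [h, dif_pos]
      exact (hx f t h).1
    · simp only [h, dif_neg, not_false_eq_true]
      have := (hx f (t0 f) le_rfl).1
      omega
  · intro f t A hA hA'
    by_cases h : t0 f ≤ t
    · simp only [h, dif_pos] at hA' ⊢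
      exact (hx f t h).2.2 A hA hA'
    · simp only [h, dif_neg, not_false_eq_true] at hA' ⊢
      have h0 := (hx f (t0 f) le_rfl).1
      refine (hx f (t0 f) le_rfl).2.2 A (fun i => ?_) hA'
      exact Sc_mono hR (hA i) (by omega) fun s hs => lt_of_le_of_lt h0 (hA' i s hs)
  · intro f t h
    have h' : t0 f ≤ t := h
    simp only [h', dif_pos]
    exact (hx f t h').2.1

/-- The union of at most `f` sets of sections at points `≤ t`. -/
theorem Scale.un' (hR : IsRegular 𝓕) (sc : Scale 𝓕) (f t : ℕ) {ι : Type*} (I : Finset ι)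
    (hI : I.card ≤ f) (A : ι → Finset ℕ) (hA : ∀ i ∈ I, ∃ q ≤ t, A i ∈ Sc 𝓕 q)
    (hX : ∀ i ∈ I, ∀ s ∈ A i, sc.X f t < s) : I.biUnion A ∈ Sc 𝓕 (sc.X f t) := by
  classical
  have hA' : ∀ i ∈ I, A i ∈ Sc 𝓕 t := fun i hi => by
    obtain ⟨q, hq, hq'⟩ := hA i hi
    exact Sc_mono hR hq' hq fun s hs => lt_of_le_of_lt (sc.le f t) (hX i hi s hs)
  set B : Fin f → Finset ℕ := fun j =>
    if h : (j : ℕ) < I.card then A (I.equivFin.symm ⟨j, h⟩) else ∅ with hB
  have h1 : I.biUnion A = Finset.univ.biUnion B := by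
    ext s
    simp only [Finset.mem_biUnion, Finset.mem_univ, true_and]
    constructor
    · rintro ⟨i, hi, hs⟩
      refine ⟨⟨I.equivFin ⟨i, hi⟩, lt_of_lt_of_le (I.equivFin ⟨i, hi⟩).2 hI⟩, ?_⟩
      have h2 : ((I.equivFin ⟨i, hi⟩ : Fin I.card) : ℕ) < I.card := (I.equivFin ⟨i, hi⟩).2
      simp only [hB, h2, dif_pos, Fin.eta, Equiv.symm_apply_apply]
      exact hs
    · rintro ⟨j, hs⟩
      by_cases h : (j : ℕ) < I.card
      · simp only [hB, h, dif_pos] at hs
        exact ⟨_, (I.equivFin.symm ⟨j, h⟩).2, hs⟩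
      · simp only [hB, h, dif_neg, not_false_eq_true] at hs
        simp at hs
  rw [h1]
  refine sc.un f t B (fun j => ?_) (fun j s hs => ?_)
  · by_cases h : (j : ℕ) < I.card
    · simp only [hB, h, dif_pos]
      exact hA' _ (I.equivFin.symm ⟨j, h⟩).2
    · simp only [hB, h, dif_neg, not_false_eq_true]
      exact Sc_empty hR t
  · by_cases h : (j : ℕ) < I.card
    · simp only [hB, h, dif_pos] at hs
      exact hX _ (I.equivFin.symm ⟨j, h⟩).2 s hs
    · simp only [hB, h, dif_neg, not_false_eq_true] at hs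
      simp at hs

/-- In a large family, some section contains all the sets with at most `m` elements which are far
enough. -/
theorem exists_far (hR : IsRegular 𝓕) (hL : Large 𝓕) : ∃ q0 : ℕ, ∀ m : ℕ, ∃ P : ℕ,
    ∀ J : Finset ℕ, J.card ≤ m → (∀ i ∈ J, P < i) → J ∈ Sc 𝓕 q0 := by
  classical
  obtain ⟨q0, hq0⟩ := hL
  refine ⟨q0, fun m => ?_⟩
  obtain ⟨A, hA, hm⟩ := hq0 m
  refine ⟨A.sup id, fun J hJ hJ' => ?_⟩
  have hle : J.card ≤ A.card := hJ.trans hm
  have hAs : ∀ a ∈ A, a ≤ A.sup id := fun a ha => Finset.le_sup (f := id) ha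
  rcases J.eq_empty_or_nonempty with rfl | hne
  · exact Sc_empty hR _
  · have hcard : Fintype.card J ≤ Fintype.card A := by simpa using hle
    obtain ⟨ψ⟩ := Function.Embedding.nonempty_of_card_le hcard
    refine Sc_of_inj hR hA (fun x => if h : x ∈ J then (ψ ⟨x, h⟩ : ℕ) else 0) ?_ ?_ ?_
    · intro x hx
      simp only [hx, dif_pos]
      exact (ψ ⟨x, hx⟩).2
    · intro x hx
      simp only [hx, dif_pos]
      exact (hAs _ (ψ ⟨x, hx⟩).2).trans (hJ' x hx).le
    · intro x hx y hy hxy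
      have hx' : x ∈ J := Finset.mem_coe.mp hx
      have hy' : y ∈ J := Finset.mem_coe.mp hy
      simp only [hx', hy', dif_pos] at hxy
      have h2 := ψ.injective (Subtype.ext hxy)
      exact congrArg Subtype.val h2

end Pool.Agent.Comb7f333f.TPart
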