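import Pool.Agent.Lib.MP_7f333f_an.Tame.Api
import Pool.Agent.Lib.MP_7f333f_an.Tame.Sec

set_option autoImplicit false

/-!
Module Card: there are few levels where the vectors are deep (compare `Siz/DeepCard.lean`).
-/

namespace Pool.Agent.Comb7f333f.TPart

section Data

variable {𝓕 : Set (Finset ℕ)} {sc : Scale 𝓕} {C B₁ D B₂ Λ : ℝ} {Q0 r M : ℕ}

private theorem card_cs {ι : Type*} (A : Finset ι) (u : ι → ℝ) :
    ∑ l ∈ A, u l ≤ Real.sqrt A.card * Real.sqrt (∑ l ∈ A, u l ^ 2) := by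
  rw [← Real.sqrt_mul (Nat.cast_nonneg _)]
  refine Real.le_sqrt_of_sq_le ?_
  have := sq_sum_le_card_mul_sum_sq (s := A) (f := u)
  exact this

theorem deep_card (hR : IsRegular 𝓕) (d : CoreD 𝓕 sc C B₁ D B₂ Λ Q0 r M) (c : ℝ)
    (hc : 0 < c) (K : ℕ) (hK : 3 * B₂ ^ 2 / c ^ 2 < K) (w : Fin r → Fin M) (x : ℕ)
    (L₀ : Finset (Fin r))
    (hL : ∀ k ∈ L₀, ∀ l ∈ L₀, k < l →
      DeepAt 𝓕 sc (fun a => d.col (Function.update w l a) l)
        (fun q : Fin M × Fin (d.N l) => d.v (Function.update w l q.1) l q.2) Λ c K x) :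
    L₀.card ≤ K := by
  classical
  by_contra hcon
  push Not at hcon
  obtain ⟨L₁, hL₁, hcard⟩ := Finset.exists_subset_card_eq (show K + 1 ≤ L₀.card from hcon)
  have hK0 : 0 < K := by
    have h0 : (0 : ℝ) ≤ 3 * B₂ ^ 2 / c ^ 2 := by positivity
    have h1 : (0 : ℝ) < K := lt_of_le_of_lt h0 hK
    exact_mod_cast h1
  have hne : L₁.Nonempty := Finset.card_pos.mp (by omega)
  set A : Finset (Fin r) := L₁.erase (L₁.min' hne) with hA
  have hAcard : A.card = K := by
    rw [hA, Finset.card_erase_of_mem (L₁.min'_mem hne), hcard]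
    rfl
  have hdeep : ∀ l ∈ A, DeepAt 𝓕 sc (fun a => d.col (Function.update w l a) l)
      (fun q : Fin M × Fin (d.N l) => d.v (Function.update w l q.1) l q.2) Λ c K x := by
    intro l hl
    have hl1 : l ∈ L₁ := Finset.mem_of_mem_erase hl
    exact hL _ (hL₁ (L₁.min'_mem hne)) l (hL₁ hl1) (lt_of_le_of_ne (L₁.min'_le l hl1)
      (Ne.symm (Finset.ne_of_mem_erase hl)))
  -- the choices
  obtain ⟨l₀, hl₀⟩ : A.Nonempty := Finset.card_pos.mp (by omega)
  have hM : Nonempty (Fin M) := ⟨(hdeep l₀ hl₀).choose⟩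
  have hch : ∀ l : Fin r, ∃ (a : Fin M) (β : Fin (d.N l) → ℝ) (T : Finset ℕ) (y : ℕ), l ∈ A →
      ((∀ n, 0 ≤ β n ∧ β n ≤ Λ * wt (d.col (Function.update w l a) l) n) ∧
      (sc.X K y < x ∧ T ∈ Sc 𝓕 y ∧ ∀ s ∈ T, x ≤ s) ∧
      c ≤ ∑ s ∈ T, Real.sqrt (∑ n, (β n * d.v (Function.update w l a) l n s) ^ 2)) := by
    intro l
    by_cases hl : l ∈ A
    · obtain ⟨a, β, hβ, T, ⟨y, hy⟩, hs⟩ := hdeep l hl
      exact ⟨a, β, T, y, fun _ => ⟨hβ, hy, hs⟩⟩
    · exact ⟨hM.some, fun _ => 0, ∅, 0, fun h => absurd h hl⟩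
  choose a β T y hch using hch
  -- the union of the small sets
  set U : Finset ℕ := A.biUnion T with hU
  have hUF : U ∈ 𝓕 := by
    obtain ⟨l₁, hl₁, hmax⟩ := Finset.exists_max_image A y ⟨l₀, hl₀⟩
    refine Sc_mem hR (Scale.un' hR sc K (y l₁) A hAcard.le T (fun l hl => ?_)
      (fun l hl s hs => ?_))
    · exact ⟨y l, hmax l hl, (hch l hl).2.1.2.1⟩
    · exact lt_of_lt_of_le (hch l₁ hl₁).2.1.1 ((hch l hl).2.1.2.2 s hs)
  have hΛw : ∀ l ∈ A, ∀ n, |β l n| ≤ Λ * wt (d.col (Function.update w l (a l)) l) n := by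
    intro l hl n
    rw [abs_of_nonneg ((hch l hl).1 n).1]
    exact ((hch l hl).1 n).2
  -- the upper bound
  have hup := SB_sqrt (𝓕 := 𝓕) (A.sigma fun l => (Finset.univ : Finset (Fin (d.N l))))
    (fun (i : (l : Fin r) × Fin (d.N l)) s =>
      β i.1 i.2 * d.v (Function.update w i.1 (a i.1)) i.1 i.2 s) B₂ (by
    intro θ hθ
    have hΛ : 0 ≤ Λ := by
      have h1 := (hch l₀ hl₀).1
      have hU0 := d.U_pos l₀
      have h2 := (h1 (d.col (Function.update w l₀ (a l₀)) l₀ ⟨0, hU0⟩)).1.trans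
        (h1 (d.col (Function.update w l₀ (a l₀)) l₀ ⟨0, hU0⟩)).2
      have h3 : 0 < wt (d.col (Function.update w l₀ (a l₀)) l₀)
          (d.col (Function.update w l₀ (a l₀)) l₀ ⟨0, hU0⟩) := by
        unfold wt
        have h4 : 0 < (Finset.univ.filter fun u => d.col (Function.update w l₀ (a l₀)) l₀ u =
            d.col (Function.update w l₀ (a l₀)) l₀ ⟨0, hU0⟩).card :=
          Finset.card_pos.mpr ⟨⟨0, hU0⟩, by simp⟩
        have h5 : (0 : ℝ) < d.U l₀ := by exact_mod_cast hU0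
        have h6 : (0 : ℝ) < ((Finset.univ.filter fun u =>
            d.col (Function.update w l₀ (a l₀)) l₀ u =
            d.col (Function.update w l₀ (a l₀)) l₀ ⟨0, hU0⟩).card : ℝ) := by exact_mod_cast h4
        positivity
      by_contra hneg
      push Not at hneg
      nlinarith
    have h5 := d.h5 w A a (fun l n => if l ∈ A then θ ⟨l, n⟩ * β l n else 0) (by
      intro l n
      by_cases hl : l ∈ A
      · simp only [if_pos hl]
        have h6 : |θ ⟨l, n⟩| = 1 := by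
          rcases hθ ⟨l, n⟩ with h | h <;> rw [h] <;> simp
        rw [abs_mul, h6, one_mul]
        exact hΛw l hl n
      · simp only [if_neg hl, abs_zero]
        exact mul_nonneg hΛ (by unfold wt; positivity))
    have e : (fun s => ∑ i ∈ A.sigma fun l => (Finset.univ : Finset (Fin (d.N l))), θ i *
        (β i.1 i.2 * d.v (Function.update w i.1 (a i.1)) i.1 i.2 s)) =
        (fun s => ∑ l ∈ A, ∑ n, (if l ∈ A then θ ⟨l, n⟩ * β l n else 0) *
          d.v (Function.update w l (a l)) l n s) := by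
      funext s
      rw [Finset.sum_sigma]
      refine Finset.sum_congr rfl fun l hl => ?_
      refine Finset.sum_congr rfl fun n _ => ?_
      rw [if_pos hl]
      ring
    rw [e]
    exact h5) U hUF
  -- the lower bound
  set u : Fin r → ℕ → ℝ := fun l s =>
    Real.sqrt (∑ n, (β l n * d.v (Function.update w l (a l)) l n s) ^ 2) with hu
  have hu0 : ∀ l s, 0 ≤ u l s := fun l s => Real.sqrt_nonneg _
  have hus : ∀ s, ∑ i ∈ A.sigma fun l => (Finset.univ : Finset (Fin (d.N l))),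
      (β i.1 i.2 * d.v (Function.update w i.1 (a i.1)) i.1 i.2 s) ^ 2 =
      ∑ l ∈ A, u l s ^ 2 := by
    intro s
    rw [Finset.sum_sigma]
    refine Finset.sum_congr rfl fun l _ => ?_
    simp only [hu]
    rw [Real.sq_sqrt (Finset.sum_nonneg fun _ _ => sq_nonneg _)]
  have hlow : (K : ℝ) * c ≤ Real.sqrt K * (Real.sqrt 3 * B₂) := by
    calc (K : ℝ) * c = ∑ l ∈ A, c := by rw [Finset.sum_const, hAcard, nsmul_eq_mul]
      _ ≤ ∑ l ∈ A, ∑ s ∈ T l, u l s := Finset.sum_le_sum fun l hl => (hch l hl).2.2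
      _ ≤ ∑ l ∈ A, ∑ s ∈ U, u l s := by
          refine Finset.sum_le_sum fun l hl => ?_
          exact Finset.sum_le_sum_of_subset_of_nonneg
            (Finset.subset_biUnion_of_mem T hl) fun s _ _ => hu0 l s
      _ = ∑ s ∈ U, ∑ l ∈ A, u l s := Finset.sum_comm
      _ ≤ ∑ s ∈ U, Real.sqrt K * Real.sqrt (∑ l ∈ A, u l s ^ 2) := by
          refine Finset.sum_le_sum fun s _ => ?_
          have := card_cs A (fun l => u l s)
          rw [hAcard] at this
          exact this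
      _ = Real.sqrt K * ∑ s ∈ U, Real.sqrt (∑ l ∈ A, u l s ^ 2) := by rw [Finset.mul_sum]
      _ ≤ Real.sqrt K * (Real.sqrt 3 * B₂) := by
          refine mul_le_mul_of_nonneg_left ?_ (Real.sqrt_nonneg _)
          refine le_trans (le_of_eq ?_) hup
          refine Finset.sum_congr rfl fun s _ => ?_
          rw [abs_of_nonneg (Real.sqrt_nonneg _), hus s]
  have hKr : (0 : ℝ) < K := by exact_mod_cast hK0
  have h1 : Real.sqrt K * c ≤ Real.sqrt 3 * B₂ := by
    have h2 : Real.sqrt K * (Real.sqrt K * c) ≤ Real.sqrt K * (Real.sqrt 3 * B₂) := by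
      rw [← mul_assoc, Real.mul_self_sqrt hKr.le]
      exact hlow
    exact le_of_mul_le_mul_left h2 (Real.sqrt_pos.mpr hKr)
  have h3 : (K : ℝ) * c ^ 2 ≤ 3 * B₂ ^ 2 := by
    have h4 : 0 ≤ Real.sqrt K * c := by positivity
    have h5 := pow_le_pow_left₀ h4 h1 2
    rw [mul_pow, mul_pow, Real.sq_sqrt hKr.le, Real.sq_sqrt (by norm_num)] at h5
    exact h5
  rw [div_lt_iff₀ (by positivity)] at hK
  linarith

end Data

end Pool.Agent.Comb7f333f.TPart
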