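import Mathlib

set_option autoImplicit false

/-!
Module Dist: distribution of the indices over the columns, successive choices.
-/

namespace Pool.Agent.Comb7f333f.TPart

theorem exists_col {N U : ℕ} (hU : N ≤ U) (c : Fin N → ℝ) (hc : ∀ n, 0 ≤ c n)
    (hc1 : ∑ n, c n = 1) : ∃ col : Fin U → Fin N, ∀ n,
      ((Finset.univ.filter (fun u => col u = n)).card : ℝ) ≤ 2 * c n * U := by
  classical
  let f : Fin N → ℕ := fun n => ⌊2 * c n * U⌋₊
  have hf : ∀ n, (f n : ℝ) ≤ 2 * c n * U := fun n =>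
    Nat.floor_le (by have := hc n; positivity)
  have hsum : U ≤ ∑ n, f n := by
    have h1 : ∀ n, 2 * c n * U - 1 ≤ (f n : ℝ) := fun n => (Nat.sub_one_lt_floor _).le
    have h2 : ∑ n : Fin N, (2 * c n * U - 1) ≤ ∑ n, (f n : ℝ) := Finset.sum_le_sum fun n _ => h1 n
    have h3 : ∑ n : Fin N, (2 * c n * (U : ℝ) - 1) = 2 * U - N := by
      rw [Finset.sum_sub_distrib, ← Finset.sum_mul, ← Finset.mul_sum, hc1]
      simp
    rw [h3] at h2
    have h4 : (N : ℝ) ≤ U := by exact_mod_cast hU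
    have h5 : (U : ℝ) ≤ ∑ n, (f n : ℝ) := by linarith
    exact_mod_cast h5
  have hcard : Fintype.card (Fin U) ≤ Fintype.card (Σ n : Fin N, Fin (f n)) := by
    rw [Fintype.card_fin, Fintype.card_sigma]
    simpa using hsum
  obtain ⟨g⟩ := Function.Embedding.nonempty_of_card_le hcard
  refine ⟨fun u => (g u).1, fun n => le_trans ?_ (hf n)⟩
  have h6 : (Finset.univ.filter (fun u => (g u).1 = n)).card ≤
      (Finset.univ : Finset (Fin (f n))).card := by
    have hinj : Function.Injective (fun i : Fin (f n) => (⟨n, i⟩ : Σ n : Fin N, Fin (f n))) := by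
      intro i j hij
      simpa using hij
    have h7 : (Finset.univ.filter (fun u => (g u).1 = n)).map g ⊆
        (Finset.univ : Finset (Fin (f n))).map ⟨_, hinj⟩ := by
      intro x hx
      rw [Finset.mem_map] at hx
      obtain ⟨u, hu, rfl⟩ := hx
      rw [Finset.mem_filter] at hu
      rw [Finset.mem_map]
      obtain ⟨-, hu⟩ := hu
      subst hu
      exact ⟨(g u).2, Finset.mem_univ _, rfl⟩
    have h8 := Finset.card_le_card h7
    rwa [Finset.card_map, Finset.card_map] at h8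
  rw [Finset.card_univ, Fintype.card_fin] at h6
  exact_mod_cast h6

/-- Successive choices over a finite set. -/
theorem exists_succ_choice {Ω : Type} [Fintype Ω] {α : Type*} [Nonempty α]
    (Good : Ω → ℕ → α → ℕ → Prop)
    (h : ∀ w β, ∃ (c : α) (β' : ℕ), β ≤ β' ∧ Good w β c β') (β0 : ℕ) :
    ∃ (c : Ω → α) (β β' : Ω → ℕ),
      (∀ w, β0 ≤ β w ∧ β w ≤ β' w ∧ Good w (β w) (c w) (β' w)) ∧
      ∀ w w', w ≠ w' → β' w ≤ β w' ∨ β' w' ≤ β w := by
  classical
  choose cc bb hbb hgood using h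
  let e : Ω ≃ Fin (Fintype.card Ω) := Fintype.equivFin Ω
  let B : ℕ → ℕ := fun k => Nat.rec β0
    (fun k b => if hk : k < Fintype.card Ω then bb (e.symm ⟨k, hk⟩) b else b) k
  have hB0 : B 0 = β0 := rfl
  have hBs : ∀ k, B (k + 1) =
      if hk : k < Fintype.card Ω then bb (e.symm ⟨k, hk⟩) (B k) else B k := fun k => rfl
  have hmono : Monotone B := by
    refine monotone_nat_of_le_succ fun k => ?_
    rw [hBs]
    split_ifs with hk
    · exact hbb _ _
    · exact le_rfl
  have hB1 : ∀ w : Ω, B ((e w : ℕ) + 1) = bb w (B (e w : ℕ)) := by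
    intro w
    rw [hBs, dif_pos (e w).isLt]
    simp
  refine ⟨fun w => cc w (B (e w : ℕ)), fun w => B (e w : ℕ), fun w => B ((e w : ℕ) + 1),
    fun w => ⟨?_, ?_, ?_⟩, ?_⟩
  · rw [← hB0]
    exact hmono (Nat.zero_le _)
  · exact hmono (Nat.le_succ _)
  · show Good w (B (e w : ℕ)) (cc w (B (e w : ℕ))) (B ((e w : ℕ) + 1))
    rw [hB1]
    exact hgood _ _
  · intro w w' hne
    have h1 : (e w : ℕ) ≠ (e w' : ℕ) := fun h2 => hne (e.injective (Fin.ext h2))
    rcases lt_or_gt_of_ne h1 with h2 | h2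
    · exact Or.inl (hmono h2)
    · exact Or.inr (hmono h2)

end Pool.Agent.Comb7f333f.TPart
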