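import Pool.Agent.Lib.MP_7f333f_an.Tame.Api

set_option autoImplicit false

/-!
Module LemTF: the contradiction in the proof of `lemT`.
-/

namespace Pool.Agent.Comb7f333f.TPart

open Filter Topology

/-- One sign can be chosen so that the sum is at least the average. -/
theorem lemTF_sign (V E : Finset ℕ) (hVE : Disjoint V E) (v b : ℕ → ℝ) :
    ∃ θ : ℝ, (θ = 1 ∨ θ = -1) ∧
      ∑ s ∈ V, |v s| + ∑ s ∈ E, |b s| ≤ ∑ s ∈ V ∪ E, |v s + θ * b s| := by
  have key : 2 * (∑ s ∈ V, |v s| + ∑ s ∈ E, |b s|) ≤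
      ∑ s ∈ V ∪ E, |v s + 1 * b s| + ∑ s ∈ V ∪ E, |v s + (-1) * b s| := by
    rw [Finset.sum_union hVE, Finset.sum_union hVE]
    have h1 : 2 * ∑ s ∈ V, |v s| ≤ ∑ s ∈ V, |v s + 1 * b s| + ∑ s ∈ V, |v s + (-1) * b s| := by
      rw [← Finset.sum_add_distrib, Finset.mul_sum]
      refine Finset.sum_le_sum fun s _ => ?_
      have h2 := abs_add_le (v s + 1 * b s) (v s + (-1) * b s)
      have h3 : v s + 1 * b s + (v s + (-1) * b s) = 2 * v s := by ring
      rw [h3, abs_mul, abs_two] at h2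
      exact h2
    have h1' : 2 * ∑ s ∈ E, |b s| ≤ ∑ s ∈ E, |v s + 1 * b s| + ∑ s ∈ E, |v s + (-1) * b s| := by
      rw [← Finset.sum_add_distrib, Finset.mul_sum]
      refine Finset.sum_le_sum fun s _ => ?_
      have h2 := abs_sub (v s + 1 * b s) (v s + (-1) * b s)
      have h3 : v s + 1 * b s - (v s + (-1) * b s) = 2 * b s := by ring
      rw [h3, abs_mul, abs_two] at h2
      exact h2
    linarith
  by_cases hle : ∑ s ∈ V, |v s| + ∑ s ∈ E, |b s| ≤ ∑ s ∈ V ∪ E, |v s + 1 * b s|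
  · exact ⟨1, Or.inl rfl, hle⟩
  · exact ⟨-1, Or.inr rfl, by linarith⟩

/-- Signs for which the sum over the union dominates the diagonal. -/
theorem lemTF_signs (b : ℕ → ℕ → ℝ) (E : ℕ → Finset ℕ) (I : Finset ℕ)
    (hE : ∀ t ∈ I, ∀ t' ∈ I, t ≠ t' → Disjoint (E t) (E t')) (v : ℕ → ℝ) (V : Finset ℕ)
    (hV : ∀ t ∈ I, Disjoint V (E t)) :
    ∃ θ : ℕ → ℝ, (∀ t, θ t = 1 ∨ θ t = -1) ∧
      ∑ s ∈ V, |v s| + ∑ t ∈ I, ∑ s ∈ E t, |b t s| ≤
        ∑ s ∈ V ∪ I.biUnion E, |v s + ∑ t ∈ I, θ t * b t s| := by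
  classical
  induction I using Finset.induction_on generalizing v V with
  | empty => exact ⟨fun _ => 1, fun _ => Or.inl rfl, by simp⟩
  | insert t0 I ht0 ih =>
    obtain ⟨θ0, h0, h1⟩ := lemTF_sign V (E t0) (hV t0 (Finset.mem_insert_self _ _)) v (b t0)
    obtain ⟨θ, h2, h3⟩ := ih
      (fun t ht t' ht' => hE t (Finset.mem_insert_of_mem ht) t' (Finset.mem_insert_of_mem ht'))
      (fun s => v s + θ0 * b t0 s) (V ∪ E t0) (fun t ht => by
        rw [Finset.disjoint_union_left]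
        refine ⟨hV t (Finset.mem_insert_of_mem ht), hE t0 (Finset.mem_insert_self _ _) t
          (Finset.mem_insert_of_mem ht) ?_⟩
        rintro rfl
        exact ht0 ht)
    refine ⟨Function.update θ t0 θ0, fun t => ?_, ?_⟩
    · by_cases ht : t = t0
      · rw [ht, Function.update_self]
        exact h0
      · rw [Function.update_of_ne ht]
        exact h2 t
    · rw [Finset.sum_insert ht0, Finset.biUnion_insert, ← Finset.union_assoc]
      have h4 : ∀ s, v s + ∑ t ∈ insert t0 I, Function.update θ t0 θ0 t * b t s =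
          v s + θ0 * b t0 s + ∑ t ∈ I, θ t * b t s := by
        intro s
        rw [Finset.sum_insert ht0, Function.update_self, add_assoc]
        congr 2
        refine Finset.sum_congr rfl fun t ht => ?_
        rw [Function.update_of_ne]
        rintro rfl
        exact ht0 ht
      simp only [h4]
      linarith

variable {𝓕 : Set (Finset ℕ)} {X : Type*} [NormedAddCommGroup X] [NormedSpace ℝ X] {e : ℕ → X}
  (hR : IsRegular 𝓕) (hX : IsCombSpace 𝓕 e)

include hR hX

/-- The signed sums of finitely many vectors with large images on disjoint parts of one set. -/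
theorem diag_le (C : ℝ) (hC : 1 ≤ C) (T : X →L[ℝ] X) (hT : ∀ x, ‖T x‖ ≤ C * ‖x‖)
    (I : Finset ℕ) (i : ℕ → ℕ) (hi : Set.InjOn i I) (a : ℕ → ℝ) (ha : ∀ t ∈ I, 0 ≤ a t)
    (E : ℕ → Finset ℕ) (hE : ∀ t ∈ I, ∀ t' ∈ I, t ≠ t' → Disjoint (E t) (E t'))
    (hU : I.biUnion E ∈ 𝓕) :
    ∑ t ∈ I, a t * ∑ s ∈ E t, |co e (T (e (i t))) s| ≤ C * ‖∑ t ∈ I, a t • e (i t)‖ := by
  classical
  obtain ⟨θ, h1, h2⟩ := lemTF_signs (fun t s => a t * co e (T (e (i t))) s) E I hE
    (fun _ => 0) ∅ (fun _ _ => Finset.disjoint_empty_left _)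
  have hθ : ∀ t, |θ t| = 1 := by
    intro t
    rcases h1 t with h | h <;> rw [h] <;> simp
  have h3 : ∑ t ∈ I, a t * ∑ s ∈ E t, |co e (T (e (i t))) s| ≤
      ∑ s ∈ I.biUnion E, |co e (T (∑ t ∈ I, (θ t * a t) • e (i t))) s| := by
    simp only [abs_zero, Finset.sum_const_zero, zero_add, Finset.empty_union] at h2
    refine (le_of_eq ?_).trans (h2.trans (le_of_eq ?_))
    · refine Finset.sum_congr rfl fun t ht => ?_
      rw [Finset.mul_sum]
      refine Finset.sum_congr rfl fun s _ => ?_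
      rw [abs_mul, abs_of_nonneg (ha t ht)]
    · refine Finset.sum_congr rfl fun s _ => ?_
      congr 1
      rw [map_sum, co_sum]
      refine Finset.sum_congr rfl fun t _ => ?_
      rw [map_smul, co_smul]
      ring
  have h4 : ‖∑ t ∈ I, (θ t * a t) • e (i t)‖ ≤ ‖∑ t ∈ I, a t • e (i t)‖ := by
    refine norm_le_of_co_le hR hX fun k => ?_
    rw [co_sum, co_sum]
    simp only [co_smul, co_basis hR hX]
    by_cases hk : ∃ t ∈ I, i t = k
    · obtain ⟨t0, ht0, hk⟩ := hk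
      have hoth : ∀ t ∈ I, t ≠ t0 → ¬ i t = k := by
        intro t ht hne h
        exact hne (hi ht ht0 (h.trans hk.symm))
      rw [Finset.sum_eq_single t0 (fun t ht hne => by rw [if_neg (hoth t ht hne), mul_zero])
          (fun h => absurd ht0 h),
        Finset.sum_eq_single t0 (fun t ht hne => by rw [if_neg (hoth t ht hne), mul_zero])
          (fun h => absurd ht0 h), if_pos hk, mul_one, mul_one, abs_mul, hθ, one_mul]
    · push Not at hk
      rw [Finset.sum_eq_zero fun t ht => by rw [if_neg (hk t ht), mul_zero], abs_zero]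
      exact abs_nonneg _
  refine h3.trans ((SB_co hR hX _ _ hU).trans ((hT _).trans ?_))
  exact mul_le_mul_of_nonneg_left h4 (by linarith)

omit hR hX in
/-- The sum over a union. -/
theorem lemTF_biUnion (J : Finset ℕ) (F : ℕ → Finset ℕ) (f : ℕ → ℝ) (hf : ∀ s, 0 ≤ f s) :
    ∑ s ∈ J.biUnion F, f s ≤ ∑ u ∈ J, ∑ s ∈ F u, f s := by
  classical
  induction J using Finset.induction_on with
  | empty => simp
  | insert u J hu ih =>
    rw [Finset.biUnion_insert, Finset.sum_insert hu]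
    have h1 := Finset.sum_union_inter (s₁ := F u) (s₂ := J.biUnion F) (f := f)
    have h2 : 0 ≤ ∑ s ∈ F u ∩ J.biUnion F, f s := Finset.sum_nonneg fun s _ => hf s
    linarith

omit hR hX in
/-- The geometric sum. -/
theorem lemTF_geom (c : ℝ) (hc : 0 < c) (t : ℕ) (I : Finset ℕ) :
    ∑ u ∈ I.filter (fun u => t < u), c / 2 ^ (u + 2) ≤ c / 2 := by
  have h0 : (fun u : ℕ => c / 2 ^ (u + 2)) = fun u : ℕ => c / 4 * (1 / 2) ^ u := by
    funext u
    rw [pow_add, div_pow, one_pow]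
    field_simp
    norm_num
  have h1 : Summable fun u : ℕ => c / 2 ^ (u + 2) := by
    rw [h0]
    exact summable_geometric_two.mul_left (c / 4)
  have h2 : ∑' u : ℕ, c / 2 ^ (u + 2) = c / 2 := by
    rw [h0, tsum_mul_left, tsum_geometric_two]
    ring
  rw [← h2]
  exact h1.sum_le_tsum _ fun u _ => by positivity

theorem lemT_false {ι : Type*} (𝒱 : Ultrafilter ι) (C : ℝ) (hC : 1 ≤ C) (T : ι → X →L[ℝ] X)
    (hT : ∀ ν x, ‖T ν x‖ ≤ C * ‖x‖) (𝒟 : Set (ι → Finset ℕ)) (h0 : (fun _ => ∅) ∈ 𝒟)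
    (hunion : ∀ D ∈ 𝒟, ∀ D' ∈ 𝒟, (fun ν => D ν ∪ D' ν) ∈ 𝒟)
    (hF : ∀ D ∈ 𝒟, ∀ᶠ ν in (𝒱 : Filter ι), D ν ∈ 𝓕) (c : ℝ) (hc : 0 < c) (i : ℕ → ℕ)
    (hi : StrictMono i) (E : ℕ → ι → Finset ℕ) (hE : ∀ t, E t ∈ 𝒟)
    (h : ∀ t, ∀ᶠ ν in (𝒱 : Filter ι), c ≤ ∑ s ∈ E t ν, |co e (T ν (e (i t))) s| ∧
      ∑ u ∈ Finset.range t, ∑ s ∈ E t ν, |co e (T ν (e (i u))) s| ≤ c / 2 ^ (t + 2)) :
    False := by
  classical
  obtain ⟨a, ha, ha2⟩ := exists_conv_small hR hX (fun t => e (i t)) 1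
    (fun t => norm_e_le hR hX _) (fun k => by
      refine tendsto_const_nhds.congr' ?_
      filter_upwards [eventually_gt_atTop k] with j hj
      have h1 := hi.id_le j
      simp only [id] at h1
      have h2 : co e (e (i j)) k = 0 := by
        rw [co_basis hR hX, if_neg (by omega)]
      exact h2.symm) (c / (4 * C)) (by positivity) 0
  set I := a.support with hI
  -- the union
  have hun : ∀ J : Finset ℕ, (fun ν => J.biUnion fun t => E t ν) ∈ 𝒟 := by
    intro J
    induction J using Finset.induction_on with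
    | empty => simpa using h0
    | insert t J ht ih =>
      have h1 := hunion _ (hE t) _ ih
      refine (congrArg (· ∈ 𝒟) ?_).mp h1
      funext ν
      rw [Finset.biUnion_insert]
  have e1 : ∀ᶠ ν in (𝒱 : Filter ι), ∀ t ∈ I, c ≤ ∑ s ∈ E t ν, |co e (T ν (e (i t))) s| ∧
      ∑ u ∈ Finset.range t, ∑ s ∈ E t ν, |co e (T ν (e (i u))) s| ≤ c / 2 ^ (t + 2) := by
    rw [Filter.eventually_all_finset]
    exact fun t _ => h t
  obtain ⟨ν, hν1, hν2⟩ := (e1.and (hF _ (hun I))).exists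
  set E' : ℕ → Finset ℕ := fun t => E t ν \ (I.filter (fun u => t < u)).biUnion (fun u => E u ν)
    with hE'
  have hdis : ∀ t ∈ I, ∀ t' ∈ I, t ≠ t' → Disjoint (E' t) (E' t') := by
    have key : ∀ t t', t' ∈ I → t < t' → Disjoint (E' t) (E' t') := by
      intro t t' ht' hlt
      rw [Finset.disjoint_left]
      intro s hs hs'
      simp only [hE', Finset.mem_sdiff, Finset.mem_biUnion, Finset.mem_filter, not_exists,
        not_and] at hs hs'
      exact hs.2 t' ⟨ht', hlt⟩ hs'.1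
    intro t ht t' ht' hne
    rcases lt_or_gt_of_ne hne with hlt | hlt
    · exact key t t' ht' hlt
    · exact (key t' t ht hlt).symm
  have hmass : ∀ t ∈ I, c / 2 ≤ ∑ s ∈ E' t, |co e (T ν (e (i t))) s| := by
    intro t ht
    have h1 : ∑ s ∈ E t ν, |co e (T ν (e (i t))) s| ≤ ∑ s ∈ E' t, |co e (T ν (e (i t))) s| +
        ∑ s ∈ (I.filter (fun u => t < u)).biUnion (fun u => E u ν),
          |co e (T ν (e (i t))) s| := by
      have h2 : E t ν ⊆ E' t ∪ (I.filter (fun u => t < u)).biUnion (fun u => E u ν) := by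
        intro s hs
        rw [Finset.mem_union]
        by_cases hs' : s ∈ (I.filter (fun u => t < u)).biUnion (fun u => E u ν)
        · exact Or.inr hs'
        · exact Or.inl (Finset.mem_sdiff.2 ⟨hs, hs'⟩)
      refine (Finset.sum_le_sum_of_subset_of_nonneg h2 fun _ _ _ => abs_nonneg _).trans ?_
      rw [Finset.sum_union]
      exact Finset.sdiff_disjoint
    have h3 : ∑ s ∈ (I.filter (fun u => t < u)).biUnion (fun u => E u ν),
        |co e (T ν (e (i t))) s| ≤ ∑ u ∈ I.filter (fun u => t < u),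
          ∑ s ∈ E u ν, |co e (T ν (e (i t))) s| :=
      lemTF_biUnion _ _ _ fun _ => abs_nonneg _
    have h4 : ∑ u ∈ I.filter (fun u => t < u), ∑ s ∈ E u ν, |co e (T ν (e (i t))) s| ≤
        ∑ u ∈ I.filter (fun u => t < u), c / 2 ^ (u + 2) := by
      refine Finset.sum_le_sum fun u hu => ?_
      rw [Finset.mem_filter] at hu
      refine le_trans ?_ (hν1 u hu.1).2
      exact Finset.single_le_sum
        (f := fun u' => ∑ s ∈ E u ν, |co e (T ν (e (i u'))) s|)
        (fun _ _ => Finset.sum_nonneg fun _ _ => abs_nonneg _) (Finset.mem_range.2 hu.2)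
    have h5 := lemTF_geom c hc t I
    have h6 := (hν1 t ht).1
    linarith
  have hU : I.biUnion E' ∈ 𝓕 := by
    refine hR.hereditary _ hν2 _ ?_
    refine Finset.biUnion_mono fun t _ => ?_
    exact Finset.sdiff_subset
  have h7 := diag_le hR hX C hC (T ν) (hT ν) I i hi.injective.injOn a
    (fun t _ => ha.nonneg t) E' hdis hU
  have h8 : c / 2 ≤ ∑ t ∈ I, a t * ∑ s ∈ E' t, |co e (T ν (e (i t))) s| := by
    calc c / 2 = ∑ t ∈ I, a t * (c / 2) := by
          rw [← Finset.sum_mul, ← mass_eq_sum, ha.mass_eq, one_mul]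
      _ ≤ _ := Finset.sum_le_sum fun t ht =>
          mul_le_mul_of_nonneg_left (hmass t ht) (ha.nonneg t)
  have h9 : C * ‖∑ t ∈ I, a t • e (i t)‖ ≤ c / 4 := by
    rw [Finsupp.linearCombination_apply, Finsupp.sum] at ha2
    have h10 : C * ‖∑ t ∈ I, a t • e (i t)‖ ≤ C * (c / (4 * C)) :=
      mul_le_mul_of_nonneg_left ha2.le (by linarith)
    have h11 : C * (c / (4 * C)) = c / 4 := by
      have : C ≠ 0 := by linarith
      field_simp
    linarith
  linarith

end Pool.Agent.Comb7f333f.TPart
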