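import Pool.Agent.Lib.MP_7f333f_an.Tame.Pick
import Pool.Agent.Lib.MP_7f333f_an.Tame.LemTF

set_option autoImplicit false

/-!
Module LemT: most of the signed averages of a far set `J` of basis vectors have small images on the
admissible sets.
-/

namespace Pool.Agent.Comb7f333f.TPart

open Filter Topology

/-- The sets of the chosen elements. -/
noncomputable def LemT_F (f : ℕ → Finset ℕ → ℕ) : ℕ → Finset ℕ
  | 0 => ∅
  | t + 1 => insert (f t (LemT_F f t)) (LemT_F f t)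

theorem LemT_F_eq (f : ℕ → Finset ℕ → ℕ) (t : ℕ) :
    LemT_F f t = (Finset.range t).image fun u => f u (LemT_F f u) := by
  induction t with
  | zero => simp [LemT_F]
  | succ t ih =>
    rw [Finset.range_add_one, Finset.image_insert, ← ih]
    rfl

theorem LemT_strictMono (f : ℕ → Finset ℕ → ℕ) (hf : ∀ t I, ∀ u ∈ I, u < f t I) :
    StrictMono fun t => f t (LemT_F f t) := by
  refine strictMono_nat_of_lt_succ fun t => ?_
  refine hf (t + 1) _ _ ?_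
  show f t (LemT_F f t) ∈ insert (f t (LemT_F f t)) (LemT_F f t)
  exact Finset.mem_insert_self _ _

variable {𝓕 : Set (Finset ℕ)} {X : Type*} [NormedAddCommGroup X] [NormedSpace ℝ X] {e : ℕ → X}
  (hR : IsRegular 𝓕) (hX : IsCombSpace 𝓕 e)

include hR hX

open scoped Classical in
theorem lemT {ι : Type*} (𝒱 : Ultrafilter ι) (C : ℝ) (hC : 1 ≤ C) (T : ι → X →L[ℝ] X)
    (hT : ∀ ν x, ‖T ν x‖ ≤ C * ‖x‖) (𝒟 : Set (ι → Finset ℕ)) (h0 : (fun _ => ∅) ∈ 𝒟)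
    (hunion : ∀ D ∈ 𝒟, ∀ D' ∈ 𝒟, (fun ν => D ν ∪ D' ν) ∈ 𝒟)
    (hsub : ∀ D ∈ 𝒟, ∀ D' : ι → Finset ℕ, (∀ ν, D' ν ⊆ D ν) → D' ∈ 𝒟)
    (hF : ∀ D ∈ 𝒟, ∀ᶠ ν in (𝒱 : Filter ι), D ν ∈ 𝓕) (ε η : ℝ) (hε : 0 < ε) (hη : 0 < η) :
    ∃ m0 : ℕ, ∀ m ≥ m0, ∃ K : ℕ, ∀ J : Finset ℕ, J.card = m → (∀ i ∈ J, K ≤ i) →
      ((J.powerset.filter fun S => ∃ D ∈ 𝒟,
        ∀ᶠ ν in (𝒱 : Filter ι), ε < ∑ s ∈ D ν, |co e (T ν (av e J S)) s|).card : ℝ) ≤
        η * 2 ^ m := by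
  by_contra hcon
  push Not at hcon
  set c : ℝ := (ε * η) ^ 2 / (2 * C) with hcdef
  have hC0 : 0 < C := by linarith
  have hc : 0 < c := by positivity
  have step : ∀ (t : ℕ) (I : Finset ℕ), ∃ i : ℕ, (∀ u ∈ I, u < i) ∧ ∃ D' ∈ 𝒟,
      ∀ᶠ ν in (𝒱 : Filter ι), c ≤ ∑ s ∈ D' ν, |co e (T ν (e i)) s| ∧
        ∑ u ∈ I, ∑ s ∈ D' ν, |co e (T ν (e u)) s| ≤ c / 2 ^ (t + 2) := by
    intro t I
    have hκ : 0 < c / 2 ^ (t + 2) := by positivity
    have hq : 0 < c / 2 ^ (t + 2) * ((ε * η) ^ 2 / (2 * C ^ 2)) := by positivity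
    obtain ⟨m1, hm1⟩ := exists_nat_ge
      ((I.card : ℝ) * C / (c / 2 ^ (t + 2) * ((ε * η) ^ 2 / (2 * C ^ 2))))
    obtain ⟨m, hm, hmK⟩ := hcon (m1 + 1)
    obtain ⟨J, hJm, hJK, hJbad⟩ := hmK (I.sup id + 1)
    have hJ : J.Nonempty := by
      rw [← Finset.card_pos]
      omega
    obtain ⟨i, hi, D', hD', hev⟩ := pick_ultra hR hX 𝒱 C hC T hT 𝒟 h0 hunion hsub hF ε η hε hη
      J hJ (by rw [hJm]; convert hJbad using 3) I (c / 2 ^ (t + 2)) hκ (by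
        rw [div_le_iff₀ hq] at hm1
        have h1 : (m1 : ℝ) ≤ J.card := by
          rw [hJm]
          exact_mod_cast (by omega : m1 ≤ m)
        calc (I.card : ℝ) * C ≤ m1 * (c / 2 ^ (t + 2) * ((ε * η) ^ 2 / (2 * C ^ 2))) := hm1
          _ ≤ J.card * (c / 2 ^ (t + 2) * ((ε * η) ^ 2 / (2 * C ^ 2))) :=
            mul_le_mul_of_nonneg_right h1 hq.le
          _ = c / 2 ^ (t + 2) * ((ε * η) ^ 2 / (2 * C ^ 2) * J.card) := by ring)
    refine ⟨i, fun u hu => ?_, D', hD', hev⟩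
    have h2 : u ≤ I.sup id := Finset.le_sup (f := id) hu
    have h3 := hJK i hi
    omega
  choose f hf E hE hEv using step
  refine lemT_false hR hX 𝒱 C hC T hT 𝒟 h0 hunion hF c hc (fun t => f t (LemT_F f t))
    (LemT_strictMono f hf) (fun t => E t (LemT_F f t)) (fun t => hE t _) fun t => ?_
  filter_upwards [hEv t (LemT_F f t)] with ν hν
  refine ⟨hν.1, le_trans (le_of_eq ?_) hν.2⟩
  conv_rhs => rw [LemT_F_eq f t]
  rw [Finset.sum_image fun a _ b _ hab => (LemT_strictMono f hf).injective hab]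
  rw [← LemT_F_eq f t]

end Pool.Agent.Comb7f333f.TPart
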