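import Pool.Agent.Lib.MP_7f333f_an.Tame.Proc
import Pool.Agent.Lib.MP_7f333f_an.Tame.LemT

set_option autoImplicit false

/-!
Module GoodCol: signed averages with the property `Sm` for finitely many elements of the group.
-/

namespace Pool.Agent.Comb7f333f.TPart

open Filter Topology

variable {𝓕 : Set (Finset ℕ)} {X : Type*} [NormedAddCommGroup X] [NormedSpace ℝ X] {e : ℕ → X}
  (hR : IsRegular 𝓕) (hX : IsCombSpace 𝓕 e) (sc : Scale 𝓕) {G : Type*} [Group G]
  (A : G →* (X →L[ℝ] X)) (C : ℝ) (hC : 1 ≤ C) (hA : ∀ g x, ‖A g x‖ ≤ C * ‖x‖) (γ : ℕ → G)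

include hR hX sc hC hA

theorem good_col {Ω : Type} [Fintype Ω] (h : Ω → G) (R : ℕ) (ε : ℝ) (hε : 0 < ε) :
    ∃ m : ℕ, 1 ≤ m ∧ ∃ K : ℕ, ∀ J : Finset ℕ, J.card = m → (∀ i ∈ J, K ≤ i) →
      ∃ S : Finset ℕ, ∀ (u : Ω), ∀ j ≤ R, Sm 𝓕 e A γ ε j (A (h u) (av e J S)) := by
  classical
  set N : ℕ := Fintype.card (Ω × Fin (R + 1)) with hN
  set η : ℝ := 1 / (2 * ((N : ℝ) + 1)) with hη
  have hη0 : 0 < η := by positivity
  have key := fun p : Ω × Fin (R + 1) =>
    lemT hR hX (pr p.2) C hC (fun ν => A (op γ ν * h p.1)) (fun ν x => hA _ x) (PD 𝓕 p.2)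
      (PD_empty hR _) (fun D hD D' hD' => PD_union hR sc _ hD hD')
      (fun D hD D' hs => PD_subset hR _ hD hs) (fun D hD => PD_mem hR _ hD) ε η hε hη0
  choose m0 hm0 using key
  set m : ℕ := Finset.univ.sup m0 + 1 with hm
  have hmp : ∀ p, m ≥ m0 p := fun p => by
    have : m0 p ≤ Finset.univ.sup m0 := Finset.le_sup (Finset.mem_univ p)
    omega
  choose K hK using fun p => hm0 p m (hmp p)
  refine ⟨m, by omega, Finset.univ.sup K, ?_⟩
  intro J hJ hJK
  by_contra hcon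
  push Not at hcon
  have hsub : J.powerset ⊆ Finset.univ.biUnion (fun p : Ω × Fin (R + 1) =>
      J.powerset.filter fun S => ∃ D ∈ PD 𝓕 p.2, ∀ᶠ ν in (pr p.2 : Filter (List ℕ)),
        ε < ∑ s ∈ D ν, |co e (A (op γ ν * h p.1) (av e J S)) s|) := by
    intro S hS
    obtain ⟨u, j, hj, hbad⟩ := hcon S
    unfold Sm at hbad
    push Not at hbad
    obtain ⟨D, hD, hev⟩ := hbad
    rw [Finset.mem_biUnion]
    refine ⟨(u, ⟨j, by omega⟩), Finset.mem_univ _, ?_⟩
    rw [Finset.mem_filter]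
    refine ⟨hS, D, hD, ?_⟩
    refine hev.mono fun ν hν => ?_
    have e1 : A (op γ ν * h u) (av e J S) = A (op γ ν) (A (h u) (av e J S)) := by
      rw [map_mul]
      rfl
    show ε < ∑ s ∈ D ν, |co e (A (op γ ν * h u) (av e J S)) s|
    rw [e1]
    exact hν
  have h1 : (J.powerset.card : ℝ) ≤ ∑ _p : Ω × Fin (R + 1), η * 2 ^ m := by
    have h2 : (J.powerset.card : ℝ) ≤ ((∑ p : Ω × Fin (R + 1), (J.powerset.filter fun S =>
        ∃ D ∈ PD 𝓕 p.2, ∀ᶠ ν in (pr p.2 : Filter (List ℕ)),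
        ε < ∑ s ∈ D ν, |co e (A (op γ ν * h p.1) (av e J S)) s|).card : ℕ) : ℝ) := by
      exact_mod_cast (Finset.card_le_card hsub).trans Finset.card_biUnion_le
    refine h2.trans ?_
    push_cast
    refine Finset.sum_le_sum fun p _ => ?_
    have h3 := hK p J hJ (fun i hi =>
      (Finset.le_sup (f := K) (Finset.mem_univ p)).trans (hJK i hi))
    convert h3 using 3
  rw [Finset.card_powerset, hJ, Finset.sum_const, Finset.card_univ, nsmul_eq_mul, ← hN] at h1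
  push_cast at h1
  have h4 : (0 : ℝ) < 2 ^ m := by positivity
  have h5 : (N : ℝ) * η < 1 := by
    rw [hη, mul_one_div, div_lt_one (by positivity)]
    have : (0 : ℝ) ≤ N := Nat.cast_nonneg N
    linarith
  have h6 : (N : ℝ) * (η * 2 ^ m) = N * η * 2 ^ m := by ring
  rw [h6] at h1
  have h7 : (N : ℝ) * η * 2 ^ m < 1 * 2 ^ m := mul_lt_mul_of_pos_right h5 h4
  linarith

end Pool.Agent.Comb7f333f.TPart
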