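import Pool.Agent.Lib.MP_7f333f_an.Tame.Api
import Pool.Agent.Lib.MP_7f333f_an.Tame.Sec

set_option autoImplicit false

/-!
Module Row: the row bound for finitely many operators with localised sets.
-/

namespace Pool.Agent.Comb7f333f.TPart

open Filter Topology

variable {𝓕 : Set (Finset ℕ)} {X : Type*} [NormedAddCommGroup X] [NormedSpace ℝ X] {e : ℕ → X}
  (hR : IsRegular 𝓕) (hX : IsCombSpace 𝓕 e) (sc : Scale 𝓕)

include hR hX

theorem row_sum {Ω : Type} [Fintype Ω] (T : Ω → X →L[ℝ] X) (C ε : ℝ) (hC : 1 ≤ C) (Q : ℕ)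
    (q β β' : Ω → ℕ) (hq : ∀ w, q w ≤ Q) (hβ : ∀ w, sc.X (Fintype.card Ω) Q ≤ β w)
    (hdisj : ∀ w w', w ≠ w' → β' w ≤ β w' ∨ β' w' ≤ β w) (E : Ω → Finset ℕ)
    (h : ∀ w x, ∃ D ∈ Sc 𝓕 (q w), (∀ s ∈ D, β w < s ∧ s ≤ β' w) ∧
      ∑ s ∈ E w, |co e (T w x) s| ≤ ε * ‖x‖ + C * ∑ s ∈ D, |co e x s|) (x : X) :
    ∑ w, ∑ s ∈ E w, |co e (T w x) s| ≤ (Fintype.card Ω * ε + C) * ‖x‖ := by
  classical
  choose D hD hDβ hDs using fun w => h w x
  have hU : Finset.univ.biUnion D ∈ Sc 𝓕 (sc.X (Fintype.card Ω) Q) := by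
    refine Scale.un' hR sc (Fintype.card Ω) Q Finset.univ (by simp) D ?_ ?_
    · intro w _
      exact ⟨q w, hq w, hD w⟩
    · intro w _ s hs
      exact lt_of_le_of_lt (hβ w) (hDβ w s hs).1
  have hdj : ((Finset.univ : Finset Ω) : Set Ω).PairwiseDisjoint D := by
    intro w _ w' _ hww
    rw [Function.onFun, Finset.disjoint_left]
    intro s hs hs'
    have h1 := hDβ w s hs
    have h2 := hDβ w' s hs'
    rcases hdisj w w' hww with h3 | h3 <;> omega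
  have h1 : ∑ w, ∑ s ∈ D w, |co e x s| ≤ ‖x‖ := by
    rw [← Finset.sum_biUnion hdj]
    exact SB_co hR hX x _ (Sc_mem hR hU)
  have h2 : ∑ w, ∑ s ∈ E w, |co e (T w x) s| ≤
      ∑ w, (ε * ‖x‖ + C * ∑ s ∈ D w, |co e x s|) := Finset.sum_le_sum fun w _ => hDs w
  refine h2.trans ?_
  have h3 := mul_le_mul_of_nonneg_left h1 (by linarith : 0 ≤ C)
  rw [Finset.mul_sum] at h3
  rw [Finset.sum_add_distrib, Finset.sum_const, Finset.card_univ, nsmul_eq_mul, add_mul, mul_assoc]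
  linarith

end Pool.Agent.Comb7f333f.TPart
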