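import Mathlib

set_option autoImplicit false

/-!
Module FlatA: a greedy argument. If every measure carried by a union of `K` sets of the class `𝓜`
gives a fair part of its mass to one set of the class, then so does every measure.
-/

namespace Pool.Agent.Comb7f333f.TPart

open Classical in
/-- the class contains a subset of `B` of maximal mass -/
theorem FlatA_best (𝓜 : Set (Finset ℕ)) (h0 : ∅ ∈ 𝓜) (a : ℕ → ℝ) (B : Finset ℕ) :
    ∃ M ∈ 𝓜, M ⊆ B ∧ ∀ M' ∈ 𝓜, M' ⊆ B → ∑ b ∈ M', a b ≤ ∑ b ∈ M, a b := by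
  obtain ⟨M, hM, hmax⟩ := Finset.exists_max_image (B.powerset.filter (fun M => M ∈ 𝓜))
    (fun M => ∑ b ∈ M, a b) ⟨∅, by simp [h0]⟩
  rw [Finset.mem_filter, Finset.mem_powerset] at hM
  refine ⟨M, hM.2, hM.1, fun M' hM' hB => hmax M' ?_⟩
  rw [Finset.mem_filter, Finset.mem_powerset]
  exact ⟨hB, hM'⟩

theorem flat_greedy (𝓜 : Set (Finset ℕ)) (hsub : ∀ M ∈ 𝓜, ∀ M', M' ⊆ M → M' ∈ 𝓜)
    (h1 : ∀ b, {b} ∈ 𝓜) (δ : ℝ) (hδ : 0 < δ) (K : ℕ) (hK : 2 ≤ δ * K)
    (h : ∀ U : Fin K → Finset ℕ, (∀ i, U i ∈ 𝓜) → ∀ a : ℕ → ℝ, (∀ b, 0 ≤ a b) →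
      ∃ M ∈ 𝓜, M ⊆ Finset.univ.biUnion U ∧
        δ * ∑ b ∈ Finset.univ.biUnion U, a b ≤ ∑ b ∈ M, a b)
    (B : Finset ℕ) (a : ℕ → ℝ) (ha : ∀ b, 0 ≤ a b) :
    ∃ M ∈ 𝓜, M ⊆ B ∧ ∑ b ∈ B, a b ≤ 2 / δ * ∑ b ∈ M, a b := by
  have h0 : ∅ ∈ 𝓜 := hsub {0} (h1 0) ∅ (Finset.empty_subset _)
  choose best hb1 hb2 hb3 using FlatA_best 𝓜 h0 a
  have hKpos : 0 < K := by
    rcases Nat.eq_zero_or_pos K with h' | h'
    · rw [h'] at hK
      norm_num at hK
    · exact h'
  obtain ⟨n, hn⟩ : ∃ n, B.card = n := ⟨_, rfl⟩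
  induction n using Nat.strong_induction_on generalizing B with
  | _ n ih =>
    by_cases hz : ∀ b ∈ B, a b = 0
    · refine ⟨∅, h0, Finset.empty_subset _, ?_⟩
      rw [Finset.sum_eq_zero hz]
      simp
    · push Not at hz
      obtain ⟨b0, hb0, hab0⟩ := hz
      have hab0' : 0 < a b0 := lt_of_le_of_ne (ha b0) (Ne.symm hab0)
      -- the greedy sequence
      let Bs : ℕ → Finset ℕ := fun i => Nat.rec B (fun _ C => C \ best C) i
      have hBs0 : Bs 0 = B := rfl
      have hBss : ∀ i, Bs (i + 1) = Bs i \ best (Bs i) := fun i => rfl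
      have hanti : ∀ i j, i ≤ j → Bs j ⊆ Bs i := by
        intro i j hij
        induction j, hij using Nat.le_induction with
        | base => exact Finset.Subset.refl _
        | succ j _ ihj =>
          rw [hBss]
          exact Finset.sdiff_subset.trans ihj
      have hmono : ∀ i j, i ≤ j → ∑ b ∈ best (Bs j), a b ≤ ∑ b ∈ best (Bs i), a b := by
        intro i j hij
        exact hb3 (Bs i) (best (Bs j)) (hb1 _) ((hb2 _).trans (hanti i j hij))
      have htel : ∀ i, ∑ b ∈ B, a b = ∑ j ∈ Finset.range i, ∑ b ∈ best (Bs j), a b +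
          ∑ b ∈ Bs i, a b := by
        intro i
        induction i with
        | zero => simp [hBs0]
        | succ i ihi =>
          rw [Finset.sum_range_succ, ihi, hBss, ← Finset.sum_sdiff (hb2 (Bs i))]
          ring
      set U : Fin K → Finset ℕ := fun i => best (Bs i) with hU
      have hUB : ∀ i, Bs i = B \ (Finset.range i).biUnion (fun j => best (Bs j)) := by
        intro i
        induction i with
        | zero => simp [hBs0]
        | succ i ihi =>
          rw [hBss, Finset.range_add_one, Finset.biUnion_insert]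
          ext x
          have hx := Finset.ext_iff.1 ihi x
          rw [Finset.mem_sdiff] at hx
          rw [Finset.mem_sdiff, Finset.mem_sdiff, Finset.mem_union, hx]
          tauto
      have hUeq : Finset.univ.biUnion U = (Finset.range K).biUnion (fun j => best (Bs j)) := by
        ext x
        simp only [Finset.mem_biUnion, Finset.mem_univ, true_and, Finset.mem_range, hU]
        constructor
        · rintro ⟨i, hi⟩
          exact ⟨i, i.2, hi⟩
        · rintro ⟨i, hi, hx⟩
          exact ⟨⟨i, hi⟩, hx⟩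
      have hUsub : Finset.univ.biUnion U ⊆ B := by
        rw [Finset.biUnion_subset]
        intro i _
        exact (hb2 _).trans (hanti 0 i (Nat.zero_le _))
      have hmassU : ∑ b ∈ Finset.univ.biUnion U, a b =
          ∑ j ∈ Finset.range K, ∑ b ∈ best (Bs j), a b := by
        have e1 := htel K
        have e2 := Finset.sum_sdiff (f := a) hUsub
        rw [hUeq] at e2 ⊢
        rw [← hUB K] at e2
        linarith
      obtain ⟨M, hM1, hM2, hM3⟩ := h U (fun i => hb1 _) a ha
      set θ : ℝ := ∑ b ∈ best B, a b with hθ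
      have hMθ : ∑ b ∈ M, a b ≤ θ := hb3 B M hM1 (hM2.trans hUsub)
      have hθpos : 0 < θ := by
        have h2 := hb3 B {b0} (h1 b0) (by simpa using hb0)
        rw [Finset.sum_singleton] at h2
        exact lt_of_lt_of_le hab0' h2
      have hUθ : δ * ∑ b ∈ Finset.univ.biUnion U, a b ≤ θ := hM3.trans hMθ
      -- the last set
      have hlast : (K : ℝ) * ∑ b ∈ best (Bs (K - 1)), a b ≤ ∑ b ∈ Finset.univ.biUnion U, a b := by
        rw [hmassU, ← nsmul_eq_mul]
        have h2 := Finset.card_nsmul_le_sum (Finset.range K) (fun j => ∑ b ∈ best (Bs j), a b)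
          (∑ b ∈ best (Bs (K - 1)), a b) (fun j hj => hmono j (K - 1) (by
            rw [Finset.mem_range] at hj
            omega))
        rwa [Finset.card_range] at h2
      have hKr : (0 : ℝ) < K := by exact_mod_cast hKpos
      have hlast2 : ∑ b ∈ best (Bs (K - 1)), a b ≤ θ / 2 := by
        have hnn : 0 ≤ ∑ b ∈ best (Bs (K - 1)), a b := Finset.sum_nonneg fun b _ => ha b
        have h2 : δ * ((K : ℝ) * ∑ b ∈ best (Bs (K - 1)), a b) ≤ θ :=
          (mul_le_mul_of_nonneg_left hlast hδ.le).trans hUθ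
        nlinarith
      -- the rest
      have hcard : (Bs K).card < n := by
        have h2 : Bs K ⊆ Bs 1 := hanti 1 K hKpos
        have h3 : best B ≠ ∅ := by
          intro h4
          rw [hθ, h4, Finset.sum_empty] at hθpos
          exact lt_irrefl _ hθpos
        have h5 : (Bs 1).card < B.card := by
          rw [show Bs 1 = B \ best B from rfl]
          refine Finset.card_lt_card ?_
          rw [Finset.ssubset_iff_subset_ne]
          refine ⟨Finset.sdiff_subset, fun h6 => ?_⟩
          obtain ⟨x, hx⟩ := Finset.nonempty_iff_ne_empty.mpr h3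
          have h7 : x ∈ B \ best B := by
            rw [h6]
            exact hb2 B hx
          rw [Finset.mem_sdiff] at h7
          exact h7.2 hx
        have h8 := Finset.card_le_card h2
        omega
      obtain ⟨M', hM'1, hM'2, hM'3⟩ := ih (Bs K).card hcard (Bs K) rfl
      have hM'θ : ∑ b ∈ M', a b ≤ θ / 2 :=
        (hb3 (Bs (K - 1)) M' hM'1 (hM'2.trans (hanti _ _ (by omega)))).trans hlast2
      refine ⟨best B, hb1 B, hb2 B, ?_⟩
      have e1 := htel K
      rw [← hmassU] at e1
      rw [e1]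
      have e2 : ∑ b ∈ Finset.univ.biUnion U, a b ≤ θ / δ := by
        rw [le_div_iff₀ hδ]
        linarith
      have e3 : 2 / δ * ∑ b ∈ M', a b ≤ 2 / δ * (θ / 2) :=
        mul_le_mul_of_nonneg_left hM'θ (by positivity)
      have e4 : 2 / δ * (θ / 2) = θ / δ := by ring
      have e5 : 2 / δ * θ = θ / δ + θ / δ := by ring
      linarith

end Pool.Agent.Comb7f333f.TPart
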