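import Pool.Agent.Lib.MP_7f333f_an.Tame.Sec

set_option autoImplicit false

/-!
Module FlatB: the blocks of `m` successive integers.
-/

namespace Pool.Agent.Comb7f333f.TPart

variable {𝓕 : Set (Finset ℕ)}

/-- The blocks of `m` successive integers, from `P` on. -/
def blk (P m b : ℕ) : Finset ℕ := Finset.Ico (P + b * m) (P + (b + 1) * m)

/-- The last element of the block. -/
def top (P m b : ℕ) : ℕ := P + (b + 1) * m - 1

private theorem mem_blk' {P m b x : ℕ} : x ∈ blk P m b ↔ ∃ t < m, x = P + b * m + t := by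
  unfold blk
  rw [Finset.mem_Ico]
  constructor
  · rintro ⟨h1, h2⟩
    refine ⟨x - (P + b * m), ?_, by omega⟩
    rw [Nat.add_mul, Nat.one_mul] at h2
    omega
  · rintro ⟨t, ht, rfl⟩
    rw [Nat.add_mul, Nat.one_mul]
    omega

private theorem top_eq' {P m b : ℕ} (hm : 1 ≤ m) : top P m b = P + b * m + (m - 1) := by
  unfold top
  rw [Nat.add_mul, Nat.one_mul]
  omega

private theorem top_strictMono' (P m : ℕ) (hm : 1 ≤ m) : StrictMono (top P m) := by
  intro b b' h
  rw [top_eq' hm, top_eq' hm]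
  have : b * m < b' * m := Nat.mul_lt_mul_of_pos_right h hm
  omega

private theorem blk_disjoint' (P m : ℕ) {b b' x : ℕ} (h : x ∈ blk P m b) (h' : x ∈ blk P m b') :
    b = b' := by
  rw [mem_blk'] at h h'
  obtain ⟨t, ht, hx⟩ := h
  obtain ⟨t', ht', hx'⟩ := h'
  rcases lt_trichotomy b b' with h1 | h1 | h1
  · have h2 : (b + 1) * m ≤ b' * m := Nat.mul_le_mul_right m h1
    rw [Nat.add_mul, Nat.one_mul] at h2
    omega
  · exact h1
  · have h2 : (b' + 1) * m ≤ b * m := Nat.mul_le_mul_right m h1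
    rw [Nat.add_mul, Nat.one_mul] at h2
    omega

/-- The union of the blocks of `K` sets of indices whose last elements form sets of the section at
`q` belongs to the section at `sc.X (2 * m * K) q`. -/
theorem blk_union (hR : IsRegular 𝓕) (sc : Scale 𝓕) (q m K P : ℕ) (hm : 1 ≤ m)
    (hP : sc.X (2 * m * K) q < P) (hq : ∀ s, P ≤ s → {s} ∈ Sc 𝓕 q) (U : Fin K → Finset ℕ)
    (hU : ∀ i, (U i).image (top P m) ∈ Sc 𝓕 q) :
    (Finset.univ.biUnion U).biUnion (blk P m) ∈ Sc 𝓕 (sc.X (2 * m * K) q) := by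
  classical
  -- the nonminimal elements and the minimal ones
  obtain ⟨A, hA⟩ : ∃ A : Fin K × Fin m × Bool → Finset ℕ, A = fun x =>
      if x.2.2 then ((U x.1).filter fun b => ∃ c ∈ U x.1, c < b).image
        (fun b => P + b * m + (x.2.1 : ℕ))
      else ((U x.1).filter fun b => ∀ c ∈ U x.1, b ≤ c).image
        (fun b => P + b * m + (x.2.1 : ℕ)) := ⟨_, rfl⟩
  have hcard : (Finset.univ : Finset (Fin K × Fin m × Bool)).card ≤ 2 * m * K := by
    rw [Finset.card_univ, Fintype.card_prod, Fintype.card_prod, Fintype.card_fin,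
      Fintype.card_fin, Fintype.card_bool]
    exact le_of_eq (by ring)
  have hge : ∀ x, ∀ s ∈ A x, P ≤ s := by
    intro x s hs
    rw [hA] at hs
    simp only at hs
    split_ifs at hs
    · obtain ⟨b, _, rfl⟩ := Finset.mem_image.1 hs
      omega
    · obtain ⟨b, _, rfl⟩ := Finset.mem_image.1 hs
      omega
  have hsec : ∀ x, A x ∈ Sc 𝓕 q := by
    rintro ⟨i, t, e⟩
    rw [hA]
    cases e
    · simp only [Bool.false_eq_true, if_false]
      rcases (((U i).filter fun b => ∀ c ∈ U i, b ≤ c)).eq_empty_or_nonempty with h | ⟨b, hb⟩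
      · rw [h, Finset.image_empty]
        exact Sc_empty hR q
      · have h1 : ((U i).filter fun b => ∀ c ∈ U i, b ≤ c) = {b} := by
          ext b'
          rw [Finset.mem_singleton]
          constructor
          · intro hb'
            rw [Finset.mem_filter] at hb hb'
            exact le_antisymm (hb'.2 _ hb.1) (hb.2 _ hb'.1)
          · rintro rfl
            exact hb
        rw [h1, Finset.image_singleton]
        exact hq _ (by omega)
    · simp only [if_true]
      have h1 : ∀ x ∈ ((U i).filter fun b => ∃ c ∈ U i, c < b).image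
          (fun b => P + b * m + (t : ℕ)), ∃ y ∈ (U i).image (top P m), ∃ b c : ℕ,
            x = P + b * m + (t : ℕ) ∧ b ∈ U i ∧ c ∈ U i ∧ c < b ∧ (∀ d ∈ U i, d < b → d ≤ c) ∧
              y = top P m c := by
        intro x hx
        obtain ⟨b, hb, rfl⟩ := Finset.mem_image.1 hx
        rw [Finset.mem_filter] at hb
        obtain ⟨hb1, c, hc, hcb⟩ := hb
        have hne : ((U i).filter fun d => d < b).Nonempty :=
          ⟨c, Finset.mem_filter.2 ⟨hc, hcb⟩⟩
        have h2 := Finset.max'_mem _ hne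
        rw [Finset.mem_filter] at h2
        refine ⟨top P m (((U i).filter fun d => d < b).max' hne),
          Finset.mem_image_of_mem _ h2.1, b, _, rfl, hb1, h2.1, h2.2, ?_, rfl⟩
        intro d hd hdb
        exact Finset.le_max' _ _ (Finset.mem_filter.2 ⟨hd, hdb⟩)
      choose! φ hφ bb cc hxb hbU hcU hcb hmax hφc using h1
      refine Sc_of_inj hR (hU i) φ hφ ?_ ?_
      · intro x hx
        rw [hφc x hx, top_eq' hm]
        have h2 := hxb x hx
        have h3 : (cc x + 1) * m ≤ bb x * m := Nat.mul_le_mul_right m (hcb x hx)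
        rw [Nat.add_mul, Nat.one_mul] at h3
        omega
      · intro x hx x' hx' heq
        rw [hφc x hx, hφc x' hx'] at heq
        have h2 := (top_strictMono' P m hm).injective heq
        have h3 : bb x = bb x' := by
          rcases lt_trichotomy (bb x) (bb x') with h4 | h4 | h4
          · have h5 := hmax x' hx' _ (hbU x hx) h4
            have h6 := hcb x hx
            omega
          · exact h4
          · have h5 := hmax x hx _ (hbU x' hx') h4
            have h6 := hcb x' hx'
            omega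
        rw [hxb x hx, hxb x' hx', h3]
  have hmain := Scale.un' hR sc (2 * m * K) q Finset.univ hcard A
    (fun x _ => ⟨q, le_rfl, hsec x⟩) (fun x _ s hs => lt_of_lt_of_le hP (hge x s hs))
  refine Sc_subset hR hmain ?_
  intro x hx
  rw [Finset.mem_biUnion] at hx
  obtain ⟨b, hb, hxb⟩ := hx
  rw [Finset.mem_biUnion] at hb
  obtain ⟨i, _, hbi⟩ := hb
  obtain ⟨t, ht, hxt⟩ := mem_blk'.1 hxb
  rw [Finset.mem_biUnion]
  by_cases h : ∃ c ∈ U i, c < b
  · refine ⟨(i, ⟨t, ht⟩, true), Finset.mem_univ _, ?_⟩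
    rw [hA]
    simp only [if_true]
    exact Finset.mem_image.2 ⟨b, Finset.mem_filter.2 ⟨hbi, h⟩, hxt.symm⟩
  · refine ⟨(i, ⟨t, ht⟩, false), Finset.mem_univ _, ?_⟩
    rw [hA]
    simp only [Bool.false_eq_true, if_false]
    push Not at h
    exact Finset.mem_image.2 ⟨b, Finset.mem_filter.2 ⟨hbi, h⟩, hxt.symm⟩

/-- The last elements of the blocks which meet a set of the section. -/
theorem blk_hit (hR : IsRegular 𝓕) (q m P : ℕ) (hm : 1 ≤ m) {E : Finset ℕ} (hE : E ∈ Sc 𝓕 q)
    (B : Finset ℕ) :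
    ((B.filter fun b => ¬ Disjoint E (blk P m b)).image (top P m)) ∈ Sc 𝓕 q := by
  classical
  have h1 : ∀ x ∈ (B.filter fun b => ¬ Disjoint E (blk P m b)).image (top P m),
      ∃ y ∈ E, ∃ b : ℕ, x = top P m b ∧ y ∈ blk P m b := by
    intro x hx
    obtain ⟨b, hb, rfl⟩ := Finset.mem_image.1 hx
    rw [Finset.mem_filter, Finset.not_disjoint_iff] at hb
    obtain ⟨_, y, hy1, hy2⟩ := hb
    exact ⟨y, hy1, b, rfl, hy2⟩
  choose! φ hφ bb hxb hφb using h1
  refine Sc_of_inj hR hE φ hφ ?_ ?_
  · intro x hx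
    have h2 := hxb x hx
    rw [top_eq' hm] at h2
    obtain ⟨t, ht, h3⟩ := mem_blk'.1 (hφb x hx)
    omega
  · intro x hx x' hx' heq
    have h2 := hφb x hx
    rw [heq] at h2
    rw [hxb x hx, hxb x' hx', blk_disjoint' P m h2 (hφb x' hx')]

theorem top_strictMono (P m : ℕ) (hm : 1 ≤ m) : StrictMono (top P m) :=
  top_strictMono' P m hm

theorem blk_disjoint (P m : ℕ) {b b' : ℕ} (h : b ≠ b') : Disjoint (blk P m b) (blk P m b') := by
  rw [Finset.disjoint_left]
  intro x hx hx'
  exact h (blk_disjoint' P m hx hx')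

theorem blk_card (P m b : ℕ) : (blk P m b).card = m := by
  unfold blk
  rw [Nat.card_Ico, Nat.add_mul, Nat.one_mul]
  omega

end Pool.Agent.Comb7f333f.TPart
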