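import Pool.Agent.Lib.MP_7f333f_an.Tame.Api
import Pool.Agent.Lib.MP_7f333f_an.Tame.FlatA
import Pool.Agent.Lib.MP_7f333f_an.Tame.FlatB

set_option autoImplicit false

/-!
Module Flat: configurations of disjoint blocks with weights which are flat for a section.
-/

namespace Pool.Agent.Comb7f333f.TPart

open Filter Topology

/-- A configuration of `N` disjoint sets `J n`, `n < N`, of `m` elements, beyond `P`, whose union
belongs to the section at `q'`, with weights `c n` such that every set of the section at `q` meets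
sets of total weight at most `δ`. -/
structure Cfg (𝓕 : Set (Finset ℕ)) (q q' m P : ℕ) (δ : ℝ) (N : ℕ) (J : ℕ → Finset ℕ)
    (c : ℕ → ℝ) : Prop where
  card : ∀ n < N, (J n).card = m
  empty : ∀ n, N ≤ n → J n = ∅ ∧ c n = 0
  beyond : ∀ n, ∀ i ∈ J n, P < i
  disj : ∀ n n', n ≠ n' → Disjoint (J n) (J n')
  union : (Finset.range N).biUnion J ∈ Sc 𝓕 q'
  nonneg : ∀ n, 0 ≤ c n
  total : ∑ n ∈ Finset.range N, c n = 1
  flat : ∀ E ∈ Sc 𝓕 q, ∑ n ∈ (Finset.range N).filter (fun n => ¬ Disjoint E (J n)), c n ≤ δ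

private theorem flat_enum (V : Finset ℕ) : ∃ φ : Fin V.card → ℕ, Function.Injective φ ∧
    (∀ i, φ i ∈ V) ∧ ∀ F : ℕ → ℝ, ∑ i, F (φ i) = ∑ b ∈ V, F b := by
  refine ⟨fun i => V.orderEmbOfFin rfl i, (V.orderEmbOfFin rfl).injective,
    fun i => V.orderEmbOfFin_mem rfl i, fun F => ?_⟩
  refine Finset.sum_bij (fun i _ => V.orderEmbOfFin rfl i) (fun i _ => V.orderEmbOfFin_mem rfl i)
    (fun i _ j _ h => (V.orderEmbOfFin rfl).injective h) (fun b hb => ?_) (fun i _ => rfl)
  have h1 : b ∈ Set.range (V.orderEmbOfFin rfl) := by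
    rw [Finset.range_orderEmbOfFin]
    exact hb
  obtain ⟨i, hi⟩ := h1
  exact ⟨i, Finset.mem_univ i, hi⟩

private theorem flat_cfg (𝓕 : Set (Finset ℕ)) (q q' m P : ℕ) (δ : ℝ) (V : Finset ℕ)
    (J : ℕ → Finset ℕ) (c : ℕ → ℝ) (h1 : ∀ b ∈ V, (J b).card = m)
    (h2 : ∀ b ∈ V, ∀ i ∈ J b, P < i) (h3 : ∀ b ∈ V, ∀ b' ∈ V, b ≠ b' → Disjoint (J b) (J b'))
    (h4 : V.biUnion J ∈ Sc 𝓕 q') (h5 : ∀ b ∈ V, 0 ≤ c b) (h6 : ∑ b ∈ V, c b = 1)
    (h7 : ∀ E ∈ Sc 𝓕 q, ∑ b ∈ V.filter (fun b => ¬ Disjoint E (J b)), c b ≤ δ) :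
    ∃ (N : ℕ) (J : ℕ → Finset ℕ) (c : ℕ → ℝ), Cfg 𝓕 q q' m P δ N J c := by
  classical
  obtain ⟨φ, hφ, hV, hsum⟩ := flat_enum V
  have hJ1 : ∀ n (h : n < V.card), (if h : n < V.card then J (φ ⟨n, h⟩) else ∅) =
      J (φ ⟨n, h⟩) := fun n h => dif_pos h
  have hJ2 : ∀ n, V.card ≤ n → (if h : n < V.card then J (φ ⟨n, h⟩) else ∅) = ∅ :=
    fun n h => dif_neg (not_lt.2 h)
  have hc1 : ∀ n (h : n < V.card), (if h : n < V.card then c (φ ⟨n, h⟩) else 0) =
      c (φ ⟨n, h⟩) := fun n h => dif_pos h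
  have hc2 : ∀ n, V.card ≤ n → (if h : n < V.card then c (φ ⟨n, h⟩) else 0) = 0 :=
    fun n h => dif_neg (not_lt.2 h)
  refine ⟨V.card, fun n => if h : n < V.card then J (φ ⟨n, h⟩) else ∅,
    fun n => if h : n < V.card then c (φ ⟨n, h⟩) else 0, ?_, ?_, ?_, ?_, ?_, ?_, ?_, ?_⟩
  · intro n hn
    show (if h : n < V.card then J (φ ⟨n, h⟩) else ∅).card = m
    rw [hJ1 n hn]
    exact h1 _ (hV _)
  · intro n hn
    exact ⟨hJ2 n hn, hc2 n hn⟩
  · intro n i hi
    change i ∈ (if h : n < V.card then J (φ ⟨n, h⟩) else ∅) at hi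
    by_cases hn : n < V.card
    · rw [hJ1 n hn] at hi
      exact h2 _ (hV _) i hi
    · rw [hJ2 n (not_lt.1 hn)] at hi
      exact absurd hi (Finset.notMem_empty i)
  · intro n n' hne
    show Disjoint (if h : n < V.card then J (φ ⟨n, h⟩) else ∅)
      (if h : n' < V.card then J (φ ⟨n', h⟩) else ∅)
    by_cases hn : n < V.card
    · by_cases hn' : n' < V.card
      · rw [hJ1 n hn, hJ1 n' hn']
        refine h3 _ (hV _) _ (hV _) fun h => hne ?_
        have := hφ h
        exact congrArg Fin.val this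
      · rw [hJ2 n' (not_lt.1 hn')]
        exact Finset.disjoint_empty_right _
    · rw [hJ2 n (not_lt.1 hn)]
      exact Finset.disjoint_empty_left _
  · have h8 : (Finset.range V.card).biUnion
        (fun n => if h : n < V.card then J (φ ⟨n, h⟩) else ∅) = V.biUnion J := by
      ext x
      simp only [Finset.mem_biUnion, Finset.mem_range]
      constructor
      · rintro ⟨n, hn, hx⟩
        rw [hJ1 n hn] at hx
        exact ⟨_, hV _, hx⟩
      · rintro ⟨b, hb, hx⟩
        have h9 : ∃ i, φ i = b := by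
          by_contra hcon
          push Not at hcon
          have h10 := hsum fun x => if x = b then 1 else 0
          simp only [hcon, if_false, Finset.sum_const_zero, Finset.sum_ite_eq', hb, if_true] at h10
          exact zero_ne_one h10
        obtain ⟨i, rfl⟩ := h9
        refine ⟨i, i.2, ?_⟩
        rw [hJ1 _ i.2]
        exact hx
    rw [h8]
    exact h4
  · intro n
    show 0 ≤ (if h : n < V.card then c (φ ⟨n, h⟩) else 0)
    by_cases hn : n < V.card
    · rw [hc1 n hn]
      exact h5 _ (hV _)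
    · rw [hc2 n (not_lt.1 hn)]
  · rw [Finset.sum_range]
    have h8 : ∀ i : Fin V.card, (if h : (i : ℕ) < V.card then c (φ ⟨i, h⟩) else 0) = c (φ i) :=
      fun i => hc1 _ i.2
    rw [Finset.sum_congr rfl fun i _ => h8 i, hsum, h6]
  · intro E hE
    rw [Finset.sum_filter, Finset.sum_range]
    have h8 : ∀ i : Fin V.card,
        (if ¬ Disjoint E (if h : (i : ℕ) < V.card then J (φ ⟨i, h⟩) else ∅) then
          (if h : (i : ℕ) < V.card then c (φ ⟨i, h⟩) else 0) else 0) =
        (fun b => if ¬ Disjoint E (J b) then c b else 0) (φ i) := by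
      intro i
      rw [hJ1 _ i.2, hc1 _ i.2]
    rw [Finset.sum_congr rfl fun i _ => h8 i, hsum fun b => if ¬ Disjoint E (J b) then c b else 0,
      ← Finset.sum_filter]
    exact h7 E hE

variable {𝓕 : Set (Finset ℕ)} {X : Type*} [NormedAddCommGroup X] [NormedSpace ℝ X] {e : ℕ → X}
  (hR : IsRegular 𝓕) (hX : IsCombSpace 𝓕 e) (sc : Scale 𝓕) (hL : Large 𝓕)

include hR hX in
private theorem flat_small (t : ℕ → ℕ) (ht : StrictMono t) (δ : ℝ) (hδ : 0 < δ)
    (h : ∀ (B : Finset ℕ) (a : ℕ → ℝ), (∀ b, 0 ≤ a b) →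
      ∃ M : Finset ℕ, M.image t ∈ 𝓕 ∧ M ⊆ B ∧ ∑ b ∈ B, a b ≤ 2 / δ * ∑ b ∈ M, a b) : False := by
  classical
  obtain ⟨c, hc, hc2⟩ := exists_conv_small hR hX (fun b => e (t b)) 1
    (fun j => norm_e_le hR hX (t j)) (by
      intro k
      refine tendsto_const_nhds.congr' ?_
      filter_upwards [eventually_gt_atTop k] with j hj
      have h1 : ef e k (e (t j)) = if t j = k then 1 else 0 := co_basis hR hX (t j) k
      rw [h1, if_neg]
      have := ht.id_le j
      have h2 : j ≤ t j := this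
      omega) (δ / 4) (by positivity) 0
  obtain ⟨M, hM, hMB, hle⟩ := h c.support c hc.nonneg
  rw [← mass_eq_sum, hc.mass_eq] at hle
  have h1 : ∑ s ∈ M.image t, |co e (Finsupp.linearCombination ℝ (fun b => e (t b)) c) s| ≤
      ‖Finsupp.linearCombination ℝ (fun b => e (t b)) c‖ := SB_co hR hX _ _ hM
  rw [Finset.sum_image fun x _ y _ hxy => ht.injective hxy] at h1
  have h2 : ∀ b ∈ M, |co e (Finsupp.linearCombination ℝ (fun b => e (t b)) c) (t b)| = c b := by
    intro b hb
    rw [Finsupp.linearCombination_apply, Finsupp.sum, co_sum, Finset.sum_eq_single b]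
    · rw [co_smul, co_basis hR hX, if_pos rfl, mul_one, abs_of_nonneg (hc.nonneg b)]
    · intro b' _ hb'
      rw [co_smul, co_basis hR hX, if_neg (fun h3 => hb' (ht.injective h3)), mul_zero]
    · intro hb'
      exact absurd (hMB hb) hb'
  rw [Finset.sum_congr rfl h2] at h1
  have h3 : ∑ b ∈ M, c b < δ / 4 := lt_of_le_of_lt h1 hc2
  have h4 : 2 / δ * ∑ b ∈ M, c b < 2 / δ * (δ / 4) := mul_lt_mul_of_pos_left h3 (by positivity)
  have h5 : 2 / δ * (δ / 4) = 1 / 2 := by field_simp; norm_num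
  linarith

include hR hX sc hL

theorem exists_cfg (q m : ℕ) (hm : 1 ≤ m) (δ : ℝ) (hδ : 0 < δ) :
    ∃ q' : ℕ, ∀ P : ℕ, ∃ (N : ℕ) (J : ℕ → Finset ℕ) (c : ℕ → ℝ), Cfg 𝓕 q q' m P δ N J c := by
  classical
  -- singletons of the section
  obtain ⟨q0, hq0⟩ := hL
  obtain ⟨A, hA, hAc⟩ := hq0 1
  obtain ⟨s0, hs0⟩ := Finset.card_pos.1 hAc
  have hs1 : ({s0} : Finset ℕ) ∈ Sc 𝓕 q0 :=
    Sc_subset hR hA (Finset.singleton_subset_iff.2 hs0)
  have hs2 : ∀ s, s0 ≤ s → ({s} : Finset ℕ) ∈ Sc 𝓕 q0 := by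
    intro s hs
    refine Sc_of_inj hR hs1 (fun _ => s0) (fun x _ => Finset.mem_singleton_self s0) ?_ ?_
    · intro x hx
      rw [Finset.mem_singleton] at hx
      rw [hx]
      exact hs
    · intro x hx y hy _
      rw [Finset.mem_coe, Finset.mem_singleton] at hx hy
      rw [hx, hy]
  set r := max q q0 with hr
  have hs3 : ∀ s, max s0 (r + 1) ≤ s → ({s} : Finset ℕ) ∈ Sc 𝓕 r := by
    intro s hs
    refine Sc_mono hR (hs2 s ((le_max_left _ _).trans hs)) (le_max_right _ _) ?_
    intro x hx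
    rw [Finset.mem_singleton] at hx
    have := (le_max_right s0 (r + 1)).trans hs
    omega
  obtain ⟨K, hK⟩ := exists_nat_ge (2 / δ)
  have hK' : 2 ≤ δ * K := by
    rw [div_le_iff₀ hδ] at hK
    linarith
  refine ⟨sc.X (2 * m * K) r, fun P => ?_⟩
  by_contra hcon
  set P' := max P (max (sc.X (2 * m * K) r) (max s0 (r + 1))) + 1 with hP'
  have hP1 : P < P' := by
    have := le_max_left P (max (sc.X (2 * m * K) r) (max s0 (r + 1)))
    omega
  have hP2 : sc.X (2 * m * K) r < P' := by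
    have h1 := le_max_right P (max (sc.X (2 * m * K) r) (max s0 (r + 1)))
    have h2 := le_max_left (sc.X (2 * m * K) r) (max s0 (r + 1))
    omega
  have hP3 : max s0 (r + 1) ≤ P' := by
    have h1 := le_max_right P (max (sc.X (2 * m * K) r) (max s0 (r + 1)))
    have h2 := le_max_right (sc.X (2 * m * K) r) (max s0 (r + 1))
    omega
  have hP4 : r < P' := by
    have := le_max_right s0 (r + 1)
    omega
  have htop : ∀ b, P' ≤ top P' m b := by
    intro b
    unfold top
    have : 1 ≤ (b + 1) * m := Nat.mul_pos (Nat.succ_pos b) hm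
    omega
  have hblk : ∀ b, ∀ i ∈ blk P' m b, P' ≤ i := by
    intro b i hi
    unfold blk at hi
    rw [Finset.mem_Ico] at hi
    have := Nat.zero_le (b * m)
    omega
  have hgr := flat_greedy {M : Finset ℕ | M.image (top P' m) ∈ Sc 𝓕 r}
    (fun M hM M' hM' => Sc_subset hR hM (Finset.image_subset_image hM'))
    (fun b => by
      show ({b} : Finset ℕ).image (top P' m) ∈ Sc 𝓕 r
      rw [Finset.image_singleton]
      exact hs3 _ (hP3.trans (htop b))) δ hδ K hK' (by
      intro U hU a ha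
      have hU' : ∀ i, (U i).image (top P' m) ∈ Sc 𝓕 r := hU
      by_cases hz : ∑ b ∈ Finset.univ.biUnion U, a b = 0
      · refine ⟨∅, ?_, Finset.empty_subset _, ?_⟩
        · show (∅ : Finset ℕ).image (top P' m) ∈ Sc 𝓕 r
          rw [Finset.image_empty]
          exact Sc_empty hR r
        · rw [hz, mul_zero, Finset.sum_empty]
      · have hpos : 0 < ∑ b ∈ Finset.univ.biUnion U, a b :=
          lt_of_le_of_ne (Finset.sum_nonneg fun b _ => ha b) (Ne.symm hz)
        by_contra hno
        push Not at hno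
        apply hcon
        refine flat_cfg 𝓕 q (sc.X (2 * m * K) r) m P δ (Finset.univ.biUnion U) (blk P' m)
          (fun b => a b / ∑ b ∈ Finset.univ.biUnion U, a b) (fun b _ => blk_card P' m b)
          (fun b _ i hi => lt_of_lt_of_le hP1 (hblk b i hi))
          (fun b _ b' _ hne => blk_disjoint P' m hne)
          (blk_union hR sc r m K P' hm hP2 (fun s hs => hs3 s (hP3.trans hs)) U hU')
          (fun b _ => div_nonneg (ha b) hpos.le) ?_ ?_
        · rw [← Finset.sum_div, div_self hz]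
        · intro E hE
          have hE2 : E.filter (fun s => r < s) ∈ Sc 𝓕 r :=
            Sc_mono hR (Sc_subset hR hE (Finset.filter_subset _ _)) (le_max_left _ _)
              fun s hs => (Finset.mem_filter.1 hs).2
          have hfe : (Finset.univ.biUnion U).filter (fun b => ¬ Disjoint E (blk P' m b)) =
              (Finset.univ.biUnion U).filter
                (fun b => ¬ Disjoint (E.filter fun s => r < s) (blk P' m b)) := by
            refine Finset.filter_congr fun b _ => ?_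
            rw [not_iff_not, Finset.disjoint_left, Finset.disjoint_left]
            constructor
            · intro h1 x hx
              exact h1 (Finset.mem_filter.1 hx).1
            · intro h1 x hx hx'
              have h2 := hblk b x hx'
              exact h1 (Finset.mem_filter.2 ⟨hx, by omega⟩) hx'
          rw [hfe, ← Finset.sum_div, div_le_iff₀ hpos]
          have h1 := hno _ (blk_hit hR r m P' hm hE2 (Finset.univ.biUnion U))
            (Finset.filter_subset _ _)
          exact h1.le)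
  refine flat_small hR hX (top P' m) (top_strictMono P' m hm) δ hδ fun B a ha => ?_
  obtain ⟨M, hM, hMB, hle⟩ := hgr B a ha
  exact ⟨M, Sc_mem hR hM, hMB, hle⟩

end Pool.Agent.Comb7f333f.TPart
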