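import Pool.Agent.Lib.MP_7f333f_an.Tame.Use
import Pool.Agent.Lib.MP_7f333f_an.Tame.Flat
import Pool.Agent.Lib.MP_7f333f_an.Tame.Sec

set_option autoImplicit false
set_option linter.unusedVariables false

/-!
Module UseB: the images of the combinations of the columns of a configuration.
-/

namespace Pool.Agent.Comb7f333f.TPart

open Filter Topology

variable {𝓕 : Set (Finset ℕ)} {X : Type*} [NormedAddCommGroup X] [NormedSpace ℝ X] {e : ℕ → X}
  (hR : IsRegular 𝓕) (hX : IsCombSpace 𝓕 e)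

private theorem useB_abs_sg (S : Finset ℕ) (s : ℕ) : |sg S s| = 1 := by
  unfold sg
  split_ifs <;> simp

include hR hX

/-- The sum of the coordinates of an average over a set. -/
private theorem useB_sum_av (J S D : Finset ℕ) :
    ∑ s ∈ D, |co e (av e J S) s| ≤ if Disjoint D J then 0 else 1 := by
  have h1 : ∀ s, |co e (av e J S) s| = if s ∈ J then 1 / (J.card : ℝ) else 0 := by
    intro s
    rw [co_av hR hX]
    split_ifs
    · rw [abs_div, useB_abs_sg, Nat.abs_cast]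
    · exact abs_zero
  simp only [h1]
  rw [← Finset.sum_filter, Finset.sum_const, nsmul_eq_mul]
  split_ifs with h
  · rw [Finset.filter_false_of_mem fun s hs hs' => (Finset.disjoint_left.1 h) hs hs']
    simp
  · have h2 : (D.filter (fun s => s ∈ J)).card ≤ J.card :=
      Finset.card_le_card fun s hs => (Finset.mem_filter.1 hs).2
    obtain ⟨s, hs1, hs2⟩ := Finset.not_disjoint_iff.1 h
    have h3 : 0 < J.card := Finset.card_pos.2 ⟨s, hs2⟩
    have h4 : (0:ℝ) < J.card := by exact_mod_cast h3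
    rw [mul_one_div, div_le_one h4]
    exact_mod_cast h2

/-- The sums over the sets of the section at `q1 ≤ Q` of a combination of the columns of a
configuration which is flat for the section at `Q`. -/
theorem cfg_flat {Q q2 m P N : ℕ} {δ : ℝ} {J : ℕ → Finset ℕ} {c : ℕ → ℝ} (hm : 1 ≤ m)
    (hcfg : Cfg 𝓕 Q q2 m P δ N J c) {q1 : ℕ} (hq1 : q1 ≤ Q) (hPQ : Q ≤ P) (S : ℕ → Finset ℕ)
    (Λ : ℝ) (hΛ : 0 < Λ) (β : ℕ → ℝ) (hβ : ∀ n, |β n| ≤ Λ * c n) (D : Finset ℕ)
    (hD : D ∈ Sc 𝓕 q1) :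
    ∑ s ∈ D, |co e (∑ n ∈ Finset.range N, β n • av e (J n) (S n)) s| ≤ Λ * δ := by
  set D' := D.filter (fun s => Q < s) with hD'
  have hD'Q : D' ∈ Sc 𝓕 Q := by
    refine Sc_mono hR (Sc_subset hR hD (Finset.filter_subset _ _)) hq1 ?_
    intro s hs
    exact (Finset.mem_filter.1 hs).2
  have hdis : ∀ n, Disjoint D' (J n) → Disjoint D (J n) := by
    intro n h
    rw [Finset.disjoint_left] at h ⊢
    intro s hs hs'
    exact h (Finset.mem_filter.2 ⟨hs, hPQ.trans_lt (hcfg.beyond n s hs')⟩) hs'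
  have h1 : ∀ s, |co e (∑ n ∈ Finset.range N, β n • av e (J n) (S n)) s| ≤
      ∑ n ∈ Finset.range N, |β n| * |co e (av e (J n) (S n)) s| := by
    intro s
    rw [co_sum]
    refine (Finset.abs_sum_le_sum_abs _ _).trans (le_of_eq ?_)
    refine Finset.sum_congr rfl fun n _ => ?_
    rw [co_smul, abs_mul]
  calc ∑ s ∈ D, |co e (∑ n ∈ Finset.range N, β n • av e (J n) (S n)) s|
      ≤ ∑ s ∈ D, ∑ n ∈ Finset.range N, |β n| * |co e (av e (J n) (S n)) s| :=
        Finset.sum_le_sum fun s _ => h1 s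
    _ = ∑ n ∈ Finset.range N, |β n| * ∑ s ∈ D, |co e (av e (J n) (S n)) s| := by
        rw [Finset.sum_comm]
        refine Finset.sum_congr rfl fun n _ => ?_
        rw [Finset.mul_sum]
    _ ≤ ∑ n ∈ Finset.range N, if ¬ Disjoint D' (J n) then Λ * c n else 0 := by
        refine Finset.sum_le_sum fun n _ => ?_
        have h2 := useB_sum_av hR hX (J n) (S n) D
        by_cases h : Disjoint D' (J n)
        · rw [if_pos (hdis n h)] at h2
          rw [if_neg (not_not.2 h)]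
          exact mul_nonpos_of_nonneg_of_nonpos (abs_nonneg _) h2
        · rw [if_pos h]
          have h3 : ∑ s ∈ D, |co e (av e (J n) (S n)) s| ≤ 1 := by
            refine h2.trans ?_
            split_ifs <;> norm_num
          exact (mul_le_mul (hβ n) h3 (Finset.sum_nonneg fun _ _ => abs_nonneg _)
            (mul_nonneg hΛ.le (hcfg.nonneg n))).trans_eq (mul_one _)
    _ = Λ * ∑ n ∈ (Finset.range N).filter (fun n => ¬ Disjoint D' (J n)), c n := by
        rw [← Finset.sum_filter, Finset.mul_sum]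
    _ ≤ Λ * δ := mul_le_mul_of_nonneg_left (hcfg.flat D' hD'Q) hΛ.le

/-- The images of the combinations, on the sets of the section at `q`. -/
theorem cfg_low (C : ℝ) (hC : 1 ≤ C) (H : X →L[ℝ] X) (hH : ∀ x, ‖H x‖ ≤ C * ‖x‖)
    {q q1 P1 : ℕ} {ε : ℝ} (hε : 0 < ε)
    (hlow : ∀ E ∈ Sc 𝓕 q, (∀ s ∈ E, P1 < s) → ∀ (x : X) (B : ℝ),
      (∀ D ∈ Sc 𝓕 q1, ∑ s ∈ D, |co e x s| ≤ B) →
        ∑ s ∈ E, |co e (H x) s| ≤ ε * ‖x‖ + C * B)
    {Q q2 m P N : ℕ} {δ : ℝ} {J : ℕ → Finset ℕ} {c : ℕ → ℝ} (hm : 1 ≤ m)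
    (hcfg : Cfg 𝓕 Q q2 m P δ N J c) (hq1 : q1 ≤ Q) (hPQ : Q ≤ P) (τ : ℝ) (hτ : 0 ≤ τ)
    (hhead : ∀ i, P < i → ∑ s ∈ Finset.range (P1 + 1), |co e (H (e i)) s| ≤ τ)
    (S : ℕ → Finset ℕ) (Λ : ℝ) (hΛ : 0 < Λ) (β : ℕ → ℝ) (hβ : ∀ n, |β n| ≤ 2 * Λ * c n)
    (hβ1 : ∑ n ∈ Finset.range N, |β n| ≤ Λ) (E : Finset ℕ) (hE : E ∈ Sc 𝓕 q) :
    ∑ s ∈ E, |co e (H (∑ n ∈ Finset.range N, β n • av e (J n) (S n))) s| ≤
      Λ * τ + ε * Λ + C * (2 * Λ * δ) := by
  set x : X := ∑ n ∈ Finset.range N, β n • av e (J n) (S n) with hx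
  have hxn : ‖x‖ ≤ Λ := by
    rw [hx]
    refine (norm_sum_le _ _).trans (le_trans (Finset.sum_le_sum fun n _ => ?_) hβ1)
    rw [norm_smul, Real.norm_eq_abs]
    exact mul_le_of_le_one_right (abs_nonneg _) (norm_av_le hR hX _ _)
  -- the part beyond `P1`
  have h1 : ∑ s ∈ E.filter (fun s => P1 < s), |co e (H x) s| ≤ ε * Λ + C * (2 * Λ * δ) := by
    refine (hlow _ (Sc_subset hR hE (Finset.filter_subset _ _))
      (fun s hs => (Finset.mem_filter.1 hs).2) x (2 * Λ * δ) ?_).trans ?_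
    · intro D hD
      exact cfg_flat hR hX hm hcfg hq1 hPQ S (2 * Λ) (by linarith) β hβ D hD
    · have := mul_le_mul_of_nonneg_left hxn hε.le
      linarith
  -- the head
  have h2 : ∑ s ∈ E.filter (fun s => ¬ P1 < s), |co e (H x) s| ≤ Λ * τ := by
    refine (Finset.sum_le_sum_of_subset_of_nonneg (t := Finset.range (P1 + 1)) ?_
      fun _ _ _ => abs_nonneg _).trans ?_
    · intro s hs
      rw [Finset.mem_range]
      have := (Finset.mem_filter.1 hs).2
      omega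
    · exact sum_co_comb_le hR hX H (Finset.range N) (fun n => av e (J n) (S n)) _ τ Λ hτ
        (fun n _ => sum_co_av_le hR hX H (J n) (S n) _ τ hτ
          fun i hi => hhead i (hcfg.beyond n i hi)) β hβ1
  rw [← Finset.sum_filter_add_sum_filter_not E (fun s => P1 < s)]
  linarith

end Pool.Agent.Comb7f333f.TPart
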