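import Pool.Agent.Lib.MP_7f333f_an.Tame.LowLoc
import Pool.Agent.Lib.MP_7f333f_an.Tame.GoodCol
import Pool.Agent.Lib.MP_7f333f_an.Tame.Dist
import Pool.Agent.Lib.MP_7f333f_an.Tame.Row
import Pool.Agent.Lib.MP_7f333f_an.Tame.UseB

set_option autoImplicit false

/-!
Module Cfgs: the configurations of the words.
-/

namespace Pool.Agent.Comb7f333f.TPart

open Filter Topology

variable {𝓕 : Set (Finset ℕ)} {X : Type*} [NormedAddCommGroup X] [NormedSpace ℝ X] {e : ℕ → X}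
  (hR : IsRegular 𝓕) (hX : IsCombSpace 𝓕 e) (sc : Scale 𝓕) (hL : Large 𝓕) {G : Type*} [Group G]
  (A : G →* (X →L[ℝ] X)) (C : ℝ) (hC : 1 ≤ C) (hA : ∀ g x, ‖A g x‖ ≤ C * ‖x‖) (γ : ℕ → G)

private theorem cfgs_sup {ι : Type*} [Fintype ι] (f : ι → ℕ) : ∃ Q, ∀ i, f i ≤ Q :=
  ⟨Finset.univ.sup f, fun i => Finset.le_sup (Finset.mem_univ i)⟩

include hR hX sc hL hC hA

/-- The configurations of the words, chosen successively. -/
theorem exists_cfgs (r M : ℕ) (hr : 1 ≤ r) (hM : 1 ≤ M) (q : (Fin r → Fin M) → G) (ε Λ : ℝ)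
    (hε : 0 < ε) (hΛ : 0 < Λ) (q0 : ℕ)
    (hq0 : ∀ m : ℕ, ∃ P : ℕ, ∀ J : Finset ℕ, J.card ≤ m → (∀ i ∈ J, P < i) → J ∈ Sc 𝓕 q0)
    (kp : ℕ) :
    ∃ (Q q2 m P0 : ℕ) (δ : ℝ) (N P : (Fin r → Fin M) → ℕ)
      (J S : (Fin r → Fin M) → ℕ → Finset ℕ) (c : (Fin r → Fin M) → ℕ → ℝ),
      1 ≤ m ∧ Q ≤ P0 ∧ kp ≤ P0 ∧ (∀ w, P0 ≤ P w) ∧
      (∀ w, Cfg 𝓕 Q q2 m (P w) δ (N w) (J w) (c w)) ∧
      (∀ w n, J w n ∈ Sc 𝓕 q0) ∧
      (∀ w n (w' : Fin r → Fin M), ∀ j ≤ r, Sm 𝓕 e A γ ε j (A (q w') (av e (J w n) (S w n)))) ∧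
      (∀ y : X, ∑ w, ∑ i ∈ (Finset.range (N w)).biUnion (J w),
        |co e (A (q w)⁻¹ y) i| ≤ (C + 1) * ‖y‖) ∧
      ∀ (w w' : Fin r → Fin M) (β : ℕ → ℝ), (∀ n, |β n| ≤ 2 * Λ * c w' n) →
        (∑ n ∈ Finset.range (N w'), |β n| ≤ Λ) →
        (∀ q' < kp, ∀ E ∈ Sc 𝓕 q', ∑ s ∈ E, |co e (∑ n ∈ Finset.range (N w'), β n •
          A ((q w)⁻¹ * q w') (av e (J w' n) (S w' n))) s| ≤ 1 / r) ∧
        ∑ s ∈ Finset.range kp, |co e (∑ n ∈ Finset.range (N w'), β n •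
          A ((q w)⁻¹ * q w') (av e (J w' n) (S w' n))) s| ≤ 1 / r := by
  classical
  have hr0 : (0 : ℝ) < r := by exact_mod_cast hr
  have hC0 : (0 : ℝ) < C := by linarith
  have : Nonempty (Fin M) := ⟨⟨0, hM⟩⟩
  set τ : ℝ := 1 / (6 * r * Λ) with hτ
  have hτ0 : 0 < τ := by positivity
  -- step 1
  have hlow := fun (w w' : Fin r → Fin M) (q' : ℕ) =>
    low hR hX sc C hC (A ((q w)⁻¹ * q w')) (hA _) q' τ hτ0
  choose q1 P1 hlow using hlow
  obtain ⟨Q, hQ⟩ := cfgs_sup (fun p : (Fin r → Fin M) × (Fin r → Fin M) × Fin kp =>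
    q1 p.1 p.2.1 p.2.2)
  -- step 2
  obtain ⟨m, hm, Kg, hKg⟩ := good_col hR hX sc A C hC hA γ q r ε hε
  -- step 3
  set δ : ℝ := 1 / (12 * r * C * Λ) with hδ
  have hδ0 : 0 < δ := by positivity
  obtain ⟨q2, hq2⟩ := exists_cfg hR hX sc hL Q m hm δ hδ0
  -- step 4
  have hcard : (0 : ℝ) < Fintype.card (Fin r → Fin M) := by exact_mod_cast Fintype.card_pos
  have hll := fun w : Fin r → Fin M =>
    low_loc hR hX sc C hC (A (q w)⁻¹) (hA _) q2 (1 / Fintype.card (Fin r → Fin M))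
      (by positivity)
  choose q3 hll using hll
  obtain ⟨Q3, hQ3⟩ := cfgs_sup q3
  -- step 5
  obtain ⟨Pm, hPm⟩ := hq0 m
  have hrow : ∀ (w w' : Fin r → Fin M) (F : Finset ℕ), ∀ᶠ i in atTop,
      ∑ s ∈ F, |co e (A ((q w)⁻¹ * q w') (e i)) s| ≤ τ := by
    intro w w' F
    have h1 : Tendsto (fun i => ∑ s ∈ F, |co e (A ((q w)⁻¹ * q w') (e i)) s|) atTop
        (𝓝 (∑ s ∈ F, |(0 : ℝ)|)) :=
      tendsto_finsetSum _ fun s _ => (tendsto_row hR hX (A ((q w)⁻¹ * q w')) s).abs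
    rw [abs_zero, Finset.sum_const_zero] at h1
    exact (h1.eventually_lt_const hτ0).mono fun i hi => hi.le
  have hrow2 : ∀ᶠ i in atTop, (∀ p : (Fin r → Fin M) × (Fin r → Fin M) × Fin kp,
      ∑ s ∈ Finset.range (P1 p.1 p.2.1 p.2.2 + 1),
        |co e (A ((q p.1)⁻¹ * q p.2.1) (e i)) s| ≤ τ) ∧
      ∀ p : (Fin r → Fin M) × (Fin r → Fin M),
        ∑ s ∈ Finset.range kp, |co e (A ((q p.1)⁻¹ * q p.2) (e i)) s| ≤ τ :=
    (eventually_all.2 fun p => hrow _ _ _).and (eventually_all.2 fun p => hrow _ _ _)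
  obtain ⟨I0, hI0⟩ := eventually_atTop.1 hrow2
  set P0 := max Q (max kp (max Kg (max Pm I0))) with hP0
  have hP0Q : Q ≤ P0 := le_max_left _ _
  have hP01 : max kp (max Kg (max Pm I0)) ≤ P0 := le_max_right _ _
  have hP0k : kp ≤ P0 := (le_max_left _ _).trans hP01
  have hP02 : max Kg (max Pm I0) ≤ P0 := (le_max_right _ _).trans hP01
  have hP0g : Kg ≤ P0 := (le_max_left _ _).trans hP02
  have hP03 : max Pm I0 ≤ P0 := (le_max_right _ _).trans hP02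
  have hP0m : Pm ≤ P0 := (le_max_left _ _).trans hP03
  have hP0I : I0 ≤ P0 := (le_max_right _ _).trans hP03
  -- step 6
  obtain ⟨cc, b, b', hcc, hbb⟩ := exists_succ_choice (Ω := Fin r → Fin M)
    (α := ℕ × (ℕ → Finset ℕ) × (ℕ → ℝ))
    (fun w β t β' => (∃ P ≥ P0, Cfg 𝓕 Q q2 m P δ t.1 t.2.1 t.2.2) ∧
      ∀ x : X, ∃ D ∈ Sc 𝓕 (q3 w), (∀ s ∈ D, β < s ∧ s ≤ β') ∧
        ∑ s ∈ (Finset.range t.1).biUnion t.2.1, |co e (A (q w)⁻¹ x) s| ≤
          1 / Fintype.card (Fin r → Fin M) * ‖x‖ + C * ∑ s ∈ D, |co e x s|)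
    (by
      intro w β
      obtain ⟨P, hP⟩ := hll w β
      obtain ⟨N, J, c, hcfg⟩ := hq2 (max P0 P)
      obtain ⟨β', hβ, hx⟩ := hP ((Finset.range N).biUnion J) hcfg.union (by
        intro s hs
        obtain ⟨n, -, hn⟩ := Finset.mem_biUnion.1 hs
        exact (le_max_right _ _).trans_lt (hcfg.beyond n s hn))
      exact ⟨(N, J, c), β', hβ, ⟨_, le_max_left _ _, hcfg⟩, hx⟩)
    (sc.X (Fintype.card (Fin r → Fin M)) Q3)
  choose P hP hcfg using fun w => (hcc w).2.2.1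
  -- step 8
  have hS : ∀ (w : Fin r → Fin M) (n : ℕ), ∃ S : Finset ℕ, ∀ (u : Fin r → Fin M), ∀ j ≤ r,
      Sm 𝓕 e A γ ε j (A (q u) (av e ((cc w).2.1 n) S)) := by
    intro w n
    rcases lt_or_ge n (cc w).1 with hn | hn
    · refine hKg _ ((hcfg w).card n hn) fun i hi => ?_
      have := (hcfg w).beyond n i hi
      have := hP w
      omega
    · refine ⟨∅, fun u j hj D hD => Eventually.of_forall fun ν => ?_⟩
      rw [((hcfg w).empty n hn).1]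
      have h0 : av e (∅ : Finset ℕ) ∅ = 0 := by simp [av]
      rw [h0, map_zero, map_zero]
      have h1 : ∀ s, co e (0 : X) s = 0 := fun s => by simp [co]
      simp only [h1, abs_zero, Finset.sum_const_zero]
      exact hε.le
  choose S hS using hS
  have hI1 : ∀ w i, P w < i → I0 ≤ i := by
    intro w i hi
    have := hP w
    omega
  refine ⟨Q, q2, m, P0, δ, fun w => (cc w).1, P, fun w => (cc w).2.1, S, fun w => (cc w).2.2,
    hm, hP0Q, hP0k, hP, hcfg, ?_, fun w n w' j hj => hS w n w' j hj, ?_, ?_⟩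
  · intro w n
    refine hPm _ ?_ fun i hi => ?_
    · rcases lt_or_ge n (cc w).1 with hn | hn
      · exact ((hcfg w).card n hn).le
      · show ((cc w).2.1 n).card ≤ m
        rw [((hcfg w).empty n hn).1]
        exact Nat.zero_le _
    · have := (hcfg w).beyond n i hi
      have := hP w
      omega
  · intro y
    have h1 := row_sum hR hX sc (fun w : Fin r → Fin M => A (q w)⁻¹) C
      (1 / Fintype.card (Fin r → Fin M)) hC Q3 q3 b b' hQ3 (fun w => (hcc w).1) hbb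
      (fun w => (Finset.range (cc w).1).biUnion (cc w).2.1) (fun w x => (hcc w).2.2.2 x) y
    refine h1.trans (le_of_eq ?_)
    rw [mul_one_div_cancel hcard.ne']
    ring
  · intro w w' β hβ hβ1
    have hsum : ∑ n ∈ Finset.range (cc w').1, β n •
        A ((q w)⁻¹ * q w') (av e ((cc w').2.1 n) (S w' n)) =
        A ((q w)⁻¹ * q w') (∑ n ∈ Finset.range (cc w').1, β n •
          av e ((cc w').2.1 n) (S w' n)) := by
      rw [map_sum]
      exact Finset.sum_congr rfl fun n _ => (map_smul _ _ _).symm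
    rw [hsum]
    refine ⟨fun q' hq' E hE => ?_, ?_⟩
    · have h1 := cfg_low hR hX C hC (A ((q w)⁻¹ * q w')) (hA _) hτ0 (hlow w w' q') hm (hcfg w')
        (hQ (w, w', ⟨q', hq'⟩)) (hP0Q.trans (hP w')) τ hτ0.le
        (fun i hi => (hI0 i (hI1 w' i hi)).1 (w, w', ⟨q', hq'⟩)) (S w') Λ hΛ β hβ hβ1 E hE
      refine h1.trans ?_
      rw [hτ, hδ]
      have h2 : Λ * (1 / (6 * r * Λ)) + 1 / (6 * r * Λ) * Λ +
          C * (2 * Λ * (1 / (12 * r * C * Λ))) = 1 / 2 * (1 / r) := by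
        field_simp
        norm_num
      rw [h2]
      have h3 : (0 : ℝ) < 1 / r := by positivity
      linarith
    · have h1 := sum_co_comb_le hR hX (A ((q w)⁻¹ * q w')) (Finset.range (cc w').1)
        (fun n => av e ((cc w').2.1 n) (S w' n)) (Finset.range kp) τ Λ hτ0.le
        (fun n _ => sum_co_av_le hR hX _ _ _ _ τ hτ0.le fun i hi =>
          (hI0 i (hI1 w' i ((hcfg w').beyond n i hi))).2 (w, w')) β hβ1
      refine h1.trans ?_
      rw [hτ]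
      have h2 : Λ * (1 / (6 * r * Λ)) = 1 / 6 * (1 / r) := by
        field_simp
      rw [h2]
      have h3 : (0 : ℝ) < 1 / r := by positivity
      linarith

end Pool.Agent.Comb7f333f.TPart
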