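import Pool.Agent.Lib.MP_7f333f_an.Tame.Cfgs

set_option autoImplicit false

/-!
Module Cols: the columns of one level.
-/

namespace Pool.Agent.Comb7f333f.TPart

open Filter Topology

/-- The word `w` up to `l`, and a fixed letter beyond. -/
private def tr {r M : ℕ} (a0 : Fin M) (l : Fin r) (w : Fin r → Fin M) : Fin r → Fin M :=
  fun k => if k ≤ l then w k else a0

private theorem tr_le {r M : ℕ} (a0 : Fin M) (l : Fin r) (w : Fin r → Fin M) {k : Fin r}
    (hk : k ≤ l) : tr a0 l w k = w k := if_pos hk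

private theorem tr_congr {r M : ℕ} (a0 : Fin M) (l : Fin r) {w w' : Fin r → Fin M}
    (h : ∀ k ≤ l, w k = w' k) : tr a0 l w = tr a0 l w' := by
  funext k
  unfold tr
  split_ifs with hk
  · exact h k hk
  · rfl

variable {𝓕 : Set (Finset ℕ)} {X : Type*} [NormedAddCommGroup X] [NormedSpace ℝ X] {e : ℕ → X}
  (hR : IsRegular 𝓕) (hX : IsCombSpace 𝓕 e) (sc : Scale 𝓕) (hL : Large 𝓕) {G : Type*} [Group G]
  (A : G →* (X →L[ℝ] X)) (C : ℝ) (hC : 1 ≤ C) (hA : ∀ g x, ‖A g x‖ ≤ C * ‖x‖) (γ : ℕ → G)

include hR hX sc hL hC hA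

theorem exists_cols (r M : ℕ) (hr : 1 ≤ r) (hM : 1 ≤ M) (l : Fin r) (q : (Fin r → Fin M) → G)
    (hq : ∀ w w' : Fin r → Fin M, (∀ k ≤ l, w k = w' k) → q w = q w') (ε Λ : ℝ) (hε : 0 < ε)
    (hΛ : 0 < Λ) (q0 : ℕ)
    (hq0 : ∀ m : ℕ, ∃ P : ℕ, ∀ J : Finset ℕ, J.card ≤ m → (∀ i ∈ J, P < i) → J ∈ Sc 𝓕 q0)
    (kp : ℕ) :
    ∃ (c : Cols r M) (K : ℕ), LevelProps 𝓕 A e C Λ l q c q0 kp K ∧
      ∀ w n, ∀ j ≤ r, Sm 𝓕 e A γ ε j (A (q w) (av e (c.J w n) (c.S w n))) := by
  obtain ⟨Q, q2, m, P0, δ, N, P, J, S, c, hm, hQ, hkp, hP, hcfg, hsc, hSm, hrow, hflat⟩ :=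
    exists_cfgs hR hX sc hL A C hC hA γ r M hr hM q ε Λ hε hΛ q0 hq0 kp
  have hr0 : (0 : ℝ) < r := by exact_mod_cast hr
  obtain ⟨a0, -⟩ : ∃ a0 : Fin M, a0 = ⟨0, hM⟩ := ⟨_, rfl⟩
  -- the words up to `l`
  have hqt : ∀ w, q (tr a0 l w) = q w := fun w => hq _ _ fun k hk => tr_le a0 l w hk
  -- the number of the columns
  obtain ⟨N', hN'⟩ : ∃ N', N' = Finset.univ.sup N := ⟨_, rfl⟩
  have hNle : ∀ w, N w ≤ N' := fun w => by
    rw [hN']
    exact Finset.le_sup (Finset.mem_univ w)
  obtain ⟨U, hU⟩ : ∃ U, U = N' + 1 := ⟨_, rfl⟩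
  have hU0 : (0 : ℝ) < U := by
    rw [hU]
    positivity
  have hc0 : ∀ w n, N w ≤ n → c w n = 0 := fun w n h => ((hcfg w).empty n h).2
  have htot : ∀ w, ∑ n : Fin N', c w n = 1 := by
    intro w
    rw [Fin.sum_univ_eq_sum_range (fun n => c w n) N', ← (hcfg w).total]
    refine (Finset.sum_subset (Finset.range_subset_range.2 (hNle w)) ?_).symm
    intro n _ hn
    rw [Finset.mem_range, not_lt] at hn
    exact hc0 w n hn
  have hcol : ∀ w, ∃ col : Fin U → Fin N', ∀ n,
      ((Finset.univ.filter (fun u => col u = n)).card : ℝ) ≤ 2 * c w n * U := fun w =>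
    exists_col (by omega) (fun n : Fin N' => c w n) (fun n => (hcfg w).nonneg n) (htot w)
  choose colf hcolf using hcol
  have hwt : ∀ w (n : Fin N'), wt (colf w) n ≤ 2 * c w n := by
    intro w n
    unfold wt
    rw [div_le_iff₀ hU0]
    exact hcolf w n
  have hwt1 : ∀ w, ∑ n, wt (colf w) n = 1 := by
    intro w
    unfold wt
    rw [← Finset.sum_div, div_eq_one_iff_eq hU0.ne', ← Nat.cast_sum]
    have h1 := Finset.card_eq_sum_card_fiberwise (f := colf w) (s := Finset.univ)
      (t := Finset.univ) (fun _ _ => Finset.mem_coe.2 (Finset.mem_univ _))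
    rw [← h1, Finset.card_univ, Fintype.card_fin]
  -- the tails
  have htail : ∀ w w' (n : ℕ), ∃ K : ℕ, ∀ E ∈ 𝓕, (∀ s ∈ E, K ≤ s) →
      ∑ s ∈ E, |co e (A ((q w)⁻¹ * q w') (av e (J w' n) (S w' n))) s| ≤ 1 / (r * Λ) :=
    fun w w' n => exists_tail_le hR hX _ _ (by positivity)
  choose Kt hKt using htail
  obtain ⟨K, hK1, hK2⟩ : ∃ K : ℕ, (∀ w, ∀ n < N', ∀ i ∈ J w n, i < K) ∧
      ∀ w w', ∀ n < N', Kt w w' n ≤ K := by
    refine ⟨(Finset.univ.sup fun w => (Finset.range N').sup fun n => (J w n).sup id) + 1 +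
      Finset.univ.sup fun w => Finset.univ.sup fun w' => (Finset.range N').sup fun n =>
        Kt w w' n, ?_, ?_⟩
    · intro w n hn i hi
      have h1 : i ≤ (J w n).sup id := Finset.le_sup (f := id) hi
      have h2 : (J w n).sup id ≤ (Finset.range N').sup fun n => (J w n).sup id :=
        Finset.le_sup (f := fun n => (J w n).sup id) (Finset.mem_range.2 hn)
      have h3 : ((Finset.range N').sup fun n => (J w n).sup id) ≤
          Finset.univ.sup fun w => (Finset.range N').sup fun n => (J w n).sup id :=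
        Finset.le_sup (f := fun w => (Finset.range N').sup fun n => (J w n).sup id)
          (Finset.mem_univ w)
      omega
    · intro w w' n hn
      have h1 : Kt w w' n ≤ (Finset.range N').sup fun n => Kt w w' n :=
        Finset.le_sup (f := fun n => Kt w w' n) (Finset.mem_range.2 hn)
      have h2 : ((Finset.range N').sup fun n => Kt w w' n) ≤
          Finset.univ.sup fun w' => (Finset.range N').sup fun n => Kt w w' n :=
        Finset.le_sup (f := fun w' => (Finset.range N').sup fun n => Kt w w' n)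
          (Finset.mem_univ w')
      have h3 : (Finset.univ.sup fun w' => (Finset.range N').sup fun n => Kt w w' n) ≤
          Finset.univ.sup fun w => Finset.univ.sup fun w' => (Finset.range N').sup fun n =>
            Kt w w' n :=
        Finset.le_sup (f := fun w => Finset.univ.sup fun w' => (Finset.range N').sup fun n =>
            Kt w w' n) (Finset.mem_univ w)
      omega
  -- the row of one word
  have hrow1 : ∀ w (y : X), ∑ n : Fin N', |fn e (J w n) (S w n) (A (q w)⁻¹ y)| ≤
      ∑ i ∈ (Finset.range (N w)).biUnion (J w), |co e (A (q w)⁻¹ y) i| := by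
    intro w y
    rw [Fin.sum_univ_eq_sum_range (fun n => |fn e (J w n) (S w n) (A (q w)⁻¹ y)|) N',
      Finset.sum_biUnion (fun n _ n' _ hne => (hcfg w).disj n n' hne)]
    have h1 : ∑ n ∈ Finset.range (N w), ∑ i ∈ J w n, |co e (A (q w)⁻¹ y) i| =
        ∑ n ∈ Finset.range N', ∑ i ∈ J w n, |co e (A (q w)⁻¹ y) i| := by
      refine Finset.sum_subset (Finset.range_subset_range.2 (hNle w)) ?_
      intro n _ hn
      rw [Finset.mem_range, not_lt] at hn
      rw [((hcfg w).empty n hn).1, Finset.sum_empty]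
    rw [h1]
    exact Finset.sum_le_sum fun n _ => abs_fn_le hR hX _ _ _
  refine ⟨⟨N', U, fun w n => J (tr a0 l w) n, fun w n => S (tr a0 l w) n,
    fun w => colf (tr a0 l w)⟩, K, ?_, ?_⟩
  · refine
      { U_pos := ?_
        dep := ?_
        sect := ?_
        range := ?_
        used := ?_
        row := ?_
        flat := ?_ }
    · show 1 ≤ U
      omega
    · intro w w' hw
      have h1 := tr_congr a0 l hw
      refine ⟨?_, ?_, ?_⟩
      · show (fun n : Fin N' => J (tr a0 l w) n) = fun n : Fin N' => J (tr a0 l w') n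
        rw [h1]
      · show (fun n : Fin N' => S (tr a0 l w) n) = fun n : Fin N' => S (tr a0 l w') n
        rw [h1]
      · show colf (tr a0 l w) = colf (tr a0 l w')
        rw [h1]
    · intro w n
      exact hsc _ _
    · intro w n i hi
      have h1 := (hcfg (tr a0 l w)).beyond n i hi
      have h2 := hP (tr a0 l w)
      exact ⟨by omega, hK1 (tr a0 l w) n n.2 i hi⟩
    · intro w u
      show (J (tr a0 l w) (colf (tr a0 l w) u)).Nonempty
      have h1 := hcolf (tr a0 l w) (colf (tr a0 l w) u)
      have h2 : 0 < (Finset.univ.filter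
          (fun u' => colf (tr a0 l w) u' = colf (tr a0 l w) u)).card :=
        Finset.card_pos.2 ⟨u, Finset.mem_filter.2 ⟨Finset.mem_univ u, rfl⟩⟩
      have h3 : (0 : ℝ) < 2 * c (tr a0 l w) (colf (tr a0 l w) u) * U :=
        lt_of_lt_of_le (by exact_mod_cast h2) h1
      have h4 : ((colf (tr a0 l w) u : Fin N') : ℕ) < N (tr a0 l w) := by
        by_contra hcon
        rw [hc0 _ _ (not_lt.1 hcon), mul_zero, zero_mul] at h3
        exact lt_irrefl _ h3
      have h5 := (hcfg (tr a0 l w)).card _ h4
      exact Finset.card_pos.1 (by omega)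
    · intro w y
      show ∑ a : Fin M, ∑ n : Fin N', |fn e (J (tr a0 l (Function.update w l a)) n)
        (S (tr a0 l (Function.update w l a)) n) (A (q (Function.update w l a))⁻¹ y)| ≤ _
      refine le_trans ?_ (hrow y)
      have hinj : Function.Injective fun a : Fin M => tr a0 l (Function.update w l a) := by
        intro a a' haa
        have h1 := congrFun haa l
        simp only at h1
        rw [tr_le a0 l _ le_rfl, tr_le a0 l _ le_rfl, Function.update_self,
          Function.update_self] at h1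
        exact h1
      calc ∑ a : Fin M, ∑ n : Fin N', |fn e (J (tr a0 l (Function.update w l a)) n)
            (S (tr a0 l (Function.update w l a)) n) (A (q (Function.update w l a))⁻¹ y)|
          ≤ ∑ a : Fin M, ∑ i ∈ (Finset.range (N (tr a0 l (Function.update w l a)))).biUnion
              (J (tr a0 l (Function.update w l a))),
              |co e (A (q (tr a0 l (Function.update w l a)))⁻¹ y) i| := by
            refine Finset.sum_le_sum fun a _ => ?_
            have h1 := hrow1 (tr a0 l (Function.update w l a)) y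
            rw [hqt] at h1 ⊢
            exact h1
        _ = ∑ w' ∈ Finset.univ.image fun a : Fin M => tr a0 l (Function.update w l a),
              ∑ i ∈ (Finset.range (N w')).biUnion (J w'), |co e (A (q w')⁻¹ y) i| := by
            rw [Finset.sum_image fun a _ a' _ h => hinj h]
        _ ≤ ∑ w', ∑ i ∈ (Finset.range (N w')).biUnion (J w'), |co e (A (q w')⁻¹ y) i| :=
            Finset.sum_le_sum_of_subset_of_nonneg (Finset.subset_univ _)
              fun w' _ _ => Finset.sum_nonneg fun i _ => abs_nonneg _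
    · intro w w' β hβ
      change ∀ n : Fin N', |β n| ≤ Λ * wt (colf (tr a0 l w')) n at hβ
      set β' : ℕ → ℝ := fun n => if h : n < N' then β ⟨n, h⟩ else 0 with hβ'
      have e1 : ∀ n : Fin N', β' n = β n := by
        intro n
        simp only [hβ']
        rw [dif_pos n.2]
      have hb1 : ∀ n, |β' n| ≤ 2 * Λ * c (tr a0 l w') n := by
        intro n
        by_cases hn : n < N'
        · have h1 := e1 ⟨n, hn⟩
          simp only at h1
          rw [h1]
          have h2 := hβ ⟨n, hn⟩
          have h3 := hwt (tr a0 l w') ⟨n, hn⟩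
          have h4 := mul_le_mul_of_nonneg_left h3 hΛ.le
          have h5 : Λ * (2 * c (tr a0 l w') n) = 2 * Λ * c (tr a0 l w') n := by ring
          rw [← h5]
          exact h2.trans h4
        · have h1 : β' n = 0 := by
            simp only [hβ']
            rw [dif_neg hn]
          rw [h1, abs_zero]
          have := (hcfg (tr a0 l w')).nonneg n
          positivity
      have hb2' : ∑ n : Fin N', |β n| ≤ Λ := by
        calc ∑ n : Fin N', |β n| ≤ ∑ n : Fin N', Λ * wt (colf (tr a0 l w')) n :=
              Finset.sum_le_sum fun n _ => hβ n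
          _ = Λ := by rw [← Finset.mul_sum, hwt1, mul_one]
      have hb2 : ∑ n ∈ Finset.range (N (tr a0 l w')), |β' n| ≤ Λ := by
        calc ∑ n ∈ Finset.range (N (tr a0 l w')), |β' n| ≤ ∑ n ∈ Finset.range N', |β' n| :=
              Finset.sum_le_sum_of_subset_of_nonneg (Finset.range_subset_range.2 (hNle _))
                fun n _ _ => abs_nonneg _
          _ = ∑ n : Fin N', |β n| := by
              rw [← Fin.sum_univ_eq_sum_range (fun n => |β' n|) N']
              exact Finset.sum_congr rfl fun n _ => by rw [e1]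
          _ ≤ Λ := hb2'
      have hsum : ∑ n : Fin N', β n • A ((q w)⁻¹ * q w')
          (av e (J (tr a0 l w') n) (S (tr a0 l w') n)) =
          ∑ n ∈ Finset.range (N (tr a0 l w')), β' n •
            A ((q (tr a0 l w))⁻¹ * q (tr a0 l w')) (av e (J (tr a0 l w') n)
              (S (tr a0 l w') n)) := by
        rw [hqt, hqt]
        have h1 : ∑ n ∈ Finset.range (N (tr a0 l w')), β' n •
            A ((q w)⁻¹ * q w') (av e (J (tr a0 l w') n) (S (tr a0 l w') n)) =
            ∑ n ∈ Finset.range N', β' n •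
            A ((q w)⁻¹ * q w') (av e (J (tr a0 l w') n) (S (tr a0 l w') n)) := by
          refine Finset.sum_subset (Finset.range_subset_range.2 (hNle _)) ?_
          intro n _ hn
          rw [Finset.mem_range, not_lt] at hn
          have h2 := hb1 n
          rw [hc0 _ _ hn, mul_zero] at h2
          have h3 : β' n = 0 := abs_eq_zero.1 (le_antisymm h2 (abs_nonneg _))
          rw [h3, zero_smul]
        rw [h1, ← Fin.sum_univ_eq_sum_range (fun n => β' n •
          A ((q w)⁻¹ * q w') (av e (J (tr a0 l w') n) (S (tr a0 l w') n))) N']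
        exact Finset.sum_congr rfl fun n _ => by rw [e1]
      have h1 := hflat (tr a0 l w) (tr a0 l w') β' hb1 hb2
      rw [← hsum] at h1
      refine ⟨h1.1, h1.2, ?_⟩
      intro E hE hKE
      show ∑ s ∈ E, |co e (∑ n : Fin N', β n • A ((q w)⁻¹ * q w')
          (av e (J (tr a0 l w') n) (S (tr a0 l w') n))) s| ≤ 1 / r
      have h2 := sum_co_comb_le hR hX (ContinuousLinearMap.id ℝ X) Finset.univ
        (fun n : Fin N' => A ((q w)⁻¹ * q w') (av e (J (tr a0 l w') n) (S (tr a0 l w') n))) E
        (1 / (r * Λ)) Λ (by positivity) (fun n _ => by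
          have h3 := hKt (tr a0 l w) (tr a0 l w') n E hE
            (fun s hs => (hK2 _ _ n n.2).trans (hKE s hs))
          rw [hqt, hqt] at h3
          exact h3) β hb2'
      refine h2.trans (le_of_eq ?_)
      field_simp
  · intro w n j hj
    have h1 := hSm (tr a0 l w) n w j hj
    exact h1

end Pool.Agent.Comb7f333f.TPart
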