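import Pool.Agent.Lib.MP_7f333f_an.Tame.Words
import Pool.Agent.Lib.MP_7f333f_an.Tame.Card

set_option autoImplicit false

/-!
Module Core: the finite theorem (compare `Siz/Core.lean`).
-/

namespace Pool.Agent.Comb7f333f.TPart

theorem core (C B₁ D B₂ : ℝ) (hC : 1 ≤ C) (hB : 1 ≤ B₁) :
    ∃ r M K K2 : ℕ, 1 ≤ r ∧ 1 ≤ M ∧ ∀ 𝓕 : Set (Finset ℕ), IsRegular 𝓕 → ∀ (sc : Scale 𝓕)
      (Q0 : ℕ), sc.t0 K ≤ Q0 → sc.t0 K2 ≤ Q0 →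
        IsEmpty (CoreD 𝓕 sc C B₁ D B₂ (1 / e0 C B₁) Q0 r M) := by
  have hep : 0 < ep C B₁ := by unfold ep; positivity
  have hdl : 0 < dl C B₁ := by unfold dl; positivity
  have hc0 : 0 < c0 B₁ := by unfold c0; positivity
  have hc : 0 < ep C B₁ * c0 B₁ := mul_pos hep hc0
  obtain ⟨K, hK⟩ := exists_nat_gt (3 * B₂ ^ 2 / (ep C B₁ * c0 B₁) ^ 2)
  obtain ⟨K2, hK2⟩ := exists_nat_gt (48 * D ^ 2 / c0 B₁ ^ 2)
  obtain ⟨r, hr⟩ := exists_nat_ge (8 * ((K + 1 : ℕ) : ℝ) / dl C B₁)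
  have hr' : 8 * ((K + 1 : ℕ) : ℝ) ≤ dl C B₁ * r := by
    rw [div_le_iff₀ hdl] at hr
    linarith
  have hr1 : 1 ≤ r := by
    have h1 : (0 : ℝ) < r := by
      have h2 : (0 : ℝ) < dl C B₁ * r := lt_of_lt_of_le (by positivity) hr'
      exact (pos_iff_pos_of_mul_pos h2).mp hdl
    exact_mod_cast h1
  obtain ⟨M, hM⟩ := exists_nat_ge (max 1 (128 * (r : ℝ) ^ 2 * K2 / dl C B₁ ^ 2))
  have hM1 : 1 ≤ M := by
    have h1 : (1 : ℝ) ≤ M := (le_max_left _ _).trans hM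
    exact_mod_cast h1
  have hM2 : 128 * (r : ℝ) ^ 2 * K2 ≤ dl C B₁ ^ 2 * M := by
    have h1 := (le_max_right _ _).trans hM
    rw [div_le_iff₀ (by positivity)] at h1
    linarith
  refine ⟨r, M, K, K2, hr1, hM1, fun 𝓕 hR sc Q0 ht1 ht2 => ⟨fun d => ?_⟩⟩
  obtain ⟨ω, A, hA, L₀, hL, hdeep⟩ := exists_choice hR d hC hB hM1 hr1 K K2 hK2 ht1 ht2 (K + 1)
    hr' hM2
  have h1 := deep_card hR d (ep C B₁ * c0 B₁) hc K hK (lett ω) (mn A) L₀ hdeep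
  omega

end Pool.Agent.Comb7f333f.TPart
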