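import Pool.Agent.Lib.MP_7f333f_an.Tame.Sq

set_option autoImplicit false

/-!
Module CovA: the covering property of the first Schreier family.
-/

namespace Pool.Agent.Comb7f333f.TPart

/-- One full piece of the greedy decomposition. -/
private theorem covA_piece (F : Finset ℕ) (a : ℕ)
    (h : a + 1 < (F.filter (fun s => a ≤ s)).card) :
    ∃ c, a < c ∧ (F.filter (fun s => a ≤ s ∧ s < c)).card = a + 1 := by
  classical
  have hex : ∃ c, a + 1 ≤ (F.filter (fun s => a ≤ s ∧ s < c)).card := by
    refine ⟨F.sup id + 1, ?_⟩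
    have h1 : F.filter (fun s => a ≤ s ∧ s < F.sup id + 1) = F.filter (fun s => a ≤ s) := by
      refine Finset.filter_congr fun s hs => ?_
      have h2 : s ≤ F.sup id := Finset.le_sup (f := id) hs
      omega
    rw [h1]
    exact h.le
  have hc1 := Nat.find_spec hex
  obtain ⟨c, hc⟩ : ∃ c, c = Nat.find hex := ⟨_, rfl⟩
  rw [← hc] at hc1
  have hac : a < c := by
    by_contra hle
    have h1 : F.filter (fun s => a ≤ s ∧ s < c) = ∅ := by
      rw [Finset.filter_eq_empty_iff]
      intro s _ hs
      omega
    rw [h1, Finset.card_empty] at hc1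
    omega
  refine ⟨c, hac, le_antisymm ?_ hc1⟩
  obtain ⟨d, rfl⟩ : ∃ d, c = d + 1 := ⟨c - 1, by omega⟩
  have hmin : ¬ a + 1 ≤ (F.filter (fun s => a ≤ s ∧ s < d)).card :=
    Nat.find_min hex (by omega)
  have h1 : F.filter (fun s => a ≤ s ∧ s < d + 1) ⊆
      insert d (F.filter (fun s => a ≤ s ∧ s < d)) := by
    intro s hs
    rw [Finset.mem_filter] at hs
    rw [Finset.mem_insert, Finset.mem_filter]
    by_cases hsd : s = d
    · exact Or.inl hsd
    · right
      exact ⟨hs.1, hs.2.1, by omega⟩
  have h2 := Finset.card_le_card h1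
  have h3 := Finset.card_insert_le d (F.filter (fun s => a ≤ s ∧ s < d))
  omega

private theorem covA_greedy (F : Finset ℕ) : ∀ (N a : ℕ), (F.filter (fun s => a ≤ s)).card ≤ N →
    ∃ (p : ℕ) (b : ℕ → ℕ), StrictMono b ∧ b 0 = a ∧
      (∀ j < p, (F.filter (fun s => b j ≤ s ∧ s < b (j + 1))).card = b j + 1) ∧
      (F.filter (fun s => b p ≤ s)).card ≤ b p + 1 := by
  intro N
  induction N with
  | zero =>
    intro a h
    refine ⟨0, fun j => a + j, fun i j hij => by simpa using hij, rfl,
      fun j hj => absurd hj (Nat.not_lt_zero j), ?_⟩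
    show (F.filter (fun s => a + 0 ≤ s)).card ≤ a + 0 + 1
    rw [Nat.add_zero]
    omega
  | succ N ih =>
    intro a h
    rcases Nat.lt_or_ge (a + 1) (F.filter (fun s => a ≤ s)).card with h1 | h1
    · obtain ⟨c, hac, hc⟩ := covA_piece F a h1
      have h2 : (F.filter (fun s => a ≤ s)).card =
          (F.filter (fun s => a ≤ s ∧ s < c)).card + (F.filter (fun s => c ≤ s)).card := by
        rw [← Finset.card_union_of_disjoint]
        · congr 1
          ext s
          simp only [Finset.mem_filter, Finset.mem_union]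
          constructor
          · rintro ⟨h3, h4⟩
            rcases Nat.lt_or_ge s c with h5 | h5
            · exact Or.inl ⟨h3, h4, h5⟩
            · exact Or.inr ⟨h3, h5⟩
          · rintro (⟨h3, h4, -⟩ | ⟨h3, h4⟩)
            · exact ⟨h3, h4⟩
            · exact ⟨h3, by omega⟩
        · rw [Finset.disjoint_left]
          intro s hs hs'
          rw [Finset.mem_filter] at hs hs'
          omega
      obtain ⟨p, b, hb, hb0, hbj, hbp⟩ := ih c (by omega)
      refine ⟨p + 1, fun j => Nat.casesOn j a b, ?_, rfl, ?_, hbp⟩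
      · refine strictMono_nat_of_lt_succ fun j => ?_
        cases j with
        | zero =>
          show a < b 0
          rw [hb0]
          exact hac
        | succ j => exact hb (Nat.lt_succ_self j)
      · intro j hj
        cases j with
        | zero =>
          show (F.filter (fun s => a ≤ s ∧ s < b 0)).card = a + 1
          rw [hb0]
          exact hc
        | succ j => exact hbj j (by omega)
    · refine ⟨0, fun j => a + j, fun i j hij => by simpa using hij, rfl,
        fun j hj => absurd hj (Nat.not_lt_zero j), ?_⟩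
      show (F.filter (fun s => a + 0 ≤ s)).card ≤ a + 0 + 1
      rw [Nat.add_zero]
      exact h1

/-- The greedy decomposition: `F` is the union of `p` full pieces `F ∩ [b j, b (j + 1))` with
`b j + 1` elements, and of a last piece of the family. -/
theorem exists_greedy (F : Finset ℕ) : ∃ (p : ℕ) (b : ℕ → ℕ), StrictMono b ∧ b 0 = 0 ∧
    (∀ j < p, (F.filter (fun s => b j ≤ s ∧ s < b (j + 1))).card = b j + 1) ∧
    (F.filter (fun s => b p ≤ s)).card ≤ b p + 1 :=
  covA_greedy F _ 0 le_rfl

private theorem covA_sq (F : Finset ℕ) : ∀ (p : ℕ) (b : ℕ → ℕ), StrictMono b →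
    (∀ j < p, (F.filter (fun s => b j ≤ s ∧ s < b (j + 1))).card = b j + 1) →
    (F.filter (fun s => b p ≤ s)).card ≤ b p + 1 →
    F.filter (fun s => b 0 ≤ s) ∈ sq sch1 (p + 1) := by
  intro p
  induction p with
  | zero =>
    intro b _ _ hp
    refine ⟨F.filter (fun s => b 0 ≤ s), ?_, ∅, rfl, fun s _ t ht => absurd ht (by simp), by simp⟩
    intro k hk
    rw [Finset.mem_filter] at hk
    omega
  | succ p ih =>
    intro b hb hj hp
    have h1 := ih (fun j => b (j + 1)) (fun i j hij => hb (by omega))
      (fun j hjp => hj (j + 1) (by omega)) hp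
    refine ⟨F.filter (fun s => b 0 ≤ s ∧ s < b 1), ?_, _, h1, ?_, ?_⟩
    · intro k hk
      have h2 := hj 0 (by omega)
      rw [Finset.mem_filter] at hk
      have h3 : (F.filter (fun s => b 0 ≤ s ∧ s < b 1)).card = b 0 + 1 := h2
      omega
    · intro s hs t ht
      rw [Finset.mem_filter] at hs ht
      have h3 : b 1 ≤ t := ht.2
      omega
    · have h01 : b 0 < b 1 := hb (by omega)
      ext s
      simp only [Finset.mem_filter, Finset.mem_union]
      constructor
      · rintro ⟨h3, h4⟩
        rcases Nat.lt_or_ge s (b 1) with h5 | h5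
        · exact Or.inl ⟨h3, h4, h5⟩
        · exact Or.inr ⟨h3, h5⟩
      · rintro (⟨h3, h4, -⟩ | ⟨h3, h4⟩)
        · exact ⟨h3, h4⟩
        · have h5 : b 1 ≤ s := h4
          exact ⟨h3, by omega⟩

private theorem covA_sum (A : Finset ℕ) (b : ℕ → ℕ) (hb : StrictMono b) (p : ℕ) :
    ∑ j ∈ Finset.range p, (A.filter (fun s => b j ≤ s ∧ s < b (j + 1))).card ≤
      (A.filter (fun s => s < b p)).card := by
  induction p with
  | zero => simp
  | succ p ih =>
    rw [Finset.sum_range_succ]
    have hlt : b p < b (p + 1) := hb (Nat.lt_succ_self p)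
    have h1 : (A.filter (fun s => s < b p)).card +
        (A.filter (fun s => b p ≤ s ∧ s < b (p + 1))).card ≤
          (A.filter (fun s => s < b (p + 1))).card := by
      rw [← Finset.card_union_of_disjoint]
      · refine Finset.card_le_card fun s hs => ?_
        simp only [Finset.mem_filter, Finset.mem_union] at hs ⊢
        rcases hs with ⟨h3, h4⟩ | ⟨h3, -, h5⟩
        · exact ⟨h3, by omega⟩
        · exact ⟨h3, h5⟩
      · rw [Finset.disjoint_left]
        intro s hs hs'
        rw [Finset.mem_filter] at hs hs'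
        omega
    omega

private theorem covA_weight (F A : Finset ℕ) (hA : A ∈ sch1) (hAF : A ⊆ F) (b : ℕ → ℕ)
    (hb : StrictMono b) (p : ℕ)
    (hbj : ∀ j < p, (F.filter (fun s => b j ≤ s ∧ s < b (j + 1))).card = b j + 1) :
    ∑ j ∈ Finset.range p, ((A.filter (fun s => b j ≤ s ∧ s < b (j + 1))).card : ℝ) / (b j + 1) ≤
      2 := by
  classical
  rcases A.eq_empty_or_nonempty with rfl | hne
  · simp
  obtain ⟨m, hm⟩ : ∃ m, m = A.min' hne := ⟨_, rfl⟩
  have hmA : m ∈ A := by
    rw [hm]
    exact Finset.min'_mem A hne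
  have hmin : ∀ s ∈ A, m ≤ s := by
    intro s hs
    rw [hm]
    exact Finset.min'_le A s hs
  have hcard : A.card ≤ m + 1 := hA m hmA
  have hstep : ∀ j ∈ Finset.range p,
      ((A.filter (fun s => b j ≤ s ∧ s < b (j + 1))).card : ℝ) / (b j + 1) ≤
        (if b j ≤ m ∧ m < b (j + 1) then 1 else 0) +
          ((A.filter (fun s => b j ≤ s ∧ s < b (j + 1))).card : ℝ) / (m + 1) := by
    intro j hj
    have hj' := Finset.mem_range.1 hj
    have hp1 : (0 : ℝ) < (b j : ℝ) + 1 := by positivity
    have hp2 : (0 : ℝ) < (m : ℝ) + 1 := by positivity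
    rcases (A.filter (fun s => b j ≤ s ∧ s < b (j + 1))).eq_empty_or_nonempty with h0 | h0
    · rw [h0, Finset.card_empty]
      simp only [Nat.cast_zero, zero_div, add_zero]
      split_ifs <;> norm_num
    · obtain ⟨s, hs⟩ := h0
      rw [Finset.mem_filter] at hs
      have h1 := hmin s hs.1
      have h2 : m < b (j + 1) := by omega
      rcases Nat.lt_or_ge m (b j) with h3 | h3
      · rw [if_neg (by omega), zero_add]
        have h4 : (m : ℝ) + 1 ≤ (b j : ℝ) + 1 := by
          have : (m : ℝ) ≤ (b j : ℝ) := by exact_mod_cast h3.le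
          linarith
        exact div_le_div_of_nonneg_left (Nat.cast_nonneg _) hp2 h4
      · rw [if_pos ⟨h3, h2⟩]
        have h4 : ((A.filter (fun s => b j ≤ s ∧ s < b (j + 1))).card : ℝ) ≤ (b j : ℝ) + 1 := by
          have h5 : (A.filter (fun s => b j ≤ s ∧ s < b (j + 1))).card ≤ b j + 1 := by
            rw [← hbj j hj']
            exact Finset.card_le_card (Finset.filter_subset_filter _ hAF)
          exact_mod_cast h5
        have h5 : ((A.filter (fun s => b j ≤ s ∧ s < b (j + 1))).card : ℝ) / (b j + 1) ≤ 1 := by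
          rw [div_le_one hp1]
          exact h4
        have h6 : 0 ≤ ((A.filter (fun s => b j ≤ s ∧ s < b (j + 1))).card : ℝ) / (m + 1) := by
          positivity
        linarith
  refine (Finset.sum_le_sum hstep).trans ?_
  rw [Finset.sum_add_distrib]
  have h1 : ∑ j ∈ Finset.range p, (if b j ≤ m ∧ m < b (j + 1) then (1 : ℝ) else 0) ≤ 1 := by
    rw [← Finset.sum_filter, Finset.sum_const, nsmul_eq_mul, mul_one]
    have h2 : ((Finset.range p).filter (fun j => b j ≤ m ∧ m < b (j + 1))).card ≤ 1 := by
      rw [Finset.card_le_one]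
      intro i hi j hj
      rw [Finset.mem_filter] at hi hj
      by_contra hne
      rcases Nat.lt_or_gt_of_ne hne with h3 | h3
      · have h4 : b (i + 1) ≤ b j := hb.monotone (by omega)
        omega
      · have h4 : b (j + 1) ≤ b i := hb.monotone (by omega)
        omega
    exact_mod_cast h2
  have h2 : ∑ j ∈ Finset.range p,
      ((A.filter (fun s => b j ≤ s ∧ s < b (j + 1))).card : ℝ) / (m + 1) ≤ 1 := by
    rw [← Finset.sum_div]
    have hp2 : (0 : ℝ) < (m : ℝ) + 1 := by positivity
    rw [div_le_one hp2]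
    have h3 := covA_sum A b hb p
    have h4 : (A.filter (fun s => s < b p)).card ≤ A.card := Finset.card_filter_le _ _
    have h5 : ∑ j ∈ Finset.range p, (A.filter (fun s => b j ≤ s ∧ s < b (j + 1))).card ≤
        m + 1 := by omega
    exact_mod_cast h5
  linarith

theorem sch1_cov : Cov sch1 := by
  classical
  intro n A hA
  obtain ⟨F, hF⟩ : ∃ F, F = Finset.univ.biUnion A := ⟨_, rfl⟩
  rw [← hF]
  rcases Nat.eq_zero_or_pos n with hn | hn
  · subst hn
    have h1 : F = ∅ := by
      rw [hF]
      rfl
    rw [h1]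
    exact rfl
  obtain ⟨p, b, hb, hb0, hbj, hbp⟩ := exists_greedy F
  have hsub : ∀ i, A i ⊆ F := by
    intro i
    rw [hF]
    exact Finset.subset_biUnion_of_mem A (Finset.mem_univ i)
  have hsq : F ∈ sq sch1 (p + 1) := by
    have h1 := covA_sq F p b hb hbj hbp
    rw [hb0] at h1
    have h2 : F.filter (fun s => 0 ≤ s) = F := by simp
    rwa [h2] at h1
  have hp : (p : ℝ) ≤ 2 * n := by
    have h1 : (p : ℝ) = ∑ j ∈ Finset.range p,
        ((F.filter (fun s => b j ≤ s ∧ s < b (j + 1))).card : ℝ) / (b j + 1) := by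
      rw [Finset.sum_congr rfl (g := fun _ => (1 : ℝ))]
      · simp
      · intro j hj
        rw [hbj j (Finset.mem_range.1 hj)]
        push_cast
        exact div_self (by positivity)
    have h2 : ∀ j ∈ Finset.range p,
        ((F.filter (fun s => b j ≤ s ∧ s < b (j + 1))).card : ℝ) / (b j + 1) ≤
          ∑ i, ((A i).filter (fun s => b j ≤ s ∧ s < b (j + 1))).card / ((b j : ℝ) + 1) := by
      intro j _
      rw [← Finset.sum_div]
      refine div_le_div_of_nonneg_right ?_ (by positivity)
      have h3 : F.filter (fun s => b j ≤ s ∧ s < b (j + 1)) =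
          Finset.univ.biUnion fun i => (A i).filter (fun s => b j ≤ s ∧ s < b (j + 1)) := by
        rw [hF, Finset.filter_biUnion]
      rw [h3]
      exact_mod_cast Finset.card_biUnion_le
    rw [h1]
    refine (Finset.sum_le_sum h2).trans ?_
    rw [Finset.sum_comm]
    calc ∑ i : Fin n, ∑ j ∈ Finset.range p,
          ((A i).filter (fun s => b j ≤ s ∧ s < b (j + 1))).card / ((b j : ℝ) + 1)
        ≤ ∑ _i : Fin n, (2 : ℝ) :=
          Finset.sum_le_sum fun i _ => covA_weight F (A i) (hA i) (hsub i) b hb p hbj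
      _ = 2 * n := by
          rw [Finset.sum_const, Finset.card_univ, Fintype.card_fin, nsmul_eq_mul]
          ring
  have hp' : p ≤ 2 * n := by exact_mod_cast hp
  refine sq_le ?_ ?_ (m := p + 1) (by omega) hsq
  · intro G hG G' hGG' k hk
    exact (Finset.card_le_card hGG').trans (hG k (hGG' hk))
  · intro k hk
    exact absurd hk (by simp)

end Pool.Agent.Comb7f333f.TPart
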