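import Pool.Agent.Lib.MP_7f333f_an.Tame.SchReg
import Pool.Agent.Lib.MP_7f333f_an.Tame.CovA

set_option autoImplicit false

/-!
Module CovB: the covering property of the next family and of the limit family.
-/

namespace Pool.Agent.Comb7f333f.TPart

variable {𝓕 : Set (Finset ℕ)}

theorem CovB_empty (h1 : sch1 ⊆ 𝓕) : (∅ : Finset ℕ) ∈ 𝓕 := by
  apply h1
  intro k hk
  exact absurd hk (Finset.notMem_empty k)

open scoped Classical in
/-- A criterion: it is enough to cover the segments between the first elements of the sets. -/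
theorem cov_of (hh : ∀ F ∈ 𝓕, ∀ F', F' ⊆ F → F' ∈ 𝓕) (h1 : sch1 ⊆ 𝓕)
    (h : ∀ (n : ℕ) (A : Fin n → Finset ℕ), 2 ≤ n → (∀ i, A i ∈ 𝓕) → ∀ c : ℕ, 8 * n ≤ c →
      ((Finset.univ.filter (fun i => ∃ s ∈ A i, s ≤ c)).biUnion A).filter (fun s => c ≤ s) ∈
        sq 𝓕 2) : Cov 𝓕 := by
  have h0 := CovB_empty h1
  intro n A hA
  rcases Nat.lt_or_ge n 2 with hn | hn
  · interval_cases n
    · have : Finset.univ.biUnion A = ∅ := by
        ext s
        simp
      rw [this]
      exact sq_empty h0 _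
    · have : Finset.univ.biUnion A = A 0 := by
        ext s
        simp
      rw [this]
      exact sq_le hh h0 (by norm_num) (sq_one (hA 0))
  set F := Finset.univ.biUnion A with hF
  -- the tails
  have key : ∀ k c : ℕ, 8 * n ≤ c →
      (Finset.univ.filter (fun i => (A i).Nonempty ∧ ∀ s ∈ A i, c < s)).card ≤ k →
      F.filter (fun s => c ≤ s) ∈ sq 𝓕 (2 * (1 + k)) := by
    intro k
    induction k with
    | zero =>
      intro c hc hk
      refine sq_subset hh _ (h n A hn hA c hc) ?_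
      intro s hs
      rw [Finset.mem_filter, hF, Finset.mem_biUnion] at hs
      obtain ⟨⟨i, -, hi⟩, hcs⟩ := hs
      rw [Finset.mem_filter, Finset.mem_biUnion]
      refine ⟨⟨i, ?_, hi⟩, hcs⟩
      rw [Finset.mem_filter]
      refine ⟨Finset.mem_univ i, ?_⟩
      by_contra hcon
      push Not at hcon
      have : i ∈ Finset.univ.filter (fun i => (A i).Nonempty ∧ ∀ s ∈ A i, c < s) :=
        Finset.mem_filter.mpr ⟨Finset.mem_univ i, ⟨s, hi⟩, hcon⟩
      have h2 := Finset.card_pos.mpr ⟨i, this⟩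
      omega
    | succ k ih =>
      intro c hc hk
      by_cases hk' : (Finset.univ.filter
          (fun i => (A i).Nonempty ∧ ∀ s ∈ A i, c < s)).card ≤ k
      · exact sq_le hh h0 (by omega) (ih c hc hk')
      have hpos : 0 < (Finset.univ.filter
          (fun i => (A i).Nonempty ∧ ∀ s ∈ A i, c < s)).card := by omega
      obtain ⟨i₁, hi₁⟩ := Finset.card_pos.mp hpos
      obtain ⟨-, ⟨s₁, hs₁⟩, hi₁'⟩ := Finset.mem_filter.mp hi₁
      have hex : ∃ x, ∃ i, x ∈ A i ∧ ∀ t ∈ A i, c < t := ⟨s₁, i₁, hs₁, hi₁'⟩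
      obtain ⟨i₀, hx₀, hi₀⟩ := Nat.find_spec hex
      have hmin := fun y (hy : y < Nat.find hex) => Nat.find_min hex hy
      set x := Nat.find hex with hx
      have hcx : c < x := hi₀ x hx₀
      have hN : (Finset.univ.filter
          (fun i => (A i).Nonempty ∧ ∀ s ∈ A i, x < s)).card ≤ k := by
        have hlt : (Finset.univ.filter
            (fun i => (A i).Nonempty ∧ ∀ s ∈ A i, x < s)).card <
            (Finset.univ.filter (fun i => (A i).Nonempty ∧ ∀ s ∈ A i, c < s)).card := by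
          apply Finset.card_lt_card
          rw [Finset.ssubset_iff_of_subset]
          · refine ⟨i₀, Finset.mem_filter.mpr ⟨Finset.mem_univ _, ⟨x, hx₀⟩, hi₀⟩, ?_⟩
            intro hcon
            exact lt_irrefl _ ((Finset.mem_filter.mp hcon).2.2 x hx₀)
          · intro i hi
            obtain ⟨-, hne, hall⟩ := Finset.mem_filter.mp hi
            exact Finset.mem_filter.mpr ⟨Finset.mem_univ _, hne,
              fun s hs => hcx.trans (hall s hs)⟩
        omega
      have e : 2 * (1 + (k + 1)) = 2 + 2 * (1 + k) := by ring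
      rw [e]
      refine sq_cut x ?_ ?_
      · refine sq_subset hh _ (h n A hn hA c hc) ?_
        intro s hs
        rw [Finset.mem_filter, Finset.mem_filter, hF, Finset.mem_biUnion] at hs
        obtain ⟨⟨⟨i, -, hi⟩, hcs⟩, hsx⟩ := hs
        rw [Finset.mem_filter, Finset.mem_biUnion]
        refine ⟨⟨i, ?_, hi⟩, hcs⟩
        rw [Finset.mem_filter]
        refine ⟨Finset.mem_univ i, ?_⟩
        by_contra hcon
        push Not at hcon
        exact hmin s hsx ⟨i, hi, hcon⟩
      · refine sq_subset hh _ (ih x (by omega) hN) ?_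
        intro s hs
        rw [Finset.mem_filter, Finset.mem_filter] at hs
        exact Finset.mem_filter.mpr ⟨hs.1.1, hs.2⟩
  have htail := key n (8 * n) le_rfl (by
    calc (Finset.univ.filter (fun i => (A i).Nonempty ∧ ∀ s ∈ A i, 8 * n < s)).card
        ≤ (Finset.univ : Finset (Fin n)).card := Finset.card_filter_le _ _
      _ = n := by simp)
  have hhead : F.filter (fun s => s < 8 * n) ∈ sq 𝓕 (n + 4) := by
    refine sq_mono h1 _ ?_
    have hI := Ico_sq (n + 4) 0 (8 * n) (by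
      have h2 : n < 2 ^ n := Nat.lt_two_pow_self
      rw [pow_add]
      omega)
    refine sq_subset (𝓕 := sch1) ?_ _ hI ?_
    · intro F hF F' hF' k hk
      exact (Finset.card_le_card hF').trans (hF k (hF' hk))
    · intro s hs
      rw [Finset.mem_filter] at hs
      exact Finset.mem_Ico.mpr ⟨Nat.zero_le _, hs.2⟩
  exact sq_le hh h0 (by omega) (sq_cut (8 * n) hhead htail)

theorem cov_nxt (hN : Nice 𝓕) : Cov (nxt 𝓕) := by
  classical
  have hhF : ∀ F ∈ 𝓕, ∀ F', F' ⊆ F → F' ∈ 𝓕 := hN.reg.hereditary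
  have h0 := CovB_empty hN.sch
  have hreg := nxt_regular hN.reg
  refine cov_of hreg.hereditary (hN.sch.trans subset_nxt) ?_
  intro n A hn hA c hc
  -- the pieces
  have hp : ∀ i : Fin n, ∃ D : Fin (c + 1) → Finset ℕ, (∀ j, D j ∈ 𝓕) ∧
      ((∃ s ∈ A i, s ≤ c) → A i = Finset.univ.biUnion D) := by
    intro i
    by_cases hi : ∃ s ∈ A i, s ≤ c
    · obtain ⟨s, hs, hsc⟩ := hi
      obtain ⟨m, hm, hAm⟩ := hA i
      have h2 := hm s hs
      obtain ⟨D, hD, hD'⟩ := sq_pieces (sq_le hhF h0 (show m ≤ c + 1 by omega) hAm)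
      exact ⟨D, hD, fun _ => hD'⟩
    · exact ⟨fun _ => ∅, fun _ => h0, fun h => absurd h hi⟩
  choose D hD hD' using hp
  have hcov := hN.cov (n * (c + 1)) (fun j => D (finProdFinEquiv.symm j).1
    (finProdFinEquiv.symm j).2) (fun j => hD _ _)
  set W := Finset.univ.biUnion (fun j : Fin (n * (c + 1)) => D (finProdFinEquiv.symm j).1
    (finProdFinEquiv.symm j).2) with hW
  set B := ((Finset.univ.filter (fun i => ∃ s ∈ A i, s ≤ c)).biUnion A).filter
    (fun s => c ≤ s) with hB
  have hBW : B ⊆ W := by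
    intro s hs
    rw [hB, Finset.mem_filter, Finset.mem_biUnion] at hs
    obtain ⟨⟨i, hi, hsi⟩, -⟩ := hs
    rw [hD' i (Finset.mem_filter.mp hi).2, Finset.mem_biUnion] at hsi
    obtain ⟨j, -, hj⟩ := hsi
    rw [hW, Finset.mem_biUnion]
    refine ⟨finProdFinEquiv (i, j), Finset.mem_univ _, ?_⟩
    rw [Equiv.symm_apply_apply]
    exact hj
  have hBc : ∀ s ∈ B, c ≤ s := fun s hs => (Finset.mem_filter.mp hs).2
  have hlow : B.filter (fun s => s < 8 * (n * (c + 1))) ∈ nxt 𝓕 := by
    refine ⟨c + 1, fun k hk => ?_, ?_⟩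
    · have := hBc k (Finset.mem_filter.mp hk).1
      omega
    · have hI := Ico_sq (c + 1) c (8 * (n * (c + 1))) (by
        have h2 : c < 2 ^ c := Nat.lt_two_pow_self
        have h3 : 8 * n + 1 ≤ 2 ^ (c + 1) := by
          rw [pow_succ]
          omega
        calc 8 * (n * (c + 1)) + 1 ≤ (8 * n + 1) * (c + 1) := by nlinarith
          _ ≤ 2 ^ (c + 1) * (c + 1) := Nat.mul_le_mul_right _ h3)
      refine sq_subset hhF _ (sq_mono hN.sch _ hI) ?_
      intro s hs
      rw [Finset.mem_filter] at hs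
      exact Finset.mem_Ico.mpr ⟨hBc s hs.1, hs.2⟩
  have hhigh : B.filter (fun s => 8 * (n * (c + 1)) ≤ s) ∈ nxt 𝓕 := by
    refine ⟨8 * (n * (c + 1)), fun k hk => ?_, ?_⟩
    · have := (Finset.mem_filter.mp hk).2
      omega
    · exact sq_subset hhF _ hcov ((Finset.filter_subset _ _).trans hBW)
  exact sq_cut (8 * (n * (c + 1))) (sq_one hlow) (sq_one hhigh)

theorem cov_limF {𝓖 : ℕ → Set (Finset ℕ)} (hN : ∀ n, Nice (𝓖 n))
    (h𝓖 : ∀ n, nxt (𝓖 n) ⊆ 𝓖 (n + 1)) : Cov (limF 𝓖) := by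
  classical
  have hmono : ∀ n, 𝓖 n ⊆ 𝓖 (n + 1) := fun n => subset_nxt.trans (h𝓖 n)
  have hmono' : Monotone 𝓖 := monotone_nat_of_le_succ hmono
  have hreg := limF_regular (fun n => (hN n).reg) hmono
  refine cov_of hreg.hereditary ?_ ?_
  · intro F hF
    exact ⟨0, fun _ _ => Nat.zero_le _, (hN 0).sch hF⟩
  intro n A hn hA c hc
  have hcov := (hN c).cov n (fun i => if ∃ s ∈ A i, s ≤ c then A i else ∅) (by
    intro i
    show (if ∃ s ∈ A i, s ≤ c then A i else ∅) ∈ 𝓖 c
    split_ifs with hi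
    · obtain ⟨s, hs, hsc⟩ := hi
      obtain ⟨m, hm, hAm⟩ := hA i
      exact hmono' ((hm s hs).trans hsc) hAm
    · exact CovB_empty (hN c).sch)
  set W := Finset.univ.biUnion (fun i : Fin n => if ∃ s ∈ A i, s ≤ c then A i else ∅) with hW
  set B := ((Finset.univ.filter (fun i => ∃ s ∈ A i, s ≤ c)).biUnion A).filter
    (fun s => c ≤ s) with hB
  have hBW : B ⊆ W := by
    intro s hs
    rw [hB, Finset.mem_filter, Finset.mem_biUnion] at hs
    obtain ⟨⟨i, hi, hsi⟩, -⟩ := hs
    rw [hW, Finset.mem_biUnion]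
    refine ⟨i, Finset.mem_univ _, ?_⟩
    rw [if_pos (Finset.mem_filter.mp hi).2]
    exact hsi
  have hBc : ∀ s ∈ B, c ≤ s := fun s hs => (Finset.mem_filter.mp hs).2
  have hlow : B.filter (fun s => s < c + 1) ∈ limF 𝓖 := by
    refine hreg.hereditary _ (hreg.singleton c) _ ?_
    intro s hs
    rw [Finset.mem_filter] at hs
    have := hBc s hs.1
    rw [Finset.mem_singleton]
    omega
  have hhigh : B.filter (fun s => c + 1 ≤ s) ∈ limF 𝓖 := by
    refine ⟨c + 1, fun k hk => (Finset.mem_filter.mp hk).2, ?_⟩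
    apply h𝓖 c
    refine ⟨8 * n, fun k hk => ?_, ?_⟩
    · have := (Finset.mem_filter.mp hk).2
      omega
    · exact sq_subset (hN c).reg.hereditary _ hcov ((Finset.filter_subset _ _).trans hBW)
  exact sq_cut (c + 1) (sq_one hlow) (sq_one hhigh)

end Pool.Agent.Comb7f333f.TPart
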