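import Pool.Agent.Lib.MP_7f333f_an.Tame.Use

set_option autoImplicit false

/-!
Module Last: the last element.
-/

namespace Pool.Agent.Comb7f333f.TPart

open Filter Topology

variable {𝓕 : Set (Finset ℕ)} {X : Type*} [NormedAddCommGroup X] [NormedSpace ℝ X] {e : ℕ → X}
  (hR : IsRegular 𝓕) (hX : IsCombSpace 𝓕 e)

private theorem Last_fn_sub (J S : Finset ℕ) (x y : X) :
    fn e J S (x - y) = fn e J S x - fn e J S y := by
  unfold fn
  rw [← Finset.sum_sub_distrib]
  refine Finset.sum_congr rfl fun i _ => ?_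
  rw [co_sub]
  ring

private theorem Last_fn_vec (J S : Finset ℕ) (T : X →L[ℝ] X) (R : Finset ℕ) (a : ℕ → ℝ) :
    fn e J S (T (vec e R a)) = ∑ s ∈ R, a s * fn e J S (T (e s)) := by
  unfold fn
  simp only [map_vec, Finset.mul_sum]
  rw [Finset.sum_comm]
  refine Finset.sum_congr rfl fun s _ => Finset.sum_congr rfl fun i _ => ?_
  ring

include hR hX

private theorem Last_fn_le {J : Finset ℕ} (hJ : J ∈ 𝓕) (S : Finset ℕ) (x : X) :
    |fn e J S x| ≤ ‖x‖ :=
  (abs_fn_le hR hX J S x).trans (SB_co hR hX x J hJ)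

/-- The last element: for all large `n` the coordinates below `P` are negligible in the duality
between the column and its functional. -/
theorem exists_last {G : Type*} [Group G] (A : G →* (X →L[ℝ] X)) (C : ℝ) (hC : 1 ≤ C)
    (hA : ∀ g x, ‖A g x‖ ≤ C * ‖x‖) (γ : ℕ → G)
    (hnull : ∀ x k, Tendsto (fun n => co e (A (γ n) x) k) atTop (𝓝 0)) {ι : Type*}
    (I : Finset ι) (h : ι → G) (J S : ι → Finset ℕ) (hJ : ∀ i ∈ I, (J i).Nonempty ∧ J i ∈ 𝓕)
    (P : ℕ) : ∃ n Z : ℕ, ∀ i ∈ I, 1 / 2 ≤ ∑ s ∈ Finset.Ico P Z,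
      |fn e (J i) (S i) (A (γ n * h i)⁻¹ (e s))| *
        |co e (A (γ n * h i) (av e (J i) (S i))) s| := by
  classical
  have hC0 : 0 < C := by linarith
  set δ : ℝ := 1 / (4 * C * (P + 1)) with hδ
  have hδ0 : 0 < δ := by positivity
  have hn : ∀ᶠ n in atTop, ∀ i ∈ I, ∀ s ∈ Finset.range P,
      |co e (A (γ n) (A (h i) (av e (J i) (S i)))) s| ≤ δ := by
    refine (Finset.eventually_all I).2 fun i _ => (Finset.eventually_all _).2 fun s _ => ?_
    have h1 := Metric.tendsto_nhds.1 (hnull (A (h i) (av e (J i) (S i))) s) δ hδ0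
    filter_upwards [h1] with n h2
    rw [dist_zero_right, Real.norm_eq_abs] at h2
    exact h2.le
  obtain ⟨n, hn⟩ := hn.exists
  have hmul : ∀ (g g' : G) (x : X), A (g * g') x = A g (A g' x) := by
    intro g g' x
    rw [map_mul]
    rfl
  have hinv : ∀ (g : G) (x : X), A g⁻¹ (A g x) = x := by
    intro g x
    rw [← hmul, inv_mul_cancel, map_one]
    rfl
  choose Z0 hZ0 using fun i : ι => exists_tr hR hX (A (γ n * h i) (av e (J i) (S i)))
    (1 / (4 * C)) (by positivity)
  refine ⟨n, P + I.sup Z0, fun i hi => ?_⟩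
  set Z : ℕ := P + I.sup Z0 with hZ
  set g : G := γ n * h i with hg
  set y : X := A g (av e (J i) (S i)) with hy
  have hZi : Z0 i ≤ Z := by
    have : Z0 i ≤ I.sup Z0 := Finset.le_sup (f := Z0) hi
    omega
  have h1 : ‖y - vec e (Finset.range Z) (co e y)‖ ≤ 1 / (4 * C) :=
    hZ0 i (Finset.range Z) fun k hk => Finset.mem_range.mpr (by omega)
  have h2 : fn e (J i) (S i) (A g⁻¹ y) = 1 := by
    rw [hy, hinv]
    exact fn_av hR hX _ _ (hJ i hi).1
  have h3 : |fn e (J i) (S i) (A g⁻¹ (y - vec e (Finset.range Z) (co e y)))| ≤ 1 / 4 := by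
    refine (Last_fn_le hR hX (hJ i hi).2 _ _).trans ((hA _ _).trans ?_)
    calc C * ‖y - vec e (Finset.range Z) (co e y)‖ ≤ C * (1 / (4 * C)) :=
          mul_le_mul_of_nonneg_left h1 hC0.le
      _ = 1 / 4 := by
          field_simp
  rw [map_sub, Last_fn_sub, h2, Last_fn_vec] at h3
  have h4 : 3 / 4 ≤ ∑ s ∈ Finset.range Z,
      |fn e (J i) (S i) (A g⁻¹ (e s))| * |co e y s| := by
    have h5 : ∑ s ∈ Finset.range Z, co e y s * fn e (J i) (S i) (A g⁻¹ (e s)) ≤
        ∑ s ∈ Finset.range Z, |fn e (J i) (S i) (A g⁻¹ (e s))| * |co e y s| := by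
      refine Finset.sum_le_sum fun s _ => ?_
      rw [← abs_mul, mul_comm]
      exact le_abs_self _
    have h6 := (abs_le.mp h3).2
    linarith
  have h7 : ∑ s ∈ Finset.range P, |fn e (J i) (S i) (A g⁻¹ (e s))| * |co e y s| ≤ 1 / 4 := by
    calc ∑ s ∈ Finset.range P, |fn e (J i) (S i) (A g⁻¹ (e s))| * |co e y s|
        ≤ ∑ _s ∈ Finset.range P, C * δ := by
          refine Finset.sum_le_sum fun s hs => ?_
          refine mul_le_mul ?_ ?_ (abs_nonneg _) hC0.le
          · refine (Last_fn_le hR hX (hJ i hi).2 _ _).trans ((hA _ _).trans ?_)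
            calc C * ‖e s‖ ≤ C * 1 := mul_le_mul_of_nonneg_left (norm_e_le hR hX s) hC0.le
              _ = C := mul_one C
          · have := hn i hi s hs
            rw [hy, hg, hmul]
            exact this
      _ = P * (C * δ) := by
          rw [Finset.sum_const, Finset.card_range, nsmul_eq_mul]
      _ ≤ (P + 1) * (C * δ) := by
          have : 0 < C * δ := by positivity
          nlinarith
      _ = 1 / 4 := by
          rw [hδ]
          field_simp
  have h8 : ∑ s ∈ Finset.range Z, |fn e (J i) (S i) (A g⁻¹ (e s))| * |co e y s| =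
      ∑ s ∈ Finset.range P, |fn e (J i) (S i) (A g⁻¹ (e s))| * |co e y s| +
        ∑ s ∈ Finset.Ico P Z, |fn e (J i) (S i) (A g⁻¹ (e s))| * |co e y s| :=
    (Finset.sum_range_add_sum_Ico _ (by omega)).symm
  linarith

end Pool.Agent.Comb7f333f.TPart
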