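import Pool.Agent.Lib.MP_7f333f_an.Tame.Api
import Pool.Agent.Lib.MP_7f333f_an.Tame.Sec

set_option autoImplicit false

/-!
Module LevN: the norms of the sums over the levels.
-/

namespace Pool.Agent.Comb7f333f.TPart

open Filter Topology

private theorem levN_const (r : ℕ) (hr : 1 ≤ r) (I : Finset (Fin r)) :
    ∑ _l ∈ I, (2 : ℝ) / r ≤ 2 := by
  have hr0 : (0 : ℝ) < r := by exact_mod_cast hr
  have h1 : ((I.card : ℕ) : ℝ) ≤ r := by
    have h2 := Finset.card_le_univ I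
    rw [Fintype.card_fin] at h2
    exact_mod_cast h2
  rw [Finset.sum_const, nsmul_eq_mul, ← mul_div_assoc, div_le_iff₀ hr0]
  nlinarith

variable {𝓕 : Set (Finset ℕ)} {X : Type*} [NormedAddCommGroup X] [NormedSpace ℝ X] {e : ℕ → X}
  (hR : IsRegular 𝓕) (hX : IsCombSpace 𝓕 e)

include hR hX

theorem levels_norm (r : ℕ) (hr : 1 ≤ r) (I : Finset (Fin r)) (x : Fin r → X)
    (kp K : Fin r → ℕ) (hK : ∀ l l' : Fin r, l < l' → K l ≤ kp l') (B : ℝ) (hB : 0 ≤ B)
    (hx : ∀ l ∈ I, ‖x l‖ ≤ B)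
    (h1 : ∀ l ∈ I, ∀ q < kp l, ∀ E ∈ Sc 𝓕 q, ∑ s ∈ E, |co e (x l) s| ≤ 1 / r)
    (h2 : ∀ l ∈ I, ∑ s ∈ Finset.range (kp l), |co e (x l) s| ≤ 1 / r)
    (h3 : ∀ l ∈ I, ∀ E ∈ 𝓕, (∀ s ∈ E, K l ≤ s) → ∑ s ∈ E, |co e (x l) s| ≤ 1 / r) :
    ‖∑ l ∈ I, x l‖ ≤ B + 2 := by
  classical
  refine norm_le_of_SB hR hX fun F hF => ?_
  have hr0 : (0 : ℝ) < r := by exact_mod_cast hr
  have h4 : ∑ s ∈ F, |co e (∑ l ∈ I, x l) s| ≤ ∑ l ∈ I, ∑ s ∈ F, |co e (x l) s| := by
    rw [Finset.sum_comm]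
    refine Finset.sum_le_sum fun s _ => ?_
    rw [co_sum]
    exact Finset.abs_sum_le_sum_abs _ _
  refine h4.trans ?_
  rcases F.eq_empty_or_nonempty with rfl | hne
  · simp only [Finset.sum_empty, Finset.sum_const_zero]
    linarith
  have hm : F.min' hne ∈ F := Finset.min'_mem F hne
  have hmin : ∀ s ∈ F, F.min' hne ≤ s := fun s hs => Finset.min'_le F s hs
  generalize F.min' hne = m at hm hmin
  have good : ∀ l ∈ I, ¬ (kp l ≤ m ∧ m < K l) → ∑ s ∈ F, |co e (x l) s| ≤ 2 / r := by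
    intro l hl hn
    have h12 : (1 : ℝ) / r ≤ 2 / r := by gcongr; norm_num
    by_cases hkp : m < kp l
    · have h5 : F.erase m ∈ Sc 𝓕 m := by
        refine ⟨fun s hs => ?_, ?_⟩
        · have h6 := hmin s (Finset.mem_of_mem_erase hs)
          have h7 := Finset.ne_of_mem_erase hs
          omega
        · rw [Finset.insert_erase hm]
          exact hF
      have h6 := h1 l hl m hkp _ h5
      have h7 : |co e (x l) m| ≤ 1 / r :=
        (Finset.single_le_sum (f := fun s => |co e (x l) s|) (fun _ _ => abs_nonneg _)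
          (Finset.mem_range.mpr hkp)).trans (h2 l hl)
      rw [← Finset.add_sum_erase _ _ hm]
      have h8 : (2 : ℝ) / r = 1 / r + 1 / r := by ring
      rw [h8]
      exact add_le_add h7 h6
    · have h5 : K l ≤ m := by
        by_contra h6
        exact hn ⟨by omega, by omega⟩
      exact (h3 l hl F hF fun s hs => h5.trans (hmin s hs)).trans h12
  have bad : ∀ l ∈ I, ∑ s ∈ F, |co e (x l) s| ≤ B := fun l hl =>
    (SB_co hR hX (x l) F hF).trans (hx l hl)
  have uniq : ∀ l l' : Fin r, kp l ≤ m ∧ m < K l → kp l' ≤ m ∧ m < K l' → l = l' := by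
    intro l l' hl hl'
    rcases lt_trichotomy l l' with h | h | h
    · have := hK l l' h
      omega
    · exact h
    · have := hK l' l h
      omega
  by_cases hex : ∃ l0 ∈ I, kp l0 ≤ m ∧ m < K l0
  · obtain ⟨l0, hl0, hb⟩ := hex
    rw [← Finset.add_sum_erase _ _ hl0]
    have h5 : ∑ l ∈ I.erase l0, ∑ s ∈ F, |co e (x l) s| ≤ ∑ _l ∈ I.erase l0, (2 : ℝ) / r := by
      refine Finset.sum_le_sum fun l hl => ?_
      refine good l (Finset.mem_of_mem_erase hl) fun hb' => ?_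
      exact Finset.ne_of_mem_erase hl (uniq l l0 hb' hb)
    exact add_le_add (bad l0 hl0) (h5.trans (levN_const r hr _))
  · have h5 : ∑ l ∈ I, ∑ s ∈ F, |co e (x l) s| ≤ ∑ _l ∈ I, (2 : ℝ) / r := by
      refine Finset.sum_le_sum fun l hl => ?_
      exact good l hl fun hb' => hex ⟨l, hl, hb'⟩
    have h6 := h5.trans (levN_const r hr _)
    linarith

end Pool.Agent.Comb7f333f.TPart
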