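import Pool.Agent.Lib.MP_7f333f_an.Tame.Fun
import Pool.Agent.Lib.MP_7f333f_an.Tame.LevN
import Pool.Agent.Lib.MP_7f333f_an.Tame.Last

set_option autoImplicit false
set_option linter.unusedSectionVars false
set_option linter.unusedVariables false

/-!
Module Data: from the tower to the data of the finite theorem.
-/

namespace Pool.Agent.Comb7f333f.TPart

open Filter Topology

/-! ### Products -/

section Pre

variable {r M : ℕ} {G : Type*} [Group G] (g : ℕ → Fin M → G)

/-- The product depends only on the first letters. -/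
theorem data_pre_congr {w w' : Fin r → Fin M} {m : ℕ}
    (h : ∀ k : Fin r, (k : ℕ) < m → w k = w' k) : pre g w m = pre g w' m := by
  induction m with
  | zero => rfl
  | succ m ih =>
    simp only [pre]
    rw [ih fun k hk => h k (by omega)]
    congr 1
    unfold stp
    split_ifs with hm
    · rw [h ⟨m, hm⟩ (Nat.lt_succ_self m)]
    · rfl

/-- The rest of the product depends only on the last letters. -/
theorem data_suf_congr {w w' : Fin r → Fin M} {j : ℕ}
    (h : ∀ k : Fin r, j < (k : ℕ) → w k = w' k) (m : ℕ) :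
    pre g w (j + 1 + m) * (pre g w (j + 1))⁻¹ = pre g w' (j + 1 + m) * (pre g w' (j + 1))⁻¹ := by
  induction m with
  | zero => simp
  | succ m ih =>
    rw [← add_assoc]
    simp only [pre] at ih ⊢
    rw [mul_assoc, mul_assoc, ih]
    congr 1
    unfold stp
    split_ifs with hm
    · rw [h ⟨j + 1 + m, hm⟩ (by simp only; omega)]
    · rfl

/-- The common rest of two words which differ only at level `l`. -/
theorem data_suf (w : Fin r → Fin M) (l : Fin r) (a : Fin M) :
    pre g (Function.update w l a) r * (pre g (Function.update w l a) (l + 1))⁻¹ =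
      pre g w r * (pre g w (l + 1))⁻¹ := by
  have h1 := data_suf_congr g (w := Function.update w l a) (w' := w) (j := (l : ℕ))
    (fun k hk => Function.update_of_ne (ne_of_gt (show l < k from hk)) _ _) (r - (l + 1))
  have h2 : (l : ℕ) + 1 + (r - (l + 1)) = r := by have := l.2; omega
  rwa [h2] at h1

/-- The product after the change of the last letter. -/
theorem data_last (w : Fin r → Fin M) (l : Fin r) (a : Fin M) :
    pre g (Function.update w l a) (l + 1) = g l a * pre g w l := by
  show stp g (Function.update w l a) l * pre g (Function.update w l a) l = _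
  have h2 : pre g (Function.update w l a) l = pre g w l :=
    data_pre_congr g fun k hk => Function.update_of_ne (Fin.ne_of_lt hk) _ _
  rw [h2]
  congr 1
  unfold stp
  rw [dif_pos l.2]
  simp

end Pre

theorem data_kap_lt (K0 : ℕ) (K : ℕ → ℕ) {i j : ℕ} (h : i < j) : K i ≤ kap K0 K j := by
  unfold kap
  have h1 : K i ≤ ∑ j' ∈ Finset.range j, K j' :=
    Finset.single_le_sum (f := K) (fun _ _ => Nat.zero_le _) (Finset.mem_range.mpr h)
  omega

theorem data_wt_sum {U N : ℕ} (c : Fin U → Fin N) (hU : 1 ≤ U) : ∑ n, wt c n = 1 := by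
  unfold wt
  rw [← Finset.sum_div, ← Nat.cast_sum]
  have h1 : ∑ n, (Finset.univ.filter fun u => c u = n).card = U := by
    have h2 := Finset.card_eq_sum_card_fiberwise (f := c) (s := Finset.univ)
      (t := Finset.univ) (fun _ _ => Finset.mem_coe.2 (Finset.mem_univ _))
    rw [Finset.card_univ, Fintype.card_fin] at h2
    exact h2.symm
  rw [h1]
  have : (U : ℝ) ≠ 0 := by
    have : (0 : ℝ) < U := by exact_mod_cast hU
    exact this.ne'
  exact div_self this

section Group

variable {𝓕 : Set (Finset ℕ)} {X : Type*} [NormedAddCommGroup X] [NormedSpace ℝ X] {e : ℕ → X}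
  (hR : IsRegular 𝓕) (hX : IsCombSpace 𝓕 e) (sc : Scale 𝓕) {G : Type*} [Group G]
  (A : G →* (X →L[ℝ] X)) (C : ℝ) (hC : 1 ≤ C) (hA : ∀ g x, ‖A g x‖ ≤ C * ‖x‖) (γ : ℕ → G)
  (hnull : ∀ x k, Tendsto (fun n => co e (A (γ n) x) k) atTop (𝓝 0))

theorem data_mul (g h : G) (x : X) : A (g * h) x = A g (A h x) := by
  rw [map_mul]; rfl

include hR hX

/-- The functionals of disjoint columns. -/
theorem data_fn_sum {ι : Type*} (I : Finset ι) (J S : ι → Finset ℕ)
    (hJ : ∀ i ∈ I, ∀ i' ∈ I, i ≠ i' → Disjoint (J i) (J i')) (hU : I.biUnion J ∈ 𝓕) (y : X) :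
    ∑ i ∈ I, |fn e (J i) (S i) y| ≤ ‖y‖ := by
  calc ∑ i ∈ I, |fn e (J i) (S i) y| ≤ ∑ i ∈ I, ∑ k ∈ J i, |co e y k| :=
        Finset.sum_le_sum fun i _ => abs_fn_le hR hX _ _ _
    _ = ∑ k ∈ I.biUnion J, |co e y k| := by
        rw [Finset.sum_biUnion]
        intro i hi i' hi' hne
        exact hJ i hi i' hi' hne
    _ ≤ ‖y‖ := SB_co hR hX y _ hU

include hC hA

theorem data_level {Λ : ℝ} {r M q0 K0 : ℕ} (t : Tower 𝓕 A e C Λ q0 K0 r M)
    (w : Fin r → Fin M) (l : Fin r) (g : G) (x : X) :
    ∑ q : Fin M × Fin (t.c l).N,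
      |fn e ((t.c l).J (Function.update w l q.1) q.2) ((t.c l).S (Function.update w l q.1) q.2)
        (A (g * pre t.g (Function.update w l q.1) r)⁻¹ x)| ≤ (C + 1) * C * ‖x‖ := by
  have hC0 : 0 ≤ C := by linarith
  set y' := A (g * (pre t.g w r * (pre t.g w (l + 1))⁻¹))⁻¹ x with hy'
  have hy'n : ‖y'‖ ≤ C * ‖x‖ := hA _ _
  have h3 : ∀ a : Fin M, A (g * pre t.g (Function.update w l a) r)⁻¹ x =
      A (pre t.g (Function.update w l a) (l + 1))⁻¹ y' := by
    intro a
    rw [hy', ← data_suf t.g w l a, ← data_mul]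
    congr 2
    group
  calc ∑ q : Fin M × Fin (t.c l).N, _ = ∑ a : Fin M, ∑ n,
        |fn e ((t.c l).J (Function.update w l a) n) ((t.c l).S (Function.update w l a) n)
        (A (pre t.g (Function.update w l a) (l + 1))⁻¹ y')| := by
        rw [Fintype.sum_prod_type]
        refine Finset.sum_congr rfl fun a _ => Finset.sum_congr rfl fun n _ => ?_
        simp only
        rw [h3 a]
    _ ≤ (C + 1) * ‖y'‖ := (t.lev l).row w y'
    _ ≤ (C + 1) * (C * ‖x‖) := mul_le_mul_of_nonneg_left hy'n (by linarith)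
    _ = (C + 1) * C * ‖x‖ := by ring

include sc hnull

theorem exists_coreD (Λ : ℝ) (hΛ : 0 < Λ) (r M : ℕ) (hr : 1 ≤ r) (hM : 1 ≤ M) (q0 K0 : ℕ)
    (hK0 : sc.X r q0 ≤ K0) (t : Tower 𝓕 A e C Λ q0 K0 r M) (Q0 : ℕ) :
    Nonempty (CoreD 𝓕 sc C (4 * Real.sqrt 3 * C ^ 2) (C * (C ^ 2 + 1)) (C * (C * Λ + 2)) Λ Q0
      r M) := by
  classical
  have hC0 : 0 < C := by linarith
  have hnA : ∀ (g : G) (J S : Finset ℕ), ‖A g (av e J S)‖ ≤ C := fun g J S => by
    have h1 := hA g (av e J S)
    have h2 := norm_av_le hR hX J S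
    nlinarith
  -- the columns are in the family
  have hJF : ∀ (l : Fin r) w n, (t.c l).J w n ∈ 𝓕 := fun l w n =>
    Sc_mem hR ((t.lev l).sect w n)
  set P : ℕ := Q0 + ∑ l : Fin r, sc.t0 (t.c l).U with hP
  obtain ⟨n0, Z, hZ⟩ := exists_last hR hX A C hC hA γ hnull
    (Finset.univ : Finset ((l : Fin r) × ((Fin r → Fin M) × Fin (t.c l).U)))
    (fun i => pre t.g i.2.1 r) (fun i => (t.c i.1).J i.2.1 ((t.c i.1).col i.2.1 i.2.2))
    (fun i => (t.c i.1).S i.2.1 ((t.c i.1).col i.2.1 i.2.2))
    (fun i _ => ⟨(t.lev i.1).used i.2.1 i.2.2, hJF _ _ _⟩) P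
  set g0 : G := γ n0 with hg0
  refine ⟨{
    P := P
    Z := Z
    N := fun l => (t.c l).N
    U := fun l => (t.c l).U
    col := fun w l => (t.c l).col w
    v := fun w l n s => co e (A (g0 * pre t.g w r) (av e ((t.c l).J w n) ((t.c l).S w n))) s
    ζ := fun w l n s => fn e ((t.c l).J w n) ((t.c l).S w n) (A (g0 * pre t.g w r)⁻¹ (e s))
    U_pos := ?_
    hP := ?_
    hPU := ?_
    hcol := ?_
    h0 := ?_
    h1 := ?_
    h2 := ?_
    h3 := ?_
    h4 := ?_
    h5 := ?_ }⟩
  · exact fun l => (t.lev l).U_pos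
  · rw [hP]; omega
  · intro l
    rw [hP]
    have := Finset.single_le_sum (f := fun l : Fin r => sc.t0 (t.c l).U)
      (fun _ _ => Nat.zero_le _) (Finset.mem_univ l)
    omega
  · intro l w w' h
    exact ((t.lev l).dep w w' h).2.2
  · intro w l n F hF
    exact (SB_co hR hX _ F hF).trans (hnA _ _ _)
  · intro w l u
    exact hZ ⟨l, w, u⟩ (Finset.mem_univ _)
  · -- h2
    intro w n z B hz hzB
    have hB : 0 ≤ B := SB_nonneg hR hzB
    have h1 := sq_fun hR hX (Finset.univ : Finset (Fin r))
      (fun l => (fnL e ((t.c l).J w (n l)) ((t.c l).S w (n l))).comp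
        (A (g0 * pre t.g w r)⁻¹)) C ?_ (Finset.Ico P Z) z B hz hzB
    · rw [abs_of_pos hC0] at h1
      refine le_trans (le_trans (le_of_eq ?_) h1) ?_
      · refine Finset.sum_congr rfl fun s _ => ?_
        congr 2
        refine Finset.sum_congr rfl fun l _ => ?_
        rw [ContinuousLinearMap.comp_apply, fnL_apply]
      · have h5 : C ≤ 4 * C ^ 2 := by nlinarith
        have h6 : C * B ≤ 4 * C ^ 2 * B := mul_le_mul_of_nonneg_right h5 hB
        calc Real.sqrt 3 * (C * B) ≤ Real.sqrt 3 * (4 * C ^ 2 * B) :=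
              mul_le_mul_of_nonneg_left h6 (Real.sqrt_nonneg _)
          _ = _ := by ring
    · intro x
      have h2 := data_fn_sum hR hX (Finset.univ : Finset (Fin r))
        (fun l => (t.c l).J w (n l)) (fun l => (t.c l).S w (n l)) ?_ ?_
        (A (g0 * pre t.g w r)⁻¹ x)
      · refine le_trans (le_of_eq ?_) (h2.trans (hA _ _))
        refine Finset.sum_congr rfl fun l _ => ?_
        rw [ContinuousLinearMap.comp_apply, fnL_apply]
      · have key : ∀ l l' : Fin r, l < l' →
            Disjoint ((t.c l).J w (n l)) ((t.c l').J w (n l')) := by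
          intro l l' hll
          rw [Finset.disjoint_left]
          intro i hi hi'
          have h3 := ((t.lev l).range w (n l) i hi).2
          have h4 := ((t.lev l').range w (n l') i hi').1
          have h5 := data_kap_lt K0 t.K (show (l : ℕ) < l' from hll)
          omega
        intro l _ l' _ hne
        rcases lt_or_gt_of_ne hne with h | h
        · exact key l l' h
        · exact (key l' l h).symm
      · refine Sc_mem hR (Scale.un' hR sc r q0 Finset.univ (by simp) _
          (fun l _ => ⟨q0, le_rfl, (t.lev l).sect w (n l)⟩) fun l _ s hs => ?_)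
        have h3 := ((t.lev l).range w (n l) s hs).1
        have h4 : 1 + K0 ≤ kap K0 t.K l := by unfold kap; omega
        omega
  · -- h3
    intro w l z B hz hzB
    have hB : 0 ≤ B := SB_nonneg hR hzB
    have h1 := sq_fun hR hX (Finset.univ : Finset (Fin M × Fin (t.c l).N))
      (fun q => (fnL e ((t.c l).J (Function.update w l q.1) q.2)
        ((t.c l).S (Function.update w l q.1) q.2)).comp
        (A (g0 * pre t.g (Function.update w l q.1) r)⁻¹)) ((C + 1) * C) ?_
        (Finset.Ico P Z) z B hz hzB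
    · rw [abs_of_pos (by positivity : 0 < (C + 1) * C)] at h1
      refine le_trans (le_trans (le_of_eq ?_) h1) ?_
      · refine Finset.sum_congr rfl fun s _ => ?_
        congr 2
        refine Finset.sum_congr rfl fun q _ => ?_
        rw [ContinuousLinearMap.comp_apply, fnL_apply]
      · have h5 : (C + 1) * C ≤ 4 * C ^ 2 := by nlinarith
        have h6 : (C + 1) * C * B ≤ 4 * C ^ 2 * B := mul_le_mul_of_nonneg_right h5 hB
        calc Real.sqrt 3 * ((C + 1) * C * B) ≤ Real.sqrt 3 * (4 * C ^ 2 * B) :=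
              mul_le_mul_of_nonneg_left h6 (Real.sqrt_nonneg _)
          _ = _ := by ring
    · intro x
      refine le_trans (le_of_eq ?_) (data_level hR hX A C hC hA t w l g0 x)
      refine Finset.sum_congr rfl fun q _ => ?_
      rw [ContinuousLinearMap.comp_apply, fnL_apply]
  · -- h4
    intro w k l hkl n θ hθ
    have h1 : ∀ a : Fin M,
        A (g0 * pre t.g (Function.update w l a) r) (av e ((t.c k).J (Function.update w l a) n)
          ((t.c k).S (Function.update w l a) n)) =
        A (g0 * (pre t.g w r * (pre t.g w (l + 1))⁻¹))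
          (A (t.g l a) (A (pre t.g w l) (av e ((t.c k).J w n) ((t.c k).S w n)))) := by
      intro a
      have h2 := (t.lev k).dep (Function.update w l a) w fun k' hk' =>
          Function.update_of_ne (ne_of_lt (lt_of_le_of_lt hk' hkl)) _ _
      rw [h2.1, h2.2.1, ← data_suf t.g w l a, data_last, ← data_mul, ← data_mul]
      congr 2
      group
    have h6 : (fun s => ∑ a, θ a * co e (A (g0 * pre t.g (Function.update w l a) r)
        (av e ((t.c k).J (Function.update w l a) n) ((t.c k).S (Function.update w l a) n))) s) =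
        co e (A (g0 * (pre t.g w r * (pre t.g w (l + 1))⁻¹))
          (∑ a, θ a • A (t.g l a) (A (pre t.g w l)
            (av e ((t.c k).J w n) ((t.c k).S w n))))) := by
      funext s
      rw [map_sum, co_sum]
      refine Finset.sum_congr rfl fun a _ => ?_
      rw [map_smul, co_smul, h1 a]
    show SB 𝓕 (fun s => ∑ a, θ a * co e (A (g0 * pre t.g (Function.update w l a) r)
        (av e ((t.c k).J (Function.update w l a) n) ((t.c k).S (Function.update w l a) n))) s) _
    rw [h6]
    intro F hF
    refine (SB_co hR hX _ F hF).trans ((hA _ _).trans ?_)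
    exact mul_le_mul_of_nonneg_left (t.signs l l.2 w k hkl n θ hθ) hC0.le
  · -- h5
    intro w I a β hβ
    set w' : Fin r → Fin r → Fin M := fun l => Function.update w l (a l) with hw'
    -- the pulled back vectors
    set x : Fin r → X := fun l => ∑ n, β l n • A ((pre t.g w (l + 1))⁻¹ * pre t.g (w' l) (l + 1))
      (av e ((t.c l).J (w' l) n) ((t.c l).S (w' l) n)) with hx
    have hβ1 : ∀ l, ∑ n, |β l n| ≤ Λ := by
      intro l
      calc ∑ n, |β l n| ≤ ∑ n, Λ * wt ((t.c l).col (w' l)) n :=
            Finset.sum_le_sum fun n _ => hβ l n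
        _ = Λ := by rw [← Finset.mul_sum, data_wt_sum _ (t.lev l).U_pos, mul_one]
    have hxn : ∀ l, ‖x l‖ ≤ C * Λ := by
      intro l
      calc ‖x l‖ ≤ ∑ n, ‖β l n • A ((pre t.g w (l + 1))⁻¹ * pre t.g (w' l) (l + 1))
            (av e ((t.c l).J (w' l) n) ((t.c l).S (w' l) n))‖ := norm_sum_le _ _
        _ ≤ ∑ n, |β l n| * C := by
            refine Finset.sum_le_sum fun n _ => ?_
            rw [norm_smul, Real.norm_eq_abs]
            exact mul_le_mul_of_nonneg_left (hnA _ _ _) (abs_nonneg _)
        _ = C * ∑ n, |β l n| := by rw [← Finset.sum_mul, mul_comm]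
        _ ≤ C * Λ := mul_le_mul_of_nonneg_left (hβ1 l) hC0.le
    have hflat := fun l : Fin r => (t.lev l).flat w (w' l) (β l) (hβ l)
    have hnorm : ‖∑ l ∈ I, x l‖ ≤ C * Λ + 2 :=
      levels_norm hR hX r hr I x (fun l => kap K0 t.K l) (fun l => t.K l)
        (fun l l' hll => data_kap_lt K0 t.K hll) (C * Λ) (by positivity) (fun l _ => hxn l)
        (fun l _ => (hflat l).1) (fun l _ => (hflat l).2.1) (fun l _ => (hflat l).2.2)
    have hpull : ∀ (l : Fin r) (n : Fin (t.c l).N),
        A (g0 * pre t.g (w' l) r) (av e ((t.c l).J (w' l) n) ((t.c l).S (w' l) n)) =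
        A (g0 * pre t.g w r) (A ((pre t.g w (l + 1))⁻¹ * pre t.g (w' l) (l + 1))
          (av e ((t.c l).J (w' l) n) ((t.c l).S (w' l) n))) := by
      intro l n
      rw [← data_mul]
      congr 2
      have h3 := data_suf t.g w l (a l)
      have h4 : pre t.g (w' l) r = (pre t.g (w' l) r * (pre t.g (w' l) (l + 1))⁻¹) *
            pre t.g (w' l) (l + 1) := by group
      rw [h4, h3]
      group
    have hco : (fun s => ∑ l ∈ I, ∑ n, β l n * co e (A (g0 * pre t.g (w' l) r)
        (av e ((t.c l).J (w' l) n) ((t.c l).S (w' l) n))) s) =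
        co e (A (g0 * pre t.g w r) (∑ l ∈ I, x l)) := by
      funext s
      rw [map_sum, co_sum]
      refine Finset.sum_congr rfl fun l _ => ?_
      rw [hx]
      simp only
      rw [map_sum, co_sum]
      refine Finset.sum_congr rfl fun n _ => ?_
      rw [map_smul, co_smul, hpull]
    show SB 𝓕 (fun s => ∑ l ∈ I, ∑ n, β l n * co e (A (g0 * pre t.g (w' l) r)
        (av e ((t.c l).J (w' l) n) ((t.c l).S (w' l) n))) s) _
    rw [hco]
    intro F hF
    exact (SB_co hR hX _ F hF).trans ((hA _ _).trans (mul_le_mul_of_nonneg_left hnorm hC0.le))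

end Group

end Pool.Agent.Comb7f333f.TPart
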