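import Pool.Agent.Lib.MP_7f333f_an.Tame.Coup
import Pool.Agent.Lib.MP_7f333f_an.Tame.Sec

set_option autoImplicit false
set_option linter.unusedSectionVars false
set_option linter.unusedVariables false

/-!
Module Deep: for a good pair, the averages of the columns are concentrated on a small set beyond
`mn A`, or `mn A` is in a window (compare `Siz/Deep.lean`).
-/

namespace Pool.Agent.Comb7f333f.TPart

section Lev

variable {𝓕 : Set (Finset ℕ)} {P Z : ℕ} {C B₁ : ℝ}

theorem mn_mem {A : Finset ℕ} (h : A.Nonempty) : mn A ∈ A := by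
  have h1 : (A : Set ℕ).Nonempty := by exact_mod_cast h
  have h2 := Nat.sInf_mem h1
  exact_mod_cast h2

theorem mn_le {A : Finset ℕ} {s : ℕ} (h : s ∈ A) : mn A ≤ s :=
  Nat.sInf_le (by exact_mod_cast h)

namespace DeepAux

/-- pigeonhole on the letters -/
theorem pigeon {M U : ℕ} (R : Finset (Fin M × Fin U)) (e : ℝ) (j : Fin M × Fin U)
    (hR : e * ((M * U : ℕ) : ℝ) ≤ (R.card : ℝ)) :
    ∃ a : Fin M, e * U ≤ ((Finset.univ.filter fun u : Fin U => (a, u) ∈ R).card : ℝ) := by
  classical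
  have h1 : R.card = ∑ a : Fin M, (Finset.univ.filter fun ν : Fin U => (a, ν) ∈ R).card := by
    have h2 : R.card = ∑ a : Fin M, (R.filter fun q => q.1 = a).card :=
      Finset.card_eq_sum_card_fiberwise fun q _ => Finset.mem_coe.2 (Finset.mem_univ q.1)
    rw [h2]
    refine Finset.sum_congr rfl fun a _ => ?_
    refine Finset.card_bij (fun q _ => q.2) ?_ ?_ ?_
    · intro q hq
      rw [Finset.mem_filter] at hq ⊢
      refine ⟨Finset.mem_univ _, ?_⟩
      rw [← hq.2]
      exact hq.1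
    · intro q hq q' hq' h
      rw [Finset.mem_filter] at hq hq'
      exact Prod.ext (hq.2.trans hq'.2.symm) h
    · intro ν hν
      rw [Finset.mem_filter] at hν
      exact ⟨(a, ν), Finset.mem_filter.2 ⟨hν.2, rfl⟩, rfl⟩
  by_contra hcon
  push Not at hcon
  have : Nonempty (Fin M) := ⟨j.1⟩
  have h4 : ∑ a : Fin M, ((Finset.univ.filter fun ν : Fin U => (a, ν) ∈ R).card : ℝ) <
      ∑ _a : Fin M, e * U :=
    Finset.sum_lt_sum_of_nonempty Finset.univ_nonempty fun a _ => hcon a
  rw [Finset.sum_const, Finset.card_univ, Fintype.card_fin, nsmul_eq_mul] at h4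
  rw [h1] at hR
  push_cast at hR
  linarith

/-- the share of the column `n` in the set `I` -/
noncomputable def bet {U N : ℕ} (I : Finset (Fin U)) (c : Fin U → Fin N) (n : Fin N) : ℝ :=
  ((I.filter fun u => c u = n).card : ℝ) / I.card

theorem bet_nonneg {U N : ℕ} (I : Finset (Fin U)) (c : Fin U → Fin N) (n : Fin N) :
    0 ≤ bet I c n := by
  unfold bet
  positivity

theorem bet_le {U N : ℕ} (I : Finset (Fin U)) (c : Fin U → Fin N) (n : Fin N) {e : ℝ}
    (he : 0 < e) (hU : 1 ≤ U) (hI : e * U ≤ (I.card : ℝ)) : bet I c n ≤ 1 / e * wt c n := by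
  classical
  have hU0 : (0 : ℝ) < U := by exact_mod_cast hU
  have h1 : 0 < e * U := mul_pos he hU0
  unfold bet wt
  calc ((I.filter fun u => c u = n).card : ℝ) / I.card
      ≤ ((Finset.univ.filter fun u => c u = n).card : ℝ) / (e * U) := by
        refine div_le_div₀ (Nat.cast_nonneg _) ?_ h1 hI
        exact_mod_cast Finset.card_le_card (Finset.filter_subset_filter _ (Finset.subset_univ _))
    _ = 1 / e * (((Finset.univ.filter fun u => c u = n).card : ℝ) / U) := by
        field_simp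

/-- the mass of a union -/
theorem massU {M N U : ℕ} (L : Lev 𝓕 P Z C B₁ (Fin M × Fin U) (Fin M × Fin N))
    (cl : Fin M → Fin U → Fin N) (hcl : ∀ j, L.col j = (j.1, cl j.1 j.2)) (hC : 1 ≤ C)
    (hB : 1 ≤ B₁) (a : Fin M) (I : Finset (Fin U)) (hI : I.Nonempty) (V : Fin U → Finset ℕ)
    (hV : ∀ u ∈ I, ∀ s ∈ V u, s ∈ Finset.Ico P Z) (c : ℝ)
    (hc : ∀ u ∈ I, c ≤ ∑ s ∈ V u, L.ej (L.col (a, u)) s * |L.v (L.col (a, u)) s|) :
    c ≤ ∑ s ∈ I.biUnion V, Real.sqrt (∑ n, (bet I (cl a) n * L.v (a, n) s) ^ 2) := by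
  classical
  have hI0 : (0 : ℝ) < I.card := by exact_mod_cast hI.card_pos
  have hg : ∀ (n : Fin N) (s : ℕ), 0 ≤ L.ej (a, n) s * |L.v (a, n) s| := fun n s =>
    mul_nonneg (L.ej_nonneg hC hB _ _) (abs_nonneg _)
  have h1 : c * (I.card : ℝ) ≤
      ∑ s ∈ I.biUnion V, ∑ u ∈ I, L.ej (a, cl a u) s * |L.v (a, cl a u) s| := by
    calc c * (I.card : ℝ) = ∑ _u ∈ I, c := by
          rw [Finset.sum_const, nsmul_eq_mul]; ring
      _ ≤ ∑ u ∈ I, ∑ s ∈ V u, L.ej (a, cl a u) s * |L.v (a, cl a u) s| := by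
          refine Finset.sum_le_sum fun u hu => ?_
          have h := hc u hu
          rw [hcl] at h
          exact h
      _ ≤ ∑ u ∈ I, ∑ s ∈ I.biUnion V, L.ej (a, cl a u) s * |L.v (a, cl a u) s| := by
          refine Finset.sum_le_sum fun u hu => ?_
          exact Finset.sum_le_sum_of_subset_of_nonneg (Finset.subset_biUnion_of_mem V hu)
            fun s _ _ => hg _ _
      _ = _ := Finset.sum_comm
  have h2 : ∀ s ∈ I.biUnion V, ∑ u ∈ I, L.ej (a, cl a u) s * |L.v (a, cl a u) s| ≤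
      (I.card : ℝ) * Real.sqrt (∑ n, (bet I (cl a) n * L.v (a, n) s) ^ 2) := by
    intro s hs
    have hsI : s ∈ Finset.Ico P Z := by
      obtain ⟨u, hu, hsu⟩ := Finset.mem_biUnion.1 hs
      exact hV u hu s hsu
    have h3 : ∑ u ∈ I, L.ej (a, cl a u) s * |L.v (a, cl a u) s| =
        (I.card : ℝ) * ∑ n, L.ej (a, n) s * (bet I (cl a) n * |L.v (a, n) s|) := by
      rw [← Finset.sum_fiberwise I (cl a), Finset.mul_sum]
      refine Finset.sum_congr rfl fun n _ => ?_
      have h4 : ∑ u ∈ I.filter (fun u => cl a u = n), L.ej (a, cl a u) s * |L.v (a, cl a u) s| =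
          ∑ _u ∈ I.filter (fun u => cl a u = n), L.ej (a, n) s * |L.v (a, n) s| := by
        refine Finset.sum_congr rfl fun u hu => ?_
        rw [(Finset.mem_filter.1 hu).2]
      rw [h4, Finset.sum_const, nsmul_eq_mul]
      unfold bet
      field_simp
    rw [h3]
    refine mul_le_mul_of_nonneg_left ?_ hI0.le
    calc ∑ n, L.ej (a, n) s * (bet I (cl a) n * |L.v (a, n) s|)
        ≤ Real.sqrt (∑ n, L.ej (a, n) s ^ 2) *
            Real.sqrt (∑ n, (bet I (cl a) n * |L.v (a, n) s|) ^ 2) :=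
          Real.sum_mul_le_sqrt_mul_sqrt _ _ _
      _ ≤ 1 * Real.sqrt (∑ n, (bet I (cl a) n * L.v (a, n) s) ^ 2) := by
          simp only [mul_pow, sq_abs]
          refine mul_le_mul_of_nonneg_right ?_ (Real.sqrt_nonneg _)
          rw [Real.sqrt_le_one]
          calc ∑ n, L.ej (a, n) s ^ 2
              = ∑ q ∈ Finset.univ.image (fun n : Fin N => (a, n)), L.ej q s ^ 2 := by
                rw [Finset.sum_image]
                intro x _ y _ h
                exact (Prod.mk.inj h).2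
            _ ≤ ∑ q, L.ej q s ^ 2 :=
                Finset.sum_le_sum_of_subset_of_nonneg (Finset.subset_univ _)
                  fun q _ _ => sq_nonneg _
            _ ≤ 1 := L.sum_ej_sq_le hC hB s hsI
      _ = _ := one_mul _
  have h5 := h1.trans (Finset.sum_le_sum h2)
  rw [← Finset.mul_sum, mul_comm c] at h5
  exact le_of_mul_le_mul_left h5 hI0

end DeepAux

open DeepAux

namespace Lev

theorem le_tq {J Q : Type} [Fintype J] [Fintype Q] (L : Lev 𝓕 P Z C B₁ J Q) (hC : 1 ≤ C)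
    (hB : 1 ≤ B₁) (j : J) (A' : Finset ℕ) (hA' : 0 < L.gam A') (hq : (L.qset A').Nonempty) :
    P ≤ L.tq A' := by
  classical
  by_contra hcon
  push Not at hcon
  have htmem : L.tq A' ∈ L.qset A' := Nat.sInf_mem hq
  unfold qset at htmem
  rw [Set.mem_ofPred_eq] at htmem
  have h0 : ∑ j', ∑ A ∈ (sets 𝓕 P Z).filter (fun A => L.keptU j' A A' ∧ mn A ≤ L.tq A'),
      L.kp j' A A' ≤ 0 := by
    refine Finset.sum_nonpos fun j' _ => Finset.sum_nonpos fun A hA => ?_
    rw [Finset.mem_filter] at hA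
    by_contra hpos
    push Not at hpos
    have h1 := (L.kp_pos_imp hC hB j' A A' hpos).1
    have h2 := coup_mem_Ico hA.1 (mn_mem h1)
    rw [Finset.mem_Ico] at h2
    have h3 := hA.2.2
    omega
  have h1 : 0 < e0 C B₁ * L.gam A' * Fintype.card J := by
    have h2 : 0 < e0 C B₁ := by
      unfold e0
      have : 0 < C := by linarith
      have : 0 < B₁ := by linarith
      positivity
    have h3 : 0 < Fintype.card J := Fintype.card_pos_iff.2 ⟨j⟩
    have h4 : (0 : ℝ) < Fintype.card J := by exact_mod_cast h3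
    positivity
  linarith

theorem deep_or_window (hR : IsRegular 𝓕) (sc : Scale 𝓕) {M N U : ℕ}
    (L : Lev 𝓕 P Z C B₁ (Fin M × Fin U) (Fin M × Fin N)) (cl : Fin M → Fin U → Fin N)
    (hcl : ∀ j, L.col j = (j.1, cl j.1 j.2)) (hC : 1 ≤ C) (hB : 1 ≤ B₁) (hU : 1 ≤ U) (K : ℕ)
    (j : Fin M × Fin U) (A A' : Finset ℕ) (hA : A ∈ sets 𝓕 P Z) (hA' : A' ∈ sets 𝓕 P Z)
    (hg : L.good j A A') :
    DeepAt 𝓕 sc cl L.v (1 / e0 C B₁) (ep C B₁ * c0 B₁) K (mn A) ∨
      (L.keptU j A A' ∧ P ≤ L.tq A' ∧ L.tq A' ≤ mn A ∧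
        mn A ≤ sc.X K (sc.X U (L.tq A'))) ∨
      (L.keptL j A A' ∧ mn A' ≤ mn A ∧ mn A ≤ sc.X K (mn A')) := by
  classical
  obtain ⟨hkp, hg⟩ := hg
  obtain ⟨hne, hne', -, hgam⟩ := L.kp_pos_imp hC hB j A A' hkp
  have hC0 : 0 < C := by linarith
  have hB0 : 0 < B₁ := by linarith
  have hU0 : (0 : ℝ) < U := by exact_mod_cast hU
  have he0 : 0 < e0 C B₁ := by unfold e0; positivity
  have hcard : Fintype.card (Fin M × Fin U) = M * U := by
    rw [Fintype.card_prod, Fintype.card_fin, Fintype.card_fin]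
  have hc0 : 0 ≤ c0 B₁ := by unfold c0; positivity
  have hep0 : 0 ≤ ep C B₁ := by unfold ep; positivity
  have hep1 : ep C B₁ ≤ 1 := by
    unfold ep
    rw [div_le_one (by positivity)]
    nlinarith
  have hSI : ∀ (j' : Fin M × Fin U) (s : ℕ), s ∈ L.S j' → s ∈ Finset.Ico P Z := by
    intro j' s hs
    unfold S at hs
    exact (Finset.mem_filter.mp hs).1
  have hSe : ∀ (j' : Fin M × Fin U) (s : ℕ), s ∈ L.S j' → ep C B₁ ≤ L.ej (L.col j') s := by
    intro j' s hs
    unfold S at hs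
    exact (Finset.mem_filter.mp hs).2.2
  rcases hg with ⟨hkU, hqne, htq⟩ | ⟨hkL, hJJ⟩
  · by_cases hwin : mn A ≤ sc.X K (sc.X U (L.tq A'))
    · exact Or.inr (Or.inl ⟨hkU, L.le_tq hC hB j A' hgam hqne, htq, hwin⟩)
    · left
      push Not at hwin
      obtain ⟨hle, -⟩ := hkU
      have htmem : L.tq A' ∈ L.qset A' := Nat.sInf_mem hqne
      set t := L.tq A' with ht
      unfold qset at htmem
      rw [Set.mem_ofPred_eq] at htmem
      have htX : t ≤ sc.X U t := sc.le U t
      have hXX : sc.X U t ≤ sc.X K (sc.X U t) := sc.le K _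
      set R : Finset (Fin M × Fin U) := Finset.univ.filter fun j' =>
        ∃ A'' ∈ sets 𝓕 P Z, L.keptU j' A'' A' ∧ mn A'' ≤ t ∧ 0 < L.kp j' A'' A' with hRdef
      have hRcard : e0 C B₁ * ((M * U : ℕ) : ℝ) ≤ (R.card : ℝ) := by
        have h1 : ∀ j', ∑ A'' ∈ (sets 𝓕 P Z).filter (fun A'' => L.keptU j' A'' A' ∧ mn A'' ≤ t),
            L.kp j' A'' A' ≤ if j' ∈ R then L.gam A' else 0 := by
          intro j'
          split_ifs with h
          · refine le_trans (Finset.sum_le_sum_of_subset_of_nonneg (Finset.filter_subset _ _)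
              fun B _ _ => L.kp_nonneg hC hB j' B A') (L.sum_kp_j_le hC hB j' A' hA')
          · refine Finset.sum_nonpos fun A'' hA'' => ?_
            rw [Finset.mem_filter] at hA''
            by_contra hpos
            push Not at hpos
            exact h (by
              rw [hRdef, Finset.mem_filter]
              exact ⟨Finset.mem_univ _, A'', hA''.1, hA''.2.1, hA''.2.2, hpos⟩)
        have h2 := htmem.trans (Finset.sum_le_sum fun j' (_ : j' ∈ Finset.univ) => h1 j')
        rw [Finset.sum_ite_mem, Finset.univ_inter, Finset.sum_const, nsmul_eq_mul, hcard] at h2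
        have h3 : L.gam A' * (e0 C B₁ * ((M * U : ℕ) : ℝ)) ≤ L.gam A' * (R.card : ℝ) := by
          linarith
        exact le_of_mul_le_mul_left h3 hgam
      obtain ⟨a, hIc⟩ := pigeon R (e0 C B₁) j hRcard
      set I : Finset (Fin U) := Finset.univ.filter fun u : Fin U => (a, u) ∈ R with hI
      have hIne : I.Nonempty := by
        rw [← Finset.card_pos]
        have h1 : (0 : ℝ) < I.card := lt_of_lt_of_le (mul_pos he0 hU0) hIc
        exact_mod_cast h1
      have hIU : I.card ≤ U := by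
        calc I.card ≤ (Finset.univ : Finset (Fin U)).card := Finset.card_le_univ _
          _ = U := by rw [Finset.card_univ, Fintype.card_fin]
      have hch : ∀ u : Fin U, ∃ B : Finset ℕ, u ∈ I →
          (B ∈ sets 𝓕 P Z ∧ L.keptU (a, u) B A' ∧ mn B ≤ t ∧ 0 < L.kp (a, u) B A') := by
        intro u
        by_cases hu : u ∈ I
        · have h1 := (Finset.mem_filter.1 hu).2
          rw [hRdef, Finset.mem_filter] at h1
          obtain ⟨-, B, hB1, hB2, hB3, hB4⟩ := h1
          exact ⟨B, fun _ => ⟨hB1, hB2, hB3, hB4⟩⟩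
        · exact ⟨∅, fun h => absurd h hu⟩
      choose B hBp using hch
      set V : Fin U → Finset ℕ := fun u => (B u ∩ L.S (a, u)).filter (fun s => mn A' ≤ s) with hV
      have hVmem : ∀ u s, s ∈ V u → s ∈ B u ∧ s ∈ L.S (a, u) ∧ mn A' ≤ s := by
        intro u s hs
        rw [hV, Finset.mem_filter, Finset.mem_inter] at hs
        exact ⟨hs.1.1, hs.1.2, hs.2⟩
      have hVI : ∀ u ∈ I, ∀ s ∈ V u, s ∈ Finset.Ico P Z := fun u _ s hs =>
        hSI _ _ (hVmem u s hs).2.1
      have hVlt : ∀ u s, s ∈ V u → sc.X U t < s := by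
        intro u s hs
        have h1 := (hVmem u s hs).2.2
        omega
      refine ⟨a, bet I (cl a), fun n => ⟨bet_nonneg I (cl a) n, bet_le I (cl a) n he0 hU hIc⟩,
        I.biUnion V, ⟨sc.X U t, hwin, ?_, ?_⟩, ?_⟩
      · refine Scale.un' hR sc U t I hIU V ?_ ?_
        · intro u hu
          obtain ⟨h1, h2, h3, h4⟩ := hBp u hu
          have h5 := (L.kp_pos_imp hC hB _ _ _ h4).1
          refine ⟨t, le_rfl, Sc_subset hR (Sc_of_mem hR (coup_mem_sz h1) (mn_mem h5) h3) ?_⟩
          intro s hs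
          rw [Finset.mem_filter]
          exact ⟨(hVmem u s hs).1, lt_of_le_of_lt htX (hVlt u s hs)⟩
        · intro u _ s hs
          exact hVlt u s hs
      · intro s hs
        obtain ⟨u, _, hsu⟩ := Finset.mem_biUnion.1 hs
        exact hle.trans (hVmem u s hsu).2.2
      · refine massU L cl hcl hC hB a I hIne V hVI _ fun u hu => ?_
        obtain ⟨-, ⟨-, h3⟩, -, -⟩ := hBp u hu
        calc ep C B₁ * c0 B₁ ≤ ep C B₁ * ∑ s ∈ V u, |L.v (L.col (a, u)) s| :=
              mul_le_mul_of_nonneg_left h3 hep0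
          _ = ∑ s ∈ V u, ep C B₁ * |L.v (L.col (a, u)) s| := Finset.mul_sum _ _ _
          _ ≤ _ := by
              refine Finset.sum_le_sum fun s hs => ?_
              exact mul_le_mul_of_nonneg_right (hSe _ _ (hVmem u s hs).2.1) (abs_nonneg _)
  · by_cases hwin : mn A ≤ sc.X K (mn A')
    · exact Or.inr (Or.inr ⟨hkL, hkL.1.le, hwin⟩)
    · left
      push Not at hwin
      obtain ⟨hlt, -, -⟩ := hkL
      have hRcard : e0 C B₁ * ((M * U : ℕ) : ℝ) ≤ ((L.JJ A' (mn A)).card : ℝ) := by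
        rw [← hcard]
        exact hJJ
      obtain ⟨a, hIc⟩ := pigeon _ (e0 C B₁) j hRcard
      set I : Finset (Fin U) := Finset.univ.filter fun u : Fin U => (a, u) ∈ L.JJ A' (mn A) with hI
      have hIne : I.Nonempty := by
        rw [← Finset.card_pos]
        have h1 : (0 : ℝ) < I.card := lt_of_lt_of_le (mul_pos he0 hU0) hIc
        exact_mod_cast h1
      have hIcap : ∀ u ∈ I, L.capj (a, u) A' (mn A) := by
        intro u hu
        have h1 := (Finset.mem_filter.1 hu).2
        unfold JJ at h1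
        exact (Finset.mem_filter.1 h1).2
      set V : Fin U → Finset ℕ := fun u => (A' ∩ L.S (a, u)).filter (fun s => mn A ≤ s) with hV
      have hVmem : ∀ u s, s ∈ V u → s ∈ A' ∧ s ∈ L.S (a, u) ∧ mn A ≤ s := by
        intro u s hs
        rw [hV, Finset.mem_filter, Finset.mem_inter] at hs
        exact ⟨hs.1.1, hs.1.2, hs.2⟩
      have hVI : ∀ u ∈ I, ∀ s ∈ V u, s ∈ Finset.Ico P Z := fun u _ s hs =>
        hSI _ _ (hVmem u s hs).2.1
      refine ⟨a, bet I (cl a), fun n => ⟨bet_nonneg I (cl a) n, bet_le I (cl a) n he0 hU hIc⟩,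
        I.biUnion V, ⟨mn A', hwin, ?_, ?_⟩, ?_⟩
      · refine Sc_subset hR (Sc_of_mem hR (coup_mem_sz hA') (mn_mem hne') le_rfl) ?_
        intro s hs
        obtain ⟨u, _, hsu⟩ := Finset.mem_biUnion.1 hs
        have h1 := hVmem u s hsu
        rw [Finset.mem_filter]
        exact ⟨h1.1, lt_of_lt_of_le hlt h1.2.2⟩
      · intro s hs
        obtain ⟨u, _, hsu⟩ := Finset.mem_biUnion.1 hs
        exact (hVmem u s hsu).2.2
      · refine massU L cl hcl hC hB a I hIne V hVI _ fun u hu => ?_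
        calc ep C B₁ * c0 B₁ ≤ c0 B₁ := mul_le_of_le_one_left hc0 hep1
          _ ≤ _ := hIcap u hu

end Lev

end Lev

end Pool.Agent.Comb7f333f.TPart
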