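import Pool.Agent.Lib.MP_7f333f_an.RP.Weak
import Pool.Agent.Lib.MP_7f333f_an.Neg.Signs
import Pool.Agent.Lib.MP_7f333f_an.Neg.Ops

set_option autoImplicit false

/-!
Part (W) for the tame families, in particular for the Schreier families of all countable orders
`≥ 2`: a bounded group of operators contains no sequence tending to zero coordinatewise.
Definitions shared by the modules.
-/

namespace Pool.Agent.Comb7f333f.TPart

open Filter Topology

/-! ### The families -/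

/-- The section of the family at `q`: the sets `D` beyond `q` with `{q} ∪ D` in the family. -/
def Sc (𝓕 : Set (Finset ℕ)) (q : ℕ) : Set (Finset ℕ) :=
  {D | (∀ s ∈ D, q < s) ∧ insert q D ∈ 𝓕}

/-- For every number `f` and all large `t` there is `x ≥ t` such that the whole interval `[t, x]`
belongs to the family and the union of any `f` sets of the section at `t` which lie beyond `x`
belongs to the section at `x`. -/
def Tame (𝓕 : Set (Finset ℕ)) : Prop :=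
  ∀ f : ℕ, ∃ t0 : ℕ, ∀ t ≥ t0, ∃ x ≥ t, Finset.Icc t x ∈ 𝓕 ∧
    ∀ A : Fin f → Finset ℕ, (∀ i, A i ∈ Sc 𝓕 t) → (∀ i, ∀ s ∈ A i, x < s) →
      Finset.univ.biUnion A ∈ Sc 𝓕 x

/-- Some section contains arbitrarily large sets. -/
def Large (𝓕 : Set (Finset ℕ)) : Prop := ∃ q : ℕ, ∀ n : ℕ, ∃ A ∈ Sc 𝓕 q, n ≤ A.card

/-- The functions given by tameness. -/
structure Scale (𝓕 : Set (Finset ℕ)) where
  X : ℕ → ℕ → ℕ
  t0 : ℕ → ℕ
  le : ∀ f t, t ≤ X f t
  un : ∀ (f t : ℕ) (A : Fin f → Finset ℕ), (∀ i, A i ∈ Sc 𝓕 t) →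
    (∀ i, ∀ s ∈ A i, X f t < s) → Finset.univ.biUnion A ∈ Sc 𝓕 (X f t)
  win : ∀ f, ∀ t ≥ t0 f, Finset.Icc t (X f t) ∈ 𝓕

/-- All the sums of `|a k|` over the sets of the family are at most `B` (the norm of `a` is
`≤ B`). -/
def SB (𝓕 : Set (Finset ℕ)) (a : ℕ → ℝ) (B : ℝ) : Prop :=
  ∀ F : Finset ℕ, F ∈ 𝓕 → ∑ k ∈ F, |a k| ≤ B

/-- A choice of signs. -/
def IsSign {ι : Type*} (θ : ι → ℝ) : Prop := ∀ i, θ i = 1 ∨ θ i = -1

/-- The signs of a subset: `1` on the subset, `-1` elsewhere. -/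
def sg (S : Finset ℕ) (i : ℕ) : ℝ := if i ∈ S then 1 else -1

section Space

variable {X : Type*} [NormedAddCommGroup X] [NormedSpace ℝ X]

/-- The combination of the basis vectors `e k`, `k ∈ S`, with the coefficients `a k`. -/
noncomputable def vec (e : ℕ → X) (S : Finset ℕ) (a : ℕ → ℝ) : X := ∑ k ∈ S, a k • e k

/-- The coordinates of a vector. -/
noncomputable def co (e : ℕ → X) (x : X) : ℕ → ℝ := fun k => ef e k x

/-- The signed average of the basis vectors `e i`, `i ∈ J`, with the signs of `S`. -/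
noncomputable def av (e : ℕ → X) (J S : Finset ℕ) : X :=
  (1 / (J.card : ℝ)) • ∑ i ∈ J, sg S i • e i

/-- The functional belonging to `av e J S`. -/
noncomputable def fn (e : ℕ → X) (J S : Finset ℕ) (x : X) : ℝ := ∑ i ∈ J, sg S i * co e x i

end Space

/-! ### Iterated limits along the ultrafilter -/

/-- The nonprincipal ultrafilter. -/
noncomputable abbrev 𝒰 : Ultrafilter ℕ := hyperfilter ℕ

/-- The iterated ultrafilters on the sequences of `j + 1` indices. -/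
noncomputable def pr : ℕ → Ultrafilter (List ℕ)
  | 0 => 𝒰.map (fun n => [n])
  | j + 1 => 𝒰.bind (fun n => (pr j).map (List.cons n))

/-- The operators of the sequences of indices: the first index acts first. -/
def op {G : Type*} [Group G] (γ : ℕ → G) : List ℕ → G
  | [] => 1
  | n :: ν => op γ ν * γ n

/-- The admissible families of sets, for the sequences of `j + 1` indices: after the first `j`
indices, the sets tend to infinity inside one section. -/
def PD (𝓕 : Set (Finset ℕ)) : ℕ → Set (List ℕ → Finset ℕ)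
  | 0 => {D | ∃ q, (∀ᶠ n in (𝒰 : Filter ℕ), D [n] ∈ Sc 𝓕 q) ∧
      ∀ L : ℕ, ∀ᶠ n in (𝒰 : Filter ℕ), ∀ s ∈ D [n], L < s}
  | j + 1 => {D | ∀ᶠ n in (𝒰 : Filter ℕ), (fun ν => D (n :: ν)) ∈ PD 𝓕 j}

/-- The vector `y` is moved by the sequences of `j + 1` elements of the sequence `γ` to vectors
whose sums over admissible sets are at most `ε`. -/
def Sm (𝓕 : Set (Finset ℕ)) {X : Type*} [NormedAddCommGroup X] [NormedSpace ℝ X] {G : Type*}
    [Group G] (e : ℕ → X) (A : G →* (X →L[ℝ] X)) (γ : ℕ → G) (ε : ℝ) (j : ℕ) (y : X) : Prop :=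
  ∀ D ∈ PD 𝓕 j, ∀ᶠ ν in (pr j : Filter (List ℕ)), ∑ s ∈ D ν, |co e (A (op γ ν) y) s| ≤ ε

/-! ### The tower -/

/-- One step of the product. -/
def stp {r M : ℕ} {G : Type*} [Group G] (g : ℕ → Fin M → G) (w : Fin r → Fin M) (j : ℕ) : G :=
  if h : j < r then g j (w ⟨j, h⟩) else 1

/-- The products `g_{j-1} ⋯ g_0`. -/
def pre {r M : ℕ} {G : Type*} [Group G] (g : ℕ → Fin M → G) (w : Fin r → Fin M) : ℕ → G
  | 0 => 1
  | j + 1 => stp g w j * pre g w j

/-- The columns of one level, for all the words: `N` bounds the number of the columns of a word,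
the column `n < N` of the word `w` is given by the set `J w n` (empty for the unused numbers) with
the signs of `S w n`; the numbers `u < U` are distributed over the columns by `col w`. -/
structure Cols (r M : ℕ) where
  N : ℕ
  U : ℕ
  J : (Fin r → Fin M) → Fin N → Finset ℕ
  S : (Fin r → Fin M) → Fin N → Finset ℕ
  col : (Fin r → Fin M) → Fin U → Fin N

/-- The share of the column `n`. -/
noncomputable def wt {U N : ℕ} (c : Fin U → Fin N) (n : Fin N) : ℝ :=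
  ((Finset.univ.filter fun u => c u = n).card : ℝ) / U

/-- One level `l` of the tower: `p w` is the product of the word up to the letter of this level
(included). -/
structure LevelProps {X : Type*} [NormedAddCommGroup X] [NormedSpace ℝ X] {G : Type*} [Group G]
    (𝓕 : Set (Finset ℕ)) (A : G →* (X →L[ℝ] X)) (e : ℕ → X) (C Λ : ℝ) {r M : ℕ} (l : Fin r)
    (p : (Fin r → Fin M) → G) (c : Cols r M) (q0 kp K : ℕ) : Prop where
  U_pos : 1 ≤ c.U
  dep : ∀ w w' : Fin r → Fin M, (∀ k ≤ l, w k = w' k) →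
    c.J w = c.J w' ∧ c.S w = c.S w' ∧ c.col w = c.col w'
  sect : ∀ w n, c.J w n ∈ Sc 𝓕 q0
  range : ∀ w n, ∀ i ∈ c.J w n, kp < i ∧ i < K
  used : ∀ w u, (c.J w (c.col w u)).Nonempty
  row : ∀ (w : Fin r → Fin M) (y : X), ∑ a : Fin M, ∑ n,
    |fn e (c.J (Function.update w l a) n) (c.S (Function.update w l a) n)
      (A (p (Function.update w l a))⁻¹ y)| ≤ (C + 1) * ‖y‖
  flat : ∀ (w w' : Fin r → Fin M) (β : Fin c.N → ℝ), (∀ n, |β n| ≤ Λ * wt (c.col w') n) →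
    (∀ q < kp, ∀ E ∈ Sc 𝓕 q, ∑ s ∈ E, |co e (∑ n, β n • A ((p w)⁻¹ * p w')
      (av e (c.J w' n) (c.S w' n))) s| ≤ 1 / r) ∧
    (∑ s ∈ Finset.range kp, |co e (∑ n, β n • A ((p w)⁻¹ * p w')
      (av e (c.J w' n) (c.S w' n))) s| ≤ 1 / r) ∧
    ∀ E ∈ 𝓕, (∀ s ∈ E, K ≤ s) → ∑ s ∈ E, |co e (∑ n, β n • A ((p w)⁻¹ * p w')
      (av e (c.J w' n) (c.S w' n))) s| ≤ 1 / r

/-- The numbers `1 + K0 + K 0 + ... + K (j-1)`. -/
def kap (K0 : ℕ) (K : ℕ → ℕ) (j : ℕ) : ℕ := 1 + K0 + ∑ j' ∈ Finset.range j, K j'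

/-- The tower. -/
structure Tower {X : Type*} [NormedAddCommGroup X] [NormedSpace ℝ X] {G : Type*} [Group G]
    (𝓕 : Set (Finset ℕ)) (A : G →* (X →L[ℝ] X)) (e : ℕ → X) (C Λ : ℝ) (q0 K0 r M : ℕ) where
  g : ℕ → Fin M → G
  K : ℕ → ℕ
  c : ℕ → Cols r M
  lev : ∀ l : Fin r, LevelProps 𝓕 A e C Λ l (fun w : Fin r → Fin M => pre g w (l + 1)) (c l)
    q0 (kap K0 K l) (K l)
  signs : ∀ l < r, ∀ w : Fin r → Fin M, ∀ k < l, ∀ n : Fin (c k).N, ∀ θ : Fin M → ℝ,
    IsSign θ → ‖∑ a, θ a • A (g l a) (A (pre g w l) (av e ((c k).J w n) ((c k).S w n)))‖ ≤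
      C ^ 2 + 1

/-! ### The data of the finite theorem -/

/-- The word of the letters. -/
def lett {r M : ℕ} {U : Fin r → ℕ} (ω : (l : Fin r) → Fin M × Fin (U l)) : Fin r → Fin M :=
  fun l => (ω l).1

/-- The data which the finite theorem excludes. -/
structure CoreD (𝓕 : Set (Finset ℕ)) (sc : Scale 𝓕) (C B₁ D B₂ Λ : ℝ) (Q0 r M : ℕ) where
  P : ℕ
  Z : ℕ
  N : Fin r → ℕ
  U : Fin r → ℕ
  col : (Fin r → Fin M) → (l : Fin r) → Fin (U l) → Fin (N l)
  v : (Fin r → Fin M) → (l : Fin r) → Fin (N l) → ℕ → ℝ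
  ζ : (Fin r → Fin M) → (l : Fin r) → Fin (N l) → ℕ → ℝ
  U_pos : ∀ l, 1 ≤ U l
  hP : Q0 ≤ P
  hPU : ∀ l, sc.t0 (U l) ≤ P
  hcol : ∀ (l : Fin r) (w w' : Fin r → Fin M), (∀ k ≤ l, w k = w' k) → col w l = col w' l
  h0 : ∀ w l n, SB 𝓕 (v w l n) C
  h1 : ∀ w l u, 1 / 2 ≤
    ∑ s ∈ Finset.Ico P Z, |ζ w l (col w l u) s| * |v w l (col w l u) s|
  h2 : ∀ w (n : (l : Fin r) → Fin (N l)) (z : ℕ → ℝ) (B : ℝ), (∀ s, 0 ≤ z s) → SB 𝓕 z B →
    ∑ s ∈ Finset.Ico P Z, Real.sqrt (∑ l, ζ w l (n l) s ^ 2) * z s ≤ B₁ * B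
  h3 : ∀ w (l : Fin r) (z : ℕ → ℝ) (B : ℝ), (∀ s, 0 ≤ z s) → SB 𝓕 z B →
    ∑ s ∈ Finset.Ico P Z,
      Real.sqrt (∑ q : Fin M × Fin (N l), ζ (Function.update w l q.1) l q.2 s ^ 2) * z s ≤
        B₁ * B
  h4 : ∀ w (k l : Fin r), k < l → ∀ (n : Fin (N k)) (θ : Fin M → ℝ), IsSign θ →
    SB 𝓕 (fun s => ∑ a, θ a * v (Function.update w l a) k n s) D
  h5 : ∀ w (A : Finset (Fin r)) (a : Fin r → Fin M) (β : (l : Fin r) → Fin (N l) → ℝ),
    (∀ l n, |β l n| ≤ Λ * wt (col (Function.update w l (a l)) l) n) →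
    SB 𝓕 (fun s => ∑ l ∈ A, ∑ n, β l n * v (Function.update w l (a l)) l n s) B₂

/-! ### The levels, the coupling and the good pairs -/

/-- The marginal of a measure on the sets. -/
def mg (𝒮 : Finset (Finset ℕ)) (lam : Finset ℕ → ℝ) (s : ℕ) : ℝ :=
  ∑ A ∈ 𝒮.filter (fun A => s ∈ A), lam A

/-- The first element of a set. -/
noncomputable def mn (A : Finset ℕ) : ℕ := sInf (A : Set ℕ)

/-- The constants. -/
noncomputable def ep (C B₁ : ℝ) : ℝ := 1 / (8 * B₁ * C)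
noncomputable def dl (C B₁ : ℝ) : ℝ := 1 / (4 * B₁ * C)
noncomputable def c0 (B₁ : ℝ) : ℝ := 1 / (64 * B₁)
noncomputable def e0 (C B₁ : ℝ) : ℝ := 1 / (64 * B₁ * C)

open scoped Classical in
/-- The sets of the family which are contained in `[P, Z)`. -/
noncomputable def sets (𝓕 : Set (Finset ℕ)) (P Z : ℕ) : Finset (Finset ℕ) :=
  (Finset.Ico P Z).powerset.filter (fun A => A ∈ 𝓕)

/-- One level, for a fixed word outside this level; `J` is the set of the letters (with the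
number of the column), `Q` the set of the columns with their letters, `lam j` is the measure of
the word with the letter `j`, `gam` is the measure of the level. -/
structure Lev (𝓕 : Set (Finset ℕ)) (P Z : ℕ) (C B₁ : ℝ) (J Q : Type) [Fintype J]
    [Fintype Q] where
  col : J → Q
  gam : Finset ℕ → ℝ
  lam : J → Finset ℕ → ℝ
  ζ : Q → ℕ → ℝ
  v : Q → ℕ → ℝ
  gam_nonneg : ∀ A, 0 ≤ gam A
  gam_sum : ∑ A ∈ sets 𝓕 P Z, gam A = 1
  lam_nonneg : ∀ j A, 0 ≤ lam j A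
  lam_sum : ∀ j, ∑ A ∈ sets 𝓕 P Z, lam j A = 1
  hr : ∀ j, ∀ s ∈ Finset.Ico P Z, |ζ (col j) s| ≤ B₁ * mg (sets 𝓕 P Z) (lam j) s
  hj : ∀ s ∈ Finset.Ico P Z, Real.sqrt (∑ q, ζ q s ^ 2) ≤ B₁ * mg (sets 𝓕 P Z) gam s
  hv : ∀ q, SB 𝓕 (v q) C
  hz : ∀ j, 1 / 2 ≤ ∑ s ∈ Finset.Ico P Z, |ζ (col j) s| * |v (col j) s|

namespace Lev

variable {𝓕 : Set (Finset ℕ)} {P Z : ℕ} {C B₁ : ℝ} {J Q : Type} [Fintype J] [Fintype Q]
  (L : Lev 𝓕 P Z C B₁ J Q)

/-- The density of the functional with respect to the measure of the word. -/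
noncomputable def er (j : J) (s : ℕ) : ℝ := |L.ζ (L.col j) s| / (B₁ * mg (sets 𝓕 P Z) (L.lam j) s)

/-- The density of the functional with respect to the measure of the level. -/
noncomputable def ej (q : Q) (s : ℕ) : ℝ := |L.ζ q s| / (B₁ * mg (sets 𝓕 P Z) L.gam s)

open scoped Classical in
/-- The coordinates where both densities are not small. -/
noncomputable def S (j : J) : Finset ℕ :=
  (Finset.Ico P Z).filter (fun s => ep C B₁ ≤ L.er j s ∧ ep C B₁ ≤ L.ej (L.col j) s)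

/-- The coupling. -/
noncomputable def kp (j : J) (A A' : Finset ℕ) : ℝ :=
  (1 / (B₁ * C)) * ∑ s ∈ (A ∩ A') ∩ L.S j, |L.ζ (L.col j) s| * |L.v (L.col j) s| *
    L.lam j A * L.gam A' / (mg (sets 𝓕 P Z) (L.lam j) s * mg (sets 𝓕 P Z) L.gam s)

/-- The vector of `j` is captured by `A'` from `x` on, with its density. -/
def capj (j : J) (A' : Finset ℕ) (x : ℕ) : Prop :=
  c0 B₁ ≤ ∑ s ∈ (A' ∩ L.S j).filter (fun s => x ≤ s), L.ej (L.col j) s * |L.v (L.col j) s|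

/-- The vector of `j` is captured by `A` from `x` on. -/
def capr (j : J) (A : Finset ℕ) (x : ℕ) : Prop :=
  c0 B₁ ≤ ∑ s ∈ (A ∩ L.S j).filter (fun s => x ≤ s), |L.v (L.col j) s|

/-- Kept pairs, the word set first. -/
def keptU (j : J) (A A' : Finset ℕ) : Prop :=
  mn A ≤ mn A' ∧ L.capr j A (mn A')

/-- Kept pairs, the level set first. -/
def keptL (j : J) (A A' : Finset ℕ) : Prop :=
  mn A' < mn A ∧ L.capj j A' (mn A) ∧ L.capr j A (mn A')

open scoped Classical in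
/-- The scales up to which `A'` has a fair amount of mass of the first type. -/
def qset (A' : Finset ℕ) : Set ℕ :=
  {τ | e0 C B₁ * L.gam A' * Fintype.card J ≤
    ∑ j, ∑ A ∈ (sets 𝓕 P Z).filter (fun A => L.keptU j A A' ∧ mn A ≤ τ), L.kp j A A'}

/-- The quantile. -/
noncomputable def tq (A' : Finset ℕ) : ℕ := sInf (L.qset A')

open scoped Classical in
/-- The letters captured by `A'` from `x` on. -/
noncomputable def JJ (A' : Finset ℕ) (x : ℕ) : Finset J :=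
  Finset.univ.filter (fun j => L.capj j A' x)

/-- The good pairs. -/
def good (j : J) (A A' : Finset ℕ) : Prop :=
  0 < L.kp j A A' ∧
    ((L.keptU j A A' ∧ (L.qset A').Nonempty ∧ L.tq A' ≤ mn A) ∨
      (L.keptL j A A' ∧ e0 C B₁ * Fintype.card J ≤ ((L.JJ A' (mn A)).card : ℝ)))

end Lev

/-- A set beyond `x` which is small for the scale: the union of `K` such sets belongs to the
family. -/
def Small (𝓕 : Set (Finset ℕ)) (sc : Scale 𝓕) (K x : ℕ) (T : Finset ℕ) : Prop :=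
  ∃ y, sc.X K y < x ∧ T ∈ Sc 𝓕 y ∧ ∀ s ∈ T, x ≤ s

/-- Some average of the vectors `v (a, n)`, with one letter `a`, is concentrated on a small set
beyond `x`. -/
def DeepAt (𝓕 : Set (Finset ℕ)) (sc : Scale 𝓕) {M N U : ℕ} (col : Fin M → Fin U → Fin N)
    (v : Fin M × Fin N → ℕ → ℝ) (Λ c : ℝ) (K x : ℕ) : Prop :=
  ∃ (a : Fin M) (β : Fin N → ℝ), (∀ n, 0 ≤ β n ∧ β n ≤ Λ * wt (col a) n) ∧
    ∃ T : Finset ℕ, Small 𝓕 sc K x T ∧
      c ≤ ∑ s ∈ T, Real.sqrt (∑ n, (β n * v (a, n) s) ^ 2)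

end Pool.Agent.Comb7f333f.TPart
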