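import Pool.Agent.Lib.MP_7f333f_an.Tame.Coup

set_option autoImplicit false
set_option linter.unusedSectionVars false
set_option linter.unusedVariables false

/-!
Module Disc: the first discards (port of `Siz/Disc.lean`).
-/

namespace Pool.Agent.Comb7f333f.TPart

theorem disc_mn_le {A : Finset ℕ} {s : ℕ} (hs : s ∈ A) : mn A ≤ s :=
  Nat.sInf_le (by simpa using hs)

theorem disc_e0 (C B₁ : ℝ) : c0 B₁ / C = e0 C B₁ := by
  unfold c0 e0
  rw [div_div]

section Lev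

variable {𝓕 : Set (Finset ℕ)} {P Z : ℕ} {C B₁ : ℝ} {J Q : Type} [Fintype J] [Fintype Q]
  (L : Lev 𝓕 P Z C B₁ J Q)

namespace Lev

open scoped Classical in
theorem disc_j (hC : 1 ≤ C) (hB : 1 ≤ B₁) (j : J) (A' : Finset ℕ) (hA' : A' ∈ sets 𝓕 P Z)
    (R : Finset ℕ → Prop) (x : ℕ) (hx : ∀ A ∈ sets 𝓕 P Z, R A → ∀ s ∈ A, x ≤ s) :
    ∑ A ∈ (sets 𝓕 P Z).filter R, L.kp j A A' ≤
      L.gam A' / C * ∑ s ∈ (A' ∩ L.S j).filter (fun s => x ≤ s),
        L.ej (L.col j) s * |L.v (L.col j) s| := by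
  rw [L.sum_kp_j hC hB j A' hA' R]
  have hC0 : 0 < C := by linarith
  refine mul_le_mul_of_nonneg_left ?_ (div_nonneg (L.gam_nonneg A') hC0.le)
  rw [Finset.sum_filter]
  refine Finset.sum_le_sum fun s hs => ?_
  have h4 := L.ej_nonneg hC hB (L.col j) s
  have h7 := abs_nonneg (L.v (L.col j) s)
  by_cases hxs : x ≤ s
  · rw [if_pos hxs]
    exact mul_le_of_le_one_right (mul_nonneg h4 h7)
      (coup_part_div_le (𝒮 := sets 𝓕 P Z) (L.lam_nonneg j) s R)
  · rw [if_neg hxs]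
    have hemp : (sets 𝓕 P Z).filter (fun A => s ∈ A ∧ R A) = ∅ := by
      rw [Finset.filter_eq_empty_iff]
      rintro A hA ⟨h1, h2⟩
      exact hxs (hx A hA h2 s h1)
    rw [hemp, Finset.sum_empty, zero_div, mul_zero]

open scoped Classical in
theorem disc_r (hC : 1 ≤ C) (hB : 1 ≤ B₁) (j : J) (A : Finset ℕ) (hA : A ∈ sets 𝓕 P Z)
    (R : Finset ℕ → Prop) (x : ℕ) (hx : ∀ A' ∈ sets 𝓕 P Z, R A' → ∀ s ∈ A', x ≤ s) :
    ∑ A' ∈ (sets 𝓕 P Z).filter R, L.kp j A A' ≤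
      L.lam j A / C * ∑ s ∈ (A ∩ L.S j).filter (fun s => x ≤ s), |L.v (L.col j) s| := by
  rw [L.sum_kp_r hC hB j A hA R]
  have hC0 : 0 < C := by linarith
  refine mul_le_mul_of_nonneg_left ?_ (div_nonneg (L.lam_nonneg j A) hC0.le)
  rw [Finset.sum_filter]
  refine Finset.sum_le_sum fun s hs => ?_
  have h3 := L.er_le_one hC hB j s (coup_mem_Ico hA (Finset.mem_inter.mp hs).1)
  have h4 := L.er_nonneg hC hB j s
  have h7 := abs_nonneg (L.v (L.col j) s)
  by_cases hxs : x ≤ s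
  · rw [if_pos hxs]
    refine (mul_le_of_le_one_right (mul_nonneg h4 h7)
      (coup_part_div_le (𝒮 := sets 𝓕 P Z) L.gam_nonneg s R)).trans ?_
    exact mul_le_of_le_one_left h7 h3
  · rw [if_neg hxs]
    have hemp : (sets 𝓕 P Z).filter (fun A' => s ∈ A' ∧ R A') = ∅ := by
      rw [Finset.filter_eq_empty_iff]
      rintro A' hA' ⟨h1, h2⟩
      exact hxs (hx A' hA' h2 s h1)
    rw [hemp, Finset.sum_empty, zero_div, mul_zero]

open scoped Classical in
theorem disc_j_bad (hC : 1 ≤ C) (hB : 1 ≤ B₁) (j : J) (A' : Finset ℕ) (hA' : A' ∈ sets 𝓕 P Z)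
    (R : Finset ℕ → Prop) (hP : ∀ A, R A → ¬ L.capj j A' (mn A)) :
    ∑ A ∈ (sets 𝓕 P Z).filter R, L.kp j A A' ≤ L.gam A' * e0 C B₁ := by
  have hC0 : 0 < C := by linarith
  have hB0 : 0 < B₁ := by linarith
  have he : 0 ≤ L.gam A' * e0 C B₁ := by
    refine mul_nonneg (L.gam_nonneg A') ?_
    unfold e0
    positivity
  by_cases hne : ((sets 𝓕 P Z).filter R).Nonempty
  · obtain ⟨A₀, hA₀, hmin⟩ := Finset.exists_min_image _ mn hne
    have h1 := L.disc_j hC hB j A' hA' R (mn A₀) (fun A hA hPA s hs =>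
      (hmin A (Finset.mem_filter.mpr ⟨hA, hPA⟩)).trans (disc_mn_le hs))
    refine h1.trans ?_
    have h2 := hP A₀ (Finset.mem_filter.mp hA₀).2
    unfold capj at h2
    push Not at h2
    calc L.gam A' / C * _ ≤ L.gam A' / C * c0 B₁ :=
          mul_le_mul_of_nonneg_left h2.le (div_nonneg (L.gam_nonneg A') hC0.le)
      _ = L.gam A' * e0 C B₁ := by rw [← disc_e0]; ring
  · rw [Finset.not_nonempty_iff_eq_empty] at hne
    rw [hne, Finset.sum_empty]
    exact he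

open scoped Classical in
theorem disc_r_bad (hC : 1 ≤ C) (hB : 1 ≤ B₁) (j : J) (A : Finset ℕ) (hA : A ∈ sets 𝓕 P Z)
    (R : Finset ℕ → Prop) (hP : ∀ A', R A' → ¬ L.capr j A (mn A')) :
    ∑ A' ∈ (sets 𝓕 P Z).filter R, L.kp j A A' ≤ L.lam j A * e0 C B₁ := by
  have hC0 : 0 < C := by linarith
  have hB0 : 0 < B₁ := by linarith
  have he : 0 ≤ L.lam j A * e0 C B₁ := by
    refine mul_nonneg (L.lam_nonneg j A) ?_
    unfold e0
    positivity
  by_cases hne : ((sets 𝓕 P Z).filter R).Nonempty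
  · obtain ⟨A₀, hA₀, hmin⟩ := Finset.exists_min_image _ mn hne
    have h1 := L.disc_r hC hB j A hA R (mn A₀) (fun A hA hPA s hs =>
      (hmin A (Finset.mem_filter.mpr ⟨hA, hPA⟩)).trans (disc_mn_le hs))
    refine h1.trans ?_
    have h2 := hP A₀ (Finset.mem_filter.mp hA₀).2
    unfold capr at h2
    push Not at h2
    calc L.lam j A / C * _ ≤ L.lam j A / C * c0 B₁ :=
          mul_le_mul_of_nonneg_left h2.le (div_nonneg (L.lam_nonneg j A) hC0.le)
      _ = L.lam j A * e0 C B₁ := by rw [← disc_e0]; ring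
  · rw [Finset.not_nonempty_iff_eq_empty] at hne
    rw [hne, Finset.sum_empty]
    exact he

open scoped Classical in
theorem disc2 (hC : 1 ≤ C) (hB : 1 ≤ B₁) (j : J) :
    ∑ A ∈ sets 𝓕 P Z, ∑ A' ∈ (sets 𝓕 P Z).filter (fun A' => ¬ L.capr j A (mn A')), L.kp j A A' ≤
      e0 C B₁ := by
  calc ∑ A ∈ sets 𝓕 P Z, ∑ A' ∈ (sets 𝓕 P Z).filter (fun A' => ¬ L.capr j A (mn A')), L.kp j A A'
      ≤ ∑ A ∈ sets 𝓕 P Z, L.lam j A * e0 C B₁ := by
        refine Finset.sum_le_sum fun A hA => ?_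
        have h := L.disc_r_bad hC hB j A hA (fun A' => ¬ L.capr j A (mn A')) (fun A' h => h)
        refine le_trans (le_of_eq (Finset.sum_congr ?_ fun _ _ => rfl)) h
        ext A'
        simp only [Finset.mem_filter]
    _ = e0 C B₁ := by rw [← Finset.sum_mul, L.lam_sum, one_mul]

open scoped Classical in
theorem disc3 (hC : 1 ≤ C) (hB : 1 ≤ B₁) (j : J) :
    ∑ A' ∈ sets 𝓕 P Z, ∑ A ∈ (sets 𝓕 P Z).filter (fun A => ¬ L.capj j A' (mn A)), L.kp j A A' ≤
      e0 C B₁ := by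
  calc ∑ A' ∈ sets 𝓕 P Z, ∑ A ∈ (sets 𝓕 P Z).filter (fun A => ¬ L.capj j A' (mn A)), L.kp j A A'
      ≤ ∑ A' ∈ sets 𝓕 P Z, L.gam A' * e0 C B₁ := by
        refine Finset.sum_le_sum fun A' hA' => ?_
        have h := L.disc_j_bad hC hB j A' hA' (fun A => ¬ L.capj j A' (mn A)) (fun A h => h)
        refine le_trans (le_of_eq (Finset.sum_congr ?_ fun _ _ => rfl)) h
        ext A
        simp only [Finset.mem_filter]
    _ = e0 C B₁ := by rw [← Finset.sum_mul, L.gam_sum, one_mul]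

end Lev

end Lev

end Pool.Agent.Comb7f333f.TPart
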