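import Pool.Agent.Lib.MP_7f333f_an.Tame.Api
import Pool.Agent.Lib.MP_7f333f_an.Tame.Sec

set_option autoImplicit false

/-!
Module Few: few letters are captured by the sets whose first element is in a window (compare
`Siz/Few.lean`).
-/

namespace Pool.Agent.Comb7f333f.TPart

variable {𝓕 : Set (Finset ℕ)}

open scoped Classical in
/-- A class `𝒯` of sets such that the unions of `K2` sets of the class belong to the family
captures less than `K2` letters. -/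
theorem few_captured (D c : ℝ) (hc : 0 < c) (K2 : ℕ) (hK2 : 3 * D ^ 2 / c ^ 2 < K2)
    (𝒯 : Set (Finset ℕ)) {M : ℕ}
    (h𝒯 : ∀ (I : Finset (Fin M)) (T : Fin M → Finset ℕ), I.card ≤ K2 → (∀ i ∈ I, T i ∈ 𝒯) →
      I.biUnion T ∈ 𝓕) (v : Fin M → ℕ → ℝ)
    (h : ∀ θ : Fin M → ℝ, IsSign θ → SB 𝓕 (fun s => ∑ a, θ a * v a s) D) :
    (Finset.univ.filter (fun a => ∃ T ∈ 𝒯, c ≤ ∑ s ∈ T, |v a s|)).card < K2 := by
  by_contra hcon
  push Not at hcon
  obtain ⟨I, hIsub, hIcard⟩ := Finset.exists_subset_card_eq hcon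
  have hcap : ∀ a ∈ I, ∃ T ∈ 𝒯, c ≤ ∑ s ∈ T, |v a s| := fun a ha =>
    (Finset.mem_filter.mp (hIsub ha)).2
  choose! T hT1 hT3 using hcap
  have hc2 : 0 < c ^ 2 := pow_pos hc 2
  have hK2pos' : (0 : ℝ) < K2 :=
    lt_of_le_of_lt (div_nonneg (by positivity) hc2.le) hK2
  set U : Finset ℕ := I.biUnion T with hU
  have hUsz : U ∈ 𝓕 := h𝒯 I T hIcard.le hT1
  have hsb := SB_sqrt (𝓕 := 𝓕) Finset.univ v D h U hUsz
  have hpt : ∀ s, ∑ a ∈ I, |v a s| ≤ Real.sqrt K2 * |Real.sqrt (∑ a, v a s ^ 2)| := by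
    intro s
    rw [abs_of_nonneg (Real.sqrt_nonneg _), ← Real.sqrt_mul hK2pos'.le]
    refine Real.le_sqrt_of_sq_le ?_
    calc (∑ a ∈ I, |v a s|) ^ 2 ≤ (I.card : ℝ) * ∑ a ∈ I, |v a s| ^ 2 :=
          sq_sum_le_card_mul_sum_sq
      _ = K2 * ∑ a ∈ I, v a s ^ 2 := by rw [hIcard]; simp only [sq_abs]
      _ ≤ K2 * ∑ a, v a s ^ 2 := by
          refine mul_le_mul_of_nonneg_left ?_ hK2pos'.le
          exact Finset.sum_le_sum_of_subset_of_nonneg (Finset.subset_univ _)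
            fun i _ _ => sq_nonneg _
  have hlow : (K2 : ℝ) * c ≤ ∑ s ∈ U, ∑ a ∈ I, |v a s| := by
    rw [Finset.sum_comm]
    calc (K2 : ℝ) * c = ∑ _a ∈ I, c := by rw [Finset.sum_const, hIcard, nsmul_eq_mul]
      _ ≤ ∑ a ∈ I, ∑ s ∈ U, |v a s| := by
          refine Finset.sum_le_sum fun a ha => (hT3 a ha).trans ?_
          exact Finset.sum_le_sum_of_subset_of_nonneg
            (Finset.subset_biUnion_of_mem T ha) fun i _ _ => abs_nonneg _
  have hmain : (K2 : ℝ) * c ≤ Real.sqrt K2 * (Real.sqrt 3 * D) := by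
    calc (K2 : ℝ) * c ≤ ∑ s ∈ U, ∑ a ∈ I, |v a s| := hlow
      _ ≤ ∑ s ∈ U, Real.sqrt K2 * |Real.sqrt (∑ a, v a s ^ 2)| :=
          Finset.sum_le_sum fun s _ => hpt s
      _ = Real.sqrt K2 * ∑ s ∈ U, |Real.sqrt (∑ a, v a s ^ 2)| := by rw [Finset.mul_sum]
      _ ≤ Real.sqrt K2 * (Real.sqrt 3 * D) :=
          mul_le_mul_of_nonneg_left hsb (Real.sqrt_nonneg _)
  have hsq : ((K2 : ℝ) * c) ^ 2 ≤ (Real.sqrt K2 * (Real.sqrt 3 * D)) ^ 2 :=
    pow_le_pow_left₀ (by positivity) hmain 2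
  rw [mul_pow, mul_pow, mul_pow, Real.sq_sqrt hK2pos'.le, Real.sq_sqrt (by norm_num)] at hsq
  have h5 : (K2 : ℝ) * c ^ 2 ≤ 3 * D ^ 2 := by
    have : (K2 : ℝ) * ((K2 : ℝ) * c ^ 2) ≤ K2 * (3 * D ^ 2) := by nlinarith
    exact le_of_mul_le_mul_left this hK2pos'
  rw [div_lt_iff₀ hc2] at hK2
  linarith

open scoped Classical in
/-- The letters captured by sets of the family whose first element is in the window `[u, w]`. -/
theorem few_window (hR : IsRegular 𝓕) (sc : Scale 𝓕) (D c : ℝ) (hc : 0 < c) (K2 : ℕ)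
    (hK2 : 48 * D ^ 2 / c ^ 2 < K2) {M : ℕ} (v : Fin M → ℕ → ℝ)
    (h : ∀ θ : Fin M → ℝ, IsSign θ → SB 𝓕 (fun s => ∑ a, θ a * v a s) D) (u u' w : ℕ)
    (hu : u ≤ u') (hw : u' ≤ w) (h1 : Finset.Icc u u' ∈ 𝓕) (h2 : Finset.Icc u' w ∈ 𝓕)
    (h3 : sc.t0 K2 ≤ w) :
    (Finset.univ.filter (fun a => ∃ T ∈ 𝓕, ∃ k ∈ T, u ≤ k ∧ k ≤ w ∧ (∀ s ∈ T, k ≤ s) ∧
      c ≤ ∑ s ∈ T, |v a s|)).card < 4 * K2 := by
  have hc4 : 0 < c / 4 := by positivity
  have hK4 : 3 * D ^ 2 / (c / 4) ^ 2 < K2 := by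
    have : 3 * D ^ 2 / (c / 4) ^ 2 = 48 * D ^ 2 / c ^ 2 := by
      field_simp
      ring
    rwa [this]
  set Y := sc.X K2 w with hY
  have hsub : ∀ (W : Finset ℕ), W ∈ 𝓕 → ∀ (I : Finset (Fin M)) (T : Fin M → Finset ℕ),
      I.card ≤ K2 → (∀ i ∈ I, T i ∈ {T : Finset ℕ | T ⊆ W}) → I.biUnion T ∈ 𝓕 := by
    intro W hW I T _ hT
    refine hR.hereditary W hW _ ?_
    rw [Finset.biUnion_subset]
    exact hT
  have e1 := few_captured D (c / 4) hc4 K2 hK4 _ (hsub _ h1) v h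
  have e2 := few_captured D (c / 4) hc4 K2 hK4 _ (hsub _ h2) v h
  have e3 := few_captured D (c / 4) hc4 K2 hK4 {T : Finset ℕ | T ⊆ Finset.Icc w Y}
    (hsub _ (sc.win K2 w h3)) v h
  have e4 := few_captured D (c / 4) hc4 K2 hK4 {T : Finset ℕ | T ∈ Sc 𝓕 w ∧ ∀ s ∈ T, Y < s}
    (by
      intro I T hI hT
      exact Sc_mem hR (Scale.un' hR sc K2 w I hI T (fun i hi => ⟨w, le_rfl, (hT i hi).1⟩)
        fun i hi => (hT i hi).2)) v h
  have hcov : (Finset.univ.filter (fun a => ∃ T ∈ 𝓕, ∃ k ∈ T, u ≤ k ∧ k ≤ w ∧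
      (∀ s ∈ T, k ≤ s) ∧ c ≤ ∑ s ∈ T, |v a s|)) ⊆
      (Finset.univ.filter (fun a => ∃ T ∈ {T : Finset ℕ | T ⊆ Finset.Icc u u'},
        c / 4 ≤ ∑ s ∈ T, |v a s|)) ∪
      ((Finset.univ.filter (fun a => ∃ T ∈ {T : Finset ℕ | T ⊆ Finset.Icc u' w},
        c / 4 ≤ ∑ s ∈ T, |v a s|)) ∪
      ((Finset.univ.filter (fun a => ∃ T ∈ {T : Finset ℕ | T ⊆ Finset.Icc w Y},
        c / 4 ≤ ∑ s ∈ T, |v a s|)) ∪
      (Finset.univ.filter (fun a => ∃ T ∈ {T : Finset ℕ | T ∈ Sc 𝓕 w ∧ ∀ s ∈ T, Y < s},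
        c / 4 ≤ ∑ s ∈ T, |v a s|)))) := by
    intro a ha
    obtain ⟨T, hT, k, hk, huk, hkw, hmin, hcT⟩ := (Finset.mem_filter.mp ha).2
    simp only [Finset.mem_union, Finset.mem_filter, Finset.mem_univ, true_and]
    by_contra hcon
    push Not at hcon
    obtain ⟨g1, g2, g3, g4⟩ := hcon
    have k1 := g1 (T.filter (fun s => s < u')) (by
      intro s hs
      rw [Finset.mem_filter] at hs
      rw [Finset.mem_Icc]
      exact ⟨huk.trans (hmin s hs.1), hs.2.le⟩)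
    have k2 := g2 (T.filter (fun s => u' ≤ s ∧ s < w)) (by
      intro s hs
      rw [Finset.mem_filter] at hs
      rw [Finset.mem_Icc]
      exact ⟨hs.2.1, hs.2.2.le⟩)
    have k3 := g3 (T.filter (fun s => w ≤ s ∧ s ≤ Y)) (by
      intro s hs
      rw [Finset.mem_filter] at hs
      rw [Finset.mem_Icc]
      exact hs.2)
    have hwY : w ≤ Y := sc.le K2 w
    have k4 := g4 (T.filter (fun s => Y < s)) ⟨Sc_subset hR (Sc_of_mem hR hT hk hkw) (by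
        intro s hs
        rw [Finset.mem_filter] at hs ⊢
        exact ⟨hs.1, lt_of_le_of_lt hwY hs.2⟩), fun s hs => (Finset.mem_filter.mp hs).2⟩
    have hsum : ∑ s ∈ T, |v a s| ≤ ∑ s ∈ T.filter (fun s => s < u'), |v a s| +
        (∑ s ∈ T.filter (fun s => u' ≤ s ∧ s < w), |v a s| +
        (∑ s ∈ T.filter (fun s => w ≤ s ∧ s ≤ Y), |v a s| +
        ∑ s ∈ T.filter (fun s => Y < s), |v a s|)) := by
      simp only [Finset.sum_filter]
      rw [← Finset.sum_add_distrib, ← Finset.sum_add_distrib, ← Finset.sum_add_distrib]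
      refine Finset.sum_le_sum fun s _ => ?_
      have h0 := abs_nonneg (v a s)
      have b1 : 0 ≤ (if s < u' then |v a s| else 0) := by split_ifs <;> simp
      have b2 : 0 ≤ (if u' ≤ s ∧ s < w then |v a s| else 0) := by split_ifs <;> simp
      have b3 : 0 ≤ (if w ≤ s ∧ s ≤ Y then |v a s| else 0) := by split_ifs <;> simp
      have b4 : 0 ≤ (if Y < s then |v a s| else 0) := by split_ifs <;> simp
      rcases lt_or_ge s u' with hs1 | hs1
      · rw [if_pos hs1]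
        linarith
      · rcases lt_or_ge s w with hs2 | hs2
        · rw [if_pos (show u' ≤ s ∧ s < w from ⟨hs1, hs2⟩)]
          linarith
        · rcases lt_or_ge Y s with hs3 | hs3
          · rw [if_pos hs3]
            linarith
          · rw [if_pos (show w ≤ s ∧ s ≤ Y from ⟨hs2, hs3⟩)]
            linarith
    linarith
  have hle := Finset.card_le_card hcov
  have hle2 := hle.trans (Finset.card_union_le _ _)
  have u2 := Finset.card_union_le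
    (Finset.univ.filter (fun a => ∃ T ∈ {T : Finset ℕ | T ⊆ Finset.Icc u' w},
        c / 4 ≤ ∑ s ∈ T, |v a s|))
      ((Finset.univ.filter (fun a => ∃ T ∈ {T : Finset ℕ | T ⊆ Finset.Icc w Y},
        c / 4 ≤ ∑ s ∈ T, |v a s|)) ∪
      (Finset.univ.filter (fun a => ∃ T ∈ {T : Finset ℕ | T ∈ Sc 𝓕 w ∧ ∀ s ∈ T, Y < s},
        c / 4 ≤ ∑ s ∈ T, |v a s|)))
  have u3 := Finset.card_union_le
      (Finset.univ.filter (fun a => ∃ T ∈ {T : Finset ℕ | T ⊆ Finset.Icc w Y},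
        c / 4 ≤ ∑ s ∈ T, |v a s|))
      (Finset.univ.filter (fun a => ∃ T ∈ {T : Finset ℕ | T ∈ Sc 𝓕 w ∧ ∀ s ∈ T, Y < s},
        c / 4 ≤ ∑ s ∈ T, |v a s|))
  omega

end Pool.Agent.Comb7f333f.TPart
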