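import Pool.Agent.Lib.MP_7f333f_an.Tame.CovB

set_option autoImplicit false

/-!
Module SchTame: the Schreier families of the orders at least `2` are tame and large.
-/

namespace Pool.Agent.Comb7f333f.TPart

variable {𝓕 : Set (Finset ℕ)}

namespace SchTame

/-- The union of `f` sets of `sq 𝓕 m` is a union of `8 f m` successive sets. -/
theorem cov_sq (hN : Nice 𝓕) {f m : ℕ} (A : Fin f → Finset ℕ) (hA : ∀ i, A i ∈ sq 𝓕 m) :
    Finset.univ.biUnion A ∈ sq 𝓕 (8 * (f * m)) := by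
  choose B hB1 hB2 using fun i => sq_pieces (hA i)
  have h1 := hN.cov (f * m) (fun p => B (finProdFinEquiv.symm p).1 (finProdFinEquiv.symm p).2)
    (fun p => hB1 _ _)
  have h2 : Finset.univ.biUnion A =
      Finset.univ.biUnion (fun p => B (finProdFinEquiv.symm p).1 (finProdFinEquiv.symm p).2) := by
    ext s
    simp only [Finset.mem_biUnion, Finset.mem_univ, true_and]
    constructor
    · rintro ⟨i, hi⟩
      rw [hB2 i, Finset.mem_biUnion] at hi
      obtain ⟨j, -, hj⟩ := hi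
      exact ⟨finProdFinEquiv (i, j), by rwa [Equiv.symm_apply_apply]⟩
    · rintro ⟨p, hp⟩
      refine ⟨(finProdFinEquiv.symm p).1, ?_⟩
      rw [hB2, Finset.mem_biUnion]
      exact ⟨_, Finset.mem_univ _, hp⟩
  rw [h2]
  exact h1

theorem insert_sq {m x : ℕ} {F : Finset ℕ} (hs : ({x} : Finset ℕ) ∈ 𝓕) (hF : F ∈ sq 𝓕 m)
    (hx : ∀ s ∈ F, x < s) : insert x F ∈ sq 𝓕 (1 + m) := by
  have h1 := sq_append (sq_one hs) hF (by
    intro s hs' t ht
    rw [Finset.mem_singleton] at hs'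
    rw [hs']
    exact hx t ht)
  rwa [← Finset.insert_eq] at h1

theorem Icc_sch (n : ℕ) : Finset.Icc (n + 2) (2 * n + 2) ∈ sch1 := by
  intro k hk
  rw [Finset.mem_Icc] at hk
  rw [Nat.card_Icc]
  omega

theorem insert_one (hN : Nice 𝓕) (n : ℕ) :
    insert 1 (Finset.Icc (n + 2) (2 * n + 2)) ∈ nxt 𝓕 := by
  refine ⟨2, fun k hk => ?_, ?_⟩
  · rcases Finset.mem_insert.1 hk with h | h
    · omega
    · rw [Finset.mem_Icc] at h
      omega
  · exact insert_sq (hN.reg.singleton 1) (sq_one (hN.sch (Icc_sch n))) (by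
      intro s hs
      rw [Finset.mem_Icc] at hs
      omega)

theorem mono_of (𝓖 : ℕ → Set (Finset ℕ)) (h𝓖 : ∀ n, nxt (𝓖 n) ⊆ 𝓖 (n + 1)) {m n : ℕ}
    (h : m ≤ n) : 𝓖 m ⊆ 𝓖 n := by
  induction n, h using Nat.le_induction with
  | base => exact subset_rfl
  | succ n _ ih => exact ih.trans (subset_nxt.trans (h𝓖 n))

theorem pow_bound (f t : ℕ) (ht : f + 5 ≤ t) : 8 * (f + 1) * (t + 1) + 2 ≤ 2 ^ (t + 1) * (t + 1) := by
  have h1 : 2 ^ (f + 6) ≤ 2 ^ (t + 1) := Nat.pow_le_pow_right (by norm_num) (by omega)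
  have h2 : f + 1 ≤ 2 ^ f := Nat.succ_le_of_lt Nat.lt_two_pow_self
  have h3 : 2 ^ (f + 6) = 64 * 2 ^ f := by rw [pow_add]; ring
  have h4 : 8 * (f + 1) + 2 ≤ 2 ^ (t + 1) := by omega
  calc 8 * (f + 1) * (t + 1) + 2 ≤ 8 * (f + 1) * (t + 1) + 2 * (t + 1) := by omega
    _ = (8 * (f + 1) + 2) * (t + 1) := by ring
    _ ≤ _ := Nat.mul_le_mul_right _ h4

end SchTame

open SchTame

theorem tame_nxt (hN : Nice 𝓕) : Tame (nxt 𝓕) := by
  intro f
  refine ⟨f + 5, fun t ht => ⟨8 * (f + 1) * (t + 1), ?_, ?_, ?_⟩⟩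
  · have h1 : t + 1 ≤ 8 * (f + 1) * (t + 1) := Nat.le_mul_of_pos_left _ (by omega)
    omega
  · refine ⟨t + 1, fun k hk => ?_, ?_⟩
    · rw [Finset.mem_Icc] at hk
      omega
    · have h1 := Ico_sq (t + 1) t (8 * (f + 1) * (t + 1) + 1) (pow_bound f t ht)
      have h2 : Finset.Icc t (8 * (f + 1) * (t + 1)) =
          Finset.Ico t (8 * (f + 1) * (t + 1) + 1) := by
        ext s
        simp only [Finset.mem_Icc, Finset.mem_Ico]
        omega
      rw [h2]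
      exact sq_mono hN.sch _ h1
  · intro A hA hx
    have hA' : ∀ i, A i ∈ sq 𝓕 (t + 1) := by
      intro i
      obtain ⟨-, n, hn1, hn2⟩ := hA i
      have h1 : n ≤ t + 1 := hn1 t (Finset.mem_insert_self _ _)
      have h0 : (∅ : Finset ℕ) ∈ 𝓕 :=
        hN.reg.hereditary _ (hN.reg.singleton 0) _ (Finset.empty_subset _)
      exact sq_le hN.reg.hereditary h0 h1
        (sq_subset hN.reg.hereditary n hn2 (Finset.subset_insert _ _))
    have h2 := cov_sq hN A hA'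
    have hx' : ∀ s ∈ Finset.univ.biUnion A, 8 * (f + 1) * (t + 1) < s := by
      intro s hs
      rw [Finset.mem_biUnion] at hs
      obtain ⟨i, -, hi⟩ := hs
      exact hx i s hi
    refine ⟨hx', 1 + 8 * (f * (t + 1)), fun k hk => ?_,
      insert_sq (hN.reg.singleton _) h2 hx'⟩
    have h3 : 8 * (f + 1) * (t + 1) ≤ k := by
      rcases Finset.mem_insert.1 hk with h | h
      · exact h.ge
      · exact (hx' k h).le
    have h4 : 8 * (f * (t + 1)) ≤ 8 * (f + 1) * (t + 1) := by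
      rw [mul_assoc]
      exact Nat.mul_le_mul_left _ (Nat.mul_le_mul_right _ (by omega))
    omega

theorem tame_limF {𝓖 : ℕ → Set (Finset ℕ)} (hN : ∀ n, Nice (𝓖 n))
    (h𝓖 : ∀ n, nxt (𝓖 n) ⊆ 𝓖 (n + 1)) : Tame (limF 𝓖) := by
  intro f
  refine ⟨8 * f + 8, fun t ht => ⟨t + 1, by omega, ?_, ?_⟩⟩
  · refine ⟨0, fun k _ => Nat.zero_le _, (hN 0).sch ?_⟩
    intro k hk
    rw [Finset.mem_Icc] at hk
    rw [Nat.card_Icc]
    omega
  · intro A hA hx
    have hA' : ∀ i, A i ∈ 𝓖 t := by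
      intro i
      obtain ⟨-, n, hn1, hn2⟩ := hA i
      have h1 : n ≤ t := hn1 t (Finset.mem_insert_self _ _)
      exact (hN t).reg.hereditary _ (mono_of 𝓖 h𝓖 h1 hn2) _ (Finset.subset_insert _ _)
    have h2 := (hN t).cov f A hA'
    have hx' : ∀ s ∈ Finset.univ.biUnion A, t + 1 < s := by
      intro s hs
      rw [Finset.mem_biUnion] at hs
      obtain ⟨i, -, hi⟩ := hs
      exact hx i s hi
    have hk' : ∀ k ∈ insert (t + 1) (Finset.univ.biUnion A), t + 1 ≤ k := by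
      intro k hk
      rcases Finset.mem_insert.1 hk with h | h
      · exact h.ge
      · exact (hx' k h).le
    refine ⟨hx', t + 1, hk', h𝓖 t ⟨1 + 8 * f, fun k hk => ?_,
      insert_sq ((hN t).reg.singleton _) h2 hx'⟩⟩
    have := hk' k hk
    omega

theorem large_nxt (hN : Nice 𝓕) : Large (nxt 𝓕) := by
  refine ⟨1, fun n => ⟨Finset.Icc (n + 2) (2 * n + 2), ⟨fun s hs => ?_, insert_one hN n⟩, ?_⟩⟩
  · rw [Finset.mem_Icc] at hs
    omega
  · rw [Nat.card_Icc]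
    omega

theorem large_limF {𝓖 : ℕ → Set (Finset ℕ)} (hN : ∀ n, Nice (𝓖 n))
    (h𝓖 : ∀ n, nxt (𝓖 n) ⊆ 𝓖 (n + 1)) : Large (limF 𝓖) := by
  refine ⟨1, fun n => ⟨Finset.Icc (n + 2) (2 * n + 2), ⟨fun s hs => ?_, 1, fun k hk => ?_,
    h𝓖 0 (insert_one (hN 0) n)⟩, ?_⟩⟩
  · rw [Finset.mem_Icc] at hs
    omega
  · rcases Finset.mem_insert.1 hk with h | h
    · omega
    · rw [Finset.mem_Icc] at h
      omega
  · rw [Nat.card_Icc]
    omega

theorem schreier_nice {α : Ordinal.{0}} (h : SchreierFam α 𝓕) :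
    Nice 𝓕 ∧ (𝓕 = sch1 ∨ Tame 𝓕 ∧ Large 𝓕) := by
  induction h with
  | one => exact ⟨⟨sch1_regular, sch1_cov, subset_rfl⟩, Or.inl rfl⟩
  | succ α 𝓕 _ ih =>
    obtain ⟨hN, -⟩ := ih
    exact ⟨⟨nxt_regular hN.reg, cov_nxt hN, hN.sch.trans subset_nxt⟩,
      Or.inr ⟨tame_nxt hN, large_nxt hN⟩⟩
  | limit α 𝓖 _ _ hm ih =>
    have hN : ∀ n, Nice (𝓖 n) := fun n => (ih n).1
    refine ⟨⟨limF_regular (fun n => (hN n).reg) (fun n => subset_nxt.trans (hm n)),
      cov_limF hN hm, ?_⟩, Or.inr ⟨tame_limF hN hm, large_limF hN hm⟩⟩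
    exact fun F hF => ⟨0, fun k _ => Nat.zero_le _, (hN 0).sch hF⟩

end Pool.Agent.Comb7f333f.TPart
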