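import Pool.Agent.Lib.MP_7f333f_an.Tame.TowerEx
import Pool.Agent.Lib.MP_7f333f_an.Tame.Data
import Pool.Agent.Lib.MP_7f333f_an.Tame.Core
import Pool.Agent.Lib.MP_7f333f_an.Tame.SchTame
import Pool.Agent.Lib.MP_7f333f_an.Siz.Final
import Pool.Agent.Lib.MP_7f333f_an.Siz.Growth

set_option autoImplicit false
set_option linter.unusedSectionVars false

/-!
The theorem (W) for the tame families: a bounded group of operators on the space contains no
sequence which tends to zero coordinatewise.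
-/

namespace Pool.Agent.Comb7f333f.TPart

open Filter Topology

section Final

variable {𝓕 : Set (Finset ℕ)} {X : Type*} [NormedAddCommGroup X] [NormedSpace ℝ X] {e : ℕ → X}

theorem no_null (hR : IsRegular 𝓕) (hT : Tame 𝓕) (hL : Large 𝓕) (hX : IsCombSpace 𝓕 e)
    {G : Type*} [Group G] (A : G →* (X →L[ℝ] X)) (C : ℝ) (hC : 1 ≤ C)
    (hA : ∀ g x, ‖A g x‖ ≤ C * ‖x‖) (γ : ℕ → G)
    (hnull : ∀ x k, Tendsto (fun n => co e (A (γ n) x) k) atTop (𝓝 0)) : False := by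
  have h3 : (1 : ℝ) ≤ Real.sqrt 3 := by
    rw [show (1 : ℝ) = Real.sqrt 1 by simp]
    exact Real.sqrt_le_sqrt (by norm_num)
  have h4 : (1 : ℝ) ≤ C ^ 2 := one_le_pow₀ hC
  have h5 : (1 : ℝ) ≤ Real.sqrt 3 * C ^ 2 := one_le_mul_of_one_le_of_one_le h3 h4
  obtain ⟨sc⟩ := exists_scale hR hT
  set B₁ : ℝ := 4 * Real.sqrt 3 * C ^ 2 with hB₁
  have hB : (1 : ℝ) ≤ B₁ := by
    rw [hB₁]
    linarith
  have hΛ : 0 < 1 / e0 C B₁ := by
    unfold e0
    positivity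
  obtain ⟨r, M, K, K2, hr, hM, hE⟩ := core C B₁ (C * (C ^ 2 + 1))
    (C * (C * (1 / e0 C B₁) + 2)) hC hB
  obtain ⟨q0, K0, hK0, ⟨t⟩⟩ := exists_tower hR hX sc hL A C hC hA γ hnull (1 / e0 C B₁) hΛ r M
    hr hM
  obtain ⟨d⟩ := exists_coreD hR hX sc A C hC hA γ hnull (1 / e0 C B₁) hΛ r M hr hM q0 K0 hK0 t
    (max (sc.t0 K) (sc.t0 K2))
  exact (hE 𝓕 hR sc _ (le_max_left _ _) (le_max_right _ _)).elim d

theorem noNullIsom_of_tame [CompleteSpace X] (hR : IsRegular 𝓕) (hT : Tame 𝓕) (hL : Large 𝓕)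
    (hX : IsCombSpace 𝓕 e) : DPart.NoNullIsom e := by
  intro N c C hc hN g hg
  refine no_null hR hT hL hX (SPart.isomHom hc hN) (max 1 (C / c)) (le_max_left _ _)
    (fun g x => ?_) g (fun x k => hg x k)
  rw [SPart.isomHom_apply]
  exact (SPart.fi_norm_le hc hN g x).trans
    (mul_le_mul_of_nonneg_right (le_max_right _ _) (norm_nonneg x))

theorem noNullIsom_of_sch1 [CompleteSpace X] (hX : IsCombSpace sch1 e) :
    DPart.NoNullIsom e :=
  SPart.noNullIsom_of_sizeLike ⟨fun k => k + 1, fun a b h => Nat.succ_le_succ h,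
      fun n => ⟨n, Nat.le_succ n⟩, fun k => Nat.succ_pos k⟩
    (fun Y _ _ _ e' hY N c C hc hN g hg => SPart.no_null_seq hY hc hN g hg)
    sch1_regular hX ⟨1, fun F hF k hk => by
      have := hF k hk
      simpa using this, fun F hF k hk => by
      have := hF k hk
      simpa using this⟩

/-- The families of the theorem. -/
theorem noNullIsom [CompleteSpace X]
    (h𝓕 : (∃ α, SchreierFam α 𝓕) ∨ IsRegular 𝓕 ∧ Tame 𝓕 ∧ Large 𝓕) (hX : IsCombSpace 𝓕 e) :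
    IsRegular 𝓕 ∧ DPart.NoNullIsom e := by
  rcases h𝓕 with ⟨α, hα⟩ | ⟨hR, hT, hL⟩
  · obtain ⟨hN, h | ⟨hT, hL⟩⟩ := schreier_nice hα
    · subst h
      exact ⟨hN.reg, noNullIsom_of_sch1 hX⟩
    · exact ⟨hN.reg, noNullIsom_of_tame hN.reg hT hL hX⟩
  · exact ⟨hR, noNullIsom_of_tame hR hT hL hX⟩

end Final

end Pool.Agent.Comb7f333f.TPart
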