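import Pool.Agent.Lib.MP_7f333f_an.Tame.Api

set_option autoImplicit false

/-!
Module Fun: square functions of functionals.
-/

namespace Pool.Agent.Comb7f333f.TPart

open Filter Topology

variable {𝓕 : Set (Finset ℕ)} {X : Type*} [NormedAddCommGroup X] [NormedSpace ℝ X] {e : ℕ → X}
  (hR : IsRegular 𝓕) (hX : IsCombSpace 𝓕 e)

include hR hX

theorem sq_fun {ι : Type*} (I : Finset ι) (ψ : ι → X →L[ℝ] ℝ) (B : ℝ)
    (h : ∀ x, ∑ i ∈ I, |ψ i x| ≤ B * ‖x‖) (S : Finset ℕ) (z : ℕ → ℝ) (B' : ℝ)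
    (hz : ∀ s, 0 ≤ z s) (hSB : SB 𝓕 z B') :
    ∑ s ∈ S, Real.sqrt (∑ i ∈ I, (ψ i (e s)) ^ 2) * z s ≤ Real.sqrt 3 * (|B| * B') := by
  refine khintchine_weighted I S z (fun s _ => hz s) (fun i s => ψ i (e s)) (|B| * B') ?_
  intro θ hθ
  have hB' : 0 ≤ B' := SB_nonneg hR hSB
  set f : ℕ → ℝ := fun s => ∑ i ∈ I, θ i * ψ i (e s) with hf
  set ε : ℕ → ℝ := fun s => if 0 ≤ f s then 1 else -1 with hε
  have hε1 : ∀ s, |f s| = ε s * f s := by
    intro s
    by_cases h0 : 0 ≤ f s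
    · simp only [hε, if_pos h0, one_mul, abs_of_nonneg h0]
    · simp only [hε, if_neg h0, neg_mul, one_mul, abs_of_neg (not_le.mp h0)]
  have hε2 : ∀ s, |ε s| = 1 := by
    intro s
    by_cases h0 : 0 ≤ f s
    · simp only [hε, if_pos h0, abs_one]
    · simp only [hε, if_neg h0, abs_neg, abs_one]
  set x : X := vec e S (fun s => ε s * z s) with hx
  have hxn : ‖x‖ ≤ B' := by
    refine norm_vec_le hR hX (SB_mono hSB fun s => ?_)
    rw [abs_mul, hε2, one_mul]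
  have h1 : ∀ i, ψ i x = ∑ s ∈ S, ε s * z s * ψ i (e s) := by
    intro i
    rw [hx, vec, map_sum]
    refine Finset.sum_congr rfl fun s _ => ?_
    rw [map_smul, smul_eq_mul]
  have h2 : ∑ s ∈ S, |f s| * z s = ∑ i ∈ I, θ i * ψ i x := by
    simp only [h1, Finset.mul_sum]
    rw [Finset.sum_comm]
    refine Finset.sum_congr rfl fun s _ => ?_
    rw [hε1, hf]
    simp only [Finset.mul_sum, Finset.sum_mul]
    refine Finset.sum_congr rfl fun i _ => ?_
    ring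
  have h3 : ∑ i ∈ I, θ i * ψ i x ≤ ∑ i ∈ I, |ψ i x| := by
    refine Finset.sum_le_sum fun i _ => ?_
    refine (le_abs_self _).trans (le_of_eq ?_)
    rw [abs_mul]
    rcases hθ i with h0 | h0 <;> simp [h0]
  calc ∑ s ∈ S, |∑ i ∈ I, θ i * ψ i (e s)| * z s = ∑ i ∈ I, θ i * ψ i x := h2
    _ ≤ ∑ i ∈ I, |ψ i x| := h3
    _ ≤ B * ‖x‖ := h x
    _ ≤ |B| * ‖x‖ := mul_le_mul_of_nonneg_right (le_abs_self B) (norm_nonneg x)
    _ ≤ |B| * B' := mul_le_mul_of_nonneg_left hxn (abs_nonneg B)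

/-- The functional of the column as a continuous functional. -/
noncomputable def fnL (e : ℕ → X) (J S : Finset ℕ) : X →L[ℝ] ℝ := ∑ i ∈ J, sg S i • ef e i

omit hR hX in
theorem fnL_apply (J S : Finset ℕ) (x : X) : fnL e J S x = fn e J S x := by
  simp [fnL, fn, co]

end Pool.Agent.Comb7f333f.TPart
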