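import Pool.Agent.Lib.MP_7f333f_an.Tame.Disc

set_option autoImplicit false
set_option linter.unusedSectionVars false
set_option linter.unusedVariables false

/-!
Module Good: the quantiles and the mass of the good pairs (port of `Siz/Good.lean`).
-/

namespace Pool.Agent.Comb7f333f.TPart

section Lev

variable {𝓕 : Set (Finset ℕ)} {P Z : ℕ} {C B₁ : ℝ} {J Q : Type} [Fintype J] [Fintype Q]
  (L : Lev 𝓕 P Z C B₁ J Q)

namespace GoodAux

theorem e0_nonneg (hC : 1 ≤ C) (hB : 1 ≤ B₁) : 0 ≤ e0 C B₁ := by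
  unfold e0
  have h1 : 0 ≤ C := by linarith
  have h2 : 0 ≤ B₁ := by linarith
  positivity

theorem dl_eq : dl C B₁ = 16 * e0 C B₁ := by
  unfold e0 dl
  rw [show (64 : ℝ) * B₁ * C = 16 * (4 * B₁ * C) by ring, one_div, one_div, mul_inv]
  ring

theorem mn_le {A : Finset ℕ} (hA : A ∈ sets 𝓕 P Z) : mn A ≤ Z := by
  classical
  unfold sets at hA
  rw [Finset.mem_filter, Finset.mem_powerset] at hA
  unfold mn
  rcases A.eq_empty_or_nonempty with rfl | hne
  · simp
  · have h1 : sInf (A : Set ℕ) ∈ (A : Set ℕ) := Nat.sInf_mem hne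
    exact (Finset.mem_Ico.mp (hA.1 h1)).2.le

theorem capj_anti (hC : 1 ≤ C) (hB : 1 ≤ B₁) (j : J) (A' : Finset ℕ) {x y : ℕ} (hxy : x ≤ y)
    (h : L.capj j A' y) : L.capj j A' x := by
  unfold Lev.capj at h ⊢
  refine h.trans (Finset.sum_le_sum_of_subset_of_nonneg ?_ ?_)
  · intro s hs
    rw [Finset.mem_filter] at hs ⊢
    exact ⟨hs.1, hxy.trans hs.2⟩
  · intro s _ _
    exact mul_nonneg (L.ej_nonneg hC hB (L.col j) s) (abs_nonneg _)

theorem JJ_anti (hC : 1 ≤ C) (hB : 1 ≤ B₁) (A' : Finset ℕ) {x y : ℕ} (hxy : x ≤ y) :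
    L.JJ A' y ⊆ L.JJ A' x := by
  classical
  intro j hj
  unfold Lev.JJ at hj ⊢
  rw [Finset.mem_filter] at hj ⊢
  exact ⟨hj.1, capj_anti L hC hB j A' hxy hj.2⟩

/-- Summation over the sets of the level. -/
theorem sum_gam_le {F : Finset ℕ → ℝ} {c : ℝ}
    (h : ∀ A' ∈ sets 𝓕 P Z, F A' ≤ c * L.gam A') : ∑ A' ∈ sets 𝓕 P Z, F A' ≤ c := by
  calc ∑ A' ∈ sets 𝓕 P Z, F A' ≤ ∑ A' ∈ sets 𝓕 P Z, c * L.gam A' := Finset.sum_le_sum h
    _ = c := by rw [← Finset.mul_sum, L.gam_sum, mul_one]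

end GoodAux

open GoodAux

namespace Lev

open scoped Classical in
theorem disc5 (hC : 1 ≤ C) (hB : 1 ≤ B₁) :
    ∑ j, ∑ A' ∈ sets 𝓕 P Z, ∑ A ∈ (sets 𝓕 P Z).filter (fun A => L.keptU j A A' ∧
      ¬ ((L.qset A').Nonempty ∧ L.tq A' ≤ mn A)), L.kp j A A' ≤
      e0 C B₁ * Fintype.card J := by
  rw [Finset.sum_comm]
  refine sum_gam_le L fun A' hA' => ?_
  have he : 0 ≤ e0 C B₁ * Fintype.card J * L.gam A' :=
    mul_nonneg (mul_nonneg (e0_nonneg hC hB) (Nat.cast_nonneg _)) (L.gam_nonneg A')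
  -- it is enough to compare with a scale outside `qset`
  have key : ∀ τ : ℕ, τ ∉ L.qset A' → (∀ A ∈ sets 𝓕 P Z,
      ¬ ((L.qset A').Nonempty ∧ L.tq A' ≤ mn A) → mn A ≤ τ) →
      ∑ j, ∑ A ∈ (sets 𝓕 P Z).filter (fun A => L.keptU j A A' ∧
        ¬ ((L.qset A').Nonempty ∧ L.tq A' ≤ mn A)), L.kp j A A' ≤
        e0 C B₁ * Fintype.card J * L.gam A' := by
    intro τ hτ hle
    have h1 : ∑ j, ∑ A ∈ (sets 𝓕 P Z).filter (fun A => L.keptU j A A' ∧ mn A ≤ τ),
        L.kp j A A' < e0 C B₁ * L.gam A' * Fintype.card J := by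
      by_contra hcon
      push Not at hcon
      exact hτ hcon
    refine le_trans ?_ (le_of_lt (lt_of_lt_of_eq h1 (by ring)))
    refine Finset.sum_le_sum fun j _ => ?_
    refine Finset.sum_le_sum_of_subset_of_nonneg ?_ ?_
    · intro A hA
      rw [Finset.mem_filter] at hA ⊢
      exact ⟨hA.1, hA.2.1, hle A hA.1 hA.2.2⟩
    · intro A _ _
      exact L.kp_nonneg hC hB j A A'
  by_cases hq : (L.qset A').Nonempty
  · by_cases ht : L.tq A' = 0
    · refine le_trans (le_of_eq ?_) he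
      refine Finset.sum_eq_zero fun j _ => ?_
      rw [Finset.filter_false_of_mem, Finset.sum_empty]
      rintro A _ ⟨_, h2⟩
      exact h2 ⟨hq, by rw [ht]; exact Nat.zero_le _⟩
    · refine key (L.tq A' - 1) ?_ ?_
      · apply Nat.notMem_of_lt_sInf
        change L.tq A' - 1 < L.tq A'
        omega
      · intro A _ h
        have h2 : ¬ L.tq A' ≤ mn A := fun h3 => h ⟨hq, h3⟩
        omega
  · refine key Z (fun h => hq ⟨_, h⟩) ?_
    intro A hA _
    exact mn_le hA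

open scoped Classical in
theorem disc6 (hC : 1 ≤ C) (hB : 1 ≤ B₁) :
    ∑ j, ∑ A' ∈ sets 𝓕 P Z, ∑ A ∈ (sets 𝓕 P Z).filter (fun A => L.keptL j A A' ∧
      ¬ e0 C B₁ * Fintype.card J ≤ ((L.JJ A' (mn A)).card : ℝ)), L.kp j A A' ≤
      e0 C B₁ * Fintype.card J := by
  rw [Finset.sum_comm]
  refine sum_gam_le L fun A' hA' => ?_
  have he : 0 ≤ e0 C B₁ * Fintype.card J * L.gam A' :=
    mul_nonneg (mul_nonneg (e0_nonneg hC hB) (Nat.cast_nonneg _)) (L.gam_nonneg A')
  set bad : Finset (Finset ℕ) := (sets 𝓕 P Z).filter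
    (fun A => ¬ e0 C B₁ * Fintype.card J ≤ ((L.JJ A' (mn A)).card : ℝ)) with hbad
  rcases bad.eq_empty_or_nonempty with hb | hb
  · refine le_trans (le_of_eq ?_) he
    refine Finset.sum_eq_zero fun j _ => ?_
    rw [Finset.filter_false_of_mem, Finset.sum_empty]
    rintro A hA ⟨_, h2⟩
    have h3 : A ∈ bad := by
      rw [hbad, Finset.mem_filter]
      exact ⟨hA, h2⟩
    rw [hb] at h3
    exact absurd h3 (Finset.notMem_empty _)
  · obtain ⟨A₀, hA₀, hmin⟩ := Finset.exists_min_image bad mn hb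
    have hA₀' := hA₀
    rw [hbad, Finset.mem_filter] at hA₀'
    have hcard : ((L.JJ A' (mn A₀)).card : ℝ) ≤ e0 C B₁ * Fintype.card J :=
      (not_le.mp hA₀'.2).le
    calc ∑ j, ∑ A ∈ (sets 𝓕 P Z).filter (fun A => L.keptL j A A' ∧
          ¬ e0 C B₁ * Fintype.card J ≤ ((L.JJ A' (mn A)).card : ℝ)), L.kp j A A'
        ≤ ∑ j, (if j ∈ L.JJ A' (mn A₀) then L.gam A' else 0) := by
          refine Finset.sum_le_sum fun j _ => ?_
          split_ifs with hj
          · refine le_trans (Finset.sum_le_sum_of_subset_of_nonneg (Finset.filter_subset _ _)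
              fun A _ _ => L.kp_nonneg hC hB j A A') (L.sum_kp_j_le hC hB j A' hA')
          · refine le_of_eq ?_
            rw [Finset.filter_false_of_mem, Finset.sum_empty]
            rintro A hA ⟨h1, h2⟩
            apply hj
            have h3 : A ∈ bad := by
              rw [hbad, Finset.mem_filter]
              exact ⟨hA, h2⟩
            refine JJ_anti L hC hB A' (hmin A h3) ?_
            unfold Lev.JJ
            rw [Finset.mem_filter]
            exact ⟨Finset.mem_univ _, h1.2.1⟩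
      _ = (L.JJ A' (mn A₀)).card * L.gam A' := by
          rw [← Finset.sum_filter, Finset.sum_const, nsmul_eq_mul]
          congr 3
          ext j
          simp
      _ ≤ e0 C B₁ * Fintype.card J * L.gam A' :=
          mul_le_mul_of_nonneg_right hcard (L.gam_nonneg A')

open scoped Classical in
/-- The mass of the good pairs. -/
theorem good_mass (hC : 1 ≤ C) (hB : 1 ≤ B₁) :
    dl C B₁ / 2 * Fintype.card J ≤
      ∑ j, ∑ A ∈ sets 𝓕 P Z, ∑ A' ∈ (sets 𝓕 P Z).filter (L.good j A), L.kp j A A' := by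
  -- the total mass
  have htot : dl C B₁ * Fintype.card J ≤
      ∑ j, ∑ A ∈ sets 𝓕 P Z, ∑ A' ∈ sets 𝓕 P Z, L.kp j A A' := by
    calc dl C B₁ * Fintype.card J = ∑ _j : J, dl C B₁ := by
          rw [Finset.sum_const, nsmul_eq_mul, Finset.card_univ]
          ring
      _ ≤ _ := Finset.sum_le_sum fun j _ => L.total_kp hC hB j
  -- the discarded masses
  have h2 : ∑ j, ∑ A ∈ sets 𝓕 P Z, ∑ A' ∈ sets 𝓕 P Z,
      (if ¬ L.capr j A (mn A') then L.kp j A A' else 0) ≤ e0 C B₁ * Fintype.card J := by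
    calc _ ≤ ∑ _j : J, e0 C B₁ := by
          refine Finset.sum_le_sum fun j _ => le_trans (le_of_eq ?_) (L.disc2 hC hB j)
          refine Finset.sum_congr rfl fun A _ => ?_
          rw [Finset.sum_filter]
      _ = _ := by
          rw [Finset.sum_const, nsmul_eq_mul, Finset.card_univ]
          ring
  have h3 : ∑ j, ∑ A ∈ sets 𝓕 P Z, ∑ A' ∈ sets 𝓕 P Z,
      (if ¬ L.capj j A' (mn A) then L.kp j A A' else 0) ≤ e0 C B₁ * Fintype.card J := by
    calc _ ≤ ∑ _j : J, e0 C B₁ := by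
          refine Finset.sum_le_sum fun j _ => le_trans (le_of_eq ?_) (L.disc3 hC hB j)
          rw [Finset.sum_comm]
          refine Finset.sum_congr rfl fun A' _ => ?_
          rw [Finset.sum_filter]
      _ = _ := by
          rw [Finset.sum_const, nsmul_eq_mul, Finset.card_univ]
          ring
  have h5 : ∑ j, ∑ A ∈ sets 𝓕 P Z, ∑ A' ∈ sets 𝓕 P Z,
      (if L.keptU j A A' ∧ ¬ ((L.qset A').Nonempty ∧ L.tq A' ≤ mn A)
        then L.kp j A A' else 0) ≤ e0 C B₁ * Fintype.card J := by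
    refine le_trans (le_of_eq ?_) (L.disc5 hC hB)
    refine Finset.sum_congr rfl fun j _ => ?_
    rw [Finset.sum_comm]
    refine Finset.sum_congr rfl fun A' _ => ?_
    rw [Finset.sum_filter]
  have h6 : ∑ j, ∑ A ∈ sets 𝓕 P Z, ∑ A' ∈ sets 𝓕 P Z,
      (if L.keptL j A A' ∧
        ¬ e0 C B₁ * Fintype.card J ≤ ((L.JJ A' (mn A)).card : ℝ)
        then L.kp j A A' else 0) ≤ e0 C B₁ * Fintype.card J := by
    refine le_trans (le_of_eq ?_) (L.disc6 hC hB)
    refine Finset.sum_congr rfl fun j _ => ?_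
    rw [Finset.sum_comm]
    refine Finset.sum_congr rfl fun A' _ => ?_
    rw [Finset.sum_filter]
  -- every pair is good or discarded
  have hle : ∑ j, ∑ A ∈ sets 𝓕 P Z, ∑ A' ∈ sets 𝓕 P Z, L.kp j A A' ≤
      ∑ j, ∑ A ∈ sets 𝓕 P Z, ∑ A' ∈ sets 𝓕 P Z,
        ((if L.good j A A' then L.kp j A A' else 0) +
        (if ¬ L.capr j A (mn A') then L.kp j A A' else 0) +
        (if ¬ L.capj j A' (mn A) then L.kp j A A' else 0) +
        (if L.keptU j A A' ∧ ¬ ((L.qset A').Nonempty ∧ L.tq A' ≤ mn A)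
          then L.kp j A A' else 0) +
        (if L.keptL j A A' ∧
          ¬ e0 C B₁ * Fintype.card J ≤ ((L.JJ A' (mn A)).card : ℝ)
          then L.kp j A A' else 0)) := by
    refine Finset.sum_le_sum fun j _ => Finset.sum_le_sum fun A _ =>
      Finset.sum_le_sum fun A' _ => ?_
    have h0 := L.kp_nonneg hC hB j A A'
    have hi : ∀ (p : Prop) [Decidable p], 0 ≤ (if p then L.kp j A A' else 0) := by
      intro p _
      split_ifs
      · exact h0
      · exact le_rfl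
    have hone : ∀ (p : Prop) [Decidable p], p → L.kp j A A' ≤
        (if p then L.kp j A A' else 0) := by
      intro p _ hp
      rw [if_pos hp]
    have g0 := hi (L.good j A A')
    have g2 := hi (¬ L.capr j A (mn A'))
    have g3 := hi (¬ L.capj j A' (mn A))
    have g5 := hi (L.keptU j A A' ∧ ¬ ((L.qset A').Nonempty ∧ L.tq A' ≤ mn A))
    have g6 := hi (L.keptL j A A' ∧
      ¬ e0 C B₁ * Fintype.card J ≤ ((L.JJ A' (mn A)).card : ℝ))
    rcases h0.eq_or_lt with hz | hpos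
    · linarith
    by_cases c2 : L.capr j A (mn A')
    swap
    · linarith [hone _ c2]
    rcases le_or_gt (mn A) (mn A') with hm | hm
    · have hk : L.keptU j A A' := ⟨hm, c2⟩
      by_cases c5 : (L.qset A').Nonempty ∧ L.tq A' ≤ mn A
      · have hg : L.good j A A' := ⟨hpos, Or.inl ⟨hk, c5⟩⟩
        linarith [hone _ hg]
      · linarith [hone _ (⟨hk, c5⟩ : L.keptU j A A' ∧
          ¬ ((L.qset A').Nonempty ∧ L.tq A' ≤ mn A))]
    · by_cases c3 : L.capj j A' (mn A)
      swap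
      · linarith [hone _ c3]
      have hk : L.keptL j A A' := ⟨hm, c3, c2⟩
      by_cases c6 : e0 C B₁ * Fintype.card J ≤ ((L.JJ A' (mn A)).card : ℝ)
      · have hg : L.good j A A' := ⟨hpos, Or.inr ⟨hk, c6⟩⟩
        linarith [hone _ hg]
      · linarith [hone _ (⟨hk, c6⟩ : L.keptL j A A' ∧
          ¬ e0 C B₁ * Fintype.card J ≤ ((L.JJ A' (mn A)).card : ℝ))]
  simp only [Finset.sum_add_distrib] at hle
  have hgood : ∑ j, ∑ A ∈ sets 𝓕 P Z, ∑ A' ∈ sets 𝓕 P Z,
      (if L.good j A A' then L.kp j A A' else 0) =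
      ∑ j, ∑ A ∈ sets 𝓕 P Z, ∑ A' ∈ (sets 𝓕 P Z).filter (L.good j A), L.kp j A A' := by
    refine Finset.sum_congr rfl fun j _ => Finset.sum_congr rfl fun A _ => ?_
    rw [Finset.sum_filter]
  rw [hgood] at hle
  have hdl : dl C B₁ = 16 * e0 C B₁ := dl_eq
  have he : 0 ≤ e0 C B₁ * Fintype.card J :=
    mul_nonneg (e0_nonneg hC hB) (Nat.cast_nonneg _)
  rw [hdl] at htot ⊢
  linarith

end Lev

end Lev

end Pool.Agent.Comb7f333f.TPart
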