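import Pool.Agent.Lib.MP_7f333f_an.Tame.Meas

set_option autoImplicit false
set_option linter.unusedSectionVars false
set_option linter.unusedVariables false

/-!
Module Levs: the levels of the data with their measures (port of `Siz/Levs.lean`).
-/

namespace Pool.Agent.Comb7f333f.TPart

section Data

variable {𝓕 : Set (Finset ℕ)} {sc : Scale 𝓕} {C B₁ D B₂ Λ : ℝ} {Q0 r M : ℕ}

theorem lett_update {U : Fin r → ℕ} (ω : (l : Fin r) → Fin M × Fin (U l)) (l : Fin r)
    (j : Fin M × Fin (U l)) :
    lett (Function.update ω l j) = Function.update (lett ω) l j.1 := by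
  funext k
  by_cases hk : k = l
  · subst hk
    simp [lett]
  · simp [lett, hk]

theorem exists_levs (hR : IsRegular 𝓕) (d : CoreD 𝓕 sc C B₁ D B₂ Λ Q0 r M) (hM : 1 ≤ M)
    (hB : 1 ≤ B₁) :
    ∃ (lam : ((l : Fin r) → Fin M × Fin (d.U l)) → Finset ℕ → ℝ)
      (L : ((l : Fin r) → Fin M × Fin (d.U l)) → (l : Fin r) →
        Lev 𝓕 d.P d.Z C B₁ (Fin M × Fin (d.U l)) (Fin M × Fin (d.N l))),
      (∀ ω l j, (L ω l).lam j = lam (Function.update ω l j)) ∧
      (∀ ω l j, (L ω l).col j =
        (j.1, d.col (Function.update (lett ω) l j.1) l j.2)) ∧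
      (∀ ω l q, (L ω l).v q = d.v (Function.update (lett ω) l q.1) l q.2) ∧
      ∀ ω l j, L (Function.update ω l j) l = L ω l := by
  have hB0 : 0 < B₁ := by linarith
  have hlam : ∀ ω : (l : Fin r) → Fin M × Fin (d.U l), ∃ lam : Finset ℕ → ℝ,
      (∀ A, 0 ≤ lam A) ∧ ∑ A ∈ sets 𝓕 d.P d.Z, lam A = 1 ∧
      ∀ s ∈ Finset.Ico d.P d.Z,
        Real.sqrt (∑ l, d.ζ (lett ω) l (d.col (lett ω) l (ω l).2) s ^ 2)
          ≤ B₁ * mg (sets 𝓕 d.P d.Z) lam s := fun ω =>
    exists_measure hR d.P d.Z B₁ hB0 _ (fun s => Real.sqrt_nonneg _)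
      (d.h2 (lett ω) (fun l => d.col (lett ω) l (ω l).2))
  choose lam hlam0 hlam1 hlam2 using hlam
  have hgam : ∀ (w : Fin r → Fin M) (l : Fin r), ∃ gam : Finset ℕ → ℝ,
      (∀ A, 0 ≤ gam A) ∧ ∑ A ∈ sets 𝓕 d.P d.Z, gam A = 1 ∧
      ∀ s ∈ Finset.Ico d.P d.Z,
        Real.sqrt (∑ q : Fin M × Fin (d.N l), d.ζ (Function.update w l q.1) l q.2 s ^ 2)
        ≤ B₁ * mg (sets 𝓕 d.P d.Z) gam s := fun w l =>
    exists_measure hR d.P d.Z B₁ hB0 _ (fun s => Real.sqrt_nonneg _) (d.h3 w l)
  choose gam hgam0 hgam1 hgam2 using hgam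
  let L0 : ((l : Fin r) → Fin M × Fin (d.U l)) → (l : Fin r) →
      Lev 𝓕 d.P d.Z C B₁ (Fin M × Fin (d.U l)) (Fin M × Fin (d.N l)) := fun ω l =>
    { col := fun j => (j.1, d.col (Function.update (lett ω) l j.1) l j.2)
      gam := gam (lett ω) l
      lam := fun j => lam (Function.update ω l j)
      ζ := fun q => d.ζ (Function.update (lett ω) l q.1) l q.2
      v := fun q => d.v (Function.update (lett ω) l q.1) l q.2
      gam_nonneg := hgam0 (lett ω) l
      gam_sum := hgam1 (lett ω) l
      lam_nonneg := fun j => hlam0 _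
      lam_sum := fun j => hlam1 _
      hr := by
        intro j s hs
        refine le_trans ?_ (hlam2 (Function.update ω l j) s hs)
        rw [← Real.sqrt_sq_eq_abs]
        refine Real.sqrt_le_sqrt ?_
        have h1 := Finset.single_le_sum
          (f := fun l' => d.ζ (lett (Function.update ω l j)) l'
            (d.col (lett (Function.update ω l j)) l' (Function.update ω l j l').2) s ^ 2)
          (fun i _ => sq_nonneg _) (Finset.mem_univ l)
        refine le_trans (le_of_eq ?_) h1
        simp only [Function.update_self]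
        rw [lett_update]
      hj := hgam2 (lett ω) l
      hv := fun q => d.h0 _ l q.2
      hz := fun j => d.h1 _ l j.2 }
  let j0 : (l : Fin r) → Fin M × Fin (d.U l) := fun l => (⟨0, hM⟩, ⟨0, d.U_pos l⟩)
  refine ⟨lam, fun ω l => L0 (Function.update ω l (j0 l)) l, ?_, ?_, ?_, ?_⟩
  · intro ω l j
    change lam (Function.update (Function.update ω l (j0 l)) l j) = _
    rw [Function.update_idem]
  · intro ω l j
    change (j.1, d.col (Function.update (lett (Function.update ω l (j0 l))) l j.1) l j.2) = _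
    rw [lett_update, Function.update_idem]
  · intro ω l q
    change d.v (Function.update (lett (Function.update ω l (j0 l))) l q.1) l q.2 = _
    rw [lett_update, Function.update_idem]
  · intro ω l j
    simp only [Function.update_idem]

end Data

end Pool.Agent.Comb7f333f.TPart
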