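import Pool.Agent.Lib.MP_7f333f_an.Tame.LowA

set_option autoImplicit false

/-!
Module Low: the sums of `T x` over the far sets of a section are controlled by the sums of `x` over
the sets of another section.
-/

namespace Pool.Agent.Comb7f333f.TPart

open Filter Topology

variable {𝓕 : Set (Finset ℕ)} {X : Type*} [NormedAddCommGroup X] [NormedSpace ℝ X] {e : ℕ → X}
  (hR : IsRegular 𝓕) (hX : IsCombSpace 𝓕 e) (sc : Scale 𝓕)

include hR hX sc

theorem low (C : ℝ) (hC : 1 ≤ C) (T : X →L[ℝ] X) (hT : ∀ x, ‖T x‖ ≤ C * ‖x‖) (q : ℕ) (ε : ℝ)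
    (hε : 0 < ε) : ∃ q' P : ℕ, ∀ E ∈ Sc 𝓕 q, (∀ s ∈ E, P < s) → ∀ (x : X) (B : ℝ),
      (∀ D ∈ Sc 𝓕 q', ∑ s ∈ D, |co e x s| ≤ B) →
        ∑ s ∈ E, |co e (T x) s| ≤ ε * ‖x‖ + C * B := by
  classical
  by_contra hcon
  have hfail : ∀ q' P : ℕ, ∃ E ∈ Sc 𝓕 q, (∀ s ∈ E, P < s) ∧ ∃ (x : X) (B : ℝ),
      (∀ D ∈ Sc 𝓕 q', ∑ s ∈ D, |co e x s| ≤ B) ∧
        ε * ‖x‖ + C * B < ∑ s ∈ E, |co e (T x) s| := by
    intro q' P
    by_contra h1
    refine hcon ⟨q', P, fun E hE hEP x B hB => ?_⟩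
    by_contra h2
    exact h1 ⟨E, hE, hEP, x, B, hB, not_le.1 h2⟩
  obtain ⟨n, hn⟩ := exists_nat_gt (2 * C / ε)
  have hn' : C < n * (ε / 2) := by
    rw [div_lt_iff₀ hε] at hn
    linarith
  have step := low_step hR hX C hC T hT q ε hε hfail
  choose b' y β E hb' hβ0 hy hsupp hβ hE hEP hge using step
  -- the states
  let st : ℕ → ℕ × ℕ := fun k => Nat.rec (0, sc.X n q)
    (fun _ p => (b' p.1 p.2, max p.2 ((E p.1 p.2).sup id))) k
  set bb : ℕ → ℕ := fun k => (st k).1 with hbb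
  set PP : ℕ → ℕ := fun k => (st k).2 with hPP
  set Y : ℕ → X := fun k => y (bb k) (PP k) with hY
  set EE : ℕ → Finset ℕ := fun k => E (bb k) (PP k) with hEE
  set bt : ℕ → ℝ := fun k => β (bb k) (PP k) with hbt
  have bS : ∀ k, bb (k + 1) = b' (bb k) (PP k) := fun k => rfl
  have PS : ∀ k, PP (k + 1) = max (PP k) ((EE k).sup id) := fun k => rfl
  have bmono : Monotone bb := monotone_nat_of_le_succ fun k => by rw [bS]; exact hb' _ _
  have Pmono : Monotone PP := monotone_nat_of_le_succ fun k => by rw [PS]; exact le_max_left _ _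
  have EP : ∀ k, ∀ s ∈ EE k, PP k < s := fun k s hs => hEP _ _ s hs
  have EP' : ∀ k, ∀ s ∈ EE k, s ≤ PP (k + 1) := fun k s hs => by
    rw [PS]
    exact (Finset.le_sup (f := id) hs).trans (le_max_right _ _)
  have hdisj : ∀ j k, j < k → Disjoint (EE j) (EE k) := by
    intro j k hjk
    rw [Finset.disjoint_left]
    intro s hs hs'
    have h1 := EP' j s hs
    have h2 := Pmono (show j + 1 ≤ k from hjk)
    have h3 := EP k s hs'
    omega
  have hpair : Set.PairwiseDisjoint (↑(Finset.range n)) EE := by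
    intro j _ k _ hjk
    rcases lt_or_gt_of_ne hjk with h | h
    · exact hdisj j k h
    · exact (hdisj k j h).symm
  set U := (Finset.range n).biUnion EE with hU
  have hUF : U ∈ 𝓕 := by
    refine Sc_mem hR (Scale.un' hR sc n q (Finset.range n) (by simp) EE
      (fun i _ => ⟨q, le_rfl, hE _ _⟩) fun i _ s hs => ?_)
    have h1 := EP i s hs
    have h2 := Pmono (Nat.zero_le i)
    have h3 : PP 0 = sc.X n q := rfl
    omega
  -- the signs
  obtain ⟨θ, hθ, hle⟩ := exists_sign_ge n (fun j : Fin n => co e (T (Y j)))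
    (fun u : ℕ → ℝ => ∑ s ∈ U, |u s|) 0
  rw [ravg_sum U (fun s (u : ℕ → ℝ) => |u s|) n _ 0] at hle
  have hav : ∀ s, ∀ k, (hk : k < n) → |co e (T (Y k)) s| ≤
      ravg n (fun j : Fin n => co e (T (Y j))) (fun u : ℕ → ℝ => |u s|) 0 := by
    intro s k hk
    have h2 := ravg_comp (LinearMap.proj s : (ℕ → ℝ) →ₗ[ℝ] ℝ) (fun t => |t|) n
      (fun j : Fin n => co e (T (Y j))) 0
    simp only [LinearMap.proj_apply, Pi.zero_apply] at h2
    rw [h2]
    exact abs_coeff_le_ravg_abs n (fun j : Fin n => co e (T (Y j)) s) 0 ⟨k, hk⟩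
  have h1 : ∑ k ∈ Finset.range n, (ε / 2 + C * bt k) ≤
      ∑ s ∈ U, ravg n (fun j : Fin n => co e (T (Y j))) (fun u : ℕ → ℝ => |u s|) 0 := by
    rw [hU, Finset.sum_biUnion hpair]
    refine Finset.sum_le_sum fun k hk => ?_
    refine (hge (bb k) (PP k)).trans (Finset.sum_le_sum fun s _ => ?_)
    exact hav s k (Finset.mem_range.1 hk)
  set θ' : ℕ → ℝ := fun k => if h : k < n then θ ⟨k, h⟩ else 1 with hθ'
  have hθs : IsSign θ' := by
    intro k
    rw [hθ']
    by_cases h : k < n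
    · simp only [h, dite_true]
      exact hθ _
    · simp only [h, dite_false]
      exact Or.inl trivial
  have h2 : ∀ s, ((0 : ℕ → ℝ) + ∑ i : Fin n, θ i • co e (T (Y i))) s =
      co e (T (∑ k ∈ Finset.range n, θ' k • Y k)) s := by
    intro s
    rw [map_sum, co_sum, ← Fin.sum_univ_eq_sum_range (fun k => co e (T (θ' k • Y k)) s) n]
    simp only [Pi.add_apply, Pi.zero_apply, zero_add, Finset.sum_apply, Pi.smul_apply, smul_eq_mul]
    refine Finset.sum_congr rfl fun i _ => ?_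
    rw [map_smul, co_smul, hθ']
    simp
  have h3 : ∑ s ∈ U, |((0 : ℕ → ℝ) + ∑ i : Fin n, θ i • co e (T (Y i))) s| ≤
      C * (1 + ∑ k ∈ Finset.range n, bt k) := by
    have h4 : ∑ s ∈ U, |((0 : ℕ → ℝ) + ∑ i : Fin n, θ i • co e (T (Y i))) s| =
        ∑ s ∈ U, |co e (T (∑ k ∈ Finset.range n, θ' k • Y k)) s| :=
      Finset.sum_congr rfl fun s _ => by rw [h2 s]
    rw [h4]
    refine (SB_co hR hX _ U hUF).trans ((hT _).trans ?_)
    refine mul_le_mul_of_nonneg_left ?_ (by linarith)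
    refine norm_blocks_le hR hX n bb bmono Y bt ?_ (fun k _ => hy _ _)
      (fun k _ D hD => hβ _ _ D hD) θ' hθs
    intro k _ s hs
    refine hsupp (bb k) (PP k) s ?_
    rwa [← bS]
  have h5 := (h1.trans hle).trans h3
  rw [Finset.sum_add_distrib, Finset.sum_const, Finset.card_range, ← Finset.mul_sum,
    nsmul_eq_mul] at h5
  linarith

end Pool.Agent.Comb7f333f.TPart
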