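import Pool.Agent.Lib.MP_7f333f_an.Tame.Api
import Pool.Agent.Lib.MP_7f333f_an.Tame.Sec

set_option autoImplicit false

/-!
Module LowA: successive blocks, and one step of the construction in the proof of `low`.
-/

namespace Pool.Agent.Comb7f333f.TPart

open Filter Topology

variable {𝓕 : Set (Finset ℕ)} {X : Type*} [NormedAddCommGroup X] [NormedSpace ℝ X] {e : ℕ → X}
  (hR : IsRegular 𝓕) (hX : IsCombSpace 𝓕 e)

include hR hX

/-- Successive blocks `y k`, supported in the interval from `b k` (excluded) to `b (k + 1)` (included), of norm at most `1`, whose sums over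
the sets of the section at `b k` are at most `β k`. -/
theorem norm_blocks_le (n : ℕ) (b : ℕ → ℕ) (hb : Monotone b) (y : ℕ → X) (β : ℕ → ℝ)
    (hsupp : ∀ k < n, ∀ s, ¬ (b k < s ∧ s ≤ b (k + 1)) → co e (y k) s = 0)
    (hy : ∀ k < n, ‖y k‖ ≤ 1)
    (hβ : ∀ k < n, ∀ D ∈ Sc 𝓕 (b k), ∑ s ∈ D, |co e (y k) s| ≤ β k)
    (θ : ℕ → ℝ) (hθ : IsSign θ) :
    ‖∑ k ∈ Finset.range n, θ k • y k‖ ≤ 1 + ∑ k ∈ Finset.range n, β k := by
  refine norm_le_of_SB hR hX fun F hF => ?_
  have h1 : ∑ s ∈ F, |co e (∑ k ∈ Finset.range n, θ k • y k) s| ≤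
      ∑ k ∈ Finset.range n, ∑ s ∈ F, |co e (y k) s| := by
    rw [Finset.sum_comm]
    refine Finset.sum_le_sum fun s _ => ?_
    rw [co_sum]
    refine (Finset.abs_sum_le_sum_abs _ _).trans (Finset.sum_le_sum fun k _ => ?_)
    rw [co_smul, abs_mul]
    rcases hθ k with h | h <;> simp [h]
  refine h1.trans ?_
  have hβ0 : ∀ k < n, 0 ≤ β k := fun k hk => by
    have := hβ k hk ∅ (Sc_empty hR _)
    simpa using this
  have key : ∀ m ≤ n, (∑ k ∈ Finset.range m, ∑ s ∈ F, |co e (y k) s| ≤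
      1 + ∑ k ∈ Finset.range m, β k) ∧ ((∀ s ∈ F, b m < s) →
      ∑ k ∈ Finset.range m, ∑ s ∈ F, |co e (y k) s| ≤ ∑ k ∈ Finset.range m, β k) := by
    intro m
    induction m with
    | zero => intro _; simp
    | succ m ih =>
      intro hm
      obtain ⟨i1, i2⟩ := ih (by omega)
      rw [Finset.sum_range_succ, Finset.sum_range_succ]
      by_cases hq : ∀ s ∈ F, b m < s
      · have i3 := i2 hq
        refine ⟨?_, fun h => ?_⟩
        · have h2 := SB_co hR hX (y m) F hF
          have h3 := hy m (by omega)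
          have h4 := hβ0 m (by omega)
          linarith
        · have h2 : ∑ s ∈ F, |co e (y m) s| = 0 := by
            refine Finset.sum_eq_zero fun s hs => ?_
            rw [hsupp m (by omega) s (fun hc => absurd hc.2 (not_le.2 (h s hs))), abs_zero]
          have h4 := hβ0 m (by omega)
          linarith
      · push Not at hq
        obtain ⟨q, hq1, hq2⟩ := hq
        have h2 : ∑ s ∈ F, |co e (y m) s| ≤ β m := by
          refine le_trans (le_of_eq ?_) (hβ m (by omega) _ (Sc_of_mem hR hF hq1 hq2))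
          rw [Finset.sum_filter]
          refine Finset.sum_congr rfl fun s _ => ?_
          split_ifs with h
          · rfl
          · rw [hsupp m (by omega) s (fun hc => h hc.1), abs_zero]
        refine ⟨by linarith, fun h => ?_⟩
        have h3 := h q hq1
        have h4 := hb (Nat.le_succ m)
        simp only [Nat.succ_eq_add_one] at h4
        omega
  exact (key n le_rfl).1

/-- One step: if the conclusion of `low` fails for `T`, `q`, `ε`, there is a block beyond `b` with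
norm at most `1`, with a set `E` beyond `P`. -/
theorem low_step (C : ℝ) (hC : 1 ≤ C) (T : X →L[ℝ] X) (hT : ∀ x, ‖T x‖ ≤ C * ‖x‖) (q : ℕ)
    (ε : ℝ) (hε : 0 < ε)
    (hfail : ∀ q' P : ℕ, ∃ E ∈ Sc 𝓕 q, (∀ s ∈ E, P < s) ∧ ∃ (x : X) (B : ℝ),
      (∀ D ∈ Sc 𝓕 q', ∑ s ∈ D, |co e x s| ≤ B) ∧
        ε * ‖x‖ + C * B < ∑ s ∈ E, |co e (T x) s|) (b P : ℕ) :
    ∃ (b' : ℕ) (y : X) (β : ℝ) (E : Finset ℕ), b ≤ b' ∧ 0 ≤ β ∧ ‖y‖ ≤ 1 ∧
      (∀ s, ¬ (b < s ∧ s ≤ b') → co e y s = 0) ∧
      (∀ D ∈ Sc 𝓕 b, ∑ s ∈ D, |co e y s| ≤ β) ∧ E ∈ Sc 𝓕 q ∧ (∀ s ∈ E, P < s) ∧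
      ε / 2 + C * β ≤ ∑ s ∈ E, |co e (T y) s| := by
  have hC0 : 0 < C := by linarith
  -- the tails of the images of the first basis vectors
  have htail : ∀ j : ℕ, ∃ K : ℕ, ∀ E ∈ 𝓕, (∀ s ∈ E, K ≤ s) →
      ∑ s ∈ E, |co e (T (e j)) s| ≤ ε / (8 * (b + 1)) := fun j =>
    exists_tail_le hR hX (T (e j)) _ (by positivity)
  choose K hK using htail
  set P' := (Finset.range (b + 1)).sup K with hP'
  obtain ⟨E, hE, hEP, x, B, hB, hEx⟩ := hfail b (max P P')
  have hEF : E ∈ 𝓕 := Sc_mem hR hE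
  have hB0 : 0 ≤ B := by
    have := hB ∅ (Sc_empty hR _)
    simpa using this
  have hx0 : 0 < ‖x‖ := by
    rw [norm_pos_iff]
    rintro rfl
    have h1 : ∑ s ∈ E, |co e (T (0 : X)) s| = 0 := by
      refine Finset.sum_eq_zero fun s _ => ?_
      simp [co]
    rw [h1, norm_zero, mul_zero, zero_add] at hEx
    exact absurd hEx (not_lt.2 (mul_nonneg hC0.le hB0))
  set x1 : X := ‖x‖⁻¹ • x with hx1
  set β : ℝ := ‖x‖⁻¹ * B with hβ
  have hx1n : ‖x1‖ = 1 := by
    rw [hx1, norm_smul, norm_inv, norm_norm, inv_mul_cancel₀ hx0.ne']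
  have hco : ∀ s, |co e x1 s| = ‖x‖⁻¹ * |co e x s| := fun s => by
    rw [hx1, co_smul, abs_mul, abs_of_pos (inv_pos.2 hx0)]
  have hcoT : ∀ s, |co e (T x1) s| = ‖x‖⁻¹ * |co e (T x) s| := fun s => by
    rw [hx1, map_smul, co_smul, abs_mul, abs_of_pos (inv_pos.2 hx0)]
  have hD1 : ∀ D ∈ Sc 𝓕 b, ∑ s ∈ D, |co e x1 s| ≤ β := by
    intro D hD
    rw [Finset.sum_congr rfl (fun s _ => hco s), ← Finset.mul_sum]
    exact mul_le_mul_of_nonneg_left (hB D hD) (inv_pos.2 hx0).le
  have hE1 : ε + C * β ≤ ∑ s ∈ E, |co e (T x1) s| := by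
    rw [Finset.sum_congr rfl (fun s _ => hcoT s), ← Finset.mul_sum]
    have h1 := mul_le_mul_of_nonneg_left hEx.le (inv_pos.2 hx0).le
    refine le_trans (le_of_eq ?_) h1
    rw [hβ]
    field_simp
  obtain ⟨Z0, hZ0⟩ := exists_tr hR hX x1 (ε / (8 * C)) (by positivity)
  set b' := max b Z0 with hb'
  have hbb : b ≤ b' := le_max_left _ _
  set y := vec e (Finset.Ioc b b') (co e x1) with hy
  set z := vec e (Finset.range (b + 1)) (co e x1) with hz
  set w := x1 - vec e (Finset.range (b' + 1)) (co e x1) with hw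
  have hwn : ‖w‖ ≤ ε / (8 * C) := hZ0 _ fun k hk => Finset.mem_range.2 (by
    have := le_max_right b Z0
    omega)
  have hsum : x1 = z + y + w := by
    refine co_ext hR hX fun k => ?_
    rw [co_add, co_add, hw, hz, hy, co_sub, co_vec hR hX, co_vec hR hX, co_vec hR hX]
    simp only [Finset.mem_range, Finset.mem_Ioc]
    by_cases h1 : k < b + 1
    · have h2 : ¬ (b < k ∧ k ≤ b') := fun h => by omega
      have h3 : k < b' + 1 := by omega
      simp [h1, h2, h3]
    · by_cases h2 : k ≤ b'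
      · have h3 : k < b' + 1 := by omega
        have h4 : b < k ∧ k ≤ b' := by omega
        simp [h1, h3, h4]
      · have h3 : ¬ k < b' + 1 := by omega
        have h4 : ¬ (b < k ∧ k ≤ b') := fun h => by omega
        simp [h1, h3, h4]
  have hTz : ∑ s ∈ E, |co e (T z) s| ≤ ε / 8 := by
    have h1 : ∀ s ∈ E, |co e (T z) s| ≤
        ∑ j ∈ Finset.range (b + 1), |co e (T (e j)) s| := by
      intro s _
      rw [hz, map_vec]
      refine (Finset.abs_sum_le_sum_abs _ _).trans (Finset.sum_le_sum fun j _ => ?_)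
      rw [abs_mul]
      have h2 : |co e x1 j| ≤ 1 := by
        rw [← hx1n]
        exact abs_co_le hR hX x1 j
      exact mul_le_of_le_one_left (abs_nonneg _) h2
    refine (Finset.sum_le_sum h1).trans ?_
    rw [Finset.sum_comm]
    have h2 : ∀ j ∈ Finset.range (b + 1), ∑ s ∈ E, |co e (T (e j)) s| ≤ ε / (8 * (b + 1)) := by
      intro j hj
      refine hK j E hEF fun s hs => ?_
      have h3 : K j ≤ P' := Finset.le_sup hj
      have h4 := hEP s hs
      have h5 := le_max_right P P'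
      omega
    refine (Finset.sum_le_sum h2).trans (le_of_eq ?_)
    rw [Finset.sum_const, Finset.card_range, nsmul_eq_mul]
    push_cast
    field_simp
  have hTw : ∑ s ∈ E, |co e (T w) s| ≤ ε / 8 := by
    refine (SB_co hR hX (T w) E hEF).trans ((hT w).trans ?_)
    refine (mul_le_mul_of_nonneg_left hwn hC0.le).trans (le_of_eq ?_)
    field_simp
  refine ⟨b', y, β, E, hbb, by positivity, ?_, ?_, ?_, hE, ?_, ?_⟩
  · rw [← hx1n]
    exact norm_tr_le hR hX x1 _
  · intro s hs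
    rw [hy, co_vec hR hX, if_neg]
    rwa [Finset.mem_Ioc]
  · intro D hD
    refine (Finset.sum_le_sum fun s _ => ?_).trans (hD1 D hD)
    rw [hy, co_vec hR hX]
    split_ifs
    · exact le_rfl
    · simp
  · intro s hs
    exact lt_of_le_of_lt (le_max_left P P') (hEP s hs)
  · have h1 : ∑ s ∈ E, |co e (T x1) s| ≤ ∑ s ∈ E, |co e (T z) s| + ∑ s ∈ E, |co e (T y) s| +
        ∑ s ∈ E, |co e (T w) s| := by
      rw [← Finset.sum_add_distrib, ← Finset.sum_add_distrib]
      refine Finset.sum_le_sum fun s _ => ?_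
      conv_lhs => rw [hsum, map_add, map_add, co_add, co_add]
      exact (abs_add_le _ _).trans (add_le_add (abs_add_le _ _) le_rfl)
    linarith

end Pool.Agent.Comb7f333f.TPart
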