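import Pool.Agent.Lib.MP_7f333f_an.Tame.Low
import Pool.Agent.Lib.MP_7f333f_an.Tame.Api
import Pool.Agent.Lib.MP_7f333f_an.D.Sep

set_option autoImplicit false

/-!
Module LowLoc: the localised form of `low`.
-/

namespace Pool.Agent.Comb7f333f.TPart

open Filter Topology

variable {𝓕 : Set (Finset ℕ)} {X : Type*} [NormedAddCommGroup X] [NormedSpace ℝ X] {e : ℕ → X}

private theorem lowLoc_sub (hR : IsRegular 𝓕) {q : ℕ} {D D' : Finset ℕ} (hD : D ∈ Sc 𝓕 q)
    (h : D' ⊆ D) : D' ∈ Sc 𝓕 q :=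
  ⟨fun s hs => hD.1 s (h hs), hR.hereditary _ hD.2 _ (Finset.insert_subset_insert q h)⟩

private theorem lowLoc_empty (hR : IsRegular 𝓕) (q : ℕ) : (∅ : Finset ℕ) ∈ Sc 𝓕 q := by
  refine ⟨fun s hs => absurd hs (Finset.notMem_empty s), ?_⟩
  have h : insert q (∅ : Finset ℕ) = {q} := rfl
  rw [h]
  exact hR.singleton q

private theorem lowLoc_mem (hR : IsRegular 𝓕) {q : ℕ} {D : Finset ℕ} (hD : D ∈ Sc 𝓕 q) :
    D ∈ 𝓕 := hR.hereditary _ hD.2 _ (Finset.subset_insert q D)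

/-- the part of the vector with small coordinates -/
private theorem lowLoc_head (hR : IsRegular 𝓕) (hX : IsCombSpace 𝓕 e) (T : X →L[ℝ] X) (q : ℕ)
    (ε : ℝ) (hε : 0 < ε) (n : ℕ) : ∃ P : ℕ, ∀ E ∈ Sc 𝓕 q, (∀ s ∈ E, P < s) → ∀ x : X,
      ∑ s ∈ E, |co e (T (vec e (Finset.range n) (co e x))) s| ≤ ε * ‖x‖ := by
  have h1 : ∀ j : ℕ, ∃ K : ℕ, ∀ E ∈ 𝓕, (∀ s ∈ E, K ≤ s) →
      ∑ s ∈ E, |co e (T (e j)) s| ≤ ε / (n + 1) := fun j =>
    exists_tail_le hR hX (T (e j)) (ε / (n + 1)) (by positivity)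
  choose K hK using h1
  refine ⟨(Finset.range n).sup K, fun E hE hEP x => ?_⟩
  have h2 : ∀ s, |co e (T (vec e (Finset.range n) (co e x))) s| ≤
      ∑ k ∈ Finset.range n, ‖x‖ * |co e (T (e k)) s| := by
    intro s
    rw [map_vec]
    refine (Finset.abs_sum_le_sum_abs _ _).trans (Finset.sum_le_sum fun k _ => ?_)
    rw [abs_mul]
    exact mul_le_mul_of_nonneg_right (abs_co_le hR hX x k) (abs_nonneg _)
  refine (Finset.sum_le_sum fun s _ => h2 s).trans ?_
  rw [Finset.sum_comm]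
  have h3 : ∀ k ∈ Finset.range n, ∑ s ∈ E, ‖x‖ * |co e (T (e k)) s| ≤ ‖x‖ * (ε / (n + 1)) := by
    intro k hk
    rw [← Finset.mul_sum]
    refine mul_le_mul_of_nonneg_left ?_ (norm_nonneg x)
    refine hK k E (lowLoc_mem hR hE) fun s hs => ?_
    have h4 : K k ≤ (Finset.range n).sup K := Finset.le_sup hk
    have := hEP s hs
    omega
  refine (Finset.sum_le_sum h3).trans ?_
  rw [Finset.sum_const, Finset.card_range, nsmul_eq_mul]
  have h5 : (n : ℝ) * (‖x‖ * (ε / (n + 1))) = ε * ‖x‖ * ((n : ℝ) / (n + 1)) := by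
    ring
  rw [h5]
  have h6 : (n : ℝ) / (n + 1) ≤ 1 := by
    rw [div_le_one (by positivity)]
    linarith
  exact mul_le_of_le_one_right (by positivity) h6

/-- the part of the vector beyond a large number -/
private theorem lowLoc_tail (hR : IsRegular 𝓕) (hX : IsCombSpace 𝓕 e) (T : X →L[ℝ] X)
    (E : Finset ℕ) (ε : ℝ) (hε : 0 < ε) : ∃ N : ℕ, ∀ n ≥ N, ∀ x : X,
      ∑ s ∈ E, |co e (T (x - vec e (Finset.range n) (co e x))) s| ≤ ε * ‖x‖ := by
  have h1 : ∀ s : ℕ, ∃ n : ℕ, ‖(ef e s).comp T - ∑ k ∈ Finset.range n,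
      ((ef e s).comp T) (e k) • ef e k‖ ≤ ε / ((E.card : ℝ) + 1) := fun s =>
    DPart.se_exists_small hR hX ((ef e s).comp T) (ε / ((E.card : ℝ) + 1)) (by positivity)
  choose N hN using h1
  refine ⟨E.sup N, fun n hn x => ?_⟩
  set w : X := x - vec e (Finset.range n) (co e x) with hw
  have hwx : ‖w‖ ≤ ‖x‖ := norm_sub_tr_le hR hX x _
  have hw0 : ∀ k < n, ef e k w = 0 := by
    intro k hk
    have h2 : co e w k = 0 := by
      rw [hw, co_sub, co_vec hR hX, if_pos (Finset.mem_range.mpr hk), sub_self]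
    exact h2
  have h2 : ∀ s ∈ E, |co e (T w) s| ≤ ε / ((E.card : ℝ) + 1) * ‖x‖ := by
    intro s hs
    have h3 : co e (T w) s = ((ef e s).comp T - ∑ k ∈ Finset.range (N s),
        ((ef e s).comp T) (e k) • ef e k) w := by
      rw [sub_apply, sum_apply]
      have h4 : ∑ k ∈ Finset.range (N s), (((ef e s).comp T) (e k) • ef e k) w = 0 := by
        refine Finset.sum_eq_zero fun k hk => ?_
        have h5 : N s ≤ E.sup N := Finset.le_sup hs
        have h6 := Finset.mem_range.mp hk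
        rw [smul_apply, hw0 k (by omega), smul_zero]
      rw [h4, sub_zero]
      rfl
    rw [h3, ← Real.norm_eq_abs]
    refine (ContinuousLinearMap.le_opNorm _ _).trans ?_
    exact mul_le_mul (hN s) hwx (norm_nonneg _) (by positivity)
  refine (Finset.sum_le_sum h2).trans ?_
  rw [Finset.sum_const, nsmul_eq_mul]
  have h5 : (E.card : ℝ) * (ε / ((E.card : ℝ) + 1) * ‖x‖) =
      ε * ‖x‖ * ((E.card : ℝ) / ((E.card : ℝ) + 1)) := by
    ring
  rw [h5]
  have h6 : (E.card : ℝ) / ((E.card : ℝ) + 1) ≤ 1 := by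
    rw [div_le_one (by positivity)]
    linarith
  exact mul_le_of_le_one_right (by positivity) h6

variable (hR : IsRegular 𝓕) (hX : IsCombSpace 𝓕 e) (sc : Scale 𝓕)

include hR hX sc

theorem low_loc (C : ℝ) (hC : 1 ≤ C) (T : X →L[ℝ] X) (hT : ∀ x, ‖T x‖ ≤ C * ‖x‖) (q : ℕ)
    (ε : ℝ) (hε : 0 < ε) : ∃ q' : ℕ, ∀ β : ℕ, ∃ P : ℕ, ∀ E ∈ Sc 𝓕 q, (∀ s ∈ E, P < s) →
      ∃ β' : ℕ, β ≤ β' ∧ ∀ x : X, ∃ D ∈ Sc 𝓕 q', (∀ s ∈ D, β < s ∧ s ≤ β') ∧
        ∑ s ∈ E, |co e (T x) s| ≤ ε * ‖x‖ + C * ∑ s ∈ D, |co e x s| := by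
  classical
  obtain ⟨q', P0, hlow⟩ := low hR hX sc C hC T hT q (ε / 3) (by positivity)
  refine ⟨q', fun β => ?_⟩
  obtain ⟨P1, hP1⟩ := lowLoc_head hR hX T q (ε / 3) (by positivity) (β + 1)
  refine ⟨max P0 P1, fun E hE hEP => ?_⟩
  obtain ⟨N, hN⟩ := lowLoc_tail hR hX T E (ε / 3) (by positivity)
  refine ⟨max β N, le_max_left _ _, fun x => ?_⟩
  set β' := max β N with hβ'
  have hββ' : β ≤ β' := le_max_left _ _
  -- the best set
  set 𝒟 : Finset (Finset ℕ) := (Finset.Ioc β β').powerset.filter (fun D => D ∈ Sc 𝓕 q') with h𝒟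
  have h𝒟n : 𝒟.Nonempty := ⟨∅, by
    rw [h𝒟, Finset.mem_filter, Finset.mem_powerset]
    exact ⟨Finset.empty_subset _, lowLoc_empty hR q'⟩⟩
  obtain ⟨D, hD, hDmax⟩ := Finset.exists_max_image 𝒟 (fun D => ∑ s ∈ D, |co e x s|) h𝒟n
  rw [h𝒟, Finset.mem_filter, Finset.mem_powerset] at hD
  refine ⟨D, hD.2, fun s hs => Finset.mem_Ioc.mp (hD.1 hs), ?_⟩
  -- the decomposition
  set a : X := vec e (Finset.range (β + 1)) (co e x) with ha
  set z : X := vec e (Finset.Ioc β β') (co e x) with hz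
  set w : X := x - vec e (Finset.range (β' + 1)) (co e x) with hw
  have hunion : Finset.range (β' + 1) = Finset.range (β + 1) ∪ Finset.Ioc β β' := by
    ext k
    simp only [Finset.mem_range, Finset.mem_union, Finset.mem_Ioc]
    omega
  have hdisj : Disjoint (Finset.range (β + 1)) (Finset.Ioc β β') := by
    rw [Finset.disjoint_left]
    intro k hk hk'
    rw [Finset.mem_range] at hk
    rw [Finset.mem_Ioc] at hk'
    omega
  have hsplit : x = a + z + w := by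
    have h1 : vec e (Finset.range (β' + 1)) (co e x) = a + z := by
      rw [ha, hz, vec, vec, vec, hunion, Finset.sum_union hdisj]
    rw [hw, h1]
    abel
  have hb1 : ∑ s ∈ E, |co e (T a) s| ≤ ε / 3 * ‖x‖ :=
    hP1 E hE (fun s hs => lt_of_le_of_lt (le_max_right _ _) (hEP s hs)) x
  have hb2 : ∑ s ∈ E, |co e (T w) s| ≤ ε / 3 * ‖x‖ := by
    refine hN (β' + 1) ?_ x
    have : N ≤ β' := le_max_right _ _
    omega
  have hb3 : ∑ s ∈ E, |co e (T z) s| ≤ ε / 3 * ‖x‖ + C * ∑ s ∈ D, |co e x s| := by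
    have h1 := hlow E hE (fun s hs => lt_of_le_of_lt (le_max_left _ _) (hEP s hs)) z
      (∑ s ∈ D, |co e x s|) (by
      intro D' hD'
      have h2 : ∑ s ∈ D', |co e z s| = ∑ s ∈ D' ∩ Finset.Ioc β β', |co e x s| := by
        rw [← Finset.sum_filter_add_sum_filter_not D' (fun s => s ∈ Finset.Ioc β β'),
          Finset.filter_mem_eq_inter]
        have h3 : ∑ s ∈ D'.filter (fun s => ¬ s ∈ Finset.Ioc β β'), |co e z s| = 0 := by
          refine Finset.sum_eq_zero fun s hs => ?_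
          rw [hz, co_vec hR hX, if_neg (Finset.mem_filter.mp hs).2, abs_zero]
        rw [h3, add_zero]
        refine Finset.sum_congr rfl fun s hs => ?_
        rw [hz, co_vec hR hX, if_pos (Finset.mem_inter.mp hs).2]
      rw [h2]
      refine hDmax _ ?_
      rw [h𝒟, Finset.mem_filter, Finset.mem_powerset]
      exact ⟨Finset.inter_subset_right, lowLoc_sub hR hD' Finset.inter_subset_left⟩)
    refine h1.trans ?_
    have h2 : ‖z‖ ≤ ‖x‖ := norm_tr_le hR hX x _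
    have h3 : ε / 3 * ‖z‖ ≤ ε / 3 * ‖x‖ := mul_le_mul_of_nonneg_left h2 (by positivity)
    linarith
  have hsum : ∑ s ∈ E, |co e (T x) s| ≤ ∑ s ∈ E, |co e (T a) s| + ∑ s ∈ E, |co e (T z) s| +
      ∑ s ∈ E, |co e (T w) s| := by
    rw [← Finset.sum_add_distrib, ← Finset.sum_add_distrib]
    refine Finset.sum_le_sum fun s _ => ?_
    have h1 : co e (T x) s = co e (T a) s + co e (T z) s + co e (T w) s := by
      conv_lhs => rw [hsplit]
      rw [map_add, map_add, co_add, co_add]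
    rw [h1]
    exact abs_add_three _ _ _
  linarith

end Pool.Agent.Comb7f333f.TPart
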