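import Pool.Agent.Lib.MP_7f333f_an.Tame.Pieces

set_option autoImplicit false

/-!
Module Pick: the choice of one basis vector of `J` with a large image on a part of `D` where
finitely many given vectors have small images; version along an ultrafilter.
-/

namespace Pool.Agent.Comb7f333f.TPart

open Filter Topology

variable {𝓕 : Set (Finset ℕ)} {X : Type*} [NormedAddCommGroup X] [NormedSpace ℝ X] {e : ℕ → X}
  (hR : IsRegular 𝓕) (hX : IsCombSpace 𝓕 e)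

/-- Disjoint parts of `D`. -/
theorem Pick_sum_le (A : Finset ℕ) (E : ℕ → Finset ℕ) (D : Finset ℕ) (hE : ∀ i, E i ⊆ D)
    (hdis : ∀ i i', i ≠ i' → Disjoint (E i) (E i')) (f : ℕ → ℝ) (hf : ∀ s, 0 ≤ f s) :
    ∑ i ∈ A, ∑ s ∈ E i, f s ≤ ∑ s ∈ D, f s := by
  rw [← Finset.sum_biUnion (fun i _ i' _ hne => hdis i i' hne)]
  refine Finset.sum_le_sum_of_subset_of_nonneg ?_ fun s _ _ => hf s
  intro s hs
  rw [Finset.mem_biUnion] at hs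
  obtain ⟨i, _, hi⟩ := hs
  exact hE i hi

include hR hX

theorem pick (C : ℝ) (hC : 1 ≤ C) (T : X →L[ℝ] X) (hT : ∀ x, ‖T x‖ ≤ C * ‖x‖) (ε η : ℝ)
    (hε : 0 < ε) (hη : 0 < η) (J : Finset ℕ) (hJ : J.Nonempty) (D : Finset ℕ) (hD : D ∈ 𝓕)
    (bad : Finset (Finset ℕ)) (hbad : bad ⊆ J.powerset)
    (hcard : η * 2 ^ J.card ≤ (bad.card : ℝ))
    (h : ∀ S ∈ bad, ε ≤ ∑ s ∈ D, |co e (T (av e J S)) s|) (I : Finset ℕ) (κ : ℝ) (hκ : 0 < κ)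
    (hm : I.card * C ≤ κ * ((ε * η) ^ 2 / (2 * C ^ 2) * J.card)) :
    ∃ i ∈ J, ∃ D', D' ⊆ D ∧ (ε * η) ^ 2 / (2 * C) ≤ ∑ s ∈ D', |co e (T (e i)) s| ∧
      ∑ u ∈ I, ∑ s ∈ D', |co e (T (e u)) s| ≤ κ := by
  obtain ⟨A, E, hAJ, hA, hED, hdis, hEi⟩ :=
    pieces hR hX C hC T hT ε η hε hη J hJ D hD bad hbad hcard h
  have hC0 : 0 < C := by linarith
  have hJ0 : (0 : ℝ) < J.card := by exact_mod_cast Finset.card_pos.mpr hJ
  have hApos : (0 : ℝ) < A.card := by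
    refine lt_of_lt_of_le ?_ hA
    positivity
  have hAne : A.Nonempty := by
    rw [← Finset.card_pos]
    exact_mod_cast hApos
  have hsum : ∑ i ∈ A, ∑ u ∈ I, ∑ s ∈ E i, |co e (T (e u)) s| ≤ ∑ _i ∈ A, κ := by
    rw [Finset.sum_comm, Finset.sum_const, nsmul_eq_mul]
    have h1 : ∀ u ∈ I, ∑ i ∈ A, ∑ s ∈ E i, |co e (T (e u)) s| ≤ C := by
      intro u _
      refine (Pick_sum_le A E D hED hdis (fun s => |co e (T (e u)) s|)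
        fun s => abs_nonneg _).trans ?_
      refine (SB_co hR hX (T (e u)) D hD).trans ((hT (e u)).trans ?_)
      have h2 := norm_e_le hR hX u
      nlinarith
    calc ∑ u ∈ I, ∑ i ∈ A, ∑ s ∈ E i, |co e (T (e u)) s| ≤ ∑ _u ∈ I, C := Finset.sum_le_sum h1
      _ = I.card * C := by rw [Finset.sum_const, nsmul_eq_mul]
      _ ≤ κ * ((ε * η) ^ 2 / (2 * C ^ 2) * J.card) := hm
      _ ≤ κ * A.card := mul_le_mul_of_nonneg_left hA hκ.le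
      _ = A.card * κ := mul_comm _ _
  obtain ⟨i, hi, hle⟩ := Finset.exists_le_of_sum_le hAne hsum
  exact ⟨i, hAJ hi, E i, hED i, hEi i hi, hle⟩

/-- The version along an ultrafilter. -/
theorem pick_ultra {ι : Type*} (𝒱 : Ultrafilter ι) (C : ℝ) (hC : 1 ≤ C) (T : ι → X →L[ℝ] X)
    (hT : ∀ ν x, ‖T ν x‖ ≤ C * ‖x‖) (𝒟 : Set (ι → Finset ℕ)) (h0 : (fun _ => ∅) ∈ 𝒟)
    (hunion : ∀ D ∈ 𝒟, ∀ D' ∈ 𝒟, (fun ν => D ν ∪ D' ν) ∈ 𝒟)
    (hsub : ∀ D ∈ 𝒟, ∀ D' : ι → Finset ℕ, (∀ ν, D' ν ⊆ D ν) → D' ∈ 𝒟)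
    (hF : ∀ D ∈ 𝒟, ∀ᶠ ν in (𝒱 : Filter ι), D ν ∈ 𝓕) (ε η : ℝ) (hε : 0 < ε) (hη : 0 < η)
    (J : Finset ℕ) (hJ : J.Nonempty)
    (hJbad : η * 2 ^ J.card < ((open scoped Classical in J.powerset.filter fun S => ∃ D ∈ 𝒟,
      ∀ᶠ ν in (𝒱 : Filter ι), ε < ∑ s ∈ D ν, |co e (T ν (av e J S)) s|).card : ℝ))
    (I : Finset ℕ) (κ : ℝ) (hκ : 0 < κ)
    (hm : I.card * C ≤ κ * ((ε * η) ^ 2 / (2 * C ^ 2) * J.card)) :
    ∃ i ∈ J, ∃ D' ∈ 𝒟, ∀ᶠ ν in (𝒱 : Filter ι),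
      (ε * η) ^ 2 / (2 * C) ≤ ∑ s ∈ D' ν, |co e (T ν (e i)) s| ∧
        ∑ u ∈ I, ∑ s ∈ D' ν, |co e (T ν (e u)) s| ≤ κ := by
  obtain ⟨bad, hbadJ, hcard, hbad⟩ : ∃ bad : Finset (Finset ℕ), bad ⊆ J.powerset ∧
      η * 2 ^ J.card ≤ (bad.card : ℝ) ∧ ∀ S ∈ bad, ∃ D ∈ 𝒟,
        ∀ᶠ ν in (𝒱 : Filter ι), ε < ∑ s ∈ D ν, |co e (T ν (av e J S)) s| := by
    classical
    refine ⟨_, ?_, hJbad.le, ?_⟩
    · intro S hS
      rw [Finset.mem_filter] at hS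
      exact hS.1
    · intro S hS
      rw [Finset.mem_filter] at hS
      exact hS.2
  -- the union of the sets
  have hD : ∃ D ∈ 𝒟, ∀ S ∈ bad,
      ∀ᶠ ν in (𝒱 : Filter ι), ε ≤ ∑ s ∈ D ν, |co e (T ν (av e J S)) s| := by
    clear hcard hbadJ
    classical
    induction bad using Finset.induction_on with
    | empty => exact ⟨_, h0, fun S hS => absurd hS (Finset.notMem_empty S)⟩
    | insert S bad _ ih =>
      obtain ⟨D, hD, h1⟩ := ih fun S' hS' => hbad S' (Finset.mem_insert_of_mem hS')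
      obtain ⟨D', hD', h2⟩ := hbad S (Finset.mem_insert_self _ _)
      refine ⟨fun ν => D ν ∪ D' ν, hunion D hD D' hD', fun S' hS' => ?_⟩
      rw [Finset.mem_insert] at hS'
      rcases hS' with rfl | hS'
      · filter_upwards [h2] with ν hν
        refine hν.le.trans (Finset.sum_le_sum_of_subset_of_nonneg Finset.subset_union_right
          fun s _ _ => abs_nonneg _)
      · filter_upwards [h1 S' hS'] with ν hν
        refine hν.trans (Finset.sum_le_sum_of_subset_of_nonneg Finset.subset_union_left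
          fun s _ _ => abs_nonneg _)
  obtain ⟨D, hD𝒟, hDbad⟩ := hD
  have hev : ∀ᶠ ν in (𝒱 : Filter ι), ∃ i ∈ J, ∃ D', D' ⊆ D ν ∧
      (ε * η) ^ 2 / (2 * C) ≤ ∑ s ∈ D', |co e (T ν (e i)) s| ∧
      ∑ u ∈ I, ∑ s ∈ D', |co e (T ν (e u)) s| ≤ κ := by
    filter_upwards [hF D hD𝒟, (Filter.eventually_all_finset bad).2 hDbad] with ν h1 h2
    exact pick hR hX C hC (T ν) (hT ν) ε η hε hη J hJ (D ν) h1 bad hbadJ hcard h2 I κ hκ hm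
  -- one index
  have hone : ∃ i ∈ J, ∀ᶠ ν in (𝒱 : Filter ι), ∃ D', D' ⊆ D ν ∧
      (ε * η) ^ 2 / (2 * C) ≤ ∑ s ∈ D', |co e (T ν (e i)) s| ∧
      ∑ u ∈ I, ∑ s ∈ D', |co e (T ν (e u)) s| ≤ κ := by
    by_contra hcon
    have h1 : ∀ i ∈ J, ∀ᶠ ν in (𝒱 : Filter ι), ¬ ∃ D', D' ⊆ D ν ∧
        (ε * η) ^ 2 / (2 * C) ≤ ∑ s ∈ D', |co e (T ν (e i)) s| ∧
        ∑ u ∈ I, ∑ s ∈ D', |co e (T ν (e u)) s| ≤ κ := by
      intro i hi
      rw [Ultrafilter.eventually_not]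
      exact fun h2 => hcon ⟨i, hi, h2⟩
    obtain ⟨ν, ⟨i, hi, h2⟩, h3⟩ := (hev.and ((Filter.eventually_all_finset J).2 h1)).exists
    exact h3 i hi h2
  obtain ⟨i, hi, hiev⟩ := hone
  classical
  let D' : ι → Finset ℕ := fun ν => if hν : ∃ D', D' ⊆ D ν ∧
      (ε * η) ^ 2 / (2 * C) ≤ ∑ s ∈ D', |co e (T ν (e i)) s| ∧
      ∑ u ∈ I, ∑ s ∈ D', |co e (T ν (e u)) s| ≤ κ then hν.choose else ∅
  refine ⟨i, hi, D', hsub D hD𝒟 D' fun ν => ?_, ?_⟩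
  · by_cases hν : ∃ D', D' ⊆ D ν ∧
      (ε * η) ^ 2 / (2 * C) ≤ ∑ s ∈ D', |co e (T ν (e i)) s| ∧
      ∑ u ∈ I, ∑ s ∈ D', |co e (T ν (e u)) s| ≤ κ
    · have h1 : D' ν = hν.choose := dif_pos hν
      rw [h1]
      exact hν.choose_spec.1
    · have h1 : D' ν = ∅ := dif_neg hν
      rw [h1]
      exact Finset.empty_subset _
  · filter_upwards [hiev] with ν hν
    have h1 : D' ν = hν.choose := dif_pos hν
    rw [h1]
    exact hν.choose_spec.2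

end Pool.Agent.Comb7f333f.TPart
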