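import Pool.Agent.Lib.MP_7f333f_an.Tame.Api

set_option autoImplicit false

/-!
Module Pieces: when many signed averages of the basis vectors of `J` have large images on one set
`D` of the family, many of the basis vectors have large images on disjoint parts of `D`.
-/

namespace Pool.Agent.Comb7f333f.TPart

open Filter Topology

/-- The second moment of the signed sums over the subsets. -/
theorem pieces_second_moment (J : Finset ℕ) (z : ℕ → ℝ) :
    ∑ S ∈ J.powerset, (∑ i ∈ J, sg S i * z i) ^ 2 = 2 ^ J.card * ∑ i ∈ J, z i ^ 2 := by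
  classical
  induction J using Finset.induction_on with
  | empty => simp
  | insert a J ha ih =>
    rw [Finset.sum_powerset_insert ha, ← Finset.sum_add_distrib]
    have h1 : ∀ S ∈ J.powerset, (∑ i ∈ insert a J, sg S i * z i) ^ 2 +
        (∑ i ∈ insert a J, sg (insert a S) i * z i) ^ 2 =
        2 * z a ^ 2 + 2 * (∑ i ∈ J, sg S i * z i) ^ 2 := by
      intro S hS
      have hS' : S ⊆ J := Finset.mem_powerset.mp hS
      have haS : a ∉ S := fun h => ha (hS' h)
      rw [Finset.sum_insert ha, Finset.sum_insert ha]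
      have e1 : sg S a = -1 := by simp [sg, haS]
      have e2 : sg (insert a S) a = 1 := by simp [sg]
      have e3 : ∑ i ∈ J, sg (insert a S) i * z i = ∑ i ∈ J, sg S i * z i := by
        refine Finset.sum_congr rfl fun i hi => ?_
        have hia : i ≠ a := fun h => ha (h ▸ hi)
        simp [sg, hia]
      rw [e1, e2, e3]
      ring
    have h2 : ∑ S ∈ J.powerset, 2 * (∑ i ∈ J, sg S i * z i) ^ 2 =
        2 * (2 ^ J.card * ∑ i ∈ J, z i ^ 2) := by
      rw [← Finset.mul_sum, ih]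
    rw [Finset.sum_congr rfl h1, Finset.sum_add_distrib, h2, Finset.sum_const,
      Finset.card_powerset, Finset.sum_insert ha, Finset.card_insert_of_notMem ha, nsmul_eq_mul]
    push_cast
    ring

variable {𝓕 : Set (Finset ℕ)} {X : Type*} [NormedAddCommGroup X] [NormedSpace ℝ X] {e : ℕ → X}
  (hR : IsRegular 𝓕) (hX : IsCombSpace 𝓕 e)

private theorem co_av (T : X →L[ℝ] X) (J S : Finset ℕ) (s : ℕ) :
    co e (T (av e J S)) s = (1 / (J.card : ℝ)) * ∑ i ∈ J, sg S i * co e (T (e i)) s := by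
  unfold av
  rw [map_smul, co_smul, map_sum, co_sum]
  congr 1
  refine Finset.sum_congr rfl fun i _ => ?_
  rw [map_smul, co_smul]

private theorem mass_le (hR : IsRegular 𝓕) (hX : IsCombSpace 𝓕 e) (C : ℝ) (hC : 1 ≤ C)
    (T : X →L[ℝ] X) (hT : ∀ x, ‖T x‖ ≤ C * ‖x‖) (D : Finset ℕ) (hD : D ∈ 𝓕) (i : ℕ) :
    ∑ s ∈ D, |co e (T (e i)) s| ≤ C := by
  have h1 := SB_co hR hX (T (e i)) D hD
  have h2 := hT (e i)
  have h3 := norm_e_le hR hX i
  nlinarith

include hR hX

/-- The second moment: for most of the subsets `S` of `J` the signed sums are large, so that the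
maximal function is large. -/
theorem sum_sup_ge (C : ℝ) (hC : 1 ≤ C) (T : X →L[ℝ] X) (hT : ∀ x, ‖T x‖ ≤ C * ‖x‖) (ε η : ℝ)
    (hε : 0 < ε) (hη : 0 < η) (J : Finset ℕ) (hJ : J.Nonempty) (D : Finset ℕ) (hD : D ∈ 𝓕)
    (bad : Finset (Finset ℕ)) (hbad : bad ⊆ J.powerset)
    (hcard : η * 2 ^ J.card ≤ (bad.card : ℝ))
    (h : ∀ S ∈ bad, ε ≤ ∑ s ∈ D, |co e (T (av e J S)) s|) :
    (ε * η) ^ 2 * J.card / C ≤ ∑ s ∈ D, J.sup' hJ (fun i => |co e (T (e i)) s|) := by
  classical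
  set m : ℝ := (J.card : ℝ) with hm
  have hm0 : 0 < m := by
    rw [hm]
    exact_mod_cast Finset.card_pos.mpr hJ
  set z : ℕ → ℕ → ℝ := fun i s => co e (T (e i)) s with hz
  set M : ℕ → ℝ := fun s => J.sup' hJ (fun i => |co e (T (e i)) s|) with hM
  have hMle : ∀ s, ∀ i ∈ J, |z i s| ≤ M s := fun s i hi =>
    Finset.le_sup' (fun i => |co e (T (e i)) s|) hi
  have hM0 : ∀ s, 0 ≤ M s := by
    intro s
    obtain ⟨i, hi⟩ := hJ
    exact (abs_nonneg _).trans (hMle s i hi)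
  set L : ℕ → ℝ := fun s => ∑ i ∈ J, |z i s| with hL
  have hL0 : ∀ s, 0 ≤ L s := fun s => Finset.sum_nonneg fun i _ => abs_nonneg _
  -- the signed sums
  set X' : Finset ℕ → ℕ → ℝ := fun S s => ∑ i ∈ J, sg S i * z i s with hX'
  have hpt : ∀ s, ∑ S ∈ J.powerset, |X' S s| ≤ 2 ^ J.card * Real.sqrt (M s * L s) := by
    intro s
    have h1 : (∑ S ∈ J.powerset, |X' S s|) ^ 2 ≤
        (J.powerset.card : ℝ) * ∑ S ∈ J.powerset, |X' S s| ^ 2 :=
      sq_sum_le_card_mul_sum_sq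
    have h2 : ∑ S ∈ J.powerset, |X' S s| ^ 2 = 2 ^ J.card * ∑ i ∈ J, z i s ^ 2 := by
      rw [← pieces_second_moment J (fun i => z i s)]
      exact Finset.sum_congr rfl fun S _ => sq_abs _
    have h3 : ∑ i ∈ J, z i s ^ 2 ≤ M s * L s := by
      rw [hL, Finset.mul_sum]
      refine Finset.sum_le_sum fun i hi => ?_
      rw [← sq_abs, sq]
      exact mul_le_mul_of_nonneg_right (hMle s i hi) (abs_nonneg _)
    have h4 : (∑ S ∈ J.powerset, |X' S s|) ^ 2 ≤
        (2 ^ J.card * Real.sqrt (M s * L s)) ^ 2 := by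
      rw [mul_pow, Real.sq_sqrt (mul_nonneg (hM0 s) (hL0 s))]
      refine h1.trans ?_
      rw [h2, Finset.card_powerset]
      push_cast
      have h5 : (2 : ℝ) ^ J.card * (2 ^ J.card * ∑ i ∈ J, z i s ^ 2) =
          (2 ^ J.card) ^ 2 * ∑ i ∈ J, z i s ^ 2 := by ring
      rw [h5]
      exact mul_le_mul_of_nonneg_left h3 (by positivity)
    exact le_of_sq_le_sq h4 (by positivity)
  have hlow : ε * η * m ≤ ∑ s ∈ D, Real.sqrt (M s * L s) := by
    have h1 : ε * (η * 2 ^ J.card) ≤ ∑ S ∈ bad, ∑ s ∈ D, |co e (T (av e J S)) s| := by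
      calc ε * (η * 2 ^ J.card) ≤ ε * (bad.card : ℝ) :=
            mul_le_mul_of_nonneg_left hcard hε.le
        _ = ∑ S ∈ bad, ε := by
            rw [Finset.sum_const, nsmul_eq_mul]
            ring
        _ ≤ _ := Finset.sum_le_sum h
    have h2 : ∑ S ∈ bad, ∑ s ∈ D, |co e (T (av e J S)) s| ≤
        ∑ S ∈ J.powerset, ∑ s ∈ D, |co e (T (av e J S)) s| :=
      Finset.sum_le_sum_of_subset_of_nonneg hbad fun S _ _ =>
        Finset.sum_nonneg fun s _ => abs_nonneg _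
    have h3 : ∑ S ∈ J.powerset, ∑ s ∈ D, |co e (T (av e J S)) s| =
        (1 / m) * ∑ s ∈ D, ∑ S ∈ J.powerset, |X' S s| := by
      rw [Finset.sum_comm, Finset.mul_sum]
      refine Finset.sum_congr rfl fun s _ => ?_
      rw [Finset.mul_sum]
      refine Finset.sum_congr rfl fun S _ => ?_
      rw [co_av, abs_mul, abs_of_nonneg (by positivity : (0 : ℝ) ≤ 1 / (J.card : ℝ))]
    have h4 : ∑ s ∈ D, ∑ S ∈ J.powerset, |X' S s| ≤
        2 ^ J.card * ∑ s ∈ D, Real.sqrt (M s * L s) := by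
      rw [Finset.mul_sum]
      exact Finset.sum_le_sum fun s _ => hpt s
    have h5 : ε * (η * 2 ^ J.card) ≤
        (1 / m) * (2 ^ J.card * ∑ s ∈ D, Real.sqrt (M s * L s)) := by
      refine h1.trans (h2.trans ?_)
      rw [h3]
      exact mul_le_mul_of_nonneg_left h4 (by positivity)
    have h6 : (0 : ℝ) < 2 ^ J.card := by positivity
    have h7 : (1 / m) * (2 ^ J.card * ∑ s ∈ D, Real.sqrt (M s * L s)) =
        2 ^ J.card * ((∑ s ∈ D, Real.sqrt (M s * L s)) / m) := by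
      field_simp
    have h8 : ε * (η * 2 ^ J.card) = 2 ^ J.card * (ε * η) := by ring
    rw [h7, h8] at h5
    have h9 := le_of_mul_le_mul_left h5 h6
    rwa [le_div_iff₀ hm0] at h9
  have hCS : (∑ s ∈ D, Real.sqrt (M s * L s)) ^ 2 ≤ (∑ s ∈ D, M s) * ∑ s ∈ D, L s :=
    Finset.sum_sq_le_sum_mul_sum_of_sq_le_mul D (fun s _ => hM0 s) (fun s _ => hL0 s)
      (fun s _ => (Real.sq_sqrt (mul_nonneg (hM0 s) (hL0 s))).le)
  have hLm : ∑ s ∈ D, L s ≤ m * C := by
    rw [hL, Finset.sum_comm]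
    calc ∑ i ∈ J, ∑ s ∈ D, |z i s| ≤ ∑ i ∈ J, C :=
          Finset.sum_le_sum fun i _ => mass_le hR hX C hC T hT D hD i
      _ = m * C := by rw [Finset.sum_const, nsmul_eq_mul]
  have hS0 : 0 ≤ ∑ s ∈ D, M s := Finset.sum_nonneg fun s _ => hM0 s
  have hfin : (ε * η * m) ^ 2 ≤ (∑ s ∈ D, M s) * (m * C) :=
    (pow_le_pow_left₀ (by positivity) hlow 2).trans
      (hCS.trans (mul_le_mul_of_nonneg_left hLm hS0))
  have hC0 : 0 < C := by linarith
  rw [div_le_iff₀ hC0]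
  have h1 : m * ((ε * η) ^ 2 * m) ≤ m * ((∑ s ∈ D, M s) * C) := by
    have e1 : m * ((ε * η) ^ 2 * m) = (ε * η * m) ^ 2 := by ring
    have e2 : m * ((∑ s ∈ D, M s) * C) = (∑ s ∈ D, M s) * (m * C) := by ring
    rw [e1, e2]
    exact hfin
  exact le_of_mul_le_mul_left h1 hm0

theorem pieces (C : ℝ) (hC : 1 ≤ C) (T : X →L[ℝ] X) (hT : ∀ x, ‖T x‖ ≤ C * ‖x‖) (ε η : ℝ)
    (hε : 0 < ε) (hη : 0 < η) (J : Finset ℕ) (hJ : J.Nonempty) (D : Finset ℕ) (hD : D ∈ 𝓕)
    (bad : Finset (Finset ℕ)) (hbad : bad ⊆ J.powerset)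
    (hcard : η * 2 ^ J.card ≤ (bad.card : ℝ))
    (h : ∀ S ∈ bad, ε ≤ ∑ s ∈ D, |co e (T (av e J S)) s|) :
    ∃ (A : Finset ℕ) (E : ℕ → Finset ℕ), A ⊆ J ∧
      (ε * η) ^ 2 / (2 * C ^ 2) * J.card ≤ (A.card : ℝ) ∧ (∀ i, E i ⊆ D) ∧
      (∀ i i', i ≠ i' → Disjoint (E i) (E i')) ∧
      ∀ i ∈ A, (ε * η) ^ 2 / (2 * C) ≤ ∑ s ∈ E i, |co e (T (e i)) s| := by
  classical
  have hsup := sum_sup_ge hR hX C hC T hT ε η hε hη J hJ D hD bad hbad hcard h
  have hC0 : 0 < C := by linarith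
  have hex : ∀ s, ∃ i, i ∈ J ∧ J.sup' hJ (fun i => |co e (T (e i)) s|) =
      |co e (T (e i)) s| := by
    intro s
    obtain ⟨i, hi, hi'⟩ := Finset.exists_mem_eq_sup' hJ (fun i => |co e (T (e i)) s|)
    exact ⟨i, hi, hi'⟩
  choose idx hidx hval using hex
  set E : ℕ → Finset ℕ := fun i => D.filter (fun s => idx s = i) with hE
  set c : ℝ := (ε * η) ^ 2 / (2 * C) with hc
  have hc0 : 0 ≤ c := by positivity
  set A : Finset ℕ := J.filter (fun i => c ≤ ∑ s ∈ E i, |co e (T (e i)) s|) with hA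
  have htot : ∑ s ∈ D, J.sup' hJ (fun i => |co e (T (e i)) s|) =
      ∑ i ∈ J, ∑ s ∈ E i, |co e (T (e i)) s| := by
    rw [← Finset.sum_fiberwise_of_maps_to (t := J) (g := idx) (fun s _ => hidx s)]
    refine Finset.sum_congr rfl fun i _ => ?_
    refine Finset.sum_congr rfl fun s hs => ?_
    rw [hval s, (Finset.mem_filter.mp hs).2]
  have hpiece : ∀ i, ∑ s ∈ E i, |co e (T (e i)) s| ≤ C := fun i =>
    (Finset.sum_le_sum_of_subset_of_nonneg (Finset.filter_subset _ _)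
      fun s _ _ => abs_nonneg _).trans (mass_le hR hX C hC T hT D hD i)
  have hup : ∑ i ∈ J, ∑ s ∈ E i, |co e (T (e i)) s| ≤ C * A.card + c * J.card := by
    rw [← Finset.sum_filter_add_sum_filter_not J
      (fun i => c ≤ ∑ s ∈ E i, |co e (T (e i)) s|)]
    refine add_le_add ?_ ?_
    · calc ∑ i ∈ A, ∑ s ∈ E i, |co e (T (e i)) s| ≤ ∑ i ∈ A, C :=
            Finset.sum_le_sum fun i _ => hpiece i
        _ = C * A.card := by
            rw [Finset.sum_const, nsmul_eq_mul]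
            ring
    · calc ∑ i ∈ J with ¬ c ≤ ∑ s ∈ E i, |co e (T (e i)) s|,
              ∑ s ∈ E i, |co e (T (e i)) s| ≤
            ∑ i ∈ J with ¬ c ≤ ∑ s ∈ E i, |co e (T (e i)) s|, c :=
            Finset.sum_le_sum fun i hi => (not_le.mp (Finset.mem_filter.mp hi).2).le
        _ ≤ c * J.card := by
            rw [Finset.sum_const, nsmul_eq_mul, mul_comm]
            refine mul_le_mul_of_nonneg_left ?_ hc0
            exact_mod_cast Finset.card_filter_le _ _
  refine ⟨A, E, Finset.filter_subset _ _, ?_, fun i => Finset.filter_subset _ _, ?_, ?_⟩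
  · have h1 : (ε * η) ^ 2 * J.card / C = 2 * (c * J.card) := by
      rw [hc]
      field_simp
    rw [h1, htot] at hsup
    have h2 : c * J.card ≤ C * A.card := by linarith
    have h3 : (ε * η) ^ 2 / (2 * C ^ 2) * J.card = c * J.card / C := by
      rw [hc]
      field_simp
    rw [h3, div_le_iff₀ hC0]
    linarith
  · intro i i' hii
    rw [Finset.disjoint_left]
    intro s hs hs'
    exact hii ((Finset.mem_filter.mp hs).2.symm.trans (Finset.mem_filter.mp hs').2)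
  · intro i hi
    exact (Finset.mem_filter.mp hi).2

end Pool.Agent.Comb7f333f.TPart
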