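import Pool.Agent.Lib.MP_7f333f_an.Tame.Api
import Pool.Agent.Lib.MP_7f333f_an.Tame.Sec

set_option autoImplicit false
set_option linter.unusedSectionVars false

/-!
Module Proc: the iterated ultrafilters, the admissible families, and the property `Sm`.
-/

namespace Pool.Agent.Comb7f333f.TPart

open Filter Topology

theorem eventually_pr_zero {p : List ℕ → Prop} :
    (∀ᶠ ν in (pr 0 : Filter (List ℕ)), p ν) ↔ ∀ᶠ n in (𝒰 : Filter ℕ), p [n] := by
  rw [pr, Ultrafilter.coe_map, Filter.eventually_map]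

theorem eventually_pr_succ {j : ℕ} {p : List ℕ → Prop} :
    (∀ᶠ ν in (pr (j + 1) : Filter (List ℕ)), p ν) ↔
      ∀ᶠ n in (𝒰 : Filter ℕ), ∀ᶠ ν in (pr j : Filter (List ℕ)), p (n :: ν) := by
  have h1 : ((pr (j + 1) : Ultrafilter (List ℕ)) : Filter (List ℕ)) =
      Filter.bind (𝒰 : Filter ℕ) (fun n => Filter.map (List.cons n) (pr j : Filter (List ℕ))) := rfl
  rw [h1, Filter.eventually_bind]
  simp only [Filter.eventually_map]

section Comb

variable {𝓕 : Set (Finset ℕ)} (hR : IsRegular 𝓕)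

include hR

theorem PD_empty (j : ℕ) : (fun _ => ∅) ∈ PD 𝓕 j := by
  induction j with
  | zero =>
    refine ⟨0, Eventually.of_forall fun n => Sc_empty hR 0, fun L =>
      Eventually.of_forall fun n s hs => ?_⟩
    exact absurd hs (Finset.notMem_empty s)
  | succ j ih =>
    exact Eventually.of_forall fun n => ih

theorem PD_subset (j : ℕ) {D D' : List ℕ → Finset ℕ} (hD : D ∈ PD 𝓕 j)
    (h : ∀ ν, D' ν ⊆ D ν) : D' ∈ PD 𝓕 j := by
  induction j generalizing D D' with
  | zero =>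
    obtain ⟨q, hq, hL⟩ := hD
    exact ⟨q, hq.mono fun n hn => Sc_subset hR hn (h _),
      fun L => (hL L).mono fun n hn s hs => hn s (h _ hs)⟩
  | succ j ih =>
    exact Eventually.mono hD fun n hn => ih hn (fun ν => h (n :: ν))

theorem PD_union (sc : Scale 𝓕) (j : ℕ) {D D' : List ℕ → Finset ℕ} (hD : D ∈ PD 𝓕 j)
    (hD' : D' ∈ PD 𝓕 j) : (fun ν => D ν ∪ D' ν) ∈ PD 𝓕 j := by
  induction j generalizing D D' with
  | zero =>
    obtain ⟨q, hq, hL⟩ := hD
    obtain ⟨q', hq', hL'⟩ := hD'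
    refine ⟨sc.X 2 (max q q'), ?_, fun L => ?_⟩
    · filter_upwards [hq, hq', hL (sc.X 2 (max q q')), hL' (sc.X 2 (max q q'))]
        with n h1 h2 h3 h4
      have h5 := Scale.un' hR sc 2 (max q q') (Finset.univ : Finset Bool) (by simp)
        (fun b => bif b then D [n] else D' [n]) (by
          intro b _
          cases b
          · exact ⟨q', le_max_right _ _, h2⟩
          · exact ⟨q, le_max_left _ _, h1⟩) (by
          intro b _ s hs
          cases b
          · exact h4 s hs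
          · exact h3 s hs)
      have h6 : (Finset.univ : Finset Bool).biUnion (fun b => bif b then D [n] else D' [n]) =
          D [n] ∪ D' [n] := by
        ext s
        simp
      rw [h6] at h5
      exact h5
    · filter_upwards [hL L, hL' L] with n h1 h2 s hs
      rcases Finset.mem_union.1 hs with h | h
      · exact h1 s h
      · exact h2 s h
  | succ j ih =>
    exact Eventually.mp hD (Eventually.mono hD' fun n h2 h1 => ih h1 h2)

theorem PD_mem (j : ℕ) {D : List ℕ → Finset ℕ} (hD : D ∈ PD 𝓕 j) :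
    ∀ᶠ ν in (pr j : Filter (List ℕ)), D ν ∈ 𝓕 := by
  induction j generalizing D with
  | zero =>
    obtain ⟨q, hq, -⟩ := hD
    rw [eventually_pr_zero]
    exact hq.mono fun n hn => Sc_mem hR hn
  | succ j ih =>
    rw [eventually_pr_succ]
    exact Eventually.mono hD fun n hn => ih hn

end Comb

section Group

variable {𝓕 : Set (Finset ℕ)} {X : Type*} [NormedAddCommGroup X] [NormedSpace ℝ X] {e : ℕ → X}
  (hR : IsRegular 𝓕) (hX : IsCombSpace 𝓕 e) {G : Type*} [Group G] (A : G →* (X →L[ℝ] X))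
  (γ : ℕ → G)

include hR hX

/-- The vector is moved by most of the elements of the sequence to a vector with the property of
the previous order. -/
theorem Sm_step (j : ℕ) (ε : ℝ) (y : X) (h : Sm 𝓕 e A γ ε (j + 1) y) :
    ∀ᶠ n in (𝒰 : Filter ℕ), Sm 𝓕 e A γ ε j (A (γ n) y) := by
  classical
  by_contra hcon
  have hcon' : ∀ᶠ n in (𝒰 : Filter ℕ), ¬ Sm 𝓕 e A γ ε j (A (γ n) y) :=
    Ultrafilter.eventually_not.2 hcon
  have hch : ∀ n, ∃ D : List ℕ → Finset ℕ, D ∈ PD 𝓕 j ∧ (¬ Sm 𝓕 e A γ ε j (A (γ n) y) →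
      ¬ ∀ᶠ ν in (pr j : Filter (List ℕ)),
        ∑ s ∈ D ν, |co e (A (op γ ν) (A (γ n) y)) s| ≤ ε) := by
    intro n
    by_cases hn : Sm 𝓕 e A γ ε j (A (γ n) y)
    · exact ⟨fun _ => ∅, PD_empty hR j, fun h' => absurd hn h'⟩
    · have hn' := hn
      unfold Sm at hn'
      push Not at hn'
      obtain ⟨D, hD1, hD2⟩ := hn'
      refine ⟨D, hD1, fun _ hev => ?_⟩
      obtain ⟨ν, h1, h2⟩ := (hev.and hD2).exists
      exact absurd h1 (not_le.2 h2)
  choose Dn hD1 hD2 using hch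
  have hmem : (fun ν : List ℕ => match ν with
      | [] => ∅
      | n :: ν => Dn n ν) ∈ PD 𝓕 (j + 1) :=
    Eventually.of_forall fun n => hD1 n
  have h1 := h _ hmem
  rw [eventually_pr_succ] at h1
  obtain ⟨n, hn1, hn2⟩ := (h1.and hcon').exists
  refine hD2 n hn2 (hn1.mono fun ν hν => ?_)
  have e1 : A (op γ (n :: ν)) y = A (op γ ν) (A (γ n) y) := by
    show A (op γ ν * γ n) y = _
    rw [map_mul]
    rfl
  rw [e1] at hν
  exact hν

theorem Sm_zero_use (hnull : ∀ x k, Tendsto (fun n => co e (A (γ n) x) k) atTop (𝓝 0)) (ε : ℝ)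
    (hε : 0 < ε) (y : X) (h : Sm 𝓕 e A γ ε 0 y) (q : ℕ) :
    ∀ᶠ n in (𝒰 : Filter ℕ), ∀ E ∈ Sc 𝓕 q, ∑ s ∈ E, |co e (A (γ n) y) s| ≤ 2 * ε := by
  classical
  by_contra hcon
  have hcon' : ∀ᶠ n in (𝒰 : Filter ℕ),
      ¬ ∀ E ∈ Sc 𝓕 q, ∑ s ∈ E, |co e (A (γ n) y) s| ≤ 2 * ε :=
    Ultrafilter.eventually_not.2 hcon
  have hch : ∀ n, ∃ E : Finset ℕ, E ∈ Sc 𝓕 q ∧
      ((¬ ∀ E ∈ Sc 𝓕 q, ∑ s ∈ E, |co e (A (γ n) y) s| ≤ 2 * ε) →
        2 * ε < ∑ s ∈ E, |co e (A (γ n) y) s|) := by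
    intro n
    by_cases hn : ∀ E ∈ Sc 𝓕 q, ∑ s ∈ E, |co e (A (γ n) y) s| ≤ 2 * ε
    · exact ⟨∅, Sc_empty hR q, fun h' => absurd hn h'⟩
    · have hn' := hn
      push Not at hn'
      obtain ⟨E, hE1, hE2⟩ := hn'
      exact ⟨E, hE1, fun _ => hE2⟩
  choose En hE1 hE2 using hch
  -- the initial segments on which the sums are small
  let Lf : ℕ → ℕ := fun n =>
    Nat.findGreatest (fun L => ∑ s ∈ Finset.range L, |co e (A (γ n) y) s| ≤ ε) n
  have hLf : ∀ n, ∑ s ∈ Finset.range (Lf n), |co e (A (γ n) y) s| ≤ ε := by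
    intro n
    have h0 : ∑ s ∈ Finset.range 0, |co e (A (γ n) y) s| ≤ ε := by
      rw [Finset.range_zero, Finset.sum_empty]
      exact hε.le
    exact Nat.findGreatest_spec
      (P := fun L => ∑ s ∈ Finset.range L, |co e (A (γ n) y) s| ≤ ε) (Nat.zero_le n) h0
  have hLinf : ∀ L : ℕ, ∀ᶠ n in (𝒰 : Filter ℕ), L ≤ Lf n := by
    intro L
    have h1 : Tendsto (fun n => ∑ s ∈ Finset.range L, |co e (A (γ n) y) s|) atTop (𝓝 0) := by
      have h2 := tendsto_finsetSum (Finset.range L)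
        (fun s _ => ((hnull y s).abs : Tendsto (fun n => |co e (A (γ n) y) s|) atTop (𝓝 |0|)))
      simpa using h2
    have h3 : ∀ᶠ n in atTop, L ≤ Lf n := by
      filter_upwards [h1.eventually_le_const hε, eventually_ge_atTop L] with n h4 h5
      exact Nat.le_findGreatest h5 h4
    exact h3.filter_mono Nat.hyperfilter_le_atTop
  have hmem : (fun ν : List ℕ => (En (ν.headD 0)).filter (fun s => Lf (ν.headD 0) ≤ s)) ∈
      PD 𝓕 0 := by
    refine ⟨q, Eventually.of_forall fun n => Sc_subset hR (hE1 n) (Finset.filter_subset _ _),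
      fun L => (hLinf (L + 1)).mono fun n hn s hs => ?_⟩
    have h1 : Lf n ≤ s := (Finset.mem_filter.1 hs).2
    omega
  have h1 := h _ hmem
  rw [eventually_pr_zero] at h1
  obtain ⟨n, hn1, hn2⟩ := (h1.and hcon').exists
  have h2 := hE2 n hn2
  have e1 : A (op γ [n]) y = A (γ n) y := by
    show A (1 * γ n) y = _
    rw [one_mul]
  rw [e1] at hn1
  have hn3 : ∑ s ∈ (En n).filter (fun s => Lf n ≤ s), |co e (A (γ n) y) s| ≤ ε := hn1
  have h3 := Finset.sum_filter_add_sum_filter_not (En n) (fun s => Lf n ≤ s)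
    (fun s => |co e (A (γ n) y) s|)
  have h4 : ∑ s ∈ (En n).filter (fun s => ¬ Lf n ≤ s), |co e (A (γ n) y) s| ≤
      ∑ s ∈ Finset.range (Lf n), |co e (A (γ n) y) s| := by
    refine Finset.sum_le_sum_of_subset_of_nonneg (fun s hs => ?_) (fun s _ _ => abs_nonneg _)
    rw [Finset.mem_range]
    exact not_le.1 (Finset.mem_filter.1 hs).2
  have h5 := hLf n
  linarith

/-- The zero vector. -/
theorem Sm_zero_vec (j : ℕ) (ε : ℝ) (hε : 0 < ε) : Sm 𝓕 e A γ ε j 0 := by
  intro D _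
  refine Eventually.of_forall fun ν => ?_
  refine le_trans (le_of_eq ?_) hε.le
  refine Finset.sum_eq_zero fun s _ => ?_
  rw [map_zero]
  simp [co]

end Group

end Pool.Agent.Comb7f333f.TPart
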