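import Pool.Agent.Lib.MP_7f333f_an.Tame.Defs
import Mathlib.SetTheory.Ordinal.Basic

set_option autoImplicit false

/-!
The Schreier families of the countable orders.
-/

namespace Pool.Agent.Comb7f333f.TPart

/-- The unions of `n` successive sets of the family (some of which may be empty). -/
def sq (𝓕 : Set (Finset ℕ)) : ℕ → Set (Finset ℕ)
  | 0 => {∅}
  | n + 1 => {F | ∃ F₁ ∈ 𝓕, ∃ F₂ ∈ sq 𝓕 n, (∀ s ∈ F₁, ∀ t ∈ F₂, s < t) ∧ F = F₁ ∪ F₂}

/-- The first Schreier family (the integer `k` of `ℕ = {0, 1, ...}` stands for `k + 1`). -/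
def sch1 : Set (Finset ℕ) := {F | ∀ k ∈ F, F.card ≤ k + 1}

/-- The unions of `n` successive sets of the family, `n ≤ min F` (`min F + 1` in `{0, 1, ...}`). -/
def nxt (𝓕 : Set (Finset ℕ)) : Set (Finset ℕ) := {F | ∃ n, (∀ k ∈ F, n ≤ k + 1) ∧ F ∈ sq 𝓕 n}

/-- The sets which belong to one of the families `𝓖 n`, `n ≤ min F`. -/
def limF (𝓖 : ℕ → Set (Finset ℕ)) : Set (Finset ℕ) := {F | ∃ n, (∀ k ∈ F, n ≤ k) ∧ F ∈ 𝓖 n}

/-- `SchreierFam α 𝓕`: the family `𝓕` is a Schreier family of order `α`. At the limit ordinals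
the family is defined by any increasing sequence of smaller ordinals such that the families are
nested in the sense `𝓢_{α n + 1} ⊆ 𝓢_{α (n + 1)}`. -/
inductive SchreierFam : Ordinal.{0} → Set (Finset ℕ) → Prop
  | one : SchreierFam 1 sch1
  | succ (α : Ordinal.{0}) (𝓕 : Set (Finset ℕ)) : SchreierFam α 𝓕 → SchreierFam (α + 1) (nxt 𝓕)
  | limit (α : ℕ → Ordinal.{0}) (𝓖 : ℕ → Set (Finset ℕ)) : StrictMono α →
      (∀ n, SchreierFam (α n) (𝓖 n)) → (∀ n, nxt (𝓖 n) ⊆ 𝓖 (n + 1)) →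
      SchreierFam (⨆ n, α n) (limF 𝓖)

/-- The unions of `n` sets of the family are unions of `8 n` successive sets of the family. -/
def Cov (𝓕 : Set (Finset ℕ)) : Prop :=
  ∀ (n : ℕ) (A : Fin n → Finset ℕ), (∀ i, A i ∈ 𝓕) → Finset.univ.biUnion A ∈ sq 𝓕 (8 * n)

/-- The properties which are proved by induction. -/
structure Nice (𝓕 : Set (Finset ℕ)) : Prop where
  reg : IsRegular 𝓕
  cov : Cov 𝓕
  sch : sch1 ⊆ 𝓕

end Pool.Agent.Comb7f333f.TPart
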