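import Pool.Agent.Lib.MP_7f333f_an.Tame.SchReg
import Mathlib.SetTheory.Cardinal.Regular

set_option autoImplicit false

/-!
Module SchEx: existence of Schreier families of all the countable orders.
-/

namespace Pool.Agent.Comb7f333f.TPart

/-- The ordinals below a countable ordinal are countable. -/
theorem SchEx_countable {α : Ordinal.{0}} (hα : α < Ordinal.omega 1) :
    Countable (Set.Iio α) := by
  have h1 : α.card < Cardinal.aleph 1 := Cardinal.lt_omega_iff_card_lt.1 hα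
  rw [← Cardinal.succ_aleph0, Order.lt_succ_iff] at h1
  rw [← Cardinal.mk_le_aleph0_iff, Cardinal.mk_Iio_ordinal, Cardinal.lift_le_aleph0]
  exact h1

/-- A countable limit ordinal is the limit of a sequence. -/
theorem SchEx_seq {α : Ordinal.{0}} (hα : α < Ordinal.omega 1) (hl : Order.IsSuccLimit α)
    {β : Ordinal.{0}} (hβ : β < α) :
    ∃ a : ℕ → Ordinal.{0}, StrictMono a ∧ (∀ n, a n < α) ∧ β < a 0 ∧ ⨆ n, a n = α := by
  have : Countable (Set.Iio α) := SchEx_countable hα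
  have : Nonempty (Set.Iio α) := ⟨⟨β, hβ⟩⟩
  obtain ⟨e, he⟩ := exists_surjective_nat (Set.Iio α)
  let a : ℕ → Ordinal.{0} := fun n =>
    Nat.rec (Order.succ (max β (e 0 : Ordinal.{0})))
      (fun n x => Order.succ (max x (e (n + 1) : Ordinal.{0}))) n
  have ha0 : a 0 = Order.succ (max β (e 0 : Ordinal.{0})) := rfl
  have has : ∀ n, a (n + 1) = Order.succ (max (a n) (e (n + 1) : Ordinal.{0})) := fun n => rfl
  have hmono : StrictMono a := strictMono_nat_of_lt_succ fun n => by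
    rw [has]
    exact lt_of_le_of_lt (le_max_left _ _) (Order.lt_succ _)
  have hlt : ∀ n, a n < α := by
    intro n
    induction n with
    | zero =>
      rw [ha0]
      exact hl.succ_lt (max_lt hβ (e 0).2)
    | succ n ih =>
      rw [has]
      exact hl.succ_lt (max_lt ih (e (n + 1)).2)
  have hge : ∀ n, (e n : Ordinal.{0}) < a n := by
    intro n
    rcases n with _ | n
    · rw [ha0]
      exact lt_of_le_of_lt (le_max_right _ _) (Order.lt_succ _)
    · rw [has]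
      exact lt_of_le_of_lt (le_max_right _ _) (Order.lt_succ _)
  refine ⟨a, hmono, hlt, ?_, le_antisymm ?_ ?_⟩
  · rw [ha0]
    exact lt_of_le_of_lt (le_max_left _ _) (Order.lt_succ _)
  · exact ciSup_le' fun n => (hlt n).le
  · refine le_of_forall_lt fun c hc => ?_
    obtain ⟨n, hn⟩ := he ⟨c, hc⟩
    have h1 : c < a n := by
      have := hge n
      rw [hn] at this
      exact this
    exact h1.trans_le (Ordinal.le_iSup a n)

/-- Stronger: above every Schreier family of a smaller order. -/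
theorem exists_above (α : Ordinal.{0}) (hα : α < Ordinal.omega 1) (β : Ordinal.{0}) (hβ : β < α)
    (𝓕 : Set (Finset ℕ)) (h : SchreierFam β 𝓕) : ∃ 𝓖, SchreierFam α 𝓖 ∧ nxt 𝓕 ⊆ 𝓖 := by
  induction α using WellFoundedLT.induction generalizing β 𝓕 with
  | ind α ih =>
    rcases Ordinal.zero_or_succ_or_isSuccLimit α with h0 | ⟨γ, rfl⟩ | hl
    · exact absurd (h0 ▸ hβ) (not_lt_bot (α := Ordinal.{0}))
    · have hγ : γ < Order.succ γ := Order.lt_succ γ
      rcases (Order.lt_succ_iff.1 hβ).eq_or_lt with rfl | hlt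
      · exact ⟨nxt 𝓕, SchreierFam.succ _ 𝓕 h, subset_rfl⟩
      · obtain ⟨𝓖, h1, h2⟩ := ih γ hγ (hγ.trans hα) β hlt 𝓕 h
        exact ⟨nxt 𝓖, SchreierFam.succ _ 𝓖 h1, h2.trans subset_nxt⟩
    · obtain ⟨a, hmono, hlt, ha0, hsup⟩ := SchEx_seq hα hl hβ
      have hstep : ∀ n (𝓖 : {𝓖 : Set (Finset ℕ) // SchreierFam (a n) 𝓖}),
          ∃ 𝓗 : {𝓗 : Set (Finset ℕ) // SchreierFam (a (n + 1)) 𝓗}, nxt 𝓖.1 ⊆ 𝓗.1 := by
        intro n 𝓖
        obtain ⟨𝓗, h1, h2⟩ := ih (a (n + 1)) (hlt _) ((hlt _).trans hα) (a n)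
          (hmono (Nat.lt_succ_self n)) 𝓖.1 𝓖.2
        exact ⟨⟨𝓗, h1⟩, h2⟩
      obtain ⟨𝓖₀, h1, h2⟩ := ih (a 0) (hlt 0) ((hlt 0).trans hα) β ha0 𝓕 h
      choose next hnext using hstep
      let 𝓖 : (n : ℕ) → {𝓖 : Set (Finset ℕ) // SchreierFam (a n) 𝓖} := fun n =>
        Nat.rec (motive := fun n => {𝓖 : Set (Finset ℕ) // SchreierFam (a n) 𝓖}) ⟨𝓖₀, h1⟩
          (fun n x => next n x) n
      have h3 : ∀ n, nxt (𝓖 n).1 ⊆ (𝓖 (n + 1)).1 := fun n => hnext n (𝓖 n)
      have h4 := SchreierFam.limit a (fun n => (𝓖 n).1) hmono (fun n => (𝓖 n).2) h3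
      rw [hsup] at h4
      exact ⟨_, h4, fun F hF => ⟨0, fun k _ => Nat.zero_le k, h2 hF⟩⟩

theorem exists_schreier (α : Ordinal.{0}) (h0 : 0 < α) (hα : α < Ordinal.omega 1) :
    ∃ 𝓕, SchreierFam α 𝓕 := by
  rcases (Order.one_le_iff_pos.2 h0).eq_or_lt with rfl | h1
  · exact ⟨sch1, SchreierFam.one⟩
  · obtain ⟨𝓖, hG, _⟩ := exists_above α hα 1 h1 sch1 SchreierFam.one
    exact ⟨𝓖, hG⟩

theorem schreier_lt {α : Ordinal.{0}} {𝓕 : Set (Finset ℕ)} (h : SchreierFam α 𝓕) :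
    0 < α ∧ α < Ordinal.omega 1 := by
  induction h with
  | one => exact ⟨one_pos, Ordinal.one_lt_omega0.trans Ordinal.omega0_lt_omega_one⟩
  | succ α 𝓕 _ ih =>
    exact ⟨ih.1.trans (Order.lt_succ α), (Cardinal.isSuccLimit_omega 1).succ_lt ih.2⟩
  | limit α 𝓖 _ _ _ ih =>
    exact ⟨(ih 0).1.trans_le (Ordinal.le_iSup α 0), Ordinal.iSup_lt_omega_one fun n => (ih n).2⟩

end Pool.Agent.Comb7f333f.TPart
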