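import Pool.Agent.Lib.MP_7f333f_an.Tame.Sq
import Pool.Agent.Lib.MP_7f333f_an.Comb

set_option autoImplicit false

/-!
Module SchReg: regularity of the families.
-/

namespace Pool.Agent.Comb7f333f.TPart

variable {𝓕 : Set (Finset ℕ)}

/-- A criterion for the regularity. -/
theorem regular_of (hh : ∀ F ∈ 𝓕, ∀ F', F' ⊆ F → F' ∈ 𝓕)
    (hs : ∀ F ∈ 𝓕, ∀ φ : ℕ → ℕ, StrictMonoOn φ F → (∀ s ∈ F, s ≤ φ s) → F.image φ ∈ 𝓕)
    (hc : ∀ I : Set ℕ, I.Infinite → ∃ F : Finset ℕ, (F : Set ℕ) ⊆ I ∧ F ∉ 𝓕)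
    (h1 : ∀ n, {n} ∈ 𝓕) : IsRegular 𝓕 where
  hereditary := hh
  singleton := h1
  spreading n l k hl hk hlk hmem := by
    classical
    have hφ : ∀ i, (fun s => if h : ∃ j, l j = s then k h.choose else s) (l i) = k i := by
      intro i
      have h : ∃ j, l j = l i := ⟨i, rfl⟩
      show (if h : ∃ j, l j = l i then k h.choose else l i) = k i
      rw [dif_pos h, hl.injective h.choose_spec]
    have h2 := hs _ hmem (fun s => if h : ∃ j, l j = s then k h.choose else s) ?_ ?_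
    · rw [Finset.image_image] at h2
      have h3 : (fun s => if h : ∃ j, l j = s then k h.choose else s) ∘ l = k := funext hφ
      rwa [h3] at h2
    · intro a ha b hb hab
      obtain ⟨i, -, rfl⟩ := Finset.mem_image.1 (Finset.mem_coe.1 ha)
      obtain ⟨j, -, rfl⟩ := Finset.mem_image.1 (Finset.mem_coe.1 hb)
      rw [hφ, hφ]
      exact hk (hl.lt_iff_lt.1 hab)
    · intro s hs'
      obtain ⟨i, -, rfl⟩ := Finset.mem_image.1 hs'
      exact (hlk i).trans_eq (hφ i).symm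
  compact := by
    classical
    have h2 : {c : ℕ → Bool | ∃ F ∈ 𝓕, ∀ n, c n = decide (n ∈ F)} =
        ⋂ (T : Finset ℕ) (_ : T ∉ 𝓕), (⋂ n ∈ T, {c : ℕ → Bool | c n = true})ᶜ := by
      ext c
      simp only [Set.mem_ofPred_eq, Set.mem_iInter, Set.mem_compl_iff]
      constructor
      · rintro ⟨F, hF, hcF⟩ T hT hall
        refine hT (hh F hF T fun n hn => ?_)
        have h3 := hcF n
        rw [hall n hn] at h3
        exact of_decide_eq_true h3.symm
      · intro hall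
        have hfin : {n | c n = true}.Finite := by
          by_contra hinf
          obtain ⟨F, hF1, hF2⟩ := hc _ hinf
          exact hall F hF2 fun n hn => hF1 (Finset.mem_coe.2 hn)
        refine ⟨hfin.toFinset, ?_, fun n => ?_⟩
        · by_contra hF
          exact hall _ hF fun n hn => (Set.Finite.mem_toFinset hfin).1 hn
        · by_cases hn : c n = true
          · simp [hn]
          · simp only [Bool.not_eq_true] at hn
            simp [hn]
    rw [h2]
    refine IsClosed.isCompact ?_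
    refine isClosed_iInter fun T => isClosed_iInter fun _ => ?_
    rw [isClosed_compl_iff]
    refine isOpen_biInter_finset fun n _ => ?_
    have hcont : Continuous fun c : ℕ → Bool => c n := continuous_apply n
    exact (isOpen_discrete ({true} : Set Bool)).preimage hcont

theorem regular_image (hR : IsRegular 𝓕) {F : Finset ℕ} (hF : F ∈ 𝓕) (φ : ℕ → ℕ)
    (hφ : StrictMonoOn φ F) (hφ' : ∀ s ∈ F, s ≤ φ s) : F.image φ ∈ 𝓕 := by
  classical
  have hinv : ∀ s ∈ F, Function.invFunOn φ F (φ s) = s := fun s hs =>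
    hφ.injOn.leftInvOn_invFunOn (Finset.mem_coe.2 hs)
  refine mem_of_inj hR hF (Function.invFunOn φ F) ?_ ?_ ?_
  · intro x hx
    obtain ⟨s, hs, rfl⟩ := Finset.mem_image.1 hx
    rw [hinv s hs]
    exact hs
  · intro x hx
    obtain ⟨s, hs, rfl⟩ := Finset.mem_image.1 hx
    rw [hinv s hs]
    exact hφ' s hs
  · intro x hx y hy hxy
    obtain ⟨s, hs, rfl⟩ := Finset.mem_image.1 (Finset.mem_coe.1 hx)
    obtain ⟨t, ht, rfl⟩ := Finset.mem_image.1 (Finset.mem_coe.1 hy)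
    rw [hinv s hs, hinv t ht] at hxy
    rw [hxy]

theorem regular_no_inf (hR : IsRegular 𝓕) (I : Set ℕ) (hI : I.Infinite) :
    ∃ F : Finset ℕ, (F : Set ℕ) ⊆ I ∧ F ∉ 𝓕 := by
  classical
  by_contra hcon
  push Not at hcon
  have hcl := hR.compact.isClosed
  have hmem : (fun n => decide (n ∈ I)) ∈
      {c : ℕ → Bool | ∃ F ∈ 𝓕, ∀ n, c n = decide (n ∈ F)} := by
    refine hcl.mem_of_tendsto (f := fun m n => decide (n ∈ (Finset.range m).filter (· ∈ I)))
      (b := Filter.atTop) ?_ (Filter.Eventually.of_forall fun m => ?_)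
    · rw [tendsto_pi_nhds]
      intro n
      refine tendsto_const_nhds.congr' ?_
      filter_upwards [Filter.eventually_gt_atTop n] with m hm
      simp [hm]
    · refine ⟨(Finset.range m).filter (· ∈ I), hcon _ fun n hn => ?_, fun n => rfl⟩
      exact (Finset.mem_filter.1 (Finset.mem_coe.1 hn)).2
  obtain ⟨F, -, hF⟩ := hmem
  refine hI (F.finite_toSet.subset fun n hn => ?_)
  have h1 := hF n
  simp only [decide_eq_decide] at h1
  exact Finset.mem_coe.2 (h1.1 hn)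

/-- A family which is contained in good families up to the least element has no infinite set with
all its finite subsets in the family. -/
private theorem schReg_no_inf {𝓖 : Set (Finset ℕ)}
    (h : ∀ m : ℕ, ∃ 𝓗 : Set (Finset ℕ), (∀ F ∈ 𝓖, m ∈ F → ∀ F' ⊆ F, F' ∈ 𝓗) ∧
      ∀ I : Set ℕ, I.Infinite → ∃ F : Finset ℕ, (F : Set ℕ) ⊆ I ∧ F ∉ 𝓗)
    (I : Set ℕ) (hI : I.Infinite) : ∃ F : Finset ℕ, (F : Set ℕ) ⊆ I ∧ F ∉ 𝓖 := by
  obtain ⟨m, hm⟩ := hI.nonempty
  obtain ⟨𝓗, h1, h2⟩ := h m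
  obtain ⟨F, hF1, hF2⟩ := h2 I hI
  refine ⟨insert m F, ?_, fun h3 => hF2 (h1 _ h3 (Finset.mem_insert_self m F) F
    (Finset.subset_insert m F))⟩
  rw [Finset.coe_insert]
  exact Set.insert_subset hm hF1

theorem sch1_regular : IsRegular sch1 := by
  classical
  refine regular_of ?_ ?_ ?_ ?_
  · intro F hF F' hF' k hk
    exact (Finset.card_le_card hF').trans (hF k (hF' hk))
  · intro F hF φ _ hφ' x hx
    obtain ⟨s, hs, rfl⟩ := Finset.mem_image.1 hx
    have h1 := hF s hs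
    have h2 := hφ' s hs
    have h3 : (F.image φ).card ≤ F.card := Finset.card_image_le
    omega
  · refine schReg_no_inf fun m => ⟨{F | F.card ≤ m + 1}, fun F hF hm F' hF' =>
      (Finset.card_le_card hF').trans (hF m hm), fun I hI => ?_⟩
    obtain ⟨T, hT1, hT2⟩ := hI.exists_subset_card_eq (m + 2)
    refine ⟨T, hT1, fun h => ?_⟩
    have h' : T.card ≤ m + 1 := h
    omega
  · intro n k _
    rw [Finset.card_singleton]
    omega

theorem nxt_regular (hR : IsRegular 𝓕) : IsRegular (nxt 𝓕) := by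
  have h0 : (∅ : Finset ℕ) ∈ 𝓕 := hR.hereditary _ (hR.singleton 0) _ (Finset.empty_subset _)
  refine regular_of ?_ ?_ ?_ ?_
  · rintro F ⟨n, hn, hF⟩ F' hF'
    exact ⟨n, fun k hk => hn k (hF' hk), sq_subset hR.hereditary n hF hF'⟩
  · rintro F ⟨n, hn, hF⟩ φ hφ hφ'
    refine ⟨n, fun k hk => ?_, sq_image (fun F hF φ hφ hφ' => regular_image hR hF φ hφ hφ')
      n hF φ hφ hφ'⟩
    obtain ⟨s, hs, rfl⟩ := Finset.mem_image.1 hk
    have h1 := hn s hs
    have h2 := hφ' s hs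
    omega
  · refine schReg_no_inf fun m => ⟨sq 𝓕 (m + 1), ?_, fun I hI =>
      sq_no_inf hR.hereditary (regular_no_inf hR) (m + 1) I hI⟩
    rintro F ⟨n, hn, hF⟩ hm F' hF'
    exact sq_subset hR.hereditary _ (sq_le hR.hereditary h0 (hn m hm) hF) hF'
  · intro n
    refine ⟨1, fun k _ => by omega, sq_one (hR.singleton n)⟩

theorem subset_nxt : 𝓕 ⊆ nxt 𝓕 := fun _ hF => ⟨1, fun _ _ => by omega, sq_one hF⟩

theorem nxt_mono {𝓖 : Set (Finset ℕ)} (h : 𝓕 ⊆ 𝓖) : nxt 𝓕 ⊆ nxt 𝓖 := by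
  rintro F ⟨n, hn, hF⟩
  exact ⟨n, hn, sq_mono h n hF⟩

theorem limF_regular {𝓖 : ℕ → Set (Finset ℕ)} (hR : ∀ n, IsRegular (𝓖 n))
    (hmono : ∀ n, 𝓖 n ⊆ 𝓖 (n + 1)) : IsRegular (limF 𝓖) := by
  have hmono' : ∀ {m n : ℕ}, m ≤ n → 𝓖 m ⊆ 𝓖 n := fun h => monotone_nat_of_le_succ hmono h
  refine regular_of ?_ ?_ ?_ ?_
  · rintro F ⟨n, hn, hF⟩ F' hF'
    exact ⟨n, fun k hk => hn k (hF' hk), (hR n).hereditary F hF F' hF'⟩
  · rintro F ⟨n, hn, hF⟩ φ hφ hφ'
    refine ⟨n, fun k hk => ?_, regular_image (hR n) hF φ hφ hφ'⟩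
    obtain ⟨s, hs, rfl⟩ := Finset.mem_image.1 hk
    exact (hn s hs).trans (hφ' s hs)
  · refine schReg_no_inf fun m => ⟨𝓖 m, ?_, fun I hI => regular_no_inf (hR m) I hI⟩
    rintro F ⟨n, hn, hF⟩ hm F' hF'
    exact (hR m).hereditary F (hmono' (hn m hm) hF) F' hF'
  · intro n
    exact ⟨0, fun k _ => Nat.zero_le k, (hR 0).singleton n⟩

end Pool.Agent.Comb7f333f.TPart
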