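import Pool.Agent.Lib.MP_7f333f_an.Tame.Proc

set_option autoImplicit false

/-!
Module Sel: the choice of `M` elements of the sequence.
-/

namespace Pool.Agent.Comb7f333f.TPart

open Filter Topology

variable {𝓕 : Set (Finset ℕ)} {X : Type*} [NormedAddCommGroup X] [NormedSpace ℝ X] {e : ℕ → X}
  (hR : IsRegular 𝓕) (hX : IsCombSpace 𝓕 e) {G : Type*} [Group G] (A : G →* (X →L[ℝ] X))
  (C : ℝ) (hC : 1 ≤ C) (hA : ∀ g x, ‖A g x‖ ≤ C * ‖x‖) (γ : ℕ → G)
  (hnull : ∀ x k, Tendsto (fun n => co e (A (γ n) x) k) atTop (𝓝 0))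

include hR hX hC hA hnull

/-- One step of the choice: `n` such that the low coordinates of the `A (γ n) y` are small, the
sums over the sets of the sections at `q ≤ b` are small, and the property `Sm` is kept. -/
theorem sel_step (ε : ℝ) (hε : 0 < ε) (Y : Finset X) (R : ℕ)
    (hY : ∀ y ∈ Y, ∀ j ≤ R + 1, Sm 𝓕 e A γ ε j y) (b : ℕ) (δ : ℝ) (hδ : 0 < δ) :
    ∃ (n b' : ℕ), b ≤ b' ∧ ∀ y ∈ Y, (∀ j ≤ R, Sm 𝓕 e A γ ε j (A (γ n) y)) ∧
      ∑ s ∈ Finset.range (b + 1), |co e (A (γ n) y) s| ≤ δ ∧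
      (∀ q ≤ b, ∀ E ∈ Sc 𝓕 q, ∑ s ∈ E, |co e (A (γ n) y) s| ≤ 2 * ε) ∧
      ∀ E ∈ 𝓕, (∀ s ∈ E, b' < s) → ∑ s ∈ E, |co e (A (γ n) y) s| ≤ δ := by
  have h2 : ∀ y ∈ Y, ∀ᶠ n in (hyperfilter ℕ : Filter ℕ),
      ((∀ j ≤ R, Sm 𝓕 e A γ ε j (A (γ n) y)) ∧
      (∑ s ∈ Finset.range (b + 1), |co e (A (γ n) y) s| ≤ δ) ∧
      ∀ q ≤ b, ∀ E ∈ Sc 𝓕 q, ∑ s ∈ E, |co e (A (γ n) y) s| ≤ 2 * ε) := by
    intro y hy
    have h3 : ∀ᶠ n in (hyperfilter ℕ : Filter ℕ), ∀ j ∈ Finset.range (R + 1),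
        Sm 𝓕 e A γ ε j (A (γ n) y) := by
      rw [Filter.eventually_all_finset]
      intro j hj
      exact Sm_step hR hX A γ j ε y (hY y hy (j + 1) (by
        rw [Finset.mem_range] at hj
        omega))
    have h4 : ∀ᶠ n in (hyperfilter ℕ : Filter ℕ),
        ∑ s ∈ Finset.range (b + 1), |co e (A (γ n) y) s| ≤ δ := by
      have h5 : Tendsto (fun n => ∑ s ∈ Finset.range (b + 1), |co e (A (γ n) y) s|) atTop
          (𝓝 (∑ s ∈ Finset.range (b + 1), |(0 : ℝ)|)) :=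
        tendsto_finsetSum _ fun s _ => (hnull y s).abs
      rw [abs_zero, Finset.sum_const_zero] at h5
      exact Nat.hyperfilter_le_atTop (h5.eventually_le_const hδ)
    have h6 : ∀ᶠ n in (hyperfilter ℕ : Filter ℕ), ∀ q ∈ Finset.range (b + 1),
        ∀ E ∈ Sc 𝓕 q, ∑ s ∈ E, |co e (A (γ n) y) s| ≤ 2 * ε := by
      rw [Filter.eventually_all_finset]
      intro q _
      exact Sm_zero_use hR hX A γ hnull ε hε y (hY y hy 0 (Nat.zero_le _)) q
    filter_upwards [h3, h4, h6] with n hn1 hn2 hn3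
    exact ⟨fun j hj => hn1 j (Finset.mem_range.2 (by omega)), hn2,
      fun q hq => hn3 q (Finset.mem_range.2 (by omega))⟩
  have h7 : ∀ᶠ n in (hyperfilter ℕ : Filter ℕ), ∀ y ∈ Y,
      ((∀ j ≤ R, Sm 𝓕 e A γ ε j (A (γ n) y)) ∧
      (∑ s ∈ Finset.range (b + 1), |co e (A (γ n) y) s| ≤ δ) ∧
      ∀ q ≤ b, ∀ E ∈ Sc 𝓕 q, ∑ s ∈ E, |co e (A (γ n) y) s| ≤ 2 * ε) := by
    rw [Filter.eventually_all_finset]
    exact h2
  obtain ⟨n, hn⟩ := h7.exists
  choose f hf using fun y : X => exists_tail_le hR hX (A (γ n) y) δ hδ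
  refine ⟨n, b + ∑ y ∈ Y, f y, Nat.le_add_right _ _, fun y hy =>
    ⟨(hn y hy).1, (hn y hy).2.1, (hn y hy).2.2, ?_⟩⟩
  intro E hE hE'
  refine hf y E hE fun s hs => ?_
  have h8 := hE' s hs
  have h9 : f y ≤ ∑ y ∈ Y, f y := Finset.single_le_sum (f := f) (fun _ _ => Nat.zero_le _) hy
  omega

theorem selection (M : ℕ) (hM : 1 ≤ M) (ε : ℝ) (hε : 0 < ε) (hεM : ε ≤ 1 / (4 * M))
    (Y : Finset X) (R : ℕ) (hY : ∀ y ∈ Y, ∀ j ≤ R + 1, Sm 𝓕 e A γ ε j y) :
    ∃ n : Fin M → ℕ, ∀ y ∈ Y, (∀ θ : Fin M → ℝ, (∀ a, |θ a| ≤ 1) →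
      ‖∑ a, θ a • A (γ (n a)) y‖ ≤ C * ‖y‖ + 1) ∧
      ∀ a, ∀ j ≤ R, Sm 𝓕 e A γ ε j (A (γ (n a)) y) := by
  have hM0 : (0 : ℝ) < M := by exact_mod_cast hM
  have hδ : (0 : ℝ) < 1 / (4 * M) := by positivity
  choose fn fb hfb hf using fun b => sel_step hR hX A C hC hA γ hnull ε hε Y R hY b
    (1 / (4 * M)) hδ
  let bs : ℕ → ℕ := fun a => Nat.rec 0 (fun _ b => fb b) a
  have hbs : ∀ a, bs (a + 1) = fb (bs a) := fun _ => rfl
  have hmono : Monotone bs := monotone_nat_of_le_succ fun a => by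
    rw [hbs]
    exact hfb _
  refine ⟨fun a => fn (bs a), fun y hy => ⟨fun θ hθ => ?_, fun a => (hf (bs a) y hy).1⟩⟩
  refine norm_le_of_SB hR hX fun E hE => ?_
  have hbd : ∃ a0 : ℕ, ∀ a : Fin M, (a : ℕ) ≠ a0 →
      ∑ s ∈ E, |co e (A (γ (fn (bs a))) y) s| ≤ 2 * ε + 1 / (4 * M) := by
    by_cases hex : ∃ a, ∃ s ∈ E, s ≤ bs (a + 1)
    · refine ⟨Nat.find hex, fun a ha => ?_⟩
      rcases lt_or_gt_of_ne ha with hlt | hgt
      · have h1 := Nat.find_min hex hlt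
        push Not at h1
        have h2 := (hf (bs a) y hy).2.2.2 E hE h1
        linarith
      · obtain ⟨s0, hs0, hs0'⟩ := Nat.find_spec hex
        have hne : E.Nonempty := ⟨s0, hs0⟩
        have hm1 : E.min' hne ≤ bs a :=
          (Finset.min'_le E s0 hs0).trans (hs0'.trans (hmono hgt))
        have hm2 := Finset.min'_mem E hne
        have h3 : E.erase (E.min' hne) ∈ Sc 𝓕 (E.min' hne) := by
          refine ⟨fun s hs => ?_, ?_⟩
          · rw [Finset.mem_erase] at hs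
            exact lt_of_le_of_ne (Finset.min'_le E s hs.2) (Ne.symm hs.1)
          · rw [Finset.insert_erase hm2]
            exact hE
        have h4 := (hf (bs a) y hy).2.2.1 _ hm1 _ h3
        have h5 := (hf (bs a) y hy).2.1
        have h6 : |co e (A (γ (fn (bs a))) y) (E.min' hne)| ≤
            ∑ s ∈ Finset.range (bs a + 1), |co e (A (γ (fn (bs a))) y) s| :=
          Finset.single_le_sum (f := fun s => |co e (A (γ (fn (bs a))) y) s|)
            (fun _ _ => abs_nonneg _) (Finset.mem_range.2 (by omega))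
        have h7 := Finset.add_sum_erase E (fun s => |co e (A (γ (fn (bs a))) y) s|) hm2
        linarith
    · push Not at hex
      refine ⟨0, fun a _ => ?_⟩
      have h2 := (hf (bs a) y hy).2.2.2 E hE (hex a)
      linarith
  obtain ⟨a0, ha0⟩ := hbd
  have hall : ∀ a : Fin M, ∑ s ∈ E, |co e (A (γ (fn (bs a))) y) s| ≤ C * ‖y‖ := fun a =>
    (SB_co hR hX _ E hE).trans (hA _ _)
  have hstep : ∀ s ∈ E, |co e (∑ a : Fin M, θ a • A (γ (fn (bs a))) y) s| ≤
      ∑ a : Fin M, |co e (A (γ (fn (bs a))) y) s| := by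
    intro s _
    rw [co_sum]
    refine (Finset.abs_sum_le_sum_abs _ _).trans (Finset.sum_le_sum fun a _ => ?_)
    rw [co_smul, abs_mul]
    have := mul_le_mul_of_nonneg_right (hθ a) (abs_nonneg (co e (A (γ (fn (bs a))) y) s))
    linarith
  have hCy : 0 ≤ C * ‖y‖ := mul_nonneg (by linarith) (norm_nonneg _)
  calc ∑ s ∈ E, |co e (∑ a : Fin M, θ a • A (γ (fn (bs a))) y) s|
      ≤ ∑ s ∈ E, ∑ a : Fin M, |co e (A (γ (fn (bs a))) y) s| := Finset.sum_le_sum hstep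
    _ = ∑ a : Fin M, ∑ s ∈ E, |co e (A (γ (fn (bs a))) y) s| := Finset.sum_comm
    _ ≤ ∑ a : Fin M, ((if (a : ℕ) = a0 then C * ‖y‖ else 0) + (2 * ε + 1 / (4 * M))) := by
        refine Finset.sum_le_sum fun a _ => ?_
        by_cases h : (a : ℕ) = a0
        · rw [if_pos h]
          have := hall a
          linarith
        · rw [if_neg h]
          have := ha0 a h
          linarith
    _ = ∑ a : Fin M, (if (a : ℕ) = a0 then C * ‖y‖ else 0) + M * (2 * ε + 1 / (4 * M)) := by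
        rw [Finset.sum_add_distrib, Finset.sum_const, Finset.card_univ, Fintype.card_fin,
          nsmul_eq_mul]
    _ ≤ C * ‖y‖ + 1 := by
        have h1 : ∑ a : Fin M, (if (a : ℕ) = a0 then C * ‖y‖ else 0) ≤ C * ‖y‖ := by
          by_cases h : a0 < M
          · rw [Finset.sum_eq_single (⟨a0, h⟩ : Fin M)]
            · simp
            · intro b _ hb
              rw [if_neg]
              intro hb'
              exact hb (Fin.ext hb')
            · simp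
          · rw [Finset.sum_eq_zero]
            · exact hCy
            · intro a _
              rw [if_neg]
              have := a.2
              omega
        have h2 : (M : ℝ) * (1 / (4 * M)) = 1 / 4 := by field_simp
        have h3 : (M : ℝ) * ε ≤ M * (1 / (4 * M)) := mul_le_mul_of_nonneg_left hεM hM0.le
        linarith

end Pool.Agent.Comb7f333f.TPart
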