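import Pool.Agent.Lib.MP_7f333f_an.Tame.SchDefs

set_option autoImplicit false

/-!
Module Sq: the unions of successive sets.
-/

namespace Pool.Agent.Comb7f333f.TPart

variable {𝓕 : Set (Finset ℕ)}

section

variable (hh : ∀ F ∈ 𝓕, ∀ F', F' ⊆ F → F' ∈ 𝓕)

include hh

theorem sq_subset (n : ℕ) {F F' : Finset ℕ} (hF : F ∈ sq 𝓕 n) (h : F' ⊆ F) :
    F' ∈ sq 𝓕 n := by
  induction n generalizing F F' with
  | zero =>
    have e : F = ∅ := hF
    rw [e] at h
    exact Finset.subset_empty.mp h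
  | succ n ih =>
    obtain ⟨F₁, h1, F₂, h2, hs, rfl⟩ := hF
    refine ⟨F' ∩ F₁, hh F₁ h1 _ Finset.inter_subset_right, F' ∩ F₂,
      ih h2 Finset.inter_subset_right, fun s hs1 t ht1 => hs s (Finset.mem_inter.mp hs1).2 t
        (Finset.mem_inter.mp ht1).2, ?_⟩
    rw [← Finset.inter_union_distrib_left]
    exact (Finset.inter_eq_left.mpr h).symm

theorem sq_le (h0 : ∅ ∈ 𝓕) {m n : ℕ} (hmn : m ≤ n) {F : Finset ℕ} (hF : F ∈ sq 𝓕 m) :
    F ∈ sq 𝓕 n := by
  induction n, hmn using Nat.le_induction with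
  | base => exact hF
  | succ n _ ih =>
    exact ⟨∅, h0, F, ih, fun s hs => absurd hs (Finset.notMem_empty s), by
      rw [Finset.empty_union]⟩

end

theorem sq_one {F : Finset ℕ} (hF : F ∈ 𝓕) : F ∈ sq 𝓕 1 := by
  exact ⟨F, hF, ∅, rfl, fun s _ t ht => absurd ht (Finset.notMem_empty t), by
    rw [Finset.union_empty]⟩

theorem sq_empty (h0 : ∅ ∈ 𝓕) (n : ℕ) : (∅ : Finset ℕ) ∈ sq 𝓕 n := by
  induction n with
  | zero => exact rfl
  | succ n ih =>
    exact ⟨∅, h0, ∅, ih, fun s hs => absurd hs (Finset.notMem_empty s), by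
      rw [Finset.empty_union]⟩

theorem sq_append {m n : ℕ} {F₁ F₂ : Finset ℕ} (h₁ : F₁ ∈ sq 𝓕 m) (h₂ : F₂ ∈ sq 𝓕 n)
    (h : ∀ s ∈ F₁, ∀ t ∈ F₂, s < t) : F₁ ∪ F₂ ∈ sq 𝓕 (m + n) := by
  induction m generalizing F₁ with
  | zero =>
    have e : F₁ = ∅ := h₁
    rw [e, Finset.empty_union, Nat.zero_add]
    exact h₂
  | succ m ih =>
    obtain ⟨A, hA, B, hB, hAB, rfl⟩ := h₁
    rw [Nat.succ_add_eq_add_succ, Nat.add_succ]
    refine ⟨A, hA, B ∪ F₂, ih hB (fun s hs t ht => h s (Finset.mem_union_right _ hs) t ht),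
      fun s hs t ht => ?_, Finset.union_assoc _ _ _⟩
    rcases Finset.mem_union.mp ht with ht | ht
    · exact hAB s hs t ht
    · exact h s (Finset.mem_union_left _ hs) t ht

/-- Cutting at `x`. -/
theorem sq_cut {m n : ℕ} {F : Finset ℕ} (x : ℕ) (h₁ : F.filter (fun s => s < x) ∈ sq 𝓕 m)
    (h₂ : F.filter (fun s => x ≤ s) ∈ sq 𝓕 n) : F ∈ sq 𝓕 (m + n) := by
  have e : F = F.filter (fun s => s < x) ∪ F.filter (fun s => x ≤ s) := by
    ext s
    simp only [Finset.mem_union, Finset.mem_filter]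
    constructor
    · intro hs
      rcases lt_or_ge s x with h | h
      · exact Or.inl ⟨hs, h⟩
      · exact Or.inr ⟨hs, h⟩
    · rintro (h | h)
      · exact h.1
      · exact h.1
  rw [e]
  refine sq_append h₁ h₂ fun s hs t ht => ?_
  exact lt_of_lt_of_le (Finset.mem_filter.mp hs).2 (Finset.mem_filter.mp ht).2

theorem sq_mono {𝓖 : Set (Finset ℕ)} (h : 𝓕 ⊆ 𝓖) (n : ℕ) : sq 𝓕 n ⊆ sq 𝓖 n := by
  induction n with
  | zero => exact fun F hF => hF
  | succ n ih =>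
    rintro F ⟨F₁, h1, F₂, h2, hs, rfl⟩
    exact ⟨F₁, h h1, F₂, ih h2, hs, rfl⟩

/-- A union of `n` successive sets is a union of `n` sets. -/
theorem sq_pieces {n : ℕ} {F : Finset ℕ} (hF : F ∈ sq 𝓕 n) : ∃ A : Fin n → Finset ℕ,
    (∀ i, A i ∈ 𝓕) ∧ F = Finset.univ.biUnion A := by
  induction n generalizing F with
  | zero =>
    have e : F = ∅ := hF
    refine ⟨fun i => i.elim0, fun i => i.elim0, ?_⟩
    rw [e]
    simp
  | succ n ih =>
    obtain ⟨F₁, h1, F₂, h2, hs, rfl⟩ := hF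
    obtain ⟨A, hA, rfl⟩ := ih h2
    refine ⟨Fin.cons F₁ A, fun i => ?_, ?_⟩
    · refine Fin.cases ?_ (fun j => ?_) i
      · exact h1
      · exact hA j
    · ext x
      simp only [Finset.mem_union, Finset.mem_biUnion, Finset.mem_univ, true_and, Fin.exists_fin_succ,
        Fin.cons_zero, Fin.cons_succ]

/-- Intervals: `[a, 2 ^ j (a + 1) - 1)` is the union of `j` successive sets of `sch1`. -/
theorem Ico_sq (j a b : ℕ) (hb : b + 1 ≤ 2 ^ j * (a + 1)) : Finset.Ico a b ∈ sq sch1 j := by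
  have h0 : (∅ : Finset ℕ) ∈ sch1 := fun k hk => absurd hk (Finset.notMem_empty k)
  induction j generalizing a with
  | zero =>
    rw [pow_zero, one_mul] at hb
    rw [Finset.Ico_eq_empty (by omega)]
    exact rfl
  | succ j ih =>
    have hc1 : Finset.Ico a (min b (2 * a + 1)) ∈ sch1 := by
      intro k hk
      rw [Finset.mem_Ico] at hk
      rw [Nat.card_Ico]
      omega
    have hc2 : Finset.Ico (2 * a + 1) b ∈ sq sch1 j := by
      refine ih (2 * a + 1) ?_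
      calc b + 1 ≤ 2 ^ (j + 1) * (a + 1) := hb
        _ = 2 ^ j * (2 * a + 1 + 1) := by
          rw [pow_succ]
          ring
    refine ⟨_, hc1, _, hc2, fun s hs t ht => ?_, ?_⟩
    · rw [Finset.mem_Ico] at hs ht
      omega
    · ext x
      rw [Finset.mem_union, Finset.mem_Ico, Finset.mem_Ico, Finset.mem_Ico]
      omega

/-- Images by increasing maps. -/
theorem sq_image (hs : ∀ F ∈ 𝓕, ∀ φ : ℕ → ℕ, StrictMonoOn φ F → (∀ s ∈ F, s ≤ φ s) →
      F.image φ ∈ 𝓕) (n : ℕ) {F : Finset ℕ} (hF : F ∈ sq 𝓕 n) (φ : ℕ → ℕ)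
    (hφ : StrictMonoOn φ F) (hφ' : ∀ s ∈ F, s ≤ φ s) : F.image φ ∈ sq 𝓕 n := by
  induction n generalizing F with
  | zero =>
    have e : F = ∅ := hF
    rw [e, Finset.image_empty]
    exact rfl
  | succ n ih =>
    obtain ⟨F₁, h1, F₂, h2, hsep, rfl⟩ := hF
    have k1 : ∀ s ∈ F₁, s ∈ F₁ ∪ F₂ := fun s h => Finset.mem_union_left _ h
    have k2 : ∀ s ∈ F₂, s ∈ F₁ ∪ F₂ := fun s h => Finset.mem_union_right _ h
    refine ⟨F₁.image φ, hs F₁ h1 φ (hφ.mono fun s h => k1 s h) (fun s h => hφ' s (k1 s h)),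
      F₂.image φ, ih h2 (hφ.mono fun s h => k2 s h) (fun s h => hφ' s (k2 s h)), ?_,
      Finset.image_union _ _⟩
    intro s hs1 t ht1
    obtain ⟨s', hs', rfl⟩ := Finset.mem_image.mp hs1
    obtain ⟨t', ht', rfl⟩ := Finset.mem_image.mp ht1
    exact hφ (k1 s' hs') (k2 t' ht') (hsep s' hs' t' ht')

/-- No infinite set has all its finite subsets in `sq 𝓕 n`. -/
theorem sq_no_inf (hh : ∀ F ∈ 𝓕, ∀ F', F' ⊆ F → F' ∈ 𝓕)
    (hc : ∀ I : Set ℕ, I.Infinite → ∃ F : Finset ℕ, (F : Set ℕ) ⊆ I ∧ F ∉ 𝓕) (n : ℕ)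
    (I : Set ℕ) (hI : I.Infinite) : ∃ F : Finset ℕ, (F : Set ℕ) ⊆ I ∧ F ∉ sq 𝓕 n := by
  induction n generalizing I with
  | zero =>
    obtain ⟨x, hx⟩ := hI.nonempty
    refine ⟨{x}, by simpa using hx, fun h => ?_⟩
    exact Finset.singleton_ne_empty x h
  | succ n ih =>
    obtain ⟨F₀, hF₀I, hF₀⟩ := hc I hI
    have hI' : (I \ Set.Iic (F₀.sup id)).Infinite := hI.sdiff (Set.finite_Iic _)
    obtain ⟨F, hFI, hF⟩ := ih (I \ Set.Iic (F₀.sup id)) hI'
    have hlt : ∀ s ∈ F₀, ∀ t ∈ F, s < t := by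
      intro s hs t ht
      have h1 : s ≤ F₀.sup id := Finset.le_sup (f := id) hs
      have h2 := (hFI ht).2
      rw [Set.mem_Iic, not_le] at h2
      exact lt_of_le_of_lt h1 h2
    refine ⟨F₀ ∪ F, ?_, ?_⟩
    · rw [Finset.coe_union]
      exact Set.union_subset hF₀I (fun x hx => (hFI hx).1)
    · rintro ⟨F₁, h1, F₂, h2, hsep, he⟩
      by_cases hsub : F ⊆ F₂
      · exact hF (sq_subset hh n h2 hsub)
      · obtain ⟨f, hf, hf2⟩ := Finset.not_subset.mp hsub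
        have hf1 : f ∈ F₁ := by
          have h3 : f ∈ F₁ ∪ F₂ := he ▸ Finset.mem_union_right _ hf
          rcases Finset.mem_union.mp h3 with h4 | h4
          · exact h4
          · exact absurd h4 hf2
        refine hF₀ (hh F₁ h1 F₀ fun s hs => ?_)
        have h3 : s ∈ F₁ ∪ F₂ := he ▸ Finset.mem_union_left _ hs
        rcases Finset.mem_union.mp h3 with h4 | h4
        · exact h4
        · exact absurd (hsep f hf1 s h4) (not_lt.mpr (hlt s hs f hf).le)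

end Pool.Agent.Comb7f333f.TPart
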