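import Pool.Agent.Lib.MP_7f333f_an.Tame.Cols
import Pool.Agent.Lib.MP_7f333f_an.Tame.Sel

set_option autoImplicit false

/-!
Module TowerEx: existence of the tower.
-/

namespace Pool.Agent.Comb7f333f.TPart

open Filter Topology

section Pre

theorem towerEx_pre_congr {r M : ℕ} {G : Type*} [Group G] {g g' : ℕ → Fin M → G}
    (w : Fin r → Fin M) (j : ℕ) (h : ∀ i < j, g i = g' i) : pre g w j = pre g' w j := by
  induction j with
  | zero => rfl
  | succ j ih =>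
    rw [pre, pre, ih fun i hi => h i (by omega), stp, stp, h j (by omega)]

theorem towerEx_pre_dep {r M : ℕ} {G : Type*} [Group G] (g : ℕ → Fin M → G)
    {w w' : Fin r → Fin M} (j : ℕ) (h : ∀ k : Fin r, (k : ℕ) < j → w k = w' k) :
    pre g w j = pre g w' j := by
  induction j with
  | zero => rfl
  | succ j ih =>
    rw [pre, pre, ih fun k hk => h k (by omega), stp, stp]
    by_cases hj : j < r
    · rw [dif_pos hj, dif_pos hj, h ⟨j, hj⟩ (by simp)]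
    · rw [dif_neg hj, dif_neg hj]

theorem towerEx_kap_congr {K0 : ℕ} {K K' : ℕ → ℕ} (j : ℕ) (h : ∀ i < j, K i = K' i) :
    kap K0 K j = kap K0 K' j := by
  rw [kap, kap]
  congr 1
  exact Finset.sum_congr rfl fun i hi => h i (Finset.mem_range.mp hi)

/-- The invariant of the construction. -/
structure TowerExInv (𝓕 : Set (Finset ℕ)) {X : Type*} [NormedAddCommGroup X] [NormedSpace ℝ X]
    {G : Type*} [Group G] (A : G →* (X →L[ℝ] X)) (C : ℝ) (γ : ℕ → G) (e : ℕ → X) (Λ : ℝ)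
    (q0 K0 r M n : ℕ) (g : ℕ → Fin M → G) (K : ℕ → ℕ) (c : ℕ → Cols r M) : Prop where
  lev : ∀ l : Fin r, (l : ℕ) < n → LevelProps 𝓕 A e C Λ l
    (fun w : Fin r → Fin M => pre g w (l + 1)) (c l) q0 (kap K0 K l) (K l)
  signs : ∀ l < n, ∀ w : Fin r → Fin M, ∀ k < l, ∀ ν : Fin (c k).N, ∀ θ : Fin M → ℝ,
    IsSign θ → ‖∑ a, θ a • A (g l a) (A (pre g w l) (av e ((c k).J w ν) ((c k).S w ν)))‖ ≤
      C ^ 2 + 1
  sm : ∀ w : Fin r → Fin M, ∀ k < n, ∀ ν : Fin (c k).N, ∀ j, j + n ≤ r →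
    Sm 𝓕 e A γ (1 / (4 * M)) j (A (pre g w n) (av e ((c k).J w ν) ((c k).S w ν)))

end Pre

variable {𝓕 : Set (Finset ℕ)} {X : Type*} [NormedAddCommGroup X] [NormedSpace ℝ X] {e : ℕ → X}
  (hR : IsRegular 𝓕) (hX : IsCombSpace 𝓕 e) (sc : Scale 𝓕) (hL : Large 𝓕) {G : Type*} [Group G]
  (A : G →* (X →L[ℝ] X)) (C : ℝ) (hC : 1 ≤ C) (hA : ∀ g x, ‖A g x‖ ≤ C * ‖x‖) (γ : ℕ → G)
  (hnull : ∀ x k, Tendsto (fun n => co e (A (γ n) x) k) atTop (𝓝 0))

include hR hX sc hL hC hA hnull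

theorem towerEx_step (Λ : ℝ) (hΛ : 0 < Λ) (r M : ℕ) (hr : 1 ≤ r) (hM : 1 ≤ M) (q0 : ℕ)
    (hq0 : ∀ m : ℕ, ∃ P : ℕ, ∀ J : Finset ℕ, J.card ≤ m → (∀ i ∈ J, P < i) → J ∈ Sc 𝓕 q0)
    (K0 n : ℕ) (hn : n < r) (g : ℕ → Fin M → G) (K : ℕ → ℕ) (c : ℕ → Cols r M)
    (hI : TowerExInv 𝓕 A C γ e Λ q0 K0 r M n g K c) :
    ∃ (g' : ℕ → Fin M → G) (K' : ℕ → ℕ) (c' : ℕ → Cols r M),
      TowerExInv 𝓕 A C γ e Λ q0 K0 r M (n + 1) g' K' c' := by
  classical
  have hM' : (0 : ℝ) < M := by exact_mod_cast hM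
  have hε : (0 : ℝ) < 1 / (4 * M) := by positivity
  obtain ⟨Y, hYdef⟩ : ∃ Y : Finset X, Y = (Finset.univ : Finset (Fin r → Fin M)).biUnion fun w =>
      (Finset.range n).biUnion fun k => (Finset.univ : Finset (Fin (c k).N)).image fun ν =>
        A (pre g w n) (av e ((c k).J w ν) ((c k).S w ν)) := ⟨_, rfl⟩
  have hmemY : ∀ w : Fin r → Fin M, ∀ k < n, ∀ ν : Fin (c k).N,
      A (pre g w n) (av e ((c k).J w ν) ((c k).S w ν)) ∈ Y := by
    intro w k hk ν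
    rw [hYdef, Finset.mem_biUnion]
    refine ⟨w, Finset.mem_univ _, ?_⟩
    rw [Finset.mem_biUnion]
    exact ⟨k, Finset.mem_range.mpr hk, Finset.mem_image_of_mem _ (Finset.mem_univ _)⟩
  have hY : ∀ y ∈ Y, (∀ j ≤ (r - n - 1) + 1, Sm 𝓕 e A γ (1 / (4 * M)) j y) ∧ ‖y‖ ≤ C := by
    intro y hy
    rw [hYdef, Finset.mem_biUnion] at hy
    obtain ⟨w, -, hy⟩ := hy
    rw [Finset.mem_biUnion] at hy
    obtain ⟨k, hk, hy⟩ := hy
    obtain ⟨ν, -, rfl⟩ := Finset.mem_image.mp hy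
    refine ⟨fun j hj => hI.sm w k (Finset.mem_range.mp hk) ν j (by omega), ?_⟩
    have h1 := hA (pre g w n) (av e ((c k).J w ν) ((c k).S w ν))
    have h2 := norm_av_le hR hX ((c k).J w ν) ((c k).S w ν)
    nlinarith
  obtain ⟨na, hna⟩ := selection hR hX A C hC hA γ hnull M hM (1 / (4 * M)) hε le_rfl Y
    (r - n - 1) (fun y hy => (hY y hy).1)
  obtain ⟨gn, hgn0⟩ : ∃ gn : Fin M → G, gn = fun a => γ (na a) := ⟨_, rfl⟩
  obtain ⟨cn, Kn, hlev, hsm⟩ := exists_cols hR hX sc hL A C hC hA γ r M hr hM ⟨n, hn⟩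
    (fun w => gn (w ⟨n, hn⟩) * pre g w n)
    (fun w w' h => by
      rw [h ⟨n, hn⟩ le_rfl]
      rw [towerEx_pre_dep g n fun k hk => h k (Fin.mk_le_mk.mpr hk.le)])
    (1 / (4 * M)) Λ hε hΛ q0 hq0 (kap K0 K n)
  obtain ⟨g', hg'⟩ : ∃ g' : ℕ → Fin M → G, g' = Function.update g n gn := ⟨_, rfl⟩
  obtain ⟨K', hK'⟩ : ∃ K' : ℕ → ℕ, K' = Function.update K n Kn := ⟨_, rfl⟩
  obtain ⟨c', hc'⟩ : ∃ c' : ℕ → Cols r M, c' = Function.update c n cn := ⟨_, rfl⟩
  have hgn : g' n = gn := by rw [hg', Function.update_self]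
  have hKn : K' n = Kn := by rw [hK', Function.update_self]
  have hcn : c' n = cn := by rw [hc', Function.update_self]
  have hgj : ∀ j, j < n → g' j = g j := fun j hj => by
    rw [hg', Function.update_of_ne (by omega)]
  have hKj : ∀ j, j < n → K' j = K j := fun j hj => by
    rw [hK', Function.update_of_ne (by omega)]
  have hcj : ∀ j, j < n → c' j = c j := fun j hj => by
    rw [hc', Function.update_of_ne (by omega)]
  have hpre : ∀ (w : Fin r → Fin M) (j : ℕ), j ≤ n → pre g' w j = pre g w j := fun w j hj =>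
    towerEx_pre_congr w j fun i hi => hgj i (by omega)
  have hpren : ∀ w : Fin r → Fin M, pre g' w (n + 1) = gn (w ⟨n, hn⟩) * pre g w n := by
    intro w
    rw [pre, hpre w n le_rfl, stp, dif_pos hn, hgn]
  have hkap : ∀ j, j ≤ n → kap K0 K' j = kap K0 K j := fun j hj =>
    towerEx_kap_congr j fun i hi => hKj i (by omega)
  refine ⟨g', K', c', ?_, ?_, ?_⟩
  · intro l hl
    rcases Nat.lt_succ_iff_lt_or_eq.mp hl with hj | hj
    · have h7 : (fun w : Fin r → Fin M => pre g' w ((l : ℕ) + 1)) =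
          fun w : Fin r → Fin M => pre g w ((l : ℕ) + 1) :=
        funext fun w => by rw [hpre w ((l : ℕ) + 1) hj]
      rw [h7, hkap l hj.le, hKj l hj, hcj l hj]
      exact hI.lev l hj
    · obtain rfl : l = ⟨n, hn⟩ := Fin.ext hj
      have h7 : (fun w : Fin r → Fin M => pre g' w (n + 1)) =
          fun w : Fin r → Fin M => (gn (w ⟨n, hn⟩) * pre g w n) :=
        funext fun w => by rw [hpren w]
      change LevelProps 𝓕 A e C Λ ⟨n, hn⟩ (fun w : Fin r → Fin M => pre g' w (n + 1)) (c' n)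
        q0 (kap K0 K' n) (K' n)
      rw [h7, hkap n le_rfl, hKn, hcn]
      exact hlev
  · intro j hj w k hk
    rw [hcj k (by omega)]
    intro ν θ hθ
    rcases Nat.lt_succ_iff_lt_or_eq.mp hj with hj | rfl
    · rw [hpre w j hj.le, hgj j hj]
      exact hI.signs j hj w k hk ν θ hθ
    · rw [hpre w j le_rfl, hgn, hgn0]
      have h8 := (hna _ (hmemY w k hk ν)).1 θ (fun a => by
        rcases hθ a with h | h <;> rw [h] <;> simp)
      refine h8.trans ?_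
      have h9 := (hY _ (hmemY w k hk ν)).2
      nlinarith
  · intro w k hk
    rcases Nat.lt_succ_iff_lt_or_eq.mp hk with hj | rfl
    · rw [hcj k hj]
      intro ν j hjr
      rw [hpren w]
      have h7 := (hna _ (hmemY w k hj ν)).2 (w ⟨n, hn⟩) j (by omega)
      have h8 : A (γ (na (w ⟨n, hn⟩))) (A (pre g w n) (av e ((c k).J w ν) ((c k).S w ν))) =
          A (gn (w ⟨n, hn⟩) * pre g w n) (av e ((c k).J w ν) ((c k).S w ν)) := by
        rw [map_mul A (gn (w ⟨n, hn⟩)), hgn0]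
        rfl
      rwa [h8] at h7
    · rw [hcn]
      intro ν j hjr
      rw [hpren w]
      exact hsm w ν j (by omega)

theorem exists_tower (Λ : ℝ) (hΛ : 0 < Λ) (r M : ℕ) (hr : 1 ≤ r) (hM : 1 ≤ M) :
    ∃ q0 K0 : ℕ, sc.X r q0 ≤ K0 ∧ Nonempty (Tower 𝓕 A e C Λ q0 K0 r M) := by
  obtain ⟨q0, hq0⟩ := exists_far hR hL
  refine ⟨q0, sc.X r q0, le_rfl, ?_⟩
  have hrec : ∀ n ≤ r, ∃ (g : ℕ → Fin M → G) (K : ℕ → ℕ) (c : ℕ → Cols r M),
      TowerExInv 𝓕 A C γ e Λ q0 (sc.X r q0) r M n g K c := by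
    intro n
    induction n with
    | zero =>
      intro _
      have hM0 : Fin M := ⟨0, hM⟩
      exact ⟨fun _ _ => 1, fun _ => 0, fun _ => ⟨0, 0, fun _ _ => ∅, fun _ _ => ∅,
        fun _ u => u.elim0⟩, fun j hj => absurd hj (Nat.not_lt_zero j),
        fun j hj => absurd hj (Nat.not_lt_zero j), fun w j hj => absurd hj (Nat.not_lt_zero j)⟩
    | succ n ih =>
      intro hn
      obtain ⟨g, K, c, hI⟩ := ih (by omega)
      exact towerEx_step hR hX sc hL A C hC hA γ hnull Λ hΛ r M hr hM q0 hq0 (sc.X r q0) n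
        (by omega) g K c hI
  obtain ⟨g, K, c, hI⟩ := hrec r le_rfl
  exact ⟨⟨g, K, c, fun l => hI.lev l l.isLt, hI.signs⟩⟩

end Pool.Agent.Comb7f333f.TPart
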