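import Pool.Agent.Lib.MP_7f333f_an.Tame.Api

set_option autoImplicit false

/-!
Module Use: the signed averages and their functionals.
-/

namespace Pool.Agent.Comb7f333f.TPart

open Filter Topology

theorem use_abs_sg (S : Finset ℕ) (i : ℕ) : |sg S i| = 1 := by
  unfold sg
  split_ifs <;> simp

theorem use_sg_mul (S : Finset ℕ) (i : ℕ) : sg S i * sg S i = 1 := by
  unfold sg
  split_ifs <;> simp

variable {𝓕 : Set (Finset ℕ)} {X : Type*} [NormedAddCommGroup X] [NormedSpace ℝ X] {e : ℕ → X}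
  (hR : IsRegular 𝓕) (hX : IsCombSpace 𝓕 e)

include hR hX

theorem norm_av_le (J S : Finset ℕ) : ‖av e J S‖ ≤ 1 := by
  unfold av
  have h1 : ‖∑ i ∈ J, sg S i • e i‖ ≤ J.card := by
    refine (norm_sum_le _ _).trans ?_
    have h2 : ∑ i ∈ J, ‖sg S i • e i‖ ≤ ∑ i ∈ J, (1 : ℝ) := by
      refine Finset.sum_le_sum fun i _ => ?_
      rw [norm_smul, Real.norm_eq_abs, use_abs_sg, one_mul]
      exact norm_e_le hR hX i
    simpa using h2
  rw [norm_smul, Real.norm_eq_abs, abs_of_nonneg (by positivity)]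
  rcases Nat.eq_zero_or_pos J.card with h0 | h0
  · rw [h0]
    simp
  · have h3 : (0 : ℝ) < J.card := by exact_mod_cast h0
    rw [one_div, inv_mul_le_iff₀ h3, mul_one]
    exact h1

theorem co_av (J S : Finset ℕ) (s : ℕ) :
    co e (av e J S) s = if s ∈ J then sg S s / J.card else 0 := by
  unfold av
  rw [co_smul]
  have h1 : co e (∑ i ∈ J, sg S i • e i) s = if s ∈ J then sg S s else 0 :=
    co_vec hR hX J (sg S) s
  rw [h1]
  split_ifs
  · ring
  · simp

theorem fn_av (J S : Finset ℕ) (hJ : J.Nonempty) : fn e J S (av e J S) = 1 := by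
  unfold fn
  have h3 : (0 : ℝ) < J.card := by exact_mod_cast hJ.card_pos
  have h1 : ∀ i ∈ J, sg S i * co e (av e J S) i = 1 / J.card := by
    intro i hi
    rw [co_av hR hX, if_pos hi, ← mul_div_assoc, use_sg_mul]
  rw [Finset.sum_congr rfl h1, Finset.sum_const, nsmul_eq_mul]
  field_simp

theorem abs_fn_le (J S : Finset ℕ) (x : X) : |fn e J S x| ≤ ∑ i ∈ J, |co e x i| := by
  unfold fn
  refine (Finset.abs_sum_le_sum_abs _ _).trans ?_
  refine Finset.sum_le_sum fun i _ => ?_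
  rw [abs_mul, use_abs_sg, one_mul]

/-- A bound which holds for the images of the basis vectors of `J` holds for the average. -/
theorem sum_co_av_le (H : X →L[ℝ] X) (J S F : Finset ℕ) (τ : ℝ) (hτ : 0 ≤ τ)
    (h : ∀ i ∈ J, ∑ s ∈ F, |co e (H (e i)) s| ≤ τ) : ∑ s ∈ F, |co e (H (av e J S)) s| ≤ τ := by
  have h1 : ∀ s, co e (H (av e J S)) s =
      (1 / (J.card : ℝ)) * ∑ i ∈ J, sg S i * co e (H (e i)) s := by
    intro s
    have h2 : av e J S = vec e J (fun i => (1 / (J.card : ℝ)) * sg S i) := by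
      unfold av vec
      rw [Finset.smul_sum]
      refine Finset.sum_congr rfl fun i _ => ?_
      rw [smul_smul]
    rw [h2, map_vec, Finset.mul_sum]
    refine Finset.sum_congr rfl fun i _ => ?_
    ring
  have h2 : ∑ s ∈ F, |co e (H (av e J S)) s| ≤
      (1 / (J.card : ℝ)) * ∑ i ∈ J, ∑ s ∈ F, |co e (H (e i)) s| := by
    rw [Finset.sum_comm, Finset.mul_sum]
    refine Finset.sum_le_sum fun s _ => ?_
    rw [h1, abs_mul, abs_of_nonneg (show (0 : ℝ) ≤ 1 / (J.card : ℝ) by positivity)]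
    refine mul_le_mul_of_nonneg_left ?_ (by positivity)
    refine (Finset.abs_sum_le_sum_abs _ _).trans ?_
    refine Finset.sum_le_sum fun i _ => ?_
    rw [abs_mul, use_abs_sg, one_mul]
  have h3 : ∑ i ∈ J, ∑ s ∈ F, |co e (H (e i)) s| ≤ J.card * τ := by
    have h4 := Finset.sum_le_sum h
    rwa [Finset.sum_const, nsmul_eq_mul] at h4
  refine h2.trans ?_
  rcases Nat.eq_zero_or_pos J.card with h0 | h0
  · rw [h0]
    simpa using hτ
  · have h5 : (0 : ℝ) < J.card := by exact_mod_cast h0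
    rw [one_div, inv_mul_le_iff₀ h5]
    exact h3

/-- A bound for the combinations. -/
theorem sum_co_comb_le (H : X →L[ℝ] X) {ι : Type*} (I : Finset ι) (x : ι → X) (F : Finset ℕ)
    (τ Λ : ℝ) (hτ : 0 ≤ τ) (h : ∀ n ∈ I, ∑ s ∈ F, |co e (H (x n)) s| ≤ τ) (β : ι → ℝ)
    (hβ : ∑ n ∈ I, |β n| ≤ Λ) :
    ∑ s ∈ F, |co e (H (∑ n ∈ I, β n • x n)) s| ≤ Λ * τ := by
  have h1 : ∀ s, co e (H (∑ n ∈ I, β n • x n)) s = ∑ n ∈ I, β n * co e (H (x n)) s := by
    intro s
    rw [map_sum, co_sum]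
    refine Finset.sum_congr rfl fun n _ => ?_
    rw [map_smul, co_smul]
  have h2 : ∑ s ∈ F, |co e (H (∑ n ∈ I, β n • x n)) s| ≤
      ∑ n ∈ I, |β n| * ∑ s ∈ F, |co e (H (x n)) s| := by
    have h3 : ∑ n ∈ I, |β n| * ∑ s ∈ F, |co e (H (x n)) s| =
        ∑ s ∈ F, ∑ n ∈ I, |β n| * |co e (H (x n)) s| := by
      rw [Finset.sum_comm]
      refine Finset.sum_congr rfl fun n _ => ?_
      rw [Finset.mul_sum]
    rw [h3]
    refine Finset.sum_le_sum fun s _ => ?_
    rw [h1]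
    refine (Finset.abs_sum_le_sum_abs _ _).trans ?_
    refine Finset.sum_le_sum fun n _ => ?_
    rw [abs_mul]
  refine h2.trans ?_
  have h4 : ∑ n ∈ I, |β n| * ∑ s ∈ F, |co e (H (x n)) s| ≤ ∑ n ∈ I, |β n| * τ :=
    Finset.sum_le_sum fun n hn => mul_le_mul_of_nonneg_left (h n hn) (abs_nonneg _)
  rw [← Finset.sum_mul] at h4
  exact h4.trans (mul_le_mul_of_nonneg_right hβ hτ)

end Pool.Agent.Comb7f333f.TPart
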