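import Pool.Agent.Lib.MP_7f333f_an.Tame.Good
import Pool.Agent.Lib.MP_7f333f_an.Tame.Deep
import Pool.Agent.Lib.MP_7f333f_an.Tame.Few
import Pool.Agent.Lib.MP_7f333f_an.Tame.Levs
import Pool.Agent.Lib.MP_7f333f_an.Siz.Choice
import Pool.Agent.Lib.MP_7f333f_an.Siz.Levs

set_option autoImplicit false

/-!
Module Words: the choice of the word and of the set (compare `Siz/Words.lean`).
-/

namespace Pool.Agent.Comb7f333f.TPart

open Filter Topology

open scoped Classical in
/-- Exchange of the sums for one level. -/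
theorem level_sum {𝓕 : Set (Finset ℕ)} {P Z : ℕ} {C B₁ : ℝ} {J Q : Type} [Fintype J]
    [Fintype Q] (L : Lev 𝓕 P Z C B₁ J Q) (hC : 1 ≤ C) (hB : 1 ≤ B₁)
    (R : J → Finset ℕ → Prop) (n : ℕ)
    (hn : ∀ A' ∈ sets 𝓕 P Z, ∀ T : Finset J, (∀ j ∈ T, ∃ A ∈ sets 𝓕 P Z, R j A ∧
      L.good j A A') → T.card ≤ n) :
    ∑ j, ∑ A ∈ sets 𝓕 P Z, (if R j A then ∑ A' ∈ (sets 𝓕 P Z).filter (L.good j A),
      L.kp j A A' else 0) ≤ n := by
  have h1 : ∀ j, ∀ A ∈ sets 𝓕 P Z,
      (if R j A then ∑ A' ∈ (sets 𝓕 P Z).filter (L.good j A), L.kp j A A' else 0) =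
      ∑ A' ∈ sets 𝓕 P Z, if R j A ∧ L.good j A A' then L.kp j A A' else 0 := by
    intro j A _
    by_cases hP : R j A
    · rw [if_pos hP, Finset.sum_filter]
      refine Finset.sum_congr rfl fun A' _ => ?_
      by_cases hg : L.good j A A'
      · rw [if_pos hg, if_pos ⟨hP, hg⟩]
      · rw [if_neg hg, if_neg fun h => hg h.2]
    · rw [if_neg hP]
      symm
      refine Finset.sum_eq_zero fun A' _ => ?_
      rw [if_neg fun h => hP h.1]
  have h2 : ∑ j, ∑ A ∈ sets 𝓕 P Z, (if R j A then
      ∑ A' ∈ (sets 𝓕 P Z).filter (L.good j A), L.kp j A A' else 0) =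
      ∑ A' ∈ sets 𝓕 P Z, ∑ j, ∑ A ∈ sets 𝓕 P Z,
        if R j A ∧ L.good j A A' then L.kp j A A' else 0 := by
    rw [Finset.sum_comm' (s := sets 𝓕 P Z) (t := fun _ => Finset.univ) (t' := Finset.univ)
      (s' := fun _ => sets 𝓕 P Z) (by simp)]
    refine Finset.sum_congr rfl fun j _ => ?_
    rw [Finset.sum_congr rfl (h1 j), Finset.sum_comm]
  rw [h2]
  have h3 : ∀ A' ∈ sets 𝓕 P Z, ∑ j, ∑ A ∈ sets 𝓕 P Z,
      (if R j A ∧ L.good j A A' then L.kp j A A' else 0) ≤ n * L.gam A' := by
    intro A' hA'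
    have h4 : ∀ j, ∑ A ∈ sets 𝓕 P Z,
        (if R j A ∧ L.good j A A' then L.kp j A A' else 0) ≤
        if (∃ A ∈ sets 𝓕 P Z, R j A ∧ L.good j A A') then L.gam A' else 0 := by
      intro j
      by_cases hj : ∃ A ∈ sets 𝓕 P Z, R j A ∧ L.good j A A'
      · rw [if_pos hj]
        refine le_trans (Finset.sum_le_sum fun A _ => ?_) (L.sum_kp_j_le hC hB j A' hA')
        by_cases h : R j A ∧ L.good j A A'
        · rw [if_pos h]
        · rw [if_neg h]
          exact L.kp_nonneg hC hB j A A'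
      · rw [if_neg hj]
        refine le_of_eq (Finset.sum_eq_zero fun A hA => ?_)
        rw [if_neg]
        rintro ⟨h, h'⟩
        exact hj ⟨A, hA, h, h'⟩
    refine (Finset.sum_le_sum fun j _ => h4 j).trans ?_
    rw [← Finset.sum_filter, Finset.sum_const, nsmul_eq_mul]
    refine mul_le_mul_of_nonneg_right ?_ (L.gam_nonneg A')
    exact_mod_cast hn A' hA' _ fun j hj => (Finset.mem_filter.1 hj).2
  refine (Finset.sum_le_sum h3).trans ?_
  rw [← Finset.mul_sum, L.gam_sum, mul_one]

section Data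

variable {𝓕 : Set (Finset ℕ)} {sc : Scale 𝓕} {C B₁ D B₂ Λ : ℝ} {Q0 r M : ℕ}

theorem exists_choice (hR : IsRegular 𝓕) (d : CoreD 𝓕 sc C B₁ D B₂ Λ Q0 r M) (hC : 1 ≤ C)
    (hB : 1 ≤ B₁) (hM : 1 ≤ M) (hr : 1 ≤ r) (K K2 : ℕ)
    (hK2 : 48 * D ^ 2 / c0 B₁ ^ 2 < K2) (ht1 : sc.t0 K ≤ Q0) (ht2 : sc.t0 K2 ≤ Q0) (m : ℕ)
    (hm : 8 * (m : ℝ) ≤ dl C B₁ * r)
    (hMbig : 128 * (r : ℝ) ^ 2 * K2 ≤ dl C B₁ ^ 2 * M) :
    ∃ ω : (l : Fin r) → Fin M × Fin (d.U l), ∃ A ∈ sets 𝓕 d.P d.Z, ∃ L₀ : Finset (Fin r),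
      m ≤ L₀.card ∧ ∀ k ∈ L₀, ∀ l ∈ L₀, k < l →
        DeepAt 𝓕 sc (fun a => d.col (Function.update (lett ω) l a) l)
          (fun q : Fin M × Fin (d.N l) => d.v (Function.update (lett ω) l q.1) l q.2)
          (1 / e0 C B₁) (ep C B₁ * c0 B₁) K (mn A) := by
  classical
  have hdl : 0 < dl C B₁ := by
    unfold dl
    positivity
  have hc0 : 0 < c0 B₁ := by
    unfold c0
    positivity
  have hΩ : Nonempty ((l : Fin r) → Fin M × Fin (d.U l)) :=
    ⟨fun l => (⟨0, hM⟩, ⟨0, d.U_pos l⟩)⟩
  obtain ⟨lam, L, hlam, hcol, hv, hLu⟩ := exists_levs hR d hM hB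
  have hself : ∀ ω l, (L ω l).lam (ω l) = lam ω := by
    intro ω l
    rw [hlam, Function.update_eq_self]
  have hlett : ∀ (ω : (l : Fin r) → Fin M × Fin (d.U l)) (l : Fin r),
      Function.update (lett ω) l (ω l).1 = lett ω := fun ω l =>
    Function.update_eq_self l (lett ω)
  have hvself : ∀ ω l, (L ω l).v ((L ω l).col (ω l)) =
      d.v (lett ω) l (d.col (lett ω) l (ω l).2) := by
    intro ω l
    rw [hv, hcol]
    simp only [hlett]
  let l0 : Fin r := ⟨0, hr⟩
  let G : ((l : Fin r) → Fin M × Fin (d.U l)) → Fin r → Finset ℕ → ℝ := fun ω l A =>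
    ∑ A' ∈ (sets 𝓕 d.P d.Z).filter ((L ω l).good (ω l) A), (L ω l).kp (ω l) A A'
  obtain ⟨bad, hbd⟩ : ∃ bad : ((l : Fin r) → Fin M × Fin (d.U l)) → Finset ℕ → Fin r →
      Fin r → Prop, ∀ ω A k l, bad ω A k l ↔
        ¬ DeepAt 𝓕 sc (fun a => d.col (Function.update (lett ω) l a) l)
          (fun q : Fin M × Fin (d.N l) => d.v (Function.update (lett ω) l q.1) l q.2)
          (1 / e0 C B₁) (ep C B₁ * c0 B₁) K (mn A) := ⟨_, fun _ _ _ _ => Iff.rfl⟩
  have hMr : (1 : ℝ) ≤ M := by exact_mod_cast hM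
  have key := SPart.choice_average (sets 𝓕 d.P d.Z) r lam
    (fun ω A => by rw [← hself ω l0]; exact (L ω l0).lam_nonneg _ _)
    (fun ω => by rw [← hself ω l0]; exact (L ω l0).lam_sum _)
    G ?_ bad (dl C B₁ / 2) (by positivity) m hr (by linarith) (4 * (K2 : ℝ) / M) ?_ ?_ ?_ hΩ
  · obtain ⟨ω, A, hA, L₀, h1, -, h2⟩ := key
    refine ⟨ω, A, hA, L₀, h1, fun k hk l hl hkl => ?_⟩
    exact not_not.1 fun h => h2 k hk l hl hkl ((hbd _ _ _ _).2 h)
  · -- bounds for the mass
    intro ω l A hA
    constructor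
    · exact Finset.sum_nonneg fun A' _ => (L ω l).kp_nonneg hC hB _ _ _
    · rw [← hself ω l]
      refine le_trans ?_ ((L ω l).sum_kp_r_le hC hB (ω l) A hA)
      exact Finset.sum_le_sum_of_subset_of_nonneg (Finset.filter_subset _ _)
        fun A' _ _ => (L ω l).kp_nonneg hC hB _ _ _
  · -- the size of M
    have h1 : 8 * (r : ℝ) ^ 2 * (4 * K2 / M) = (32 * (r : ℝ) ^ 2 * K2) / M := by ring
    rw [h1, div_le_iff₀ (by linarith)]
    nlinarith
  · -- the mass of the good pairs
    intro l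
    have hJ : (0 : ℝ) < Fintype.card (Fin M × Fin (d.U l)) := by
      rw [Fintype.card_prod, Fintype.card_fin, Fintype.card_fin]
      have := d.U_pos l
      positivity
    let F : ((l : Fin r) → Fin M × Fin (d.U l)) → Fin M × Fin (d.U l) → ℝ := fun ω j =>
      ∑ A ∈ sets 𝓕 d.P d.Z, ∑ A' ∈ (sets 𝓕 d.P d.Z).filter ((L ω l).good j A),
        (L ω l).kp j A A'
    have hF : ∀ ω j j', F (Function.update ω l j') j = F ω j := by
      intro ω j j'
      simp only [F]
      rw [hLu]
    have h1 := SPart.sum_letter l F hF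
    have h2 : ∑ ω : ((l : Fin r) → Fin M × Fin (d.U l)), ∑ j, F ω j ≥
        ∑ _ω : ((l : Fin r) → Fin M × Fin (d.U l)),
          dl C B₁ / 2 * Fintype.card (Fin M × Fin (d.U l)) :=
      Finset.sum_le_sum fun ω _ => (L ω l).good_mass hC hB
    rw [h1, Finset.sum_const, Finset.card_univ, nsmul_eq_mul] at h2
    have h3 : ∑ ω, F ω (ω l) = ∑ ω, ∑ A ∈ sets 𝓕 d.P d.Z, G ω l A := rfl
    rw [h3] at h2
    have h4 : Fintype.card (Fin M × Fin (d.U l)) * (dl C B₁ / 2 *
        (Fintype.card ((l : Fin r) → Fin M × Fin (d.U l)) : ℝ)) ≤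
        Fintype.card (Fin M × Fin (d.U l)) * ∑ ω, ∑ A ∈ sets 𝓕 d.P d.Z, G ω l A := by
      refine le_trans (le_of_eq ?_) h2
      ring
    exact le_of_mul_le_mul_left h4 hJ
  · -- few bad pairs
    intro k l hkl
    have hJ : (0 : ℝ) < Fintype.card (Fin M × Fin (d.U l)) := by
      rw [Fintype.card_prod, Fintype.card_fin, Fintype.card_fin]
      have := d.U_pos l
      positivity
    let F : ((l : Fin r) → Fin M × Fin (d.U l)) → Fin M × Fin (d.U l) → ℝ := fun ω j =>
      ∑ A ∈ sets 𝓕 d.P d.Z, if 0 < G (Function.update ω l j) k A ∧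
        bad (Function.update ω l j) A k l then G (Function.update ω l j) l A else 0
    have hF : ∀ ω j j', F (Function.update ω l j') j = F ω j := by
      intro ω j j'
      simp only [F, Function.update_idem]
    have h1 := SPart.sum_letter l F hF
    have h3 : ∑ ω, F ω (ω l) = ∑ ω, ∑ A ∈ sets 𝓕 d.P d.Z,
        (if 0 < G ω k A ∧ bad ω A k l then G ω l A else 0) := by
      simp only [F, Function.update_eq_self]
    have h2 : ∀ ω, ∑ j, F ω j ≤ 8 * K2 * d.U l := by
      intro ω
      have h4 : ∀ j, F ω j = ∑ A ∈ sets 𝓕 d.P d.Z, if 0 < G (Function.update ω l j) k A ∧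
          bad (Function.update ω l j) A k l then
            ∑ A' ∈ (sets 𝓕 d.P d.Z).filter ((L ω l).good j A), (L ω l).kp j A A' else 0 := by
        intro j
        simp only [F, G]
        rw [hLu, Function.update_self]
      rw [Finset.sum_congr rfl fun j _ => h4 j]
      have h5 := level_sum (L ω l) hC hB (fun j A => 0 < G (Function.update ω l j) k A ∧
          bad (Function.update ω l j) A k l) (8 * K2 * d.U l) ?_
      · have h5' : ((8 * K2 * d.U l : ℕ) : ℝ) = 8 * K2 * d.U l := by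
          push_cast
          ring
        rw [← h5']
        convert h5
      · intro A' hA' Tb hTb
        have hPQ := d.hP
        have hPU := d.hPU l
        set n0 : Fin (d.N k) := d.col (lett ω) k (ω k).2 with hn0
        let va : Fin M → ℕ → ℝ := fun a => d.v (Function.update (lett ω) l a) k n0
        have hfw := fun u u' w => few_window hR sc D (c0 B₁) hc0 K2 hK2 va
          (fun θ hθ => d.h4 (lett ω) k l hkl n0 θ hθ) u u' w
        -- the two sets of letters
        obtain ⟨S1, hS1c, hS1⟩ : ∃ S1 : Finset (Fin M), S1.card ≤ 4 * K2 ∧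
            (d.P ≤ (L ω l).tq A' → ∀ a, (∃ T ∈ 𝓕, ∃ x ∈ T, (L ω l).tq A' ≤ x ∧
              x ≤ sc.X K (sc.X (d.U l) ((L ω l).tq A')) ∧ (∀ s ∈ T, x ≤ s) ∧
              c0 B₁ ≤ ∑ s ∈ T, |va a s|) → a ∈ S1) := by
          by_cases hP : d.P ≤ (L ω l).tq A'
          · have hu := sc.le (d.U l) ((L ω l).tq A')
            have hw := sc.le K (sc.X (d.U l) ((L ω l).tq A'))
            refine ⟨_, (hfw ((L ω l).tq A') (sc.X (d.U l) ((L ω l).tq A'))
              (sc.X K (sc.X (d.U l) ((L ω l).tq A'))) hu hw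
              (sc.win _ _ (by omega)) (sc.win _ _ (by omega)) (by omega)).le,
              fun _ a ha => ?_⟩
            rw [Finset.mem_filter]
            exact ⟨Finset.mem_univ _, ha⟩
          · exact ⟨∅, by simp, fun h => absurd h hP⟩
        obtain ⟨S2, hS2c, hS2⟩ : ∃ S2 : Finset (Fin M), S2.card ≤ 4 * K2 ∧
            (A'.Nonempty → ∀ a, (∃ T ∈ 𝓕, ∃ x ∈ T, mn A' ≤ x ∧
              x ≤ sc.X K (mn A') ∧ (∀ s ∈ T, x ≤ s) ∧
              c0 B₁ ≤ ∑ s ∈ T, |va a s|) → a ∈ S2) := by
          by_cases hne : A'.Nonempty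
          · have hP : d.P ≤ mn A' := by
              have h6 := (mem_sets.1 hA').1 (mn_mem hne)
              exact (Finset.mem_Ico.1 h6).1
            have hw := sc.le K (mn A')
            refine ⟨_, (hfw (mn A') (mn A') (sc.X K (mn A')) le_rfl hw
              (by rw [Finset.Icc_self]; exact hR.singleton _)
              (sc.win _ _ (by omega)) (by omega)).le, fun _ a ha => ?_⟩
            rw [Finset.mem_filter]
            exact ⟨Finset.mem_univ _, ha⟩
          · exact ⟨∅, by simp, fun h => absurd h hne⟩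
        have hsub : Tb ⊆ (S1 ∪ S2) ×ˢ Finset.univ := by
          intro j hj
          obtain ⟨A, hA, ⟨hG0, hbad⟩, hgood⟩ := hTb j hj
          obtain ⟨a, ν⟩ := j
          have hpos := (L ω l).kp_pos_imp hC hB (a, ν) A A' hgood.1
          -- window
          have hdw := (L ω l).deep_or_window hR sc
            (fun a => d.col (Function.update (lett ω) l a) l) (fun j => hcol ω l j) hC hB
            (d.U_pos l) K (a, ν) A A' hA hA' hgood
          have hnd : ¬ DeepAt 𝓕 sc (fun a => d.col (Function.update (lett ω) l a) l)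
              (L ω l).v (1 / e0 C B₁) (ep C B₁ * c0 B₁) K (mn A) := by
            intro h
            apply (hbd _ _ _ _).1 hbad
            rw [lett_update]
            simp only [Function.update_idem]
            have h9 : (fun q : Fin M × Fin (d.N l) =>
                d.v (Function.update (lett ω) l q.1) l q.2) = (L ω l).v := by
              funext q
              rw [hv]
            rw [h9]
            exact h
          -- a good pair at level k
          obtain ⟨A'', hA'', hpos''⟩ : ∃ A'' ∈ (sets 𝓕 d.P d.Z).filter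
              ((L (Function.update ω l (a, ν)) k).good
                (Function.update ω l (a, ν) k) A),
              0 < (L (Function.update ω l (a, ν)) k).kp
                (Function.update ω l (a, ν) k) A A'' := by
            by_contra hcon
            push Not at hcon
            exact absurd hG0 (not_lt.2 (Finset.sum_nonpos hcon))
          rw [Finset.mem_filter] at hA''
          have hcapr : (L (Function.update ω l (a, ν)) k).capr
              (Function.update ω l (a, ν) k) A (mn A'') := by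
            rcases hA''.2.2 with h | h
            · exact h.1.2
            · exact h.1.2.2
          have hcap : c0 B₁ ≤ ∑ s ∈ A, |va a s| := by
            unfold Lev.capr at hcapr
            rw [hvself] at hcapr
            have h10 : lett (Function.update ω l (a, ν)) = Function.update (lett ω) l a :=
              lett_update ω l (a, ν)
            have h11 : d.col (Function.update (lett ω) l a) k = d.col (lett ω) k := by
              refine d.hcol k _ _ fun k' hk' => ?_
              rw [Function.update_of_ne (ne_of_lt (lt_of_le_of_lt hk' hkl))]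
            rw [h10, h11, Function.update_of_ne (ne_of_lt hkl)] at hcapr
            refine hcapr.trans (Finset.sum_le_sum_of_subset_of_nonneg ?_
              fun s _ _ => abs_nonneg _)
            exact (Finset.filter_subset _ _).trans Finset.inter_subset_left
          have hcapt : ∀ u w : ℕ, u ≤ mn A → mn A ≤ w → ∃ T ∈ 𝓕, ∃ x ∈ T, u ≤ x ∧ x ≤ w ∧
              (∀ s ∈ T, x ≤ s) ∧ c0 B₁ ≤ ∑ s ∈ T, |va a s| := fun u w h1 h2 =>
            ⟨A, (mem_sets.1 hA).2, mn A, mn_mem hpos.1, h1, h2, fun s hs => mn_le hs, hcap⟩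
          rw [Finset.mem_product]
          refine ⟨?_, Finset.mem_univ _⟩
          rw [Finset.mem_union]
          rcases hdw with h | ⟨-, h1, h2, h3⟩ | ⟨-, h2, h3⟩
          · exact absurd h hnd
          · exact Or.inl (hS1 h1 a (hcapt _ _ h2 h3))
          · exact Or.inr (hS2 hpos.2.1 a (hcapt _ _ h2 h3))
        refine (Finset.card_le_card hsub).trans ?_
        rw [Finset.card_product, Finset.card_univ, Fintype.card_fin]
        refine Nat.mul_le_mul_right _ ((Finset.card_union_le _ _).trans ?_)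
        omega
    have h6 : ∑ ω : ((l : Fin r) → Fin M × Fin (d.U l)), ∑ j, F ω j ≤
        ∑ _ω : ((l : Fin r) → Fin M × Fin (d.U l)), 8 * K2 * (d.U l : ℝ) :=
      Finset.sum_le_sum fun ω _ => h2 ω
    rw [h1, Finset.sum_const, Finset.card_univ, nsmul_eq_mul, h3] at h6
    have h7 : (Fintype.card (Fin M × Fin (d.U l)) : ℝ) *
        (2 * (4 * K2 / M) * Fintype.card ((l : Fin r) → Fin M × Fin (d.U l))) =
        Fintype.card ((l : Fin r) → Fin M × Fin (d.U l)) * (8 * K2 * (d.U l : ℝ)) := by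
      rw [Fintype.card_prod, Fintype.card_fin, Fintype.card_fin]
      push_cast
      have : (M : ℝ) ≠ 0 := by positivity
      field_simp
      ring
    rw [← h7] at h6
    exact le_of_mul_le_mul_left h6 hJ

end Data

end Pool.Agent.Comb7f333f.TPart
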